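import Pool.Agent.P.MP_f57657_co.DG.Base

/-! Anticoncentration for eigenvectors of small height in small characteristic. -/

open Matrix Finset

namespace Pool.Agent.P.MP_f57657_co.DG

namespace AC0Aux

/-- The bad event for given data. -/
def Bad (p : Nat.Primes) (r : ℕ) {n : ℕ}
    (d : Matrix (Fin r) (Fin r) (ZMod p.1) × (Fin r → ZMod p.1) × AddChar (Fin r → ZMod p.1) ℂ)
    (G : Gr n) : Prop :=
  ∃ w : Fin n → Fin r → ZMod p.1, (∀ i, ∑ j, aM G i j • w j = d.1 *ᵥ w i - d.2.1) ∧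
    (∃ i, d.2.2 (w i) ≠ 1) ∧ ¬ Sprd d.2.2 w

theorem pow_half {a : ℝ} (h0 : 0 ≤ a) (h1 : a ≤ 1) {k j l : ℕ} (h : a ^ k ≤ 1 / 2)
    (hl : k * j ≤ l) : a ^ l ≤ (1 / 2) ^ j := by
  refine (pow_le_pow_of_le_one h0 h1 hl).trans ?_
  rw [pow_mul]
  exact pow_le_pow_left₀ (by positivity) h j

theorem card_G (p : Nat.Primes) (r : ℕ) : Fintype.card (Fin r → ZMod p.1) = p.1 ^ r := by
  simp [ZMod.card]

theorem core (hFI : StFI) (p : Nat.Primes) {K : Type} [Field K] [Algebra (ZMod p.1) K] {n : ℕ}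
    (G : Gr n) (y : Fin n → K) (κ τ b : K) (V : Submodule (ZMod p.1) K)
    (hV : Submodule.span (ZMod p.1) (Set.range y) = V) (hτ : τ ∈ V)
    (heq : ∀ i, ∑ j, aM G i j • y j = κ * y i - τ)
    (hG : ∀ d, ¬ Bad p (Module.finrank (ZMod p.1) V) d G) :
    pr (fun s : Bv n => ∑ i, sv 0 1 s i • y i = b) ≤
      1 / (p.1 : ℝ) ^ Module.finrank (ZMod p.1) V +
        2 * (p.1 : ℝ) ^ Module.finrank (ZMod p.1) V * (15 / 16) ^ (n / 1000) := by
  classical
  have hy : ∀ i, y i ∈ V := fun i => hV ▸ Submodule.subset_span ⟨i, rfl⟩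
  have : FiniteDimensional (ZMod p.1) V :=
    hV ▸ FiniteDimensional.span_of_finite _ (Set.finite_range y)
  have hκ : ∀ v ∈ V, LinearMap.mul (ZMod p.1) K κ v ∈ V := fun v hv => by
    rw [← hV] at hv
    induction hv using Submodule.span_induction with
    | mem x hx =>
      obtain ⟨i, rfl⟩ := hx
      have : κ * y i = ∑ j, aM G i j • y j + τ := by rw [heq]; ring
      rw [LinearMap.mul_apply', this]
      exact V.add_mem (V.sum_mem fun j _ => zsmul_mem (hy j) _) hτ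
    | zero => simp
    | add a c _ _ h1 h2 => rw [map_add]; exact V.add_mem h1 h2
    | smul a c _ h1 => rw [map_smul]; exact V.smul_mem a h1
  set r := Module.finrank (ZMod p.1) V with hr
  let e : V ≃ₗ[ZMod p.1] (Fin r → ZMod p.1) := (Module.finBasis (ZMod p.1) V).equivFun
  let φ : (Fin r → ZMod p.1) →ₗ[ZMod p.1] K := V.subtype ∘ₗ e.symm.toLinearMap
  have hφ : Function.Injective φ := V.injective_subtype.comp e.symm.injective
  have hφe : ∀ v : V, φ (e v) = v := fun v => by simp [φ]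
  let w : Fin n → Fin r → ZMod p.1 := fun i => e ⟨y i, hy i⟩
  have hw : ∀ i, φ (w i) = y i := fun i => hφe _
  let T : (Fin r → ZMod p.1) →ₗ[ZMod p.1] (Fin r → ZMod p.1) :=
    e.toLinearMap ∘ₗ (LinearMap.mul (ZMod p.1) K κ).restrict hκ ∘ₗ e.symm.toLinearMap
  have hT : ∀ x, φ (T x) = κ * φ x := fun x => hφe _
  have hc : (Fintype.card (Fin r → ZMod p.1) : ℝ) = (p.1 : ℝ) ^ r := by
    rw [card_G]; push_cast; rfl
  have key := hFI (Bv n) (Fin r → ZMod p.1) (Fin r → ZMod p.1) (fun s => ∑ i, sv 0 1 s i • w i)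
    id (fun x => φ x = b) ((15 / 16) ^ (n / 1000)) (1 / (p.1 : ℝ) ^ r) (by positivity)
    (fun ψ ⟨t, ht⟩ => sprd_exc (by
      by_contra hs
      refine hG (LinearMap.toMatrix' T, e ⟨τ, hτ⟩, ψ) ⟨w, fun i => hφ ?_, ?_, hs⟩
      · rw [LinearMap.toMatrix'_mulVec, map_sub, hT, hw, hφe, map_sum]
        simp only [map_zsmul, hw]
        exact heq i
      · by_contra h1
        push Not at h1
        have h2 : ∀ v (hv : v ∈ Submodule.span (ZMod p.1) (Set.range y)),
            ψ (e ⟨v, hV ▸ hv⟩) = 1 := fun v hv => by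
          induction hv using Submodule.span_induction with
          | mem x hx => obtain ⟨i, rfl⟩ := hx; exact h1 i
          | zero => exact (congrArg ψ (map_zero e)).trans ψ.map_zero_eq_one
          | add a c ha hc h3 h4 =>
            exact (congrArg ψ (map_add e ⟨a, hV ▸ ha⟩ ⟨c, hV ▸ hc⟩)).trans
              (by rw [AddChar.map_add_eq_mul, h3, h4, one_mul])
          | smul a c hc h3 =>
            refine (congrArg ψ (map_smul e a ⟨c, hV ▸ hc⟩)).trans ?_
            rw [← ZMod.natCast_zmod_val a, Nat.cast_smul_eq_nsmul, AddChar.map_nsmul_eq_pow, h3,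
              one_pow]
        exact ht (by simpa using h2 (e.symm t) (hV.symm ▸ (e.symm t).2))))
    (fun x => by
      rw [pr_eq_card, hc]
      refine div_le_div_of_nonneg_right ?_ (by positivity)
      rw [Nat.cast_le_one]
      refine card_le_one.2 fun a ha c hc => ?_
      rw [mem_filter] at ha hc
      exact add_left_cancel (a := x) (hφ (ha.2.trans hc.2.symm)))
  rw [hc] at key
  refine (pr_mono fun s hs => ?_).trans key
  simp only [map_sum, map_zsmul, hw]
  exact hs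

theorem good (hFI : StFI) {n t : ℕ} (ht : 1000 ≤ t) (hn : t ^ 14 ≤ n) (G : Gr n)
    (hG : ∀ p : Nat.Primes, p.1 ≤ 2 ^ (8 * t ^ 3) → ∀ r, r ≤ t → ∀ d, ¬ Bad p r d G) :
    AC0 t G := by
  intro p hp2 hp K _ _ θ z b hz _ hr
  have h2 : (2 : ZMod p.1) ≠ 0 := fun h => hp2 ((Nat.prime_dvd_prime_iff_eq p.2 Nat.prime_two).1
    ((ZMod.natCast_eq_zero_iff 2 p.1).1 (by exact_mod_cast h)))
  have h2K : (2 : K) ≠ 0 := fun h => h2 ((algebraMap (ZMod p.1) K).injective
    (by rw [map_ofNat, map_zero, h]))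
  have hs : ∀ x : K, (-2 : ZMod p.1) • x = -2 * x := fun x => by
    rw [Algebra.smul_def, map_neg, map_ofNat]
  have hV : Submodule.span (ZMod p.1) (Set.range fun i => -2 * z i) =
      Submodule.span (ZMod p.1) (Set.range z) := by
    refine le_antisymm (Submodule.span_le.2 ?_) (Submodule.span_le.2 ?_)
    · rintro _ ⟨i, rfl⟩
      have := Submodule.smul_mem _ (-2 : ZMod p.1)
        (Submodule.subset_span (R := ZMod p.1) (Set.mem_range_self (f := z) i))
      rwa [hs] at this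
    · rintro _ ⟨i, rfl⟩
      have : z i = (-2 : ZMod p.1)⁻¹ • (-2 * z i) := by
        rw [← hs, smul_smul, inv_mul_cancel₀ (neg_ne_zero.2 h2), one_smul]
      exact this ▸ Submodule.smul_mem _ _ (Submodule.subset_span ⟨i, rfl⟩)
  have key := core hFI p G (fun i => -2 * z i) (-(θ + 1) / 2) (∑ j, z j) (b - ∑ j, z j) _ hV
    (Submodule.sum_mem _ fun j _ => Submodule.subset_span ⟨j, rfl⟩) (fun i => by
      have h := mem_eg.1 hz i
      simp only [gm_eq 1 (-1) G i] at h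
      push_cast at h
      simp only [add_mul, sub_mul, sum_add_distrib, sum_sub_distrib, ite_mul, one_mul, zero_mul,
        sum_ite_eq, mem_univ, if_true] at h
      have h3 : ∑ j, aM G i j • (-2 * z j) = ∑ j, -2 * (aM G i j : K) * z j :=
        sum_congr rfl fun j _ => by rw [zsmul_eq_mul]; ring
      have h4 : -(θ + 1) / 2 * (-2 * z i) = (θ + 1) * z i := by field_simp
      rw [h3, h4]
      linear_combination h) (hG p hp _ hr)
  refine (pr_mono fun s hs => ?_).trans (key.trans ?_)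
  · rw [← hs, dt, ← sum_sub_distrib]
    refine sum_congr rfl fun i _ => ?_
    rw [sv_eq 1 (-1) s i, zsmul_eq_mul]
    push_cast
    ring
  · set r := Module.finrank (ZMod p.1) (Submodule.span (ZMod p.1) (Set.range z))
    have h3 : (p.1 : ℝ) ^ r ≤ 2 ^ (8 * t ^ 4) := by
      have : p.1 ^ r ≤ 2 ^ (8 * t ^ 4) :=
        (Nat.pow_le_pow_left hp r).trans (by
          rw [← pow_mul]
          exact Nat.pow_le_pow_right two_pos (by
            calc 8 * t ^ 3 * r ≤ 8 * t ^ 3 * t := Nat.mul_le_mul_left _ hr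
              _ = _ := by ring))
      exact_mod_cast this
    have h4 : (15 / 16 : ℝ) ^ (n / 1000) ≤ (1 / 2) ^ (8 * t ^ 4 + 1 + t ^ 3) :=
      pow_half (k := 11) (by norm_num) (by norm_num) (by norm_num) (by
        rw [Nat.le_div_iff_mul_le (by norm_num)]
        have a1 : t ^ 3 ≤ t ^ 4 := Nat.pow_le_pow_right (by omega) (by norm_num)
        have a2 : 1 ≤ t ^ 4 := Nat.one_le_pow _ _ (by omega)
        have a3 : 1000 ^ 10 * t ^ 4 ≤ t ^ 14 :=
          (Nat.mul_le_mul_right _ (Nat.pow_le_pow_left ht 10)).trans_eq (by ring)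
        omega)
    have h5 : 2 * (p.1 : ℝ) ^ r * (15 / 16) ^ (n / 1000) ≤
        2 * 2 ^ (8 * t ^ 4) * (1 / 2) ^ (8 * t ^ 4 + 1 + t ^ 3) := by gcongr
    have h6 : (2 : ℝ) * 2 ^ (8 * t ^ 4) * (1 / 2) ^ (8 * t ^ 4 + 1 + t ^ 3) = (1 / 2) ^ t ^ 3 := by
      rw [pow_add, pow_add, one_div_pow (2 : ℝ) (8 * t ^ 4)]
      field_simp
    linarith

end AC0Aux

open AC0Aux

theorem pAC0 (hSP : StSP) (hFI : StFI) : StAC0 := by
  classical
  obtain ⟨N, hN⟩ := hSP
  refine ⟨max N 1000, fun n t ht hn => ?_⟩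
  have t1 : 1000 ≤ t := (le_max_right _ _).trans ht
  have t2 : N ≤ 8 * t ^ 4 := ((le_max_left _ _).trans ht).trans
    ((Nat.le_self_pow (by norm_num) t).trans (Nat.le_mul_of_pos_left _ (by norm_num)))
  have t3 : (8 * t ^ 4) ^ 3 ≤ n := by
    have a3 : 1000 ^ 2 * t ^ 12 ≤ t ^ 14 :=
      (Nat.mul_le_mul_right _ (Nat.pow_le_pow_left t1 2)).trans_eq (by ring)
    have a4 : (8 * t ^ 4) ^ 3 = 512 * t ^ 12 := by ring
    omega
  have h1 : ∀ p : Nat.Primes, p.1 ≤ 2 ^ (8 * t ^ 3) → ∀ r, r ≤ t →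
      pr (fun G : Gr n => ∃ d, Bad p r d G) ≤ 2 ^ (24 * t ^ 5) * (999 / 1000) ^ n := by
    intro p hp r hr
    have hq : p.1 ^ r ≤ 2 ^ (8 * t ^ 4) :=
      (Nat.pow_le_pow_left hp r).trans (by
        rw [← pow_mul]
        exact Nat.pow_le_pow_right two_pos (by
          calc 8 * t ^ 3 * r ≤ 8 * t ^ 3 * t := Nat.mul_le_mul_left _ hr
            _ = _ := by ring))
    refine (pr_le_card_mul univ (fun d G => Bad p r d G) (fun G ⟨d, hd⟩ => ⟨d, mem_univ _, hd⟩)
      fun d _ => hN _ n _ (fun _ x => d.1 *ᵥ x - d.2.1) d.2.2 t2 t3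
        ((card_G p r).trans_le hq)).trans (mul_le_mul_of_nonneg_right ?_ (by positivity))
    have hm : Fintype.card (Matrix (Fin r) (Fin r) (ZMod p.1)) = (p.1 ^ r) ^ r := by
      have := Fintype.card_fun (α := Fin r) (β := Fin r → ZMod p.1)
      rw [card_G, Fintype.card_fin] at this
      exact (Fintype.card_congr Matrix.of.symm).trans this
    rw [card_univ, Fintype.card_prod, Fintype.card_prod, AddChar.card_eq, card_G, hm]
    have : (p.1 ^ r) ^ r * (p.1 ^ r * p.1 ^ r) ≤ 2 ^ (24 * t ^ 5) := by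
      rw [← pow_two, ← pow_add]
      refine (Nat.pow_le_pow_left hq _).trans ?_
      rw [← pow_mul]
      refine Nat.pow_le_pow_right two_pos ?_
      calc 8 * t ^ 4 * (r + 2) ≤ 8 * t ^ 4 * (3 * t) := Nat.mul_le_mul_left _ (by omega)
        _ = _ := by ring
    exact_mod_cast this
  let P : Finset Nat.Primes := (range (2 ^ (8 * t ^ 3) + 1)).subtype Nat.Prime
  have hP : ∀ p : Nat.Primes, p ∈ P ↔ p.1 ≤ 2 ^ (8 * t ^ 3) := fun p =>
    mem_subtype.trans (mem_range.trans Nat.lt_succ_iff)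
  have h2 := pr_le_card_mul (E := fun G : Gr n => ¬ AC0 t G) (P ×ˢ range (t + 1))
    (fun x G => ∃ d, Bad x.1 x.2 d G) (fun G hG => by
      by_contra hc
      push Not at hc
      exact hG (good hFI t1 hn G fun p hp r hr =>
        hc (p, r) (mem_product.2 ⟨(hP p).2 hp, mem_range.2 (Nat.lt_succ_of_le hr)⟩)))
    fun x hx => h1 x.1 ((hP _).1 (mem_product.1 hx).1) x.2
      (Nat.le_of_lt_succ (mem_range.1 (mem_product.1 hx).2))
  have h3 : ((P ×ˢ range (t + 1)).card : ℝ) ≤ 2 ^ (10 * t ^ 5) := by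
    have a0 : P.card ≤ 2 ^ (8 * t ^ 3) + 1 := by
      refine (card_subtype _ _).trans_le ((card_filter_le _ _).trans_eq (card_range _))
    have a1 : t + 1 ≤ 2 ^ t := Nat.lt_two_pow_self
    have a2 : 2 ^ (8 * t ^ 3) + 1 ≤ 2 ^ (8 * t ^ 3 + 1) := by
      have := Nat.one_le_two_pow (n := 8 * t ^ 3)
      rw [pow_succ 2]; omega
    have a3 : t ^ 3 ≤ t ^ 5 := Nat.pow_le_pow_right (by omega) (by norm_num)
    have a4 : t ≤ t ^ 5 := Nat.le_self_pow (by norm_num) t
    have : (P ×ˢ range (t + 1)).card ≤ 2 ^ (10 * t ^ 5) := by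
      rw [card_product, card_range]
      refine (Nat.mul_le_mul (a0.trans a2) a1).trans ?_
      rw [← pow_add]
      exact Nat.pow_le_pow_right two_pos (by omega)
    exact_mod_cast this
  have h4 : (999 / 1000 : ℝ) ^ n ≤ (1 / 2) ^ (10 * t ^ 5 + 24 * t ^ 5 + t ^ 2) :=
    pow_half (k := 1000) (by norm_num) (by norm_num) (by
      have := one_add_mul_le_pow (a := (1 / 999 : ℝ)) (by norm_num) 1000
      rw [show (999 / 1000 : ℝ) = (1 + 1 / 999)⁻¹ by norm_num, inv_pow, one_div (2 : ℝ)]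
      exact inv_anti₀ two_pos (le_trans (by norm_num) this)) (by
      have a1 : t ^ 2 ≤ t ^ 5 := Nat.pow_le_pow_right (by omega) (by norm_num)
      have a3 : 1000 ^ 9 * t ^ 5 ≤ t ^ 14 :=
        (Nat.mul_le_mul_right _ (Nat.pow_le_pow_left t1 9)).trans_eq (by ring)
      omega)
  calc _ ≤ _ := h2
    _ ≤ (2 : ℝ) ^ (10 * t ^ 5) * (2 ^ (24 * t ^ 5) *
        (1 / 2) ^ (10 * t ^ 5 + 24 * t ^ 5 + t ^ 2)) := by gcongr
    _ = _ := by
      rw [pow_add, pow_add, one_div_pow (2 : ℝ) (10 * t ^ 5), one_div_pow (2 : ℝ) (24 * t ^ 5)]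
      field_simp

end Pool.Agent.P.MP_f57657_co.DG
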