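import Pool.Agent.P.MP_f57657_co.DG.Base

/-! Transfer of anticoncentration from small characteristic to every field. -/

open Matrix Finset Polynomial

namespace Pool.Agent.P.MP_f57657_co.DG

namespace ACTAux

/-- No relation with coefficients `0, 1, -1` among the coordinates in `I`. -/
def Dis {K : Type} [Field K] {n : ℕ} (z : Fin n → K) (I : Finset (Fin n)) : Prop :=
  ∀ ε : Fin n → ℤ, (∀ i, |ε i| ≤ 1) → (∀ i, i ∉ I → ε i = 0) → dt ε z = 0 → ∀ i, ε i = 0

theorem pr_dis {K : Type} [Field K] (h2 : (2 : K) ≠ 0) {n : ℕ} {z : Fin n → K}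
    {I : Finset (Fin n)} (h : Dis z I) (b : K) :
    pr (fun s : Bv n => dt (sv 1 (-1) s) z = b) ≤ (1 / 2) ^ I.card := by
  classical
  have h1 : (univ.filter fun s : Bv n => dt (sv 1 (-1) s) z = b).card ≤
      (univ : Finset ((Iᶜ : Finset (Fin n)) → Bool)).card := by
    refine card_le_card_of_injOn (fun s i => s i.1) (fun _ _ => mem_univ _) fun s hs s' hs' e => ?_
    have a1 := (mem_filter.1 hs).2
    have a2 := (mem_filter.1 hs').2
    have a3 := h (fun i => sv 0 1 s i - sv 0 1 s' i) (fun i => by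
      simp only [sv]
      split_ifs <;> simp) (fun i hi => by
      have : s i = s' i := congrFun e ⟨i, mem_compl.2 hi⟩
      simp only [sv, this, sub_self]) (by
      refine (mul_eq_zero.1 (?_ : 2 * _ = (0 : K))).resolve_left h2
      rw [← sub_eq_zero.2 (a2.trans a1.symm)]
      simp only [dt, mul_sum, ← sum_sub_distrib]
      refine sum_congr rfl fun i _ => ?_
      rw [sv_eq 1 (-1) s, sv_eq 1 (-1) s']
      push_cast
      ring)
    funext i
    have a4 := a3 i
    simp only [sv] at a4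
    cases h1 : s i <;> cases h2 : s' i <;> simp_all
  rw [card_univ, Fintype.card_fun, Fintype.card_bool, Fintype.card_coe, card_compl,
    Fintype.card_fin] at h1
  have h3 : I.card ≤ n := by simpa using card_le_univ I
  rw [pr_eq_card, Fintype.card_fun, Fintype.card_bool, Fintype.card_fin,
    div_le_iff₀ (by positivity)]
  have h4 : (1 / 2 : ℝ) ^ I.card * ((2 ^ n : ℕ) : ℝ) = ((2 ^ (n - I.card) : ℕ) : ℝ) := by
    push_cast
    rw [pow_sub₀ _ two_ne_zero h3, one_div, inv_pow, mul_comm]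
  rw [h4]
  refine Nat.cast_le.2 (le_trans (le_of_eq ?_) h1)
  exact congrArg card (filter_congr_decidable _ _ _)

theorem exists_dis {K : Type} [Field K] {n : ℕ} (z : Fin n → K) :
    ∃ (I : Finset (Fin n)) (E : Matrix (Fin n) I ℤ), Dis z I ∧ (∀ i j, |E i j| ≤ 1) ∧
      (∀ j j' : I, E j.1 j' = if j = j' then 1 else 0) ∧
      ∀ i, z i = ∑ j : I, (E i j : K) * z j.1 := by
  classical
  obtain ⟨I, hI, hmax⟩ := exists_max_image (univ.filter fun I => Dis z I) card
    ⟨∅, mem_filter.2 ⟨mem_univ _, fun ε _ h _ i => h i (notMem_empty i)⟩⟩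
  replace hI := (mem_filter.1 hI).2
  have key : ∀ i, ∃ v : I → ℤ, (∀ j, |v j| ≤ 1) ∧
      (∀ j : I, j.1 = i → ∀ j', v j' = if j = j' then 1 else 0) ∧
      z i = ∑ j : I, (v j : K) * z j.1 := by
    intro i
    by_cases hi : i ∈ I
    · refine ⟨fun j' => if (⟨i, hi⟩ : I) = j' then 1 else 0, fun j => ?_, fun j hj j' => ?_, ?_⟩
      · dsimp only
        split_ifs <;> simp
      · subst hj
        rfl
      · simp
    have h1 : ¬ Dis z (insert i I) := fun h => by
      have := hmax _ (mem_filter.2 ⟨mem_univ _, h⟩)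
      rw [card_insert_of_notMem hi] at this
      omega
    simp only [Dis, not_forall] at h1
    obtain ⟨ε, e1, e2, e3, i0, e4⟩ := h1
    have h2 : ε i ≠ 0 := fun h => e4 (hI ε e1 (fun j hj => by
      by_cases e : j = i
      · rw [e, h]
      · exact e2 j (by simp [e, hj])) e3 i0)
    have h3 : ε i * ε i = 1 := by
      have := abs_le.1 (e1 i)
      have : ε i = 1 ∨ ε i = -1 := by omega
      rcases this with h | h <;> rw [h] <;> norm_num
    have h4 : (ε i : K) * z i + ∑ j : I, (ε j.1 : K) * z j.1 = 0 := by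
      rw [sum_coe_sort I fun j => (ε j : K) * z j, ← sum_insert (f := fun j => (ε j : K) * z j) hi,
        ← e3, dt]
      exact sum_subset (subset_univ _) fun j _ hj => by rw [e2 j hj]; simp
    refine ⟨fun j => -(ε i * ε j.1), fun j => ?_, fun j hj => absurd (hj ▸ j.2) hi, ?_⟩
    · rw [abs_neg, abs_mul]
      exact mul_le_one₀ (e1 i) (abs_nonneg _) (e1 j)
    · have h5 : (ε i : K) * ε i = 1 := by exact_mod_cast congrArg (Int.cast : ℤ → K) h3
      have h6 : ∑ j : I, ((-(ε i * ε j.1) : ℤ) : K) * z j.1 =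
          -(ε i : K) * ∑ j : I, (ε j.1 : K) * z j.1 := by
        rw [mul_sum]
        exact sum_congr rfl fun j _ => by push_cast; ring
      rw [h6]
      linear_combination (ε i : K) * h4 - z i * h5
  choose E h1 h2 h3 using key
  exact ⟨I, Matrix.of E, hI, h1, fun j j' => h2 j.1 j rfl j', h3⟩

theorem rank_le {K F ι : Type} [Field K] [Field F] [Algebra F K] [Fintype ι] {n : ℕ}
    (E : Matrix (Fin n) ι ℤ) (g : ι → K) (z : Fin n → K) (h : ∀ i, z i = ∑ j, (E i j : K) * g j) :
    Module.finrank F (Submodule.span F (Set.range z)) ≤ Fintype.card ι := by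
  have : Module.Finite F (Submodule.span F (Set.range g)) :=
    Module.Finite.span_of_finite F (Set.finite_range g)
  refine (Submodule.finrank_mono (Submodule.span_le.2 ?_)).trans (finrank_range_le_card g)
  rintro _ ⟨i, rfl⟩
  rw [h i]
  refine Submodule.sum_mem _ fun j _ => ?_
  rw [← zsmul_eq_mul]
  exact zsmul_mem (Submodule.subset_span (Set.mem_range_self j)) _

theorem big_le {K : Type} [Field K] {p : ℕ} [Fact p.Prime] [Algebra (ZMod p) K] {n : ℕ}
    {M : Matrix (Fin n) (Fin n) ℤ} {θ : K} {z : Fin n → K} {Q : ℕ} (hz : z ∈ eg K M θ)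
    (h0 : z ≠ 0) (hQ : Big θ Q) :
    Q ≤ p ^ Module.finrank (ZMod p) (Submodule.span (ZMod p) (Set.range z)) := by
  have : Module.Finite (ZMod p) (Submodule.span (ZMod p) (Set.range z)) :=
    Module.Finite.span_of_finite _ (Set.finite_range z)
  have h1 := Module.natCard_eq_pow_finrank (K := ZMod p)
    (V := Submodule.span (ZMod p) (Set.range z))
  rw [Nat.card_zmod] at h1
  rw [← h1]
  refine hQ (Submodule.span (ZMod p) (Set.range z)).toAddSubgroup (fun e => h0 ?_)
    (fun a ha => ?_) (Module.finite_of_finite (ZMod p))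
  · funext i
    have : z i ∈ (Submodule.span (ZMod p) (Set.range z)).toAddSubgroup :=
      Submodule.subset_span ⟨i, rfl⟩
    rw [e] at this
    exact this
  · change θ * a ∈ Submodule.span (ZMod p) (Set.range z)
    induction ha using Submodule.span_induction with
    | mem x hx =>
      obtain ⟨i, rfl⟩ := hx
      rw [← mem_eg.1 hz i]
      refine Submodule.sum_mem _ fun j _ => ?_
      rw [← zsmul_eq_mul]
      exact zsmul_mem (Submodule.subset_span (Set.mem_range_self j)) _
    | zero => simp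
    | add x y _ _ hx hy =>
      rw [mul_add]
      exact Submodule.add_mem _ hx hy
    | smul c x _ hx =>
      rw [mul_smul_comm]
      exact Submodule.smul_mem _ c hx

theorem mul_bd {α β γ : Type} [Fintype β] {A : Matrix α β ℤ} {B : Matrix β γ ℤ} {x y : ℤ}
    (hA : ∀ i j, |A i j| ≤ x) (hB : ∀ i j, |B i j| ≤ y) (i : α) (j : γ) :
    |(A * B) i j| ≤ Fintype.card β * (x * y) := by
  rw [mul_apply]
  refine (abs_sum_le_sum_abs _ _).trans ((sum_le_card_nsmul _ _ (x * y) fun l _ => ?_).trans ?_)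
  · rw [abs_mul]
    exact mul_le_mul (hA i l) (hB l j) (abs_nonneg _) ((abs_nonneg _).trans (hA i l))
  · simp

variable {ι : Type} [Fintype ι] [DecidableEq ι] {n : ℕ}

/-- The observability matrix. -/
def obs (R : Matrix (Fin n) ι ℤ) (C : Matrix ι ι ℤ) : Matrix ι ι ℤ :=
  ∑ k ∈ range (Fintype.card ι), (R * C ^ k)ᵀ * (R * C ^ k)

theorem det_bd {t : ℕ} (hr : Fintype.card ι < t) (hn : n ≤ 2 ^ t) {R : Matrix (Fin n) ι ℤ}
    {C : Matrix ι ι ℤ} (hR : ∀ i j, |R i j| ≤ 2 ^ (2 * t)) (hC : ∀ i j, |C i j| ≤ 2 ^ t) :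
    |(obs R C).det| ≤ 2 ^ (8 * t ^ 3) := by
  have h1 : (Fintype.card ι : ℤ) ≤ 2 ^ t := by
    exact_mod_cast (hr.trans Nat.lt_two_pow_self).le
  have hn' : (Fintype.card (Fin n) : ℤ) ≤ 2 ^ t := by
    rw [Fintype.card_fin]
    exact_mod_cast hn
  have h2 : ∀ k i j, |(R * C ^ k) i j| ≤ 2 ^ (2 * t * (k + 1)) := by
    intro k
    induction k with
    | zero => simpa using hR
    | succ k ih =>
      intro i j
      rw [pow_succ, ← Matrix.mul_assoc]
      refine (mul_bd ih hC i j).trans ((mul_le_mul_of_nonneg_right h1 (by positivity)).trans ?_)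
      exact le_of_eq (by ring)
  have h3 : ∀ i j, |obs R C i j| ≤ 2 ^ (2 * t * (2 * t + 1)) := by
    intro i j
    rw [obs, Matrix.sum_apply]
    refine (abs_sum_le_sum_abs _ _).trans ((sum_le_card_nsmul _ _
      (2 ^ t * (2 ^ (2 * t * t) * 2 ^ (2 * t * t))) fun k hk => ?_).trans ?_)
    · have a1 : ∀ i j, |(R * C ^ k) i j| ≤ 2 ^ (2 * t * t) := fun i j => (h2 k i j).trans
        (pow_le_pow_right₀ one_le_two (Nat.mul_le_mul_left _ (by
          have := mem_range.1 hk
          omega)))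
      exact (mul_bd (A := (R * C ^ k)ᵀ) (fun i j => a1 j i) a1 i j).trans
        (mul_le_mul_of_nonneg_right hn' (by positivity))
    · rw [card_range, nsmul_eq_mul]
      exact (mul_le_mul_of_nonneg_right h1 (by positivity)).trans (le_of_eq (by ring))
  have h4 := Matrix.det_le (abv := AbsoluteValue.abs) h3
  rw [AbsoluteValue.abs_apply, nsmul_eq_mul] at h4
  have h5 : ((Fintype.card ι).factorial : ℤ) ≤ (2 ^ t) ^ Fintype.card ι := by
    refine le_trans ?_ (pow_le_pow_left₀ (Nat.cast_nonneg _) h1 _)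
    exact_mod_cast Nat.factorial_le_pow _
  refine h4.trans ((mul_le_mul_of_nonneg_right h5 (by positivity)).trans ?_)
  rw [← mul_pow, ← pow_add, ← pow_mul]
  refine pow_le_pow_right₀ one_le_two ((Nat.mul_le_mul_left _ hr.le).trans ?_)
  have : 1 ≤ t := by omega
  nlinarith [Nat.mul_le_mul_left (t * t) this]

theorem exists_prim {R : Matrix (Fin n) ι ℤ} {C : Matrix ι ι ℤ} (h : (obs R C).det = 0) :
    ∃ y : ι → ℤ, (∀ p : ℕ, p.Prime → ∃ j, ¬ (p : ℤ) ∣ y j) ∧ ∀ k, (R * C ^ k) *ᵥ y = 0 := by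
  obtain ⟨y, y0, hy⟩ := exists_mulVec_eq_zero_iff.2 h
  have h1 : ∀ k ∈ range (Fintype.card ι), (R * C ^ k) *ᵥ y = 0 := by
    have a1 : ∑ k ∈ range (Fintype.card ι), ((R * C ^ k) *ᵥ y) ⬝ᵥ ((R * C ^ k) *ᵥ y) = 0 := by
      have := congrArg (fun v => y ⬝ᵥ v) hy
      simp only [obs, sum_mulVec, dotProduct_sum, dotProduct_zero] at this
      rw [← this]
      refine sum_congr rfl fun k _ => ?_
      rw [← mulVec_mulVec y (R * C ^ k)ᵀ, dotProduct_mulVec y, vecMul_transpose]
    intro k hk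
    exact dotProduct_self_eq_zero.1 ((sum_eq_zero_iff_of_nonneg fun k _ =>
      sum_nonneg fun i _ => mul_self_nonneg _).1 a1 k hk)
  obtain ⟨j0, -⟩ := Function.ne_iff.1 y0
  have h2 : ∀ k, (R * C ^ k) *ᵥ y = 0 := by
    intro k
    have : Nonempty ι := ⟨j0⟩
    have a1 : (X ^ k %ₘ C.charpoly).natDegree < Fintype.card ι := by
      rw [← charpoly_natDegree_eq_dim C]
      refine natDegree_modByMonic_lt _ C.charpoly_monic fun e => ?_
      have := charpoly_natDegree_eq_dim C
      rw [e, natDegree_one] at this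
      exact Fintype.card_ne_zero this.symm
    rw [pow_eq_aeval_mod_charpoly, aeval_eq_sum_range' a1, Matrix.mul_sum, sum_mulVec]
    refine sum_eq_zero fun l hl => ?_
    rw [Matrix.mul_smul, smul_mulVec, h1 l hl, smul_zero]
  obtain ⟨v, hv, hg⟩ := extract_gcd y (s := univ) ⟨j0, mem_univ _⟩
  have h3 : y = univ.gcd y • v := funext fun j => hv j (mem_univ j)
  have h4 : univ.gcd y ≠ 0 := fun e => y0 (by rw [h3, e, zero_smul])
  refine ⟨v, fun p hp => ?_, fun k => ?_⟩
  · by_contra hh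
    push Not at hh
    have a1 : (p : ℤ) ∣ 1 := hg ▸ Finset.dvd_gcd fun j _ => hh j
    exact hp.one_lt.ne' (Nat.dvd_one.1 (by exact_mod_cast a1))
  · have a1 := h2 k
    rw [h3, mulVec_smul] at a1
    exact (smul_eq_zero.1 a1).resolve_left h4

theorem exists_eig {F : Type} [Field F] [IsAlgClosed F] (R : Matrix (Fin n) ι F)
    (B : Matrix ι ι F) (g : ι → F) (hg : g ≠ 0) (h : ∀ k, (R * B ^ k) *ᵥ g = 0) :
    ∃ (θ : F) (f : ι → F), f ≠ 0 ∧ R *ᵥ f = 0 ∧ B *ᵥ f = θ • f := by
  let U : Submodule F (ι → F) :=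
    { carrier := {f | ∀ k, (R * B ^ k) *ᵥ f = 0}
      add_mem' := fun ha hb k => by rw [mulVec_add, ha, hb, add_zero]
      zero_mem' := fun k => by simp
      smul_mem' := fun c f hf k => by rw [mulVec_smul, hf, smul_zero] }
  have hU : ∀ f ∈ U, toLin' B f ∈ U := fun f hf k => by
    rw [toLin'_apply, mulVec_mulVec, Matrix.mul_assoc, ← pow_succ]
    exact hf _
  have : Nontrivial U := ⟨⟨⟨g, h⟩, 0, fun e => hg (congrArg Subtype.val e)⟩⟩
  obtain ⟨θ, hθ⟩ := Module.End.exists_eigenvalue ((toLin' B).restrict hU)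
  obtain ⟨f, hf⟩ := hθ.exists_hasEigenvector
  exact ⟨θ, f, fun e => hf.2 (Subtype.ext e), by simpa using f.2 0,
    congrArg Subtype.val hf.apply_eq_smul⟩

theorem cast_mv {K α β : Type} [Field K] [Fintype β] (A : Matrix α β ℤ) (y : β → ℤ) :
    A.map (Int.castRingHom K) *ᵥ (fun j => (y j : K)) = fun i => (((A *ᵥ y) i : ℤ) : K) := by
  funext i
  simp [mulVec, dotProduct]

theorem sM_bd (G : Gr n) (i j : Fin n) : |sM G i j| ≤ 1 := by
  simp only [gm, of_apply]
  split_ifs <;> simp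

/-- No eigenvector of small height exists modulo a prime of medium size. -/
theorem no_small {t : ℕ} (ht : 3 ≤ t) (hr : Fintype.card ι < t) (hn : n ≤ 2 ^ t) {G : Gr n}
    (hG : AC0 t G) {E : Matrix (Fin n) ι ℤ} (hE : ∀ i j, |E i j| ≤ 1) (e : ι → Fin n)
    (he : ∀ j j', E (e j) j' = if j = j' then 1 else 0) {C : Matrix ι ι ℤ}
    (h : (obs (sM G * E - E * C) C).det = 0) : False := by
  obtain ⟨y, hy, hk⟩ := exists_prim h
  obtain ⟨p, hp, p1, p2⟩ := Nat.exists_prime_lt_and_le_two_mul (4 * 2 ^ ((t + 2) * t))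
    (by positivity)
  have p0 : 1 ≤ 2 ^ ((t + 2) * t) := Nat.one_le_two_pow
  have t1 : (t + 2) * t + 3 ≤ t ^ 3 := by nlinarith [Nat.mul_le_mul_left (t * t) ht]
  obtain ⟨j0, hj0⟩ := hy p hp
  obtain ⟨P, rfl⟩ : ∃ P : Nat.Primes, P.1 = p := ⟨⟨p, hp⟩, rfl⟩
  obtain ⟨θ, f, f0, f1, f2⟩ := exists_eig ((sM G * E - E * C).map (Int.castRingHom (FF P)))
    (C.map (Int.castRingHom (FF P))) (fun j => (y j : FF P))
    (fun e => hj0 ((CharP.intCast_eq_zero_iff (FF P) P.1 _).1 (congrFun e j0))) fun k => by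
      rw [← Matrix.map_pow, ← Matrix.map_mul, cast_mv, hk]
      funext i
      simp
  set z : Fin n → FF P := E.map (Int.castRingHom (FF P)) *ᵥ f with hz
  have z1 : z ∈ eg (FF P) (sM G) θ := by
    rw [Matrix.map_sub _ (map_sub _), Matrix.map_mul, Matrix.map_mul, sub_mulVec, sub_eq_zero,
      ← mulVec_mulVec, ← mulVec_mulVec, f2, mulVec_smul] at f1
    exact mem_eg'.2 f1
  have z2 : ∀ i, z i = ∑ j, (E i j : FF P) * f j := fun i => rfl
  have z0 : z ≠ 0 := fun h0 => f0 (funext fun j => by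
    have := congrFun h0 (e j)
    rw [z2] at this
    simpa [he] using this)
  have r1 := rank_le (F := ZMod P.1) E f z z2
  have r2 : 1 ≤ Module.finrank (ZMod P.1) (Submodule.span (ZMod P.1) (Set.range z)) := by
    have : Module.Finite (ZMod P.1) (Submodule.span (ZMod P.1) (Set.range z)) :=
      Module.Finite.span_of_finite _ (Set.finite_range z)
    rw [Nat.one_le_iff_ne_zero, ne_eq, Submodule.finrank_eq_zero, Submodule.span_eq_bot]
    exact fun h0 => z0 (funext fun i => h0 _ ⟨i, rfl⟩)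
  have hb : ∀ b, pr (fun s : Bv n => dt (sv 1 (-1) s) z = b) ≤
      1 / (2 * (2 : ℝ) ^ ((t + 2) * t)) * (3 / 4) := by
    intro b
    refine (hG P (by omega) (by
      refine p2.trans (le_trans (le_of_eq (by ring : _ = 2 ^ ((t + 2) * t + 3))) ?_)
      exact Nat.pow_le_pow_right (by omega) (by omega)) _ θ z b z1 z0 (r1.trans hr.le)).trans ?_
    have a1 : (4 * 2 ^ ((t + 2) * t) : ℝ) ≤ (P.1 : ℝ) ^
        Module.finrank (ZMod P.1) (Submodule.span (ZMod P.1) (Set.range z)) := by
      exact_mod_cast p1.le.trans (Nat.le_self_pow (by omega) P.1)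
    have a2 := one_div_le_one_div_of_le (by positivity) a1
    have a3 : (1 / 2 : ℝ) ^ t ^ 3 ≤ (1 / 2) ^ ((t + 2) * t + 3) :=
      pow_le_pow_of_le_one (by norm_num) (by norm_num) t1
    refine (add_le_add a2 a3).trans (le_of_eq ?_)
    rw [pow_add, _root_.one_div_pow]
    field_simp
    norm_num
  have h1 := pr_le_card_mul (E := fun _ : Bv n => True)
    (Fintype.piFinset fun _ : ι => Icc (-(n : ℤ)) n)
    (fun c s => dt (sv 1 (-1) s) z = ∑ j, (c j : FF P) * f j) (fun s _ => by
      refine ⟨fun j => ∑ i, sv 1 (-1) s i * E i j, Fintype.mem_piFinset.2 fun j => ?_, ?_⟩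
      · have := mul_bd (A := Matrix.of fun (_ : Unit) i => sv 1 (-1) s i) (x := 1) (fun _ i => by
          simp only [of_apply, sv]
          split_ifs <;> simp) hE () j
        rw [Fintype.card_fin, mul_one, mul_one] at this
        exact mem_Icc.2 (abs_le.1 this)
      · simp only [dt, z2, mul_sum, Int.cast_sum, Int.cast_mul, sum_mul, mul_assoc]
        exact sum_comm) fun c _ => hb _
  rw [pr_true fun _ => trivial, Fintype.card_piFinset, prod_const, card_univ, Int.card_Icc] at h1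
  have h2 : ((n : ℤ) + 1 - -(n : ℤ)).toNat ^ Fintype.card ι ≤ 2 ^ ((t + 2) * t) := by
    rw [pow_mul]
    refine (Nat.pow_le_pow_left (?_ : _ ≤ 2 ^ (t + 2)) _).trans
      (Nat.pow_le_pow_right (by positivity) hr.le)
    have : 1 ≤ 2 ^ t := Nat.one_le_two_pow
    rw [pow_add]
    omega
  have h3 : ((((n : ℤ) + 1 - -(n : ℤ)).toNat ^ Fintype.card ι : ℕ) : ℝ) ≤ 2 ^ ((t + 2) * t) := by
    exact_mod_cast h2
  have h4 := h1.trans (mul_le_mul_of_nonneg_right h3 (by positivity))
  rw [show (2 : ℝ) ^ ((t + 2) * t) * (1 / (2 * 2 ^ ((t + 2) * t)) * (3 / 4)) = 3 / 8 by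
    field_simp; norm_num] at h4
  norm_num at h4

end ACTAux

open ACTAux

theorem pACT : StACT := by
  refine ⟨3, fun n t G ht hn hG K _ h2 θ z b Q hz z0 q1 q2 hQ => ?_⟩
  obtain ⟨I, E, hI, e1, e2, e3⟩ := exists_dis z
  have hq : (0 : ℝ) < Q := by exact_mod_cast q1
  have hq2 : (1 / 2 : ℝ) ^ t ≤ 1 / Q := by
    rw [_root_.one_div_pow]
    exact one_div_le_one_div_of_le hq (by exact_mod_cast q2)
  have hq3 : (2 : ℝ) / Q = 1 / Q + 1 / Q := by ring
  rcases le_or_gt t I.card with hr | hr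
  · have := (pr_dis h2 hI b).trans (pow_le_pow_of_le_one (by norm_num) (by norm_num) hr)
    have h0 : (0 : ℝ) ≤ 1 / Q := by positivity
    linarith
  rw [← Fintype.card_coe] at hr
  by_cases hp : ringChar K ≠ 0 ∧ ringChar K ≤ 2 ^ (8 * t ^ 3)
  · have hp1 : (ringChar K).Prime := (CharP.char_is_prime_or_zero K _).resolve_right hp.1
    have := Fact.mk hp1
    let _ : Algebra (ZMod (ringChar K)) K := ZMod.algebra K _
    have h1 := hG ⟨ringChar K, hp1⟩ (fun e => h2 (by
      have := ringChar.Nat.cast_ringChar (R := K)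
      rw [show ringChar K = 2 from e] at this
      exact_mod_cast this)) hp.2 K θ z b hz z0
      ((rank_le (F := ZMod (ringChar K)) E (fun j => z j.1) z e3).trans hr.le)
    have h3 := big_le (p := ringChar K) hz z0 hQ
    rw [hq3]
    refine h1.trans (add_le_add (one_div_le_one_div_of_le hq (by exact_mod_cast h3))
      (le_trans (pow_le_pow_of_le_one (by norm_num) (by norm_num) ?_) hq2))
    exact Nat.le_self_pow (by omega) t
  exfalso
  let C : Matrix I I ℤ := (sM G * E).submatrix Subtype.val id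
  have hn' : (n : ℤ) ≤ 2 ^ t := by exact_mod_cast hn
  have s1 : ∀ i j, |(sM G * E) i j| ≤ 2 ^ t := fun i j => by
    have := mul_bd (sM_bd G) e1 i j
    rw [Fintype.card_fin, mul_one, mul_one] at this
    exact this.trans hn'
  have s2 : ∀ i j, |(sM G * E - E * C) i j| ≤ 2 ^ (2 * t) := fun i j => by
    have a1 := mul_bd (B := C) e1 (fun i j => s1 i.1 j) i j
    have a2 : (Fintype.card I : ℤ) + 1 ≤ 2 ^ t := by
      exact_mod_cast hr.trans Nat.lt_two_pow_self
    rw [Matrix.sub_apply, two_mul, pow_add]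
    refine (abs_sub _ _).trans ((add_le_add (s1 i j) a1).trans ?_)
    nlinarith [mul_le_mul_of_nonneg_right a2 (show (0 : ℤ) ≤ 2 ^ t by positivity)]
  have hd := det_bd hr hn s2 fun i j => s1 i.1 j
  refine no_small ht hr hn hG e1 Subtype.val e2 (C := C) ?_
  let g : I → K := fun j => z j.1
  have g0 : g ≠ 0 := fun e => z0 (funext fun i => by
    rw [e3 i]
    exact sum_eq_zero fun j _ => by rw [show z j.1 = 0 from congrFun e j, mul_zero])
  have g1 : E.map (Int.castRingHom K) *ᵥ g = z := (funext e3).symm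
  have g2 : (sM G * E).map (Int.castRingHom K) *ᵥ g = θ • z := by
    rw [Matrix.map_mul, ← mulVec_mulVec, g1]
    exact mem_eg'.1 hz
  have g3 : C.map (Int.castRingHom K) *ᵥ g = θ • g := funext fun j => congrFun g2 j.1
  have g4 : ∀ k, (C.map (Int.castRingHom K)) ^ k *ᵥ g = θ ^ k • g := fun k => by
    induction k with
    | zero => simp
    | succ k ih => rw [pow_succ', ← mulVec_mulVec, ih, mulVec_smul, g3, smul_smul, pow_succ]
  have g5 : (sM G * E - E * C).map (Int.castRingHom K) *ᵥ g = 0 := by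
    rw [Matrix.map_sub _ (map_sub _), sub_mulVec, g2, Matrix.map_mul, ← mulVec_mulVec, g3,
      mulVec_smul, g1, sub_self]
  have g6 : (Int.castRingHom K).mapMatrix (obs (sM G * E - E * C) C) *ᵥ g = 0 := by
    rw [obs, map_sum, sum_mulVec]
    refine sum_eq_zero fun k _ => ?_
    rw [RingHom.mapMatrix_apply, Matrix.map_mul, ← mulVec_mulVec, Matrix.map_mul,
      ← mulVec_mulVec, Matrix.map_pow, g4, mulVec_smul, g5, smul_zero, mulVec_zero]
  have g7 := exists_mulVec_eq_zero_iff.1 ⟨g, g0, g6⟩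
  rw [← RingHom.map_det, eq_intCast, CharP.intCast_eq_zero_iff K (ringChar K)] at g7
  by_contra h0
  have a1 := Int.le_of_dvd (abs_pos.2 h0) ((dvd_abs _ _).2 g7)
  refine hp ⟨fun e => h0 ?_, by exact_mod_cast a1.trans hd⟩
  rw [e] at g7
  simpa using g7

end Pool.Agent.P.MP_f57657_co.DG
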