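import Pool.Agent.P.MP_f57657_co.DG.Base

/-! An arc of the circle that two steps of the lazy walk can always leave. -/

open Finset

namespace Pool.Agent.P.MP_f57657_co.DG

namespace ArcAux

theorem pr_le_of_not {Ω : Type} [Fintype Ω] {E : Ω → Prop} (a : Ω) (h : ¬ E a)
    (hc : Fintype.card Ω ≤ 64) : pr E ≤ 63 / 64 := by
  classical
  have h0 : 0 < Fintype.card Ω := Fintype.card_pos_iff.2 ⟨a⟩
  have h1 : (univ.filter E).card < Fintype.card Ω := by
    rw [← card_univ]
    exact card_lt_card (filter_ssubset.2 ⟨a, mem_univ a, h⟩)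
  have h2 : ((univ.filter E).card : ℝ) + 1 ≤ Fintype.card Ω := by exact_mod_cast h1
  have h3 : (Fintype.card Ω : ℝ) ≤ 64 := by exact_mod_cast hc
  have h4 : (0 : ℝ) < Fintype.card Ω := by exact_mod_cast h0
  rw [pr_eq_card, div_le_iff₀ h4]
  convert_to ((univ.filter E).card : ℝ) ≤ _
  linarith

variable {Γ : Type} [AddCommGroup Γ]

theorem key {n : ℕ} {J0 J : Finset (Fin n)} (hJ : J0 ⊆ J) (hc : J0.card ≤ 2) (w : Fin n → Γ)
    (B : Γ → Prop) (h : ∀ x, ∃ e0 : Fin n → Fin 8, ¬ B (x + ∑ j ∈ J0, stp (e0 j) • w j)) :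
    lw J w B ≤ 63 / 64 := by
  classical
  unfold lw
  rw [← pr_equiv (Equiv.piEquivPiSubtypeProd (fun j => j ∈ J0) (fun _ => Fin 8)).symm, pr_prod']
  refine ex_le_const (by norm_num) fun b => ?_
  obtain ⟨e0, he0⟩ := h (∑ j ∈ J \ J0, stp ((Equiv.piEquivPiSubtypeProd (fun j => j ∈ J0)
    (fun _ => Fin 8)).symm (fun _ => 0, b) j) • w j)
  refine pr_le_of_not (fun j => e0 j.1) ?_ ?_
  · rw [← sum_sdiff hJ]
    intro hB
    apply he0
    convert hB using 2
    · refine sum_congr rfl fun j hj => ?_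
      simp [Equiv.piEquivPiSubtypeProd, (mem_sdiff.1 hj).2]
    · refine sum_congr rfl fun j hj => ?_
      simp [Equiv.piEquivPiSubtypeProd, hj]
  · rw [Fintype.card_fun, Fintype.card_fin, Fintype.card_coe]
    exact (Nat.pow_le_pow_right (by norm_num) hc).trans (by norm_num)

theorem re_add_sub [Fintype Γ] (ψ : AddChar Γ ℂ) (x y : Γ) :
    (ψ (x + y)).re + (ψ (x + -y)).re = 2 * ((ψ x).re * (ψ y).re) := by
  rw [AddChar.map_add_eq_mul, AddChar.map_add_eq_mul, AddChar.map_neg_eq_conj]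
  simp only [Complex.mul_re, Complex.conj_re, Complex.conj_im]
  ring

theorem re_le [Fintype Γ] (ψ : AddChar Γ ℂ) (x : Γ) : (ψ x).re ≤ 1 := by
  have h := Complex.re_le_norm (ψ x)
  rwa [AddChar.norm_apply] at h

theorem sq_add [Fintype Γ] (ψ : AddChar Γ ℂ) (x : Γ) : (ψ x).re ^ 2 + (ψ x).im ^ 2 = 1 := by
  have h := Complex.sq_norm (ψ x)
  rw [AddChar.norm_apply, Complex.normSq_apply] at h
  nlinarith

theorem re_lt [Fintype Γ] (ψ : AddChar Γ ℂ) {x : Γ} (h : ψ x ≠ 1) : (ψ x).re < 1 := by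
  refine lt_of_le_of_ne (re_le ψ x) fun e => h ?_
  have h1 := sq_add ψ x
  rw [e] at h1
  have h2 : (ψ x).im = 0 := by nlinarith
  exact Complex.ext (by simpa using e) (by simpa using h2)

/-- One signed step reaches at most the product of the real parts. -/
theorem step [Fintype Γ] (ψ : AddChar Γ ℂ) (x y : Γ) :
    ∃ e : Fin 8, (ψ (x + stp e • y)).re ≤ (ψ x).re * (ψ y).re := by
  have h := re_add_sub ψ x y
  by_cases h1 : (ψ (x + y)).re ≤ (ψ x).re * (ψ y).re
  · exact ⟨0, by simpa [stp] using h1⟩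
  · refine ⟨1, ?_⟩
    have : stp 1 = -1 := by decide
    rw [this, neg_smul, one_smul]
    linarith

theorem near [Fintype Γ] (ψ : AddChar Γ ℂ) {x : Γ} (h : ¬ 3 / 4 ≤ (ψ x).re) :
    ‖1 + ψ x‖ ≤ 15 / 8 := by
  have h1 := sq_add ψ x
  refine le_of_sq_le_sq ?_ (by norm_num)
  rw [Complex.sq_norm, Complex.normSq_apply]
  simp only [Complex.add_re, Complex.one_re, Complex.add_im, Complex.one_im]
  nlinarith [not_le.1 h]

end ArcAux

open ArcAux

theorem pArc : StArc := by
  classical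
  intro Γ _ _ ψ
  refine ⟨fun o x => o.elim (3 / 4) (fun y => (ψ y).re) ≤ (ψ x).re, fun n w hn hw hS => ?_⟩
  by_cases hA : ∃ j, (ψ (w j)).re < 3 / 4
  · obtain ⟨j, hj⟩ := hA
    refine ⟨none, {j}, by simp, fun J hJ => key hJ (by simp) w _ fun x => ?_, ?_⟩
    · simp only [sum_singleton, Option.elim]
      by_cases hx : 3 / 4 ≤ (ψ x).re
      · obtain ⟨e, he⟩ := step ψ x (w j)
        refine ⟨fun _ => e, not_le.2 (he.trans_lt ?_)⟩
        nlinarith [re_le ψ x]
      · refine ⟨fun _ => 2, ?_⟩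
        have : stp 2 = 0 := by decide
        rwa [this, zero_smul, add_zero]
    · unfold Sprd at hS
      refine le_trans (Nat.mul_le_mul_left _ (card_le_card fun i hi => ?_)) (not_le.1 hS).le
      rw [mem_filter] at hi ⊢
      exact ⟨hi.1, near ψ hi.2.2⟩
  · push Not at hA
    obtain ⟨i0, hi0⟩ := hw
    obtain ⟨j1, -, h1⟩ := exists_min_image univ (fun j => (ψ (w j)).re) ⟨i0, mem_univ _⟩
    have hne : (univ.erase j1).Nonempty := by
      rw [← card_pos, card_erase_of_mem (mem_univ _), card_univ, Fintype.card_fin]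
      omega
    obtain ⟨j2, hj2, h2⟩ := exists_min_image (univ.erase j1) (fun j => (ψ (w j)).re) hne
    have h12 : j1 ≠ j2 := (ne_of_mem_erase hj2).symm
    have hlt : (ψ (w j1)).re < 1 := (h1 i0 (mem_univ _)).trans_lt (re_lt ψ hi0)
    refine ⟨some (w j2), {j1, j2}, card_le_two, fun J hJ => key hJ card_le_two w _ fun x => ?_, ?_⟩
    · obtain ⟨e1, he1⟩ := step ψ x (w j1)
      obtain ⟨e2, he2⟩ := step ψ (x + stp e1 • w j1) (w j2)
      refine ⟨fun j => if j = j1 then e1 else e2, ?_⟩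
      rw [sum_pair h12]
      simp only [if_true, if_neg h12.symm, Option.elim]
      rw [← add_assoc]
      refine not_le.2 (he2.trans_lt ?_)
      have h3 : (ψ (x + stp e1 • w j1)).re < 1 := by nlinarith [re_le ψ x, hA j1]
      nlinarith [hA j2]
    · rw [filter_eq_empty_iff.2, card_empty]
      · exact Nat.zero_le _
      · intro i _ hi
        refine hi.2 (h2 i (mem_erase.2 ⟨fun e => hi.1 ?_, mem_univ _⟩))
        rw [e]
        exact mem_insert_self _ _

end Pool.Agent.P.MP_f57657_co.DG
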