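import Pool.Agent.P.MP_f57657_co.DG.Base

/-! Bordering changes eigenspaces by at most one dimension; a plane has at most two isotropic
lines unless it is totally isotropic. -/

open Matrix Finset

namespace Pool.Agent.P.MP_f57657_co.DG

namespace BordAux

variable {K : Type} [Field K] {n : ℕ}

/-- Extension by zero. -/
def ez (K : Type) [Field K] (n : ℕ) : (Fin n → K) →ₗ[K] (Fin (n + 1) → K) where
  toFun z := Fin.snoc z 0
  map_add' z w := by
    funext a
    induction a using Fin.lastCases with
    | last => simp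
    | cast i => simp
  map_smul' c z := by
    funext a
    induction a using Fin.lastCases with
    | last => simp
    | cast i => simp

theorem ez_init {g : Fin (n + 1) → K} (h : g (Fin.last n) = 0) :
    ez K n (fun i => g i.castSucc) = g := by
  funext a
  induction a using Fin.lastCases with
  | last => simp [ez, h]
  | cast i => simp [ez]

/-- The pairing with an integer vector as a linear map. -/
def dl (K : Type) [Field K] {n : ℕ} (v : Fin n → ℤ) : (Fin n → K) →ₗ[K] K where
  toFun z := dt v z
  map_add' z w := by simp [dt, mul_add, sum_add_distrib]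
  map_smul' c z := by
    simp only [dt, Pi.smul_apply, smul_eq_mul, RingHom.id_apply, mul_sum]
    exact sum_congr rfl fun i _ => by ring

theorem mem_bord {α β : ℤ} {G : Gr n} {s : Bv n} {θ : K} {g : Fin (n + 1) → K} :
    g ∈ eg K (gm α β (bord G s)) θ ↔
      (∀ i : Fin n, ∑ j : Fin n, (gm α β G i j : K) * g j.castSucc +
        (sv α β s i : K) * g (Fin.last n) = θ * g i.castSucc) ∧
      dt (sv α β s) (fun i => g i.castSucc) = θ * g (Fin.last n) := by
  rw [mem_eg, Fin.forall_fin_succ']
  simp only [Fin.sum_univ_castSucc, gm_cc, gm_cl, gm_lc, gm_diag, Int.cast_zero, zero_mul,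
    add_zero, dt]

theorem init_mem {α β : ℤ} {G : Gr n} {s : Bv n} {θ : K} {g : Fin (n + 1) → K}
    (hg : g ∈ eg K (gm α β (bord G s)) θ) (h : g (Fin.last n) = 0) :
    (fun i : Fin n => g i.castSucc) ∈ eg K (gm α β G) θ ∧
      dt (sv α β s) (fun i : Fin n => g i.castSucc) = 0 := by
  obtain ⟨h1, h2⟩ := mem_bord.1 hg
  rw [h] at h1 h2
  exact ⟨mem_eg.2 fun i => by simpa using h1 i, by simpa using h2⟩

theorem last_mul {α β : ℤ} {G : Gr n} {s : Bv n} {θ : K} {g : Fin (n + 1) → K}
    (hg : g ∈ eg K (gm α β (bord G s)) θ) {z : Fin n → K} (hz : z ∈ eg K (gm α β G) θ) :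
    g (Fin.last n) * dt (sv α β s) z = 0 := by
  obtain ⟨h1, -⟩ := mem_bord.1 hg
  have h2 := mem_eg.1 hz
  have h3 : ∑ i, z i * ∑ j : Fin n, (gm α β G i j : K) * g j.castSucc =
      ∑ j : Fin n, θ * z j * g j.castSucc := by
    simp only [mul_sum]
    rw [sum_comm]
    refine sum_congr rfl fun j _ => ?_
    rw [← h2 j, sum_mul]
    refine sum_congr rfl fun i _ => ?_
    rw [(gm_symm α β G).apply i j]
    ring
  have h4 : ∑ i, z i * (∑ j : Fin n, (gm α β G i j : K) * g j.castSucc +
      (sv α β s i : K) * g (Fin.last n)) = ∑ j : Fin n, θ * z j * g j.castSucc :=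
    sum_congr rfl fun i _ => by rw [h1 i]; ring
  simp only [mul_add, sum_add_distrib] at h4
  rw [h3, add_eq_left] at h4
  rw [← h4, dt, mul_sum]
  exact sum_congr rfl fun i _ => by ring

end BordAux

open BordAux

theorem pBord : StBord := by
  intro K _ α β n G s θ
  refine ⟨?_, ?_, ?_, ?_⟩
  · exact (Submodule.finrank_le _).trans (by simp)
  · by_cases h : ∃ g ∈ eg K (gm α β (bord G s)) θ, g (Fin.last n) ≠ 0
    · obtain ⟨g0, hg0, h0⟩ := h
      have hle : eg K (gm α β (bord G s)) θ ≤
          (eg K (gm α β G) θ).map (ez K n) ⊔ Submodule.span K {g0} := by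
        intro g hg
        set c := g (Fin.last n) / g0 (Fin.last n) with hc
        have h1 : g - c • g0 ∈ eg K (gm α β (bord G s)) θ :=
          Submodule.sub_mem _ hg (Submodule.smul_mem _ _ hg0)
        have h2 : (g - c • g0) (Fin.last n) = 0 := by
          simp only [Pi.sub_apply, Pi.smul_apply, smul_eq_mul, hc]
          field_simp
          ring
        refine Submodule.mem_sup.2 ⟨g - c • g0, ⟨_, (init_mem h1 h2).1, ez_init h2⟩, c • g0,
          Submodule.smul_mem _ _ (Submodule.mem_span_singleton_self _), by simp⟩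
      have hne : g0 ≠ 0 := fun e => h0 (by simp [e])
      refine (Submodule.finrank_mono hle).trans
        ((Submodule.finrank_add_le_finrank_add_finrank _ _).trans ?_)
      rw [finrank_span_singleton hne]
      exact Nat.add_le_add_right (Submodule.finrank_map_le _ _) 1
    · push Not at h
      have hle : eg K (gm α β (bord G s)) θ ≤ (eg K (gm α β G) θ).map (ez K n) :=
        fun g hg => ⟨_, (init_mem hg (h g hg)).1, ez_init (h g hg)⟩
      exact ((Submodule.finrank_mono hle).trans (Submodule.finrank_map_le _ _)).trans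
        (Nat.le_succ _)
  · rintro ⟨z, hz, hv⟩
    have hle : eg K (gm α β (bord G s)) θ ≤
        (eg K (gm α β G) θ ⊓ LinearMap.ker (dl K (sv α β s))).map (ez K n) := by
      intro g hg
      have h0 : g (Fin.last n) = 0 := (mul_eq_zero.1 (last_mul hg hz)).resolve_right hv
      exact ⟨_, init_mem hg h0, ez_init h0⟩
    have hlt : eg K (gm α β G) θ ⊓ LinearMap.ker (dl K (sv α β s)) < eg K (gm α β G) θ :=
      lt_of_le_of_ne inf_le_left fun e => hv (by
        have : z ∈ eg K (gm α β G) θ ⊓ LinearMap.ker (dl K (sv α β s)) := by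
          rw [e]
          exact hz
        exact this.2)
    exact Nat.succ_le_of_lt (((Submodule.finrank_mono hle).trans
      (Submodule.finrank_map_le _ _)).trans_lt (Submodule.finrank_lt_finrank_of_lt hlt))
  · intro z hz hv
    refine mem_bord.2 ⟨fun i => ?_, ?_⟩
    · simpa using mem_eg.1 hz i
    · simpa using hv

theorem pTw : StTw := by
  intro K _ n E h2 hz ⟨v0, hv0, hne, hiso⟩
  by_cases he : Module.finrank K E = 2
  · obtain ⟨z, hzE, hzz⟩ := hz he
    have hli : LinearIndependent K ![v0, z] := by
      rw [LinearIndependent.pair_iff]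
      intro a b hab
      have h1 : b • z = -(a • v0) := eq_neg_of_add_eq_zero_right hab
      have h3 : (b • z) ⬝ᵥ (b • z) = 0 := by
        rw [h1]
        simp [hiso]
      have hb : b = 0 := by
        simp only [smul_dotProduct, dotProduct_smul, smul_eq_mul, mul_eq_zero] at h3
        tauto
      rw [hb, zero_smul, add_zero] at hab
      exact ⟨(smul_eq_zero.1 hab).resolve_right hne, hb⟩
    have hsp : Submodule.span K (Set.range ![v0, z]) = E := by
      refine Submodule.eq_of_le_of_finrank_le (Submodule.span_le.2 ?_) ?_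
      · rintro _ ⟨i, rfl⟩
        fin_cases i
        · exact hv0
        · exact hzE
      · rw [finrank_span_eq_card hli, he]
        simp
    refine ⟨v0, hv0, v0 - (2 * (v0 ⬝ᵥ z) / (z ⬝ᵥ z)) • z,
      Submodule.sub_mem _ hv0 (Submodule.smul_mem _ _ hzE), hne, fun e => ?_, fun v hv hvv => ?_⟩
    · have := (LinearIndependent.pair_iff.1 hli 1 (-(2 * (v0 ⬝ᵥ z) / (z ⬝ᵥ z))) (by
        rw [one_smul, neg_smul, ← sub_eq_add_neg]
        exact e)).1
      exact one_ne_zero this
    · rw [← hsp, Matrix.range_cons, Matrix.range_cons, Matrix.range_empty, Set.union_empty,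
        Set.singleton_union, Submodule.mem_span_pair] at hv
      obtain ⟨a, b, rfl⟩ := hv
      have h4 : b * (2 * a * (v0 ⬝ᵥ z) + b * (z ⬝ᵥ z)) = 0 := by
        simp only [add_dotProduct, dotProduct_add, smul_dotProduct, dotProduct_smul, smul_eq_mul,
          hiso, dotProduct_comm z v0] at hvv
        linear_combination hvv
      rcases mul_eq_zero.1 h4 with hb | hb
      · exact Or.inl ⟨a, by rw [hb, zero_smul, add_zero]⟩
      · refine Or.inr ⟨a, ?_⟩
        have h5 : b = -(a * (2 * (v0 ⬝ᵥ z) / (z ⬝ᵥ z))) := by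
          field_simp
          linear_combination hb
        rw [smul_sub, smul_smul, h5, neg_smul, sub_eq_add_neg]
  · refine ⟨v0, hv0, v0, hv0, hne, hne, fun v hv _ => Or.inl ?_⟩
    have hsp : Submodule.span K {v0} = E := by
      refine Submodule.eq_of_le_of_finrank_le
        ((Submodule.span_singleton_le_iff_mem _ _).2 hv0) ?_
      rw [finrank_span_singleton hne]
      omega
    rw [← hsp, Submodule.mem_span_singleton] at hv
    obtain ⟨c, hc⟩ := hv
    exact ⟨c, hc.symm⟩

end Pool.Agent.P.MP_f57657_co.DG
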