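import Pool.Agent.P.MP_f57657_co.DG.Base
import Pool.Agent.P.MP_f57657_co.W.Top

/-! Conjugations of bounded level are isomorphisms with high probability. -/

open Matrix Finset

namespace Pool.Agent.P.MP_f57657_co.DG

namespace CoarseAux

variable {n : ℕ}

open Classical in
theorem fibre (G : Gr n) : Ex (1 / 2) (fun ω => if gr ω = G then (1 : ℝ) else 0) =
    (1 / 2) ^ (univ.filter fun e : Sym2 (Fin n) => ¬e.IsDiag).card := by
  have h := Ex_prod (p := 1 / 2) (univ.filter fun e : Sym2 (Fin n) => ¬e.IsDiag)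
    fun e b => if (b = true ↔ e ∈ G.edgeSet) then 1 else 0
  rw [prod_congr rfl (g := fun _ => (1 / 2 : ℝ)) fun e _ => by
    by_cases h : e ∈ G.edgeSet <;> norm_num [h], prod_const] at h
  rw [← h]
  congr 1
  funext ω
  rw [prod_boole]
  refine (@if_congr _ _ _ (_) (_) _ _ _ _
    ⟨?_, fun a => SimpleGraph.ext (funext₂ fun u v => propext ?_)⟩ rfl rfl)
  · rintro rfl e he
    induction e using Sym2.ind
    simpa [gr_adj] using fun _ => by simpa using he
  · rw [gr_adj, ← G.mem_edgeSet]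
    by_cases e : u = v
    · simp [e]
    · simpa [e] using a s(u, v) (by simpa using e)

theorem pr_eq (E : Gr n → Prop) : pr E = Pr (1 / 2) fun ω => E (gr ω) := by
  classical
  have h : ∀ F : Gr n → ℝ, Ex (1 / 2) (fun ω => F (gr ω)) = (∑ G, F G) *
      (1 / 2) ^ (univ.filter fun e : Sym2 (Fin n) => ¬e.IsDiag).card := fun F => by
    rw [sum_mul, ← sum_congr rfl fun G _ => by rw [← fibre G, ← Ex_mul], ← Ex_sum]
    congr 1
    funext ω
    simp
  have h1 := h fun _ => 1
  rw [Ex_const, sum_const, card_univ, nsmul_eq_mul, mul_one] at h1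
  rw [pr, ex, Pr, h fun G => if E G then 1 else 0, div_eq_mul_inv,
    inv_eq_of_mul_eq_one_right h1.symm]

/-- Any two vertices have a common neighbour. -/
def Cn (G : Gr n) : Prop := ∀ u v, u ≠ v → ∃ t, G.Adj t u ∧ G.Adj t v

theorem pr_cn : pr (fun G : Gr n => ¬ Cn G) ≤ (n : ℝ) ^ 2 * (3 / 4) ^ (n - 2) := by
  rw [pr_eq, sq, mul_assoc]
  refine Pr_two (by norm_num) (by norm_num) univ univ
    (fun u v ω => u ≠ v ∧ ∀ t ∈ ({u, v} : Finset (Fin n))ᶜ, row ω {u, v} t ≠ {u, v})
    (by positivity) (fun ω h => ?_) (fun u _ v _ => Pr_if (by norm_num) (by norm_num)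
      (by positivity) fun e => ?_) (by simp) (by simp)
  · simp only [Cn, not_forall, not_exists] at h
    obtain ⟨u, v, e, h⟩ := h
    refine ⟨u, mem_univ _, v, mem_univ _, e, fun t ht e' => h t ?_⟩
    exact ⟨((mem_row (mem_compl.1 ht)).1 (e'.ge (by simp))).2,
      ((mem_row (mem_compl.1 ht)).1 (e'.ge (by simp))).2⟩
  · have h := Pr_rows (p := 1 / 2) (c := 3 / 4) (by norm_num) (by norm_num) (Y := {u, v})
      (T := ({u, v} : Finset (Fin n))ᶜ) (fun t => mem_compl.1) (A := fun a => a ≠ {u, v}) (by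
        rw [rP, rE_insert (by simpa using e), ← insert_empty_eq, rE_insert (notMem_empty _)]
        simp only [rE, powerset_empty, sum_singleton]
        simp only [insert_empty_eq, ne_eq, not_true, if_false]
        split_ifs <;> norm_num)
    rwa [card_compl, card_pair e, Fintype.card_fin] at h

theorem core_of (hn : 2 ≤ n) {G : Gr n} (h : Cn G) : Core G := by
  have : Nontrivial (Fin n) := Fin.nontrivial_iff_two_le.2 hn
  refine ⟨⟨fun u v => ?_⟩, fun v => ?_⟩
  · by_cases e : u = v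
    · rw [e]
    · obtain ⟨t, a, b⟩ := h u v e
      exact a.symm.reachable.trans b.reachable
  · obtain ⟨u, e⟩ := exists_ne v
    obtain ⟨a, -, h1⟩ := h u v e
    obtain ⟨b, h2, h3⟩ := h a v h1.ne
    exact ⟨a, b, h2.ne', h1.symm, h3.symm⟩

open Classical in
theorem adj_eq (G : Gr n) : ((aM G).map (Int.cast : ℤ → ℚ)).map (Rat.castHom ℝ) =
    G.adjMatrix ℝ := by
  ext i j
  by_cases e : i = j
  · simp [gm, e]
  · by_cases h : G.Adj i j <;> simp [gm, e, h]

theorem iso_of {G H : Gr n} {l : ℕ} (hl : 0 < l) {m : ℝ} (hm : 0 ≤ m) (hG : Core G)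
    (hR : RigidC G (1 / l) m) {Q : Matrix (Fin n) (Fin n) ℚ} (hQ : Conj G H Q)
    (hI : Intg ((l : ℚ) • Q)) : Nonempty (H ≃g G) := by
  classical
  obtain ⟨v⟩ := hG.1.nonempty
  have hS : ∀ x, x ∈ core2 G (G.connectedComponentMk v).supp := fun x =>
    ⟨Set.univ, fun y _ => SimpleGraph.ConnectedComponent.sound (hG.1 y v), trivial, fun w _ => by
      obtain ⟨a, b, h⟩ := hG.2 w
      exact ⟨a, trivial, b, trivial, h⟩⟩
  have h := hR (G.connectedComponentMk v)
  set S := core2 G (G.connectedComponentMk v).supp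
  let : Fintype S := Fintype.ofFinite S
  let e : S ≃ Fin n := Equiv.subtypeUnivEquiv hS
  have h1 : (Q.map (Rat.castHom ℝ))ᵀ * Q.map (Rat.castHom ℝ) = 1 := by
    rw [← transpose_map, ← Matrix.map_mul, hQ.1, Matrix.map_one _ (map_zero _) (map_one _)]
  have h2 : H.adjMatrix ℝ = (Q.map (Rat.castHom ℝ))ᵀ * G.adjMatrix ℝ * Q.map (Rat.castHom ℝ) := by
    rw [Matrix.mul_assoc, ← adj_eq G, ← Matrix.map_mul, hQ.2.2, Matrix.map_mul, adj_eq,
      ← Matrix.mul_assoc, h1, Matrix.one_mul]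
  obtain ⟨φ⟩ := h (H.induce S) ⟨∅, (Q.map (Rat.castHom ℝ)).submatrix e e, by simpa using hm,
    by
      rw [transpose_submatrix, submatrix_mul_equiv, h1, submatrix_one_equiv]
      ext i j
      by_cases h : i = j <;> simp [Matrix.one_apply, h], fun t _ i => by
      obtain ⟨z, hz⟩ := hI (e i) (e t)
      have h3 : (l : ℝ) * (Q (e i) (e t) : ℝ) = z := by
        exact_mod_cast (show (l : ℚ) * Q (e i) (e t) = z from hz)
      have l0 : (0 : ℝ) < l := by exact_mod_cast hl
      change (Q (e i) (e t) : ℝ) = 0 ∨ _ ≤ |(Q (e i) (e t) : ℝ)|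
      refine (eq_or_ne z 0).imp (fun h0 => ?_) fun h0 => ?_
      · rw [h0, Int.cast_zero] at h3
        exact (mul_eq_zero.1 h3).resolve_left l0.ne'
      · rw [div_le_iff₀' l0, ← abs_of_pos l0, ← abs_mul, h3]
        exact_mod_cast Int.one_le_abs h0, by
      have h3 : ∀ (F : Gr n) (d : DecidableRel (F.induce S).Adj),
          (F.induce S).adjMatrix ℝ = (F.adjMatrix ℝ).submatrix e e := fun F d => by
        ext i j
        simp only [SimpleGraph.adjMatrix_apply, submatrix_apply]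
        exact if_congr Iff.rfl rfl rfl
      rw [h3, h3, transpose_submatrix, submatrix_mul_equiv, submatrix_mul_equiv, h2]⟩
  have ψ : ∀ F : Gr n, F.induce S ≃g F := fun F => ⟨e, Iff.rfl⟩
  exact ⟨((ψ H).symm.trans φ).trans (ψ G)⟩

end CoarseAux

open CoarseAux Filter Topology in
theorem pCoarse : StCoarse := by
  intro l hl ε hε
  obtain ⟨C, M, h⟩ := rare_all (ε := 1 / 6) (θ := 1 / l) (by norm_num) (by positivity)
  have h1 := (tendsto_pow_const_mul_const_pow_of_abs_lt_one 2 (r := 3 / 4)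
    (by norm_num [abs_of_pos])).const_mul (16 / 9)
  rw [mul_zero] at h1
  obtain ⟨N, hN⟩ := eventually_atTop.1 ((h1.eventually_le_const (half_pos hε)).and
    (((tendsto_const_div_atTop_nhds_zero_nat M).eventually_le_const (half_pos hε)).and
      ((tendsto_natCast_atTop_atTop.eventually_ge_atTop (2 * C)).and (eventually_ge_atTop 2))))
  refine ⟨N, fun n hn => ?_⟩
  obtain ⟨a1, a2, a3, a4⟩ := hN n hn
  have h2 := h n (1 / 2) (by linarith) (by norm_num) le_rfl
  rw [← pr_eq fun G : Gr n => ¬ RigidC G (1 / l) ((1 - 3 * (1 / 6)) * n)] at h2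
  have h3 : (3 / 4 : ℝ) ^ n = (3 / 4) ^ (n - 2) * (3 / 4) ^ 2 := by
    rw [← pow_add, Nat.sub_add_cancel a4]
  refine (pr_le_add fun G hG => ?_).trans ((add_le_add pr_cn h2).trans (by
    rw [h3] at a1
    linarith))
  by_contra hc
  rw [not_or, not_not, not_not] at hc
  exact hG ⟨core_of a4 hc.1, fun H Q hQ hI =>
    iso_of hl (by positivity) (core_of a4 hc.1) hc.2 hQ hI⟩

end Pool.Agent.P.MP_f57657_co.DG
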