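import Pool.Agent.P.MP_f57657_co.DG.Base

/-! Decoupling of a quadratic character sum over the cube. -/

open Matrix Finset Polynomial

namespace Pool.Agent.P.MP_f57657_co.DG

namespace DecAux

theorem sq_sum {β : Type} [Fintype β] (G : β → ℂ) :
    ((‖∑ t, G t‖ ^ 2 : ℝ) : ℂ) = ∑ t, ∑ t', G t * (starRingEnd ℂ) (G t') := by
  rw [← Complex.normSq_eq_norm_sq, ← Complex.mul_conj, map_sum, sum_mul_sum]

/-- Abstract decoupling inequality for raw sums. -/
theorem raw {α β : Type} [Fintype α] [Fintype β] (A : α → ℂ) (C : β → ℂ) (K : α → β → ℂ)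
    (hA : ∀ a, ‖A a‖ = 1) (hC : ∀ t, ‖C t‖ = 1) :
    ‖∑ a, ∑ t, A a * C t * K a t‖ ^ 2 ≤
      Fintype.card α * ∑ t, ∑ t', ‖∑ a, K a t * (starRingEnd ℂ) (K a t')‖ := by
  have h1 : ‖∑ a, ∑ t, A a * C t * K a t‖ ≤ ∑ a, ‖∑ t, C t * K a t‖ := by
    refine (norm_sum_le _ _).trans (sum_le_sum fun a _ => le_of_eq ?_)
    simp only [mul_assoc]
    rw [← mul_sum, norm_mul, hA, one_mul]
  have h2 : (∑ a, ‖∑ t, C t * K a t‖) ^ 2 ≤
      Fintype.card α * ∑ a, ‖∑ t, C t * K a t‖ ^ 2 := by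
    have := sq_sum_le_card_mul_sum_sq (s := (univ : Finset α)) (f := fun a => ‖∑ t, C t * K a t‖)
    simpa using this
  have h3 : ((∑ a, ‖∑ t, C t * K a t‖ ^ 2 : ℝ) : ℂ) =
      ∑ t, ∑ t', C t * (starRingEnd ℂ) (C t') * ∑ a, K a t * (starRingEnd ℂ) (K a t') := by
    rw [Complex.ofReal_sum]
    simp only [sq_sum]
    rw [sum_comm]
    refine sum_congr rfl fun t _ => ?_
    rw [sum_comm]
    refine sum_congr rfl fun t' _ => ?_
    rw [mul_sum]
    refine sum_congr rfl fun a _ => ?_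
    rw [map_mul]
    ring
  have h4 : ∑ a, ‖∑ t, C t * K a t‖ ^ 2 ≤
      ∑ t, ∑ t', ‖∑ a, K a t * (starRingEnd ℂ) (K a t')‖ := by
    have h5 : ∑ a, ‖∑ t, C t * K a t‖ ^ 2 ≤ ‖((∑ a, ‖∑ t, C t * K a t‖ ^ 2 : ℝ) : ℂ)‖ := by
      rw [Complex.norm_real]
      exact le_abs_self _
    refine h5.trans ?_
    rw [h3]
    refine (norm_sum_le _ _).trans (sum_le_sum fun t _ => ?_)
    refine (norm_sum_le _ _).trans (sum_le_sum fun t' _ => le_of_eq ?_)
    rw [norm_mul, norm_mul, Complex.norm_conj, hC, hC, one_mul, one_mul]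
  calc _ ≤ (∑ a, ‖∑ t, C t * K a t‖) ^ 2 := pow_le_pow_left₀ (norm_nonneg _) h1 2
    _ ≤ _ := h2
    _ ≤ _ := mul_le_mul_of_nonneg_left h4 (Nat.cast_nonneg _)

variable {n : ℕ}

/-- Bits of `t` on `I`, bits of `a` elsewhere. -/
def mix (I : Finset (Fin n)) (a t : Bv n) : Bv n := fun i => if i ∈ I then t i else a i

/-- Exchange of the coordinates in `I`. -/
def swp (I : Finset (Fin n)) : Bv n × Bv n ≃ Bv n × Bv n where
  toFun ω := (mix I ω.1 ω.2, mix I ω.2 ω.1)
  invFun ω := (mix I ω.1 ω.2, mix I ω.2 ω.1)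
  left_inv ω := by
    refine Prod.ext (funext fun i => ?_) (funext fun i => ?_) <;>
      by_cases h : i ∈ I <;> simp [mix, h]
  right_inv ω := by
    refine Prod.ext (funext fun i => ?_) (funext fun i => ?_) <;>
      by_cases h : i ∈ I <;> simp [mix, h]

theorem sum_mix (I : Finset (Fin n)) (F : Bv n → ℂ) :
    ∑ a, ∑ t, F (mix I a t) = Fintype.card (Bv n) * ∑ s, F s := by
  have h := Equiv.sum_comp (swp I) fun ω : Bv n × Bv n => F ω.1
  rw [Fintype.sum_prod_type, Fintype.sum_prod_type] at h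
  refine h.trans ?_
  simp only [sum_const, card_univ, nsmul_eq_mul]
  rw [mul_sum]

variable {Γ : Type} [AddCommGroup Γ]

/-- The bilinear form of `N`. -/
def bl (N : Fin n → Fin n → Γ) (x y : Fin n → ℤ) : Γ := ∑ i, ∑ j, (x i * y j) • N i j

theorem bl_comm {N : Fin n → Fin n → Γ} (hN : ∀ i j, N i j = N j i) (x y : Fin n → ℤ) :
    bl N x y = bl N y x := by
  unfold bl
  rw [sum_comm]
  exact sum_congr rfl fun i _ => sum_congr rfl fun j _ => by rw [hN j i, mul_comm]

theorem bl_add {N : Fin n → Fin n → Γ} (hN : ∀ i j, N i j = N j i) (x y : Fin n → ℤ) :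
    bl N (x + y) (x + y) = bl N x x + bl N y y + (bl N x y + bl N x y) := by
  have h : bl N (x + y) (x + y) = bl N x x + bl N y y + (bl N x y + bl N y x) := by
    unfold bl
    simp only [← sum_add_distrib, ← add_smul, Pi.add_apply]
    exact sum_congr rfl fun i _ => sum_congr rfl fun j _ => by congr 1; ring
  rw [h, bl_comm hN y x]

/-- Part of the bit vector inside `I`. -/
def pin (I : Finset (Fin n)) (t : Bv n) : Fin n → ℤ := fun i => if i ∈ I then sv 0 1 t i else 0

/-- Part of the bit vector outside `I`. -/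
def pout (I : Finset (Fin n)) (a : Bv n) : Fin n → ℤ := fun i => if i ∈ I then 0 else sv 0 1 a i

theorem sv_mix (I : Finset (Fin n)) (a t : Bv n) :
    sv 0 1 (mix I a t) = pout I a + pin I t := by
  funext i
  by_cases h : i ∈ I <;> simp [mix, pin, pout, sv, h]

/-- The linear form seen by the outer bits. -/
def zz (I : Finset (Fin n)) (N : Fin n → Fin n → Γ) (t : Bv n) (i : Fin n) : Γ :=
  if i ∈ I then 0 else ∑ j ∈ I, (2 * sv 0 1 t j) • N i j

theorem cross (I : Finset (Fin n)) (N : Fin n → Fin n → Γ) (a t : Bv n) :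
    bl N (pout I a) (pin I t) + bl N (pout I a) (pin I t) = ∑ i, sv 0 1 a i • zz I N t i := by
  unfold bl
  rw [← sum_add_distrib]
  refine sum_congr rfl fun i _ => ?_
  by_cases h : i ∈ I
  · simp [pout, zz, h]
  · rw [← sum_add_distrib, zz, if_neg h, smul_sum, ← sum_filter_add_sum_filter_not univ (· ∈ I)]
    have h1 : univ.filter (· ∈ I) = I := by ext j; simp
    have h2 : ∑ j ∈ univ.filter (fun j => ¬ j ∈ I),
        ((pout I a i * pin I t j) • N i j + (pout I a i * pin I t j) • N i j) = 0 :=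
      sum_eq_zero fun j hj => by simp [pin, (mem_filter.1 hj).2]
    rw [h1, h2, add_zero]
    refine sum_congr rfl fun j hj => ?_
    rw [← add_smul, smul_smul, pout, pin, if_neg h, if_pos hj]
    congr 1
    ring

theorem prod_mix (I : Finset (Fin n)) (u : Fin n → ℂ) (a t : Bv n) :
    (∏ i, if mix I a t i = true then u i else 1) =
      (∏ i ∈ Iᶜ, if a i = true then u i else 1) * ∏ i ∈ I, if t i = true then u i else 1 := by
  rw [← prod_compl_mul_prod I]
  congr 1
  · exact prod_congr rfl fun i hi => by rw [mix, if_neg (mem_compl.1 hi)]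
  · exact prod_congr rfl fun i hi => by rw [mix, if_pos hi]

theorem norm_prod_one (T : Finset (Fin n)) {u : Fin n → ℂ} (hu : ∀ i, ‖u i‖ = 1) (a : Bv n) :
    ‖∏ i ∈ T, if a i = true then u i else 1‖ = 1 := by
  rw [norm_prod]
  exact prod_eq_one fun i _ => by split_ifs <;> simp [hu]

theorem innr [Fintype Γ] (ψ : AddChar Γ ℂ) (I : Finset (Fin n)) (N : Fin n → Fin n → Γ)
    (t t' : Bv n) :
    ‖∑ a : Bv n, ψ (∑ i, sv 0 1 a i • zz I N t i) *
      (starRingEnd ℂ) (ψ (∑ i, sv 0 1 a i • zz I N t' i))‖ =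
      Fintype.card (Bv n) * ∏ i ∈ Iᶜ,
        ‖1 + ψ (∑ j ∈ I, (2 * (sv 0 1 t j - sv 0 1 t' j)) • N i j)‖ / 2 := by
  have hc : (Fintype.card (Bv n) : ℂ) ≠ 0 := Nat.cast_ne_zero.2 Fintype.card_ne_zero
  have h1 : ∀ a : Bv n, ψ (∑ i, sv 0 1 a i • zz I N t i) *
      (starRingEnd ℂ) (ψ (∑ i, sv 0 1 a i • zz I N t' i)) =
      ∏ i, if a i = true then ψ (zz I N t i - zz I N t' i) else 1 := by
    intro a
    rw [← AddChar.map_neg_eq_conj, ← AddChar.map_add_eq_mul, ← char_sum, ← sub_eq_add_neg,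
      ← sum_sub_distrib]
    simp only [smul_sub]
  have h2 := exc_prod fun i => ψ (zz I N t i - zz I N t' i)
  rw [exc, div_eq_iff hc] at h2
  simp only [h1]
  rw [h2, norm_mul, Complex.norm_natCast, mul_comm, norm_prod, ← prod_compl_mul_prod I]
  congr 1
  have h3 : ∏ i ∈ I, ‖(1 + ψ (zz I N t i - zz I N t' i)) / 2‖ = 1 :=
    prod_eq_one fun i hi => by
      simp only [zz, if_pos hi, sub_self, AddChar.map_zero_eq_one]
      norm_num
  rw [h3, mul_one]
  refine prod_congr rfl fun i hi => ?_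
  have h4 : zz I N t i - zz I N t' i = ∑ j ∈ I, (2 * (sv 0 1 t j - sv 0 1 t' j)) • N i j := by
    rw [zz, zz, if_neg (mem_compl.1 hi), if_neg (mem_compl.1 hi), ← sum_sub_distrib]
    exact sum_congr rfl fun j _ => by rw [← sub_smul, mul_sub]
  rw [h4, norm_div, Complex.norm_ofNat]

end DecAux

open DecAux in
theorem pDec : StDec := by
  intro Γ _ _ ψ n N u I hN hu
  have hc : (0 : ℝ) < Fintype.card (Bv n) := Nat.cast_pos.2 Fintype.card_pos
  have h1 := raw
    (fun a : Bv n => ψ (bl N (pout I a) (pout I a)) * ∏ i ∈ Iᶜ, if a i = true then u i else 1)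
    (fun t : Bv n => ψ (bl N (pin I t) (pin I t)) * ∏ i ∈ I, if t i = true then u i else 1)
    (fun a t => ψ (∑ i, sv 0 1 a i • zz I N t i))
    (fun a => by rw [norm_mul, AddChar.norm_apply, norm_prod_one _ hu, one_mul])
    (fun a => by rw [norm_mul, AddChar.norm_apply, norm_prod_one _ hu, one_mul])
  have h2 := sum_mix I fun s : Bv n => ψ (bl N (sv 0 1 s) (sv 0 1 s)) *
    ∏ i, if s i = true then u i else 1
  have h3 : ∀ a t : Bv n, ψ (bl N (sv 0 1 (mix I a t)) (sv 0 1 (mix I a t))) *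
      (∏ i, if mix I a t i = true then u i else 1) =
      (ψ (bl N (pout I a) (pout I a)) * ∏ i ∈ Iᶜ, if a i = true then u i else 1) *
      (ψ (bl N (pin I t) (pin I t)) * ∏ i ∈ I, if t i = true then u i else 1) *
      ψ (∑ i, sv 0 1 a i • zz I N t i) := by
    intro a t
    rw [sv_mix, bl_add hN, cross, prod_mix, AddChar.map_add_eq_mul, AddChar.map_add_eq_mul]
    ring
  simp only [h3] at h2
  simp only [innr, ← mul_sum] at h1
  rw [h2, norm_mul, Complex.norm_natCast, mul_pow] at h1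
  rw [exc, ex, norm_div, Complex.norm_natCast, div_pow, Fintype.sum_prod_type,
    Fintype.card_prod, Nat.cast_mul, ← sq]
  refine div_le_div_of_nonneg_right ?_ (by positivity)
  rw [← mul_assoc, ← sq] at h1
  exact le_of_mul_le_mul_left h1 (by positivity)

end Pool.Agent.P.MP_f57657_co.DG
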