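import Pool.Agent.P.MP_f57657_co.DG.Base

/-! Small Fourier coefficients of the quadratic and of the linear form. -/

open Matrix Finset Polynomial

namespace Pool.Agent.P.MP_f57657_co.DG

namespace EQAux

theorem pow999 {n e : ℕ} (h : 1000 * e ≤ n) : (999 / 1000 : ℝ) ^ n ≤ (1 / 2) ^ e := by
  have h1 : (999 / 1000 : ℝ) ^ 1000 ≤ 1 / 2 := by
    have h2 : (1 : ℝ) + (1000 : ℕ) * (1 / 999) ≤ (1 + 1 / 999) ^ 1000 :=
      one_add_mul_le_pow (by norm_num) 1000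
    have h3 : (999 / 1000 : ℝ) ^ 1000 * (1 + 1 / 999) ^ 1000 = 1 := by
      rw [← mul_pow]; norm_num
    have h4 : (0 : ℝ) ≤ (999 / 1000 : ℝ) ^ 1000 := by positivity
    have h5 : (2 : ℝ) ≤ (1 + 1 / 999) ^ 1000 := le_trans (by norm_num) h2
    generalize (999 / 1000 : ℝ) ^ 1000 = a at *
    generalize (1 + 1 / 999 : ℝ) ^ 1000 = b at *
    nlinarith
  calc (999 / 1000 : ℝ) ^ n ≤ (999 / 1000 : ℝ) ^ (1000 * e) :=
        pow_le_pow_of_le_one (by norm_num) (by norm_num) h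
    _ = ((999 / 1000 : ℝ) ^ 1000) ^ e := pow_mul _ _ _
    _ ≤ _ := pow_le_pow_left₀ (by positivity) h1 e

theorem pow15 {n e : ℕ} (h : 11 * e ≤ n) : (15 / 16 : ℝ) ^ n ≤ (1 / 2) ^ e :=
  calc (15 / 16 : ℝ) ^ n ≤ (15 / 16 : ℝ) ^ (11 * e) :=
        pow_le_pow_of_le_one (by norm_num) (by norm_num) h
    _ = ((15 / 16 : ℝ) ^ 11) ^ e := pow_mul _ _ _
    _ ≤ _ := pow_le_pow_left₀ (by positivity) (by norm_num) e

theorem two_half (a b : ℕ) : (2 : ℝ) ^ a * (1 / 2) ^ (a + b) = (1 / 2) ^ b := by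
  rw [pow_add, ← mul_assoc, ← mul_pow]
  norm_num

/-- Some character sees the vector but the vector is not spread for it. -/
def Bad {R : Type} [CommRing R] (ev : ℤ[X] →+* R) {n : ℕ} (M : Matrix (Fin n) (Fin n) ℤ)
    (y : Fin n → ℤ) : Prop :=
  ∃ ψ : AddChar R ℂ, (∃ i, ψ (ev (aw M y i)) ≠ 1) ∧ ¬ Sprd ψ fun i => ev (aw M y i)

theorem row_eq {R : Type} [CommRing R] (ev : ℤ[X] →+* R) (α β : ℤ) (d : R)
    (hd : d * ((β - α : ℤ) : R) = 1) {n : ℕ} (G : Gr n) (y : Fin n → ℤ) (i : Fin n) :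
    ∑ j, aM G i j • ev (aw (gm α β G) y j) =
      d * ((ev X + α) * ev (aw (gm α β G) y i) - α * (∑ j, ev (aw (gm α β G) y j)) -
        y i * ev (gm α β G).charpoly) := by
  have h := congrArg ev (aw_eq (gm α β G) y i)
  simp only [map_sum, map_mul, map_sub, eq_intCast, map_intCast] at h
  have h2 : ∀ j, ((gm α β G i j : ℤ) : R) * ev (aw (gm α β G) y j) =
      α * ev (aw (gm α β G) y j) - (if i = j then α * ev (aw (gm α β G) y j) else 0) +
        ((β - α : ℤ) : R) * (aM G i j • ev (aw (gm α β G) y j)) := by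
    intro j
    rw [gm_eq α β G i j, zsmul_eq_mul]
    split_ifs <;> push_cast <;> ring
  simp only [h2, sum_add_distrib, sum_sub_distrib, sum_ite_eq, mem_univ, if_true, ← mul_sum] at h
  linear_combination d * h - (∑ j, aM G i j • ev (aw (gm α β G) y j)) * hd

theorem bad_le {N : ℕ}
    (hSP : ∀ (Γ : Type) [AddCommGroup Γ] [Fintype Γ] (n m : ℕ)
      (L : Fin n → Γ → Γ) (ψ : AddChar Γ ℂ), N ≤ m → m ^ 3 ≤ n → Fintype.card Γ ≤ 2 ^ m →
      pr (fun G : Gr n => ∃ w : Fin n → Γ, (∀ i, ∑ j, aM G i j • w j = L i (w i)) ∧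
        (∃ i, ψ (w i) ≠ 1) ∧ ¬ Sprd ψ w) ≤ (999 / 1000) ^ n)
    {R : Type} [CommRing R] [Fintype R] (ev : ℤ[X] →+* R) (α β : ℤ) (d : R)
    (hd : d * ((β - α : ℤ) : R) = 1) {n m : ℕ} (hN : N ≤ m) (hn : m ^ 3 ≤ n)
    (hR : Fintype.card R ≤ 2 ^ m) (y : Fin n → ℤ) :
    pr (fun G : Gr n => Bad ev (gm α β G) y) ≤ 2 ^ (3 * m) * (999 / 1000) ^ n := by
  refine (pr_le_card_mul (univ : Finset (AddChar R ℂ × R × R))
    (fun t G => ∃ w : Fin n → R, (∀ i, ∑ j, aM G i j • w j =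
      (fun i x => d * ((ev X + α) * x - α * t.2.1 - y i * t.2.2)) i (w i)) ∧
      (∃ i, t.1 (w i) ≠ 1) ∧ ¬ Sprd t.1 w) (c := (999 / 1000) ^ n) ?_ ?_).trans ?_
  · rintro G ⟨ψ, h1, h2⟩
    exact ⟨(ψ, ∑ j, ev (aw (gm α β G) y j), ev (gm α β G).charpoly), mem_univ _,
      fun i => ev (aw (gm α β G) y i), fun i => row_eq ev α β d hd G y i, h1, h2⟩
  · intro t _
    exact hSP R n m (fun i x => d * ((ev X + α) * x - α * t.2.1 - y i * t.2.2)) t.1 hN hn hR
  · refine mul_le_mul_of_nonneg_right ?_ (by positivity)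
    have h1 : (univ : Finset (AddChar R ℂ × R × R)).card ≤ 2 ^ (3 * m) := by
      rw [card_univ, Fintype.card_prod, Fintype.card_prod]
      have h2 : Fintype.card (AddChar R ℂ) ≤ 2 ^ m := (AddChar.card_addChar_le R ℂ).trans hR
      calc _ ≤ 2 ^ m * (2 ^ m * 2 ^ m) := Nat.mul_le_mul h2 (Nat.mul_le_mul hR hR)
        _ = _ := by ring
    exact_mod_cast h1

/-- The difference of two bit vectors on `I`. -/
def yv {n : ℕ} (I : Finset (Fin n)) (ω : Bv n × Bv n) : Fin n → ℤ :=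
  fun j => if j ∈ I then sv 0 1 ω.1 j - sv 0 1 ω.2 j else 0

theorem w_eq {R : Type} [CommRing R] (ev : ℤ[X] →+* R) {n : ℕ} (M : Matrix (Fin n) (Fin n) ℤ)
    (I : Finset (Fin n)) (ω : Bv n × Bv n) (i : Fin n) :
    ∑ j ∈ I, (2 * (sv 0 1 ω.1 j - sv 0 1 ω.2 j)) • ev (M.charmatrix.adjugate i j) =
      ev (aw M (fun j => 2 * yv I ω j) i) := by
  simp only [aw, map_sum, map_mul, eq_intCast, map_intCast, zsmul_eq_mul]
  rw [← sum_subset (subset_univ I)]
  · refine sum_congr rfl fun j hj => ?_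
    simp only [yv, if_pos hj]
    push_cast
    ring
  · intro j _ hj
    simp [yv, hj]

theorem w_two {R : Type} [CommRing R] (ev : ℤ[X] →+* R) {n : ℕ} (M : Matrix (Fin n) (Fin n) ℤ)
    (y : Fin n → ℤ) (i : Fin n) : ev (aw M (fun j => 2 * y j) i) = 2 * ev (aw M y i) := by
  simp only [aw, map_sum, map_mul, eq_intCast, map_intCast, mul_sum]
  refine sum_congr rfl fun j _ => ?_
  push_cast
  ring

/-- A relation of low degree kills the difference. -/
def Kb (p D : ℕ) {n : ℕ} (M : Matrix (Fin n) (Fin n) ℤ) (y : Fin n → ℤ) : Prop :=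
  ∃ κ : (ZMod p)[X], κ ≠ 0 ∧ κ.natDegree < D ∧
    aeval (M.map (Int.cast : ℤ → ZMod p)) κ *ᵥ (fun i => (y i : ZMod p)) = 0

theorem kb_le (hKer : StKer) (α β : ℤ) (p : Nat.Primes) (D k : ℕ) {n : ℕ} (G : Gr n)
    (hG : Ker α β p D k G) (I : Finset (Fin n)) :
    pr (fun ω : Bv n × Bv n => Kb p.1 D (gm α β G) (yv I ω)) ≤
      (p.1 : ℝ) ^ D * (2 ^ (D * k) / 2 ^ I.card) := by
  have : NeZero p.1 := ⟨p.2.ne_zero⟩
  refine (pr_le_card_mul (univ : Finset (Fin D → ZMod p.1))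
    (fun c ω => (∑ i, monomial i.val (c i) : (ZMod p.1)[X]) ≠ 0 ∧
      (∑ i, monomial i.val (c i) : (ZMod p.1)[X]).natDegree < D ∧
      aeval ((gm α β G).map (Int.cast : ℤ → ZMod p.1))
        (∑ i, monomial i.val (c i) : (ZMod p.1)[X]) *ᵥ (fun i => (yv I ω i : ZMod p.1)) = 0)
    (c := 2 ^ (D * k) / 2 ^ I.card) ?_ ?_).trans ?_
  · rintro ω ⟨κ, h0, h1, h2⟩
    have e : (∑ i : Fin D, monomial i.val (κ.coeff i.val) : (ZMod p.1)[X]) = κ := by
      rw [Fin.sum_univ_eq_sum_range (fun i => monomial i (κ.coeff i)) D]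
      exact (as_sum_range' κ D h1).symm
    refine ⟨fun i => κ.coeff i.val, mem_univ _, ?_⟩
    simp only [e]
    exact ⟨h0, h1, h2⟩
  · intro c _
    generalize (∑ i, monomial i.val (c i) : (ZMod p.1)[X]) = κ
    by_cases h : κ ≠ 0 ∧ κ.natDegree < D
    · rw [pr_prod']
      refine ex_le_const (by positivity) fun t' => ?_
      refine le_trans (pr_mono fun t ht => ?_) ((hKer α β p D k n).2 G hG κ h.1 h.2.le I
        (aeval ((gm α β G).map (Int.cast : ℤ → ZMod p.1)) κ *ᵥ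
          fun j => if j ∈ I then ((sv 0 1 t' j : ℤ) : ZMod p.1) else 0))
      rw [← sub_eq_zero, ← mulVec_sub, ← ht.2.2]
      congr 1
      funext j
      by_cases hj : j ∈ I <;> simp [yv, hj]
    · rw [pr_false fun ω hω => h ⟨hω.1, hω.2.1⟩]
      positivity
  · rw [card_univ, Fintype.card_fun, ZMod.card, Fintype.card_fin]
    push_cast
    exact le_rfl

theorem adj_symm {n : ℕ} {M : Matrix (Fin n) (Fin n) ℤ} (hM : M.IsSymm) (i j : Fin n) :
    M.charmatrix.adjugate i j = M.charmatrix.adjugate j i := by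
  rw [← transpose_apply M.charmatrix.adjugate j i, adjugate_transpose, ← charmatrix_transpose,
    hM.eq]

theorem sq_le (hDec : StDec) (hKap : StKap) {R : Type} [CommRing R] [Fintype R] (p : Nat.Primes)
    (D : ℕ) (ev : ℤ[X] →+* R) (hL : Lev p.1 D ev) {n : ℕ} (M : Matrix (Fin n) (Fin n) ℤ)
    (hM : M.IsSymm) (I : Finset (Fin n)) (ψ : AddChar R ℂ)
    (hψ : ∃ r, ψ (2 * ev M.charpoly * r) ≠ 1) (u : Fin n → ℂ) (hu : ∀ i, ‖u i‖ = 1) :
    ‖exc fun s : Bv n => ψ (ev (bf M (sv 0 1 s) (sv 0 1 s))) *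
        ∏ i, if s i = true then u i else 1‖ ^ 2 ≤
      pr (fun ω : Bv n × Bv n => Bad ev M fun j => 2 * yv I ω j) +
        pr (fun ω : Bv n × Bv n => Kb p.1 D M (yv I ω)) + (15 / 16 : ℝ) ^ (n / 1000 - I.card) := by
  have h := hDec R ψ n (fun i j => ev (M.charmatrix.adjugate i j)) u I
    (fun i j => by rw [adj_symm hM i j]) hu
  simp only [ev_bf]
  refine h.trans ?_
  simp only [w_eq]
  rw [pr, pr, ← ex_add, ← ex_const (Ω := Bv n × Bv n) ((15 / 16 : ℝ) ^ (n / 1000 - I.card)),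
    ← ex_add]
  refine ex_mono fun ω => ?_
  have h1 : ∏ i ∈ Iᶜ, ‖1 + ψ (ev (aw M (fun j => 2 * yv I ω j) i))‖ / 2 ≤ 1 := by
    refine prod_le_one (fun i _ => by positivity) fun i _ => ?_
    have := norm_add_le 1 (ψ (ev (aw M (fun j => 2 * yv I ω j) i)))
    rw [norm_one, AddChar.norm_apply] at this
    linarith
  have h0 : (0 : ℝ) ≤ (15 / 16 : ℝ) ^ (n / 1000 - I.card) := by positivity
  by_cases hB : Bad ev M fun j => 2 * yv I ω j
  · rw [if_pos hB]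
    split_ifs <;> linarith
  by_cases hK : Kb p.1 D M (yv I ω)
  · rw [if_pos hK, if_neg hB]
    linarith
  rw [if_neg hB, if_neg hK, zero_add, zero_add]
  refine sprd_prod (w := fun i => ev (aw M (fun j => 2 * yv I ω j) i)) ?_ I
  by_contra hS
  refine hB ⟨ψ, ?_, hS⟩
  by_contra hall
  push Not at hall
  refine hK (hKap R p D ev n M (yv I ω) (ψ.mulShift 2) hL ?_ fun i => ?_)
  · obtain ⟨r, hr⟩ := hψ
    exact ⟨r, by rwa [AddChar.mulShift_apply, ← mul_assoc]⟩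
  · rw [AddChar.mulShift_apply, ← w_two]
    exact hall i

theorem unit_of {R : Type} [CommRing R] (p : Nat.Primes) (δ : ℤ) (h : ¬ (p.1 : ℤ) ∣ δ) {L : ℕ}
    (hL : (p.1 : R) ^ L = 0) : ∃ d : R, d * (δ : R) = 1 := by
  have h1 : IsCoprime ((p.1 : ℤ) ^ L) δ :=
    ((Nat.prime_iff_prime_int.1 p.2).irreducible.coprime_iff_not_dvd.2 h).pow_left
  obtain ⟨a, b, e⟩ := h1
  refine ⟨b, ?_⟩
  have := congrArg (Int.cast : ℤ → R) e
  push_cast at this
  rw [hL] at this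
  linear_combination this

theorem numA {D m : ℕ} {P : ℝ} (hm : 100 ≤ m) (hDm : D ≤ m) (hP0 : 0 ≤ P) (hP : P ≤ 2 ^ m) :
    (D : ℝ) * P * (8 * (2 / 3) ^ (8 * m)) ≤ (1 / 2) ^ (m + 1) := by
  have h1 : (D : ℝ) ≤ 2 ^ m := by
    have h4 : D ≤ 2 ^ m := hDm.trans (@Nat.lt_two_pow_self m).le
    exact_mod_cast h4
  have h2 : (2 / 3 : ℝ) ^ (8 * m) ≤ (1 / 2) ^ (m + m + 3 + (m + 1)) := by
    rw [show 8 * m = 2 * (4 * m) by ring, pow_mul]
    exact (pow_le_pow_left₀ (by positivity) (by norm_num) _).trans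
      (pow_le_pow_of_le_one (by norm_num) (by norm_num) (by omega))
  rw [← two_half (m + m + 3) (m + 1)]
  generalize (1 / 2 : ℝ) ^ (m + m + 3 + (m + 1)) = b at h2 ⊢
  calc (D : ℝ) * P * (8 * (2 / 3) ^ (8 * m)) ≤ 2 ^ m * 2 ^ m * (8 * b) := by gcongr
    _ = _ := by rw [pow_add, pow_add]; ring

theorem numB {a m c e : ℕ} {P : ℝ} (hP : P ≤ 2 ^ m) (h : m + a + e ≤ c) :
    P * (2 ^ a / 2 ^ c) ≤ (1 / 2 : ℝ) ^ e := by
  rw [← two_half (m + a) e]
  have h1 : (1 / 2 : ℝ) ^ c ≤ (1 / 2) ^ (m + a + e) :=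
    pow_le_pow_of_le_one (by norm_num) (by norm_num) h
  generalize (1 / 2 : ℝ) ^ (m + a + e) = b at h1 ⊢
  calc P * (2 ^ a / 2 ^ c) = P * (2 ^ a * (1 / 2) ^ c) := by rw [one_div, inv_pow, div_eq_mul_inv]
    _ ≤ 2 ^ m * (2 ^ a * b) := by gcongr
    _ = _ := by rw [pow_add]; ring

theorem swap_le {A B : Type} [Fintype A] [Fintype B] (E : A → B → Prop) {c e : ℝ} (hc : 0 ≤ c)
    (he : 0 < e) (h : ∀ b, pr (fun a => E a b) ≤ c) :
    pr (fun a => e ≤ pr fun b => E a b) ≤ c / e := by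
  refine (pr_markov (f := fun a => pr fun b => E a b) he (fun _ => pr_nonneg _)
    fun _ h => h).trans (div_le_div_of_nonneg_right ?_ he.le)
  exact ((pr_prod fun z : A × B => E z.1 z.2).symm.trans (pr_prod' _)).le.trans
    (ex_le_const hc h)

theorem numE {m n : ℕ} (h : 1000 * (10 * m + 3) ≤ n) :
    2 ^ (3 * m) * (999 / 1000 : ℝ) ^ n / (1 / 2) ^ (6 * m + 2) ≤ (1 / 2) ^ (m + 1) := by
  rw [div_le_iff₀ (by positivity), ← pow_add, ← two_half (3 * m)]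
  exact mul_le_mul_of_nonneg_left (pow999 (by omega)) (by positivity)

theorem numC (m : ℕ) : ((1 / 2 : ℝ) ^ (3 * m)) ^ 2 = 4 * (1 / 2) ^ (6 * m + 2) := by
  rw [← pow_mul, pow_add, show 3 * m * 2 = 6 * m by ring]
  ring

theorem numD (m : ℕ) : (1 / 2 : ℝ) ^ (m + 1) + (1 / 2) ^ (m + 1) = (1 / 2) ^ m := by ring

end EQAux

open EQAux

theorem pLin (hSP : StSP) : StLin := by
  obtain ⟨N, hSP⟩ := hSP
  refine ⟨max N 1000, fun R _ _ ev n m hN hn hR => ?_⟩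
  have hm : 1000 ≤ m := (le_max_right _ _).trans hN
  have hn' : 1000000 * m ≤ n := le_trans (by nlinarith [Nat.mul_le_mul hm hm]) hn
  have h1 := bad_le hSP ev 0 1 1 (by simp) ((le_max_left _ _).trans hN) hn hR (1 : Fin n → ℤ)
  refine le_trans (pr_mono fun G hG => ?_) (h1.trans ?_)
  · by_contra hB
    refine hG fun ψ hψ => ?_
    have hS : Sprd ψ fun i => ev (aw (aM G) 1 i) := by
      by_contra hS
      exact hB ⟨ψ, hψ, hS⟩
    simp only [ev_yy]
    exact (sprd_exc hS).trans (pow15 (by omega))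
  · rw [← two_half (3 * m) m]
    exact mul_le_mul_of_nonneg_left (pow999 (by omega)) (by positivity)

theorem pEQ (hSP : StSP) (hDec : StDec) (hKap : StKap) (hKer : StKer) : StEQ := by
  obtain ⟨N, hSP⟩ := hSP
  refine ⟨max N 100000, fun α β R _ _ p D ev n m hN hn hp hL hR hD => ?_⟩
  have hm : 100000 ≤ m := (le_max_right _ _).trans hN
  have hn1 : 100000 * (m * m) ≤ n := le_trans (by nlinarith [Nat.zero_le (m * m)]) hn
  have hmm : 100000 * m ≤ m * m := Nat.mul_le_mul_right m hm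
  have hDm : D ≤ m := by
    have h2 : 2 ^ D ≤ 2 ^ m := (Nat.pow_le_pow_left p.2.two_le D).trans hD
    exact (Nat.pow_le_pow_iff_right (by norm_num)).1 h2
  have hD' : (p.1 : ℝ) ^ D ≤ 2 ^ m := by exact_mod_cast hD
  obtain ⟨L, hL0⟩ := hL.2.1
  obtain ⟨d, hd⟩ := unit_of p (β - α) hp hL0
  obtain ⟨I, -, hI⟩ := exists_subset_card_eq (s := (univ : Finset (Fin n))) (n := 16 * (m * m))
    (by rw [card_univ, Fintype.card_fin]; omega)
  have hA : pr (fun G : Gr n => ¬ Ker α β p D (8 * m) G) ≤ (1 / 2) ^ (m + 1) := by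
    exact ((hKer α β p D (8 * m) n).1 hp).trans (numA (by omega) hDm (by positivity) hD')
  have hB : pr (fun G : Gr n => (1 / 2 : ℝ) ^ (6 * m + 2) ≤
      pr fun ω : Bv n × Bv n => Bad ev (gm α β G) fun j => 2 * yv I ω j) ≤ (1 / 2) ^ (m + 1) := by
    refine (swap_le (fun (G : Gr n) (ω : Bv n × Bv n) => Bad ev (gm α β G) fun j => 2 * yv I ω j)
      (c := 2 ^ (3 * m) * (999 / 1000) ^ n) (by positivity) (by positivity) fun ω => ?_).trans
      (numE (by omega))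
    exact bad_le hSP ev α β d hd ((le_max_left _ _).trans hN) hn hR fun j => 2 * yv I ω j
  refine le_trans (pr_le_add fun G hG => ?_) ((add_le_add hA hB).trans (numD m).le)
  by_contra hc
  push Not at hc
  refine hG fun ψ hψ u hu => ?_
  have h1 := sq_le hDec hKap p D ev hL _ (gm_symm α β G) I ψ hψ u hu
  have h2 := kb_le hKer α β p D (8 * m) G hc.1 I
  have h3 : (p.1 : ℝ) ^ D * (2 ^ (D * (8 * m)) / 2 ^ I.card) ≤ (1 / 2) ^ (6 * m + 2) := by
    have h4 : D * (8 * m) ≤ 8 * (m * m) :=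
      (Nat.mul_le_mul_right _ hDm).trans (le_of_eq (by ring))
    exact numB hD' (by omega)
  have h5 : (15 / 16 : ℝ) ^ (n / 1000 - I.card) ≤ (1 / 2) ^ (6 * m + 2) := pow15 (by omega)
  refine (pow_le_pow_iff_left₀ (norm_nonneg _) (by positivity) two_ne_zero).1 (h1.trans ?_)
  have h7 : (0 : ℝ) ≤ (1 / 2) ^ (6 * m + 2) := by positivity
  rw [numC]
  linarith [hc.2]

end Pool.Agent.P.MP_f57657_co.DG
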