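import Pool.Agent.P.MP_f57657_co.DG.Base

/-! Eigenvalues, roots of the characteristic polynomial and multiple roots. -/

open Matrix Finset Polynomial

namespace Pool.Agent.P.MP_f57657_co.DG

namespace EvAux

variable {K : Type} [Field K] {n : ℕ}

theorem chp (M : Matrix (Fin n) (Fin n) ℤ) :
    (M.map (Int.cast : ℤ → K)).charpoly = M.charpoly.map (algebraMap ℤ K) :=
  Matrix.charpoly_map M (algebraMap ℤ K)

theorem root_iff (M : Matrix (Fin n) (Fin n) ℤ) (θ : K) :
    1 ≤ gd K M θ ↔ (M.map (Int.cast : ℤ → K)).charpoly.IsRoot θ := by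
  rw [← Matrix.charpoly_toLin', ← Module.End.hasEigenvalue_iff_isRoot_charpoly,
    Module.End.hasEigenvalue_iff, gd, Nat.one_le_iff_ne_zero, ne_eq, Submodule.finrank_eq_zero]
  rfl

theorem gd_le (M : Matrix (Fin n) (Fin n) ℤ) (θ : K) :
    gd K M θ ≤ (M.map (Int.cast : ℤ → K)).charpoly.rootMultiplicity θ := by
  rw [← Matrix.charpoly_toLin']
  exact LinearMap.finrank_eigenspace_le _ θ

theorem dot_pow {N : Matrix (Fin n) (Fin n) K} (hN : N.IsSymm) {θ : K} {z : Fin n → K}
    (hz : N *ᵥ z = θ • z) (k : ℕ) (w : Fin n → K) :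
    z ⬝ᵥ (N ^ k *ᵥ w) = θ ^ k * (z ⬝ᵥ w) := by
  induction k with
  | zero => simp
  | succ k ih =>
    rw [pow_succ', ← mulVec_mulVec, dotProduct_mulVec, ← mulVec_transpose, hN.eq, hz,
      smul_dotProduct, ih, smul_eq_mul, pow_succ']
    ring

theorem dot_aeval {N : Matrix (Fin n) (Fin n) K} (hN : N.IsSymm) {θ : K} {z : Fin n → K}
    (hz : N *ᵥ z = θ • z) (h : K[X]) (w : Fin n → K) :
    z ⬝ᵥ (aeval N h *ᵥ w) = h.eval θ * (z ⬝ᵥ w) := by
  induction h using Polynomial.induction_on' with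
  | add p q hp hq => rw [map_add, add_mulVec, dotProduct_add, hp, hq, eval_add, add_mul]
  | monomial k a =>
    rw [aeval_monomial, eval_monomial, ← Algebra.smul_def, smul_mulVec, dotProduct_smul,
      dot_pow hN hz, smul_eq_mul, mul_assoc]

theorem two_le (M : Matrix (Fin n) (Fin n) ℤ) (hM : M.IsSymm) {θ : K} {z : Fin n → K}
    (hz : z ∈ eg K M θ) (h0 : z ≠ 0) (hi : z ⬝ᵥ z = 0) :
    2 ≤ (M.map (Int.cast : ℤ → K)).charpoly.rootMultiplicity θ := by
  set N := M.map (Int.cast : ℤ → K) with hN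
  by_contra hlt
  have h1 : 1 ≤ gd K M θ := one_le_gd.2 ⟨z, hz, h0⟩
  have h2 := gd_le M θ
  rw [← hN] at h2
  have h3 : N.charpoly.rootMultiplicity θ = 1 := by omega
  have h4 : Module.finrank K (eg K M θ) = 1 := by
    change gd K M θ = 1
    omega
  obtain ⟨h, e, hh⟩ := exists_eq_pow_rootMultiplicity_mul_and_not_dvd N.charpoly
    N.charpoly_monic.ne_zero θ
  rw [h3, pow_one] at e
  rw [dvd_iff_isRoot, IsRoot.def] at hh
  have hs : N.IsSymm := hM.map _
  apply h0
  have key : ∀ w : Fin n → K, z ⬝ᵥ w = 0 := by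
    intro w
    have h5 : aeval N h *ᵥ w ∈ eg K M θ := by
      rw [mem_eg', ← hN, ← sub_eq_zero]
      have h6 := N.aeval_self_charpoly
      rw [e, map_mul, map_sub, aeval_X, aeval_C] at h6
      have h7 := congrArg (fun A => A *ᵥ w) h6
      simp only [zero_mulVec] at h7
      rw [← mulVec_mulVec, sub_mulVec, Algebra.algebraMap_eq_smul_one, smul_mulVec,
        one_mulVec] at h7
      exact h7
    obtain ⟨c, hc⟩ := (finrank_eq_one_iff_of_nonzero' (⟨z, hz⟩ : eg K M θ)
      (fun e => h0 (congrArg Subtype.val e))).1 h4 ⟨_, h5⟩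
    have h8 : c • z = aeval N h *ᵥ w := congrArg Subtype.val hc
    have h9 := dot_aeval hs (mem_eg'.1 hz) h w
    rw [← h8, dotProduct_smul, hi, smul_zero] at h9
    exact (mul_eq_zero.1 h9.symm).resolve_left hh
  funext i
  simpa using key (Pi.single i 1)

end EvAux

open EvAux in
theorem pEv : StEv := by
  intro K _ n M
  refine ⟨fun θ => ?_, ?_, fun hM θ h => ?_⟩
  · rw [root_iff, chp, IsRoot.def, eval_map_algebraMap]
  · classical
    refine ⟨(M.map (Int.cast : ℤ → K)).charpoly.roots.toFinset, ?_, fun θ h => ?_⟩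
    · refine (Multiset.toFinset_card_le _).trans ((card_roots' _).trans ?_)
      rw [charpoly_natDegree_eq_dim, Fintype.card_fin]
    · rw [Multiset.mem_toFinset, mem_roots (charpoly_monic _).ne_zero]
      exact (root_iff M θ).1 h
  · have h2 : 2 ≤ (M.map (Int.cast : ℤ → K)).charpoly.rootMultiplicity θ := by
      rcases h with h | ⟨z, hz, h0, hi⟩
      · exact h.trans (gd_le M θ)
      · exact two_le M hM hz h0 hi
    have h3 := (one_lt_rootMultiplicity_iff_isRoot (charpoly_monic _).ne_zero).1 h2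
    rw [chp, derivative_map, IsRoot.def, IsRoot.def, eval_map_algebraMap,
      eval_map_algebraMap] at h3
    exact h3

end Pool.Agent.P.MP_f57657_co.DG
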