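import Pool.Agent.P.MP_f57657_co.DG.Tr

/-! From the uniform measure and integer matrices to the final form. -/

open Finset Filter Topology MeasureTheory

namespace Pool.Agent.P.MP_f57657_co.DG

theorem adj_real {n : ℕ} (G : Gr n) [DecidableRel G.Adj] :
    G.adjMatrix ℝ = (aM G).map (Int.castRingHom ℝ) := by
  ext i j
  simp only [SimpleGraph.adjMatrix_apply, gm, Matrix.map_apply, Matrix.of_apply]
  by_cases h : i = j
  · subst h
    simp
  · by_cases h' : G.Adj i j <;> simp [h, h']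

theorem aM_compl {n : ℕ} (G : Gr n) : aM Gᶜ = gm 1 0 G := by
  ext i j
  simp only [gm, Matrix.of_apply, SimpleGraph.compl_adj]
  by_cases h : i = j
  · simp [h]
  · by_cases h' : G.Adj i j <;> simp [h, h']

theorem ph_of_real {n : ℕ} {G H : Gr n} [DecidableRel G.Adj] [DecidableRel H.Adj]
    (h : (H.adjMatrix ℝ).charpoly = (G.adjMatrix ℝ).charpoly) : ph H = ph G := by
  rw [adj_real, adj_real, Matrix.charpoly_map, Matrix.charpoly_map] at h
  exact Polynomial.map_injective _ (RingHom.injective_int _) h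

open Classical in
theorem final_of (h : ∀ ε : ℝ, 0 < ε →
      ∃ N : ℕ, ∀ n ≥ N, pr (fun G : Gr n => ¬ (Core G ∧ DGS G)) ≤ ε)
    (p : unitInterval) (hp : (p : ℝ) = 1 / 2) :
    Tendsto (fun n : ℕ => (SimpleGraph.binomialRandom (Fin n) p).real
      {G | G.Connected ∧ (∀ v, 2 ≤ G.degree v) ∧ ∀ (m : ℕ) (H : SimpleGraph (Fin m)),
        (H.adjMatrix ℝ).charpoly = (G.adjMatrix ℝ).charpoly →
        (Hᶜ.adjMatrix ℝ).charpoly = (Gᶜ.adjMatrix ℝ).charpoly → Nonempty (H ≃g G)})
      atTop (𝓝 1) := by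
  rw [Metric.tendsto_atTop]
  intro ε hε
  obtain ⟨N, hN⟩ := h (ε / 2) (by positivity)
  refine ⟨N, fun n hn => ?_⟩
  set A : Set (Gr n) := {G | G.Connected ∧ (∀ v, 2 ≤ G.degree v) ∧
    ∀ (m : ℕ) (H : SimpleGraph (Fin m)),
      (H.adjMatrix ℝ).charpoly = (G.adjMatrix ℝ).charpoly →
      (Hᶜ.adjMatrix ℝ).charpoly = (Gᶜ.adjMatrix ℝ).charpoly → Nonempty (H ≃g G)} with hA
  have h1 : (SimpleGraph.binomialRandom (Fin n) p).real Aᶜ ≤ ε / 2 := by
    refine (real_le_pr p hp Aᶜ).trans (le_trans (pr_mono fun G hG => ?_) (hN n hn))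
    refine fun hc => hG ?_
    refine ⟨hc.1.1, fun v => ?_, fun m H a1 a2 => ?_⟩
    · obtain ⟨a, b, hab, ha, hb⟩ := hc.1.2 v
      rw [← SimpleGraph.card_neighborFinset_eq_degree]
      exact one_lt_card.2 ⟨a, by simpa using ha, b, by simpa using hb, hab⟩
    · obtain rfl : m = n := by
        have := congrArg Polynomial.natDegree a1
        simpa using this
      refine hc.2 H (ph_of_real a1) ?_
      rw [← aM_compl, ← aM_compl]
      exact ph_of_real a2
  have h2 := measureReal_union_le (μ := SimpleGraph.binomialRandom (Fin n) p) A Aᶜ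
  rw [Set.union_compl_self, probReal_univ] at h2
  have h3 : (SimpleGraph.binomialRandom (Fin n) p).real A ≤ 1 := measureReal_le_one
  rw [Real.dist_eq, abs_lt]
  constructor <;> linarith

end Pool.Agent.P.MP_f57657_co.DG
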