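import Pool.Agent.P.MP_f57657_co.DG.Base

/-! The matrix `ψ(A) Q` is integral. -/

open Matrix Finset Polynomial

namespace Pool.Agent.P.MP_f57657_co.DG

namespace IntAux

variable {n : ℕ}

/-- The matrix whose columns are `g_i(A) 1`. -/
noncomputable def zM (G : Gr n) : Matrix (Fin n) (Fin n) ℤ :=
  Matrix.of fun a i => (aeval (aM G) (aw (aM G) 1 i) *ᵥ (1 : Fin n → ℤ)) a

theorem sy (G : Gr n) (i j : Fin n) : aM G i j = aM G j i := (gm_symm 0 1 G).apply j i

theorem lin (M : Matrix (Fin n) (Fin n) ℤ) (c : Fin n → ℤ) (g : Fin n → ℤ[X]) (a : Fin n) :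
    ∑ i, (aeval M (g i) *ᵥ (1 : Fin n → ℤ)) a * c i =
      (aeval M (∑ i, C (c i) * g i) *ᵥ (1 : Fin n → ℤ)) a := by
  rw [map_sum, sum_mulVec, Finset.sum_apply]
  refine sum_congr rfl fun i _ => ?_
  rw [← smul_eq_C_mul, map_smul, smul_mulVec, Pi.smul_apply, smul_eq_mul, mul_comm]

theorem zM_comm (G : Gr n) : zM G * aM G = aM G * zM G := by
  ext a j
  have h1 : (zM G * aM G) a j =
      (aeval (aM G) (∑ i, C (aM G j i) * aw (aM G) 1 i) *ᵥ (1 : Fin n → ℤ)) a := by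
    rw [← lin, mul_apply]
    refine sum_congr rfl fun i _ => ?_
    rw [sy G j i]
    rfl
  rw [h1, aw_eq, map_sub, map_mul, map_mul, aeval_self_charpoly, mul_zero, sub_zero, aeval_X,
    ← mulVec_mulVec]
  rfl

theorem zM_one (G : Gr n) :
    zM G *ᵥ (1 : Fin n → ℤ) = aeval (aM G) (ps G) *ᵥ (1 : Fin n → ℤ) := by
  funext a
  have := lin (aM G) 1 (aw (aM G) 1) a
  exact this

theorem zM_eq (G : Gr n) (hW : (wk G).det ≠ 0) : zM G = aeval (aM G) (ps G) := by
  have hc : Commute (zM G - aeval (aM G) (ps G)) (aM G) := by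
    refine Commute.sub_left (zM_comm G) ?_
    have : aeval (aM G) (ps G * X) = aeval (aM G) (X * ps G) := by rw [mul_comm]
    simp only [map_mul, aeval_X] at this
    exact this
  have h1 : (zM G - aeval (aM G) (ps G)) *ᵥ (1 : Fin n → ℤ) = 0 := by
    rw [sub_mulVec, zM_one, sub_self]
  have h2 : (zM G - aeval (aM G) (ps G)) * wk G = 0 := by
    ext a k
    have : ((zM G - aeval (aM G) (ps G)) *ᵥ ((aM G ^ k.val) *ᵥ (1 : Fin n → ℤ))) a = 0 := by
      rw [mulVec_mulVec, (hc.pow_right k.val).eq, ← mulVec_mulVec, h1, mulVec_zero]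
      rfl
    exact this
  have h3 := congrArg (· * (wk G).adjugate) h2
  simp only [Matrix.mul_assoc, mul_adjugate, Matrix.zero_mul, Matrix.mul_smul, Matrix.mul_one,
    smul_eq_zero] at h3
  exact sub_eq_zero.1 (h3.resolve_left hW)

theorem aw_map (G : Gr n) (i : Fin n) :
    ∑ j, C ((aM G i j : ℤ) : ℚ) * (aw (aM G) 1 j).map (algebraMap ℤ ℚ) =
      X * (aw (aM G) 1 i).map (algebraMap ℤ ℚ) - (ph G).map (algebraMap ℤ ℚ) := by
  have := congrArg (Polynomial.map (algebraMap ℤ ℚ)) (aw_eq (aM G) 1 i)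
  simp only [Polynomial.map_sum, Polynomial.map_mul, Polynomial.map_sub, map_C, map_X,
    Pi.one_apply, map_one, one_mul] at this
  exact this

theorem transfer (G H : Gr n) (Q : Matrix (Fin n) (Fin n) ℚ) (hph : ph H = ph G)
    (hQ : Conj G H Q) (j : Fin n) :
    ∑ i, C (Q i j) * (aw (aM G) 1 i).map (algebraMap ℤ ℚ) =
      (aw (aM H) 1 j).map (algebraMap ℤ ℚ) := by
  obtain ⟨h1, h2, h3⟩ := hQ
  have h4 : ∀ j, ∑ l, Q l j = 1 := by
    intro j
    have : Qᵀ *ᵥ (Q *ᵥ (1 : Fin n → ℚ)) = 1 := by rw [mulVec_mulVec, h1, one_mulVec]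
    rw [h2] at this
    simpa [mulVec, dotProduct] using congrFun this j
  have h5 : ∀ i j, ∑ k, ((aM H j k : ℤ) : ℚ) * Q i k = ∑ l, Q l j * ((aM G l i : ℤ) : ℚ) := by
    intro i j
    have := congrFun (congrFun h3 i) j
    simp only [mul_apply, map_apply] at this
    calc ∑ k, ((aM H j k : ℤ) : ℚ) * Q i k = ∑ k, Q i k * ((aM H k j : ℤ) : ℚ) :=
          sum_congr rfl fun k _ => by rw [sy H j k, mul_comm]
      _ = ∑ l, ((aM G i l : ℤ) : ℚ) * Q l j := this.symm
      _ = _ := sum_congr rfl fun l _ => by rw [sy G i l, mul_comm]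
  set g : Fin n → ℚ[X] := fun i => (aw (aM G) 1 i).map (algebraMap ℤ ℚ) with hg
  set f : Fin n → ℚ[X] := fun i => (aw (aM H) 1 i).map (algebraMap ℤ ℚ) with hf
  have h6 : ∀ j, ∑ k, C ((aM H j k : ℤ) : ℚ) * ∑ i, C (Q i k) * g i =
      X * (∑ i, C (Q i j) * g i) - (ph G).map (algebraMap ℤ ℚ) := by
    intro j
    calc ∑ k, C ((aM H j k : ℤ) : ℚ) * ∑ i, C (Q i k) * g i
        = ∑ i, C (∑ k, ((aM H j k : ℤ) : ℚ) * Q i k) * g i := by
          simp only [mul_sum, map_sum, sum_mul, C_mul, mul_assoc]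
          exact sum_comm
      _ = ∑ l, C (Q l j) * ∑ i, C ((aM G l i : ℤ) : ℚ) * g i := by
          simp only [h5, mul_sum, map_sum, sum_mul, C_mul, mul_assoc]
          exact sum_comm
      _ = ∑ l, C (Q l j) * (X * g l - (ph G).map (algebraMap ℤ ℚ)) :=
          sum_congr rfl fun l _ => by rw [aw_map]
      _ = X * (∑ i, C (Q i j) * g i) - C (∑ l, Q l j) * (ph G).map (algebraMap ℤ ℚ) := by
          simp only [mul_sub, sum_sub_distrib, mul_sum, map_sum, sum_mul]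
          congr 1
          exact sum_congr rfl fun l _ => by ring
      _ = _ := by rw [h4, C_1, one_mul]
  have h7 : ((aM H).map (Int.cast : ℤ → ℚ)).charmatrix *ᵥ
      (fun j => ∑ i, C (Q i j) * g i - f j) = 0 := by
    funext j
    have a1 := h6 j
    have a2 := aw_map H j
    rw [hph] at a2
    simp only [mulVec, dotProduct, charmatrix_apply, diagonal_apply, sub_mul, sum_sub_distrib,
      ite_mul, zero_mul, sum_ite_eq, mem_univ, if_true, map_apply, Pi.zero_apply, mul_sub]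
    linear_combination a2 - a1
  have h8 := eq_zero_of_mulVec_eq_zero
    (((aM H).map (Int.cast : ℤ → ℚ)).charpoly_monic.ne_zero) h7
  exact sub_eq_zero.1 (congrFun h8 j)

theorem aeval_cast (M : Matrix (Fin n) (Fin n) ℤ) (p : ℤ[X]) :
    aeval (M.map (Int.cast : ℤ → ℚ)) p = (aeval M p).map (Int.cast : ℤ → ℚ) :=
  aeval_algHom_apply
    ((Int.castRingHom ℚ).mapMatrix (m := Fin n)).toIntAlgHom M p

theorem cast_col (M : Matrix (Fin n) (Fin n) ℤ) (p : ℤ[X]) (a : Fin n) :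
    (((aeval M p *ᵥ (1 : Fin n → ℤ)) a : ℤ) : ℚ) =
      (aeval (M.map (Int.cast : ℤ → ℚ)) (p.map (algebraMap ℤ ℚ)) *ᵥ (1 : Fin n → ℚ)) a := by
  rw [aeval_map_algebraMap, aeval_cast]
  simp [mulVec, dotProduct]

end IntAux

open IntAux in
theorem pInt : StInt := by
  intro n G H Q hph hW hQ a j
  refine ⟨(aeval (aM G) (aw (aM H) 1 j) *ᵥ (1 : Fin n → ℤ)) a, ?_⟩
  rw [cast_col, ← transfer G H Q hph hQ j, aeval_cast, ← zM_eq G hW, mul_apply, map_sum,
    sum_mulVec, Finset.sum_apply]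
  refine sum_congr rfl fun i _ => ?_
  rw [← smul_eq_C_mul, map_smul, smul_mulVec, Pi.smul_apply, smul_eq_mul, mul_comm, ← cast_col]
  rfl

end Pool.Agent.P.MP_f57657_co.DG
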