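import Pool.Agent.P.MP_f57657_co.DG.Base

/-! Invariance of the local conditions under changes inside the level ideal. -/

open Matrix Finset Polynomial

namespace Pool.Agent.P.MP_f57657_co.DG

namespace InvAux

theorem red_add (p : ℕ) (u v : ℤ[X]) : red p (u + v) = red p u + red p v := by
  simp [red]

theorem red_sub (p : ℕ) (u v : ℤ[X]) : red p (u - v) = red p u - red p v := by
  simp [red]

theorem red_mul (p : ℕ) (u v : ℤ[X]) : red p (u * v) = red p u * red p v := by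
  simp [red]

theorem red_pow (p : ℕ) (u : ℤ[X]) (k : ℕ) : red p (u ^ k) = red p u ^ k := by
  simp [red]

theorem red_surj (p : ℕ) (h : (ZMod p)[X]) : ∃ v : ℤ[X], red p v = h :=
  Polynomial.map_surjective (Int.castRingHom (ZMod p)) (ZMod.ringHom_surjective _) h

theorem red_zero {p : ℕ} {u : ℤ[X]} (h : red p u = 0) : ∃ b : ℤ[X], u = C (p : ℤ) * b := by
  have : C (p : ℤ) ∣ u := by
    rw [C_dvd_iff_dvd_coeff]
    intro i
    have h1 := congrArg (fun f => f.coeff i) h
    simp only [red, coeff_map, eq_intCast, coeff_zero] at h1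
    exact (ZMod.intCast_zmod_eq_zero_iff_dvd _ _).1 h1
  exact this

theorem red_Cpow (p L : ℕ) (hL : 1 ≤ L) : red p (C ((p : ℤ) ^ L)) = 0 := by
  rw [red, map_C]
  simp [Nat.one_le_iff_ne_zero.1 hL]

/-- Membership in the level ideal gives divisibility modulo `p`. -/
theorem il_dvd (hPl : StPl) (x : Pt) {L : ℕ} (hL : 1 ≤ L) {w : ℤ[X]} (h : w ∈ IL x L) :
    mp x ^ L ∣ red x.1.1 w := by
  obtain ⟨s, t, e⟩ := Ideal.mem_span_pair.1 h
  rw [← e, red_add, red_mul, red_mul, red_Cpow _ _ hL, red_pow, (hPl x).2.1, mul_zero, zero_add]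
  exact Dvd.intro_left _ rfl

/-- Splitting off the largest power of the minimal polynomial. -/
theorem split (hPl : StPl) (x : Pt) {r : ℕ} {g : ℤ[X]} (h : Ord x r g) :
    ∃ (o : ℕ) (q : (ZMod x.1.1)[X]), o < r ∧ ¬ mp x ∣ q ∧ red x.1.1 g = mp x ^ o * q := by
  have : Fact x.1.1.Prime := ⟨x.1.2⟩
  have h0 : red x.1.1 g ≠ 0 := fun e => h (e ▸ dvd_zero _)
  obtain ⟨o, q, hq, e⟩ := WfDvdMonoid.max_power_factor h0 (hPl x).2.2.2.2.1
  refine ⟨o, q, ?_, hq, e⟩
  by_contra hle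
  exact h (e ▸ (pow_dvd_pow _ (not_lt.1 hle)).mul_right _)

theorem coeff_pb {k : ℕ} (b : Bv k) (i : Fin k) :
    (pb b).coeff i.val = if b i = true then 1 else 0 := by
  rw [pb, finsetSum_coeff, sum_eq_single i]
  · split_ifs <;> simp
  · intro j _ hj
    have : i.val ≠ j.val := fun e => hj (Fin.ext e).symm
    split_ifs <;> simp [coeff_X_pow, this]
  · simp

theorem coeff_pb_ge {k : ℕ} (b : Bv k) (m : ℕ) (hm : k ≤ m) : (pb b).coeff m = 0 := by
  rw [pb, finsetSum_coeff]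
  refine sum_eq_zero fun j _ => ?_
  have : m ≠ j.val := by have := j.2; omega
  split_ifs <;> simp [coeff_X_pow, this]

theorem pr_single {Ω : Type} [Fintype Ω] (a : Ω) :
    pr (fun ω => ω = a) = 1 / Fintype.card Ω := by
  classical
  simp [pr, ex]

end InvAux

open InvAux

theorem pInv (hPl : StPl) : StInv := by
  intro x
  have : Fact x.1.1.Prime := ⟨x.1.2⟩
  refine ⟨?_, ?_, ?_⟩
  · intro r c L g z u a b hg hL1 hL2 hu hm
    obtain ⟨o, q, ho, hq, e⟩ := split hPl x hg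
    obtain ⟨v, rfl⟩ := red_surj _ q
    have hv : aeval x.2 v ≠ 0 := fun h => hq (((hPl x).2.2.2.2.2.2.1 v).1 h)
    obtain ⟨d, rfl⟩ := Nat.exists_eq_add_of_le ho.le
    obtain ⟨b1, e1⟩ : ∃ b1 : ℤ[X], v * lf x ^ (o + d) - lf x ^ d * g = C (x.1.1 : ℤ) * b1 := by
      apply red_zero
      rw [red_sub, red_mul, red_mul, red_pow, red_pow, (hPl x).2.1, e]
      ring
    obtain ⟨a1, e2⟩ := sub_dvd_pow_sub_pow (v * lf x ^ (o + d)) (C (x.1.1 : ℤ) * b1) (c + 1)
    have e3 : v * lf x ^ (o + d) - C (x.1.1 : ℤ) * b1 = lf x ^ d * g := by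
      linear_combination e1
    rw [e3, mul_pow, mul_pow, ← pow_mul] at e2
    obtain ⟨s, t, e4⟩ := Ideal.mem_span_pair.1 hm
    obtain ⟨m1, h1⟩ := Nat.exists_eq_add_of_le hL1
    obtain ⟨m2, h2⟩ := Nat.exists_eq_add_of_le hL2
    have e5 : lf x ^ L = lf x ^ ((o + d) * (c + 1)) * lf x ^ m1 := by rw [h1, pow_add]
    have e6 : C ((x.1.1 : ℤ) ^ L) = C (x.1.1 : ℤ) ^ (c + 1) * C (x.1.1 : ℤ) ^ m2 := by
      rw [h2, pow_add, C_mul, C_pow, C_pow]
    rw [e5, e6, C_pow] at e4
    refine ⟨v ^ (c + 1) * u - C (x.1.1 : ℤ) *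
      (v ^ (c + 1) * s * C (x.1.1 : ℤ) ^ m2 + t * lf x ^ m1 * b1 ^ (c + 1)),
      v ^ (c + 1) * a + t * lf x ^ m1 * lf x ^ d * a1, v ^ (c + 1) * b, ?_, ?_⟩
    · have hp : aeval x.2 (C (x.1.1 : ℤ)) = 0 := by
        rw [aeval_C]
        simp
      rw [map_sub, map_mul, map_mul, hp, zero_mul, sub_zero, map_pow]
      exact mul_ne_zero (pow_ne_zero _ hv) hu
    · rw [C_pow]
      linear_combination (-v ^ (c + 1)) * e4 + t * lf x ^ m1 * e2
  · intro r L z z' hr hL hm hz hz'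
    apply hz
    have h1 := (pow_dvd_pow (mp x) hr).trans (il_dvd hPl x hL hm)
    rw [red_sub] at h1
    simpa using dvd_add h1 hz'
  · intro r k L g z0 hg hL
    obtain ⟨o, q, ho, hq, e⟩ := split hPl x hg
    have hL1 : 1 ≤ L := by omega
    have key : ∀ b : Bv k, (∃ z, z - (z0 + g * pb b) ∈ IL x L ∧ ¬ Ord x (r + k) z) →
        mp x ^ (r + k) ∣ red x.1.1 (z0 + g * pb b) := by
      rintro b ⟨z, hm, hz⟩
      have h1 := (pow_dvd_pow (mp x) hL).trans (il_dvd hPl x hL1 hm)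
      rw [red_sub] at h1
      simpa using dvd_sub (not_not.1 hz) h1
    have uniq : ∀ b b' : Bv k, mp x ^ (r + k) ∣ red x.1.1 (z0 + g * pb b) →
        mp x ^ (r + k) ∣ red x.1.1 (z0 + g * pb b') → b = b' := by
      intro b b' h1 h2
      by_contra hne
      obtain ⟨i, hi⟩ := Function.ne_iff.1 hne
      have hirr := (hPl x).2.2.2.2.1
      have h3 : mp x ^ o * mp x ^ (k + 1) ∣ mp x ^ o * (q * red x.1.1 (pb b - pb b')) := by
        have h4 := dvd_sub h1 h2
        rw [← red_sub, show z0 + g * pb b - (z0 + g * pb b') = g * (pb b - pb b') by ring,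
          red_mul, e, mul_assoc] at h4
        rw [← pow_add]
        exact (pow_dvd_pow _ (by omega)).trans h4
      have h5 := (mul_dvd_mul_iff_left (pow_ne_zero o hirr.ne_zero)).1 h3
      have h6 : mp x ^ (k + 1) ∣ red x.1.1 (pb b - pb b') :=
        ((hirr.coprime_iff_not_dvd.2 hq).pow_left (m := k + 1)).dvd_of_dvd_mul_left h5
      have h7 : red x.1.1 (pb b - pb b') ≠ 0 := by
        intro e0
        have h8 := congrArg (fun f => f.coeff i.val) e0
        simp only [red, coeff_map, coeff_sub, coeff_pb, coeff_zero] at h8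
        cases hb : b i <;> cases hb' : b' i <;> simp_all
      have h8 := natDegree_le_of_dvd h6 h7
      rw [(hPl x).2.2.2.2.2.1.natDegree_pow] at h8
      have h9 : (red x.1.1 (pb b - pb b')).natDegree ≤ k := by
        rw [natDegree_le_iff_coeff_eq_zero]
        intro m hm
        simp [red, coeff_map, coeff_pb_ge _ m hm.le]
      have h10 : 1 ≤ (mp x).natDegree := (hPl x).2.2.2.1
      nlinarith
    by_cases hex : ∃ b : Bv k, ∃ z, z - (z0 + g * pb b) ∈ IL x L ∧ ¬ Ord x (r + k) z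
    · obtain ⟨b0, hb0⟩ := hex
      refine (pr_mono (F := fun b => b = b0) fun b hb => uniq _ _ (key b hb) (key b0 hb0)).trans ?_
      rw [pr_single]
      simp
    · rw [pr_false fun b hb => hex ⟨b, hb⟩]
      positivity

end Pool.Agent.P.MP_f57657_co.DG
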