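import Pool.Agent.P.MP_f57657_co.DG.Base

/-! Jacobi type identities for bordered matrices. -/

open Matrix Finset Polynomial

namespace Pool.Agent.P.MP_f57657_co.DG

namespace JacAux

variable {n : ℕ}

theorem uniq (M : Matrix (Fin n) (Fin n) ℤ) (w t : Fin n → ℤ[X])
    (h : ∀ i, X * w i - ∑ j, C (M i j) * w j = t i) (i : Fin n) :
    M.charpoly * w i = ∑ j, M.charmatrix.adjugate i j * t j := by
  have h1 : M.charmatrix *ᵥ w = t := by
    funext k
    rw [← h k]
    simp only [mulVec, dotProduct, charmatrix_apply, diagonal_apply, sub_mul, sum_sub_distrib,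
      ite_mul, zero_mul, sum_ite_eq, mem_univ, if_true]
  have h2 : M.charmatrix.adjugate *ᵥ t = M.charpoly • w := by
    rw [← h1, mulVec_mulVec, adjugate_mul, smul_mulVec, one_mulVec]
    rfl
  have h3 := congrFun h2 i
  simp only [mulVec, dotProduct, Pi.smul_apply, smul_eq_mul] at h3
  exact h3.symm

theorem adj_last (α β : ℤ) (G : Gr n) (s : Bv n) :
    (gm α β (bord G s)).charmatrix.adjugate (Fin.last n) (Fin.last n) = (gm α β G).charpoly := by
  rw [adjugate_fin_succ_eq_det_submatrix, Fin.succAbove_last, Even.neg_one_pow ⟨_, rfl⟩, one_mul,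
    Matrix.charpoly]
  congr 1
  ext i j : 2
  simp only [submatrix_apply, charmatrix_apply, diagonal_apply, Fin.castSucc_inj, gm_cc]

theorem sym_sum {R : Type} [CommRing R] (f : Fin n → Fin n → R) (hf : ∀ i j, f i j = f j i)
    (S : Finset (Fin n)) : ∃ h : R, ∑ i ∈ S, ∑ j ∈ S, f i j = ∑ i ∈ S, f i i + 2 * h := by
  induction S using Finset.induction_on with
  | empty => exact ⟨0, by simp⟩
  | insert a S ha ih =>
    obtain ⟨h, e⟩ := ih
    refine ⟨h + ∑ j ∈ S, f a j, ?_⟩
    simp only [sum_insert ha, sum_add_distrib]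
    rw [e, sum_congr rfl fun i _ => hf i a]
    ring

theorem one (α β : ℤ) (G : Gr n) (s : Bv n) : (gm α β (bord G s)).charpoly =
    X * (gm α β G).charpoly - bf (gm α β G) (sv α β s) (sv α β s) := by
  have h := uniq (gm α β (bord G s))
    (Fin.snoc (aw (gm α β G) (sv α β s)) (gm α β G).charpoly)
    (Fin.snoc (fun _ => 0) (X * (gm α β G).charpoly - bf (gm α β G) (sv α β s) (sv α β s)))
    (fun i => by
      induction i using Fin.lastCases with
      | last =>
        simp only [Fin.sum_univ_castSucc, Fin.snoc_last, Fin.snoc_castSucc, gm_lc, gm_diag, bf,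
          map_zero, zero_mul, add_zero]
      | cast i =>
        simp only [Fin.sum_univ_castSucc, Fin.snoc_last, Fin.snoc_castSucc, gm_cc, gm_cl, aw_eq]
        ring) (Fin.last n)
  simp only [Fin.sum_univ_castSucc, Fin.snoc_last, Fin.snoc_castSucc, mul_zero, sum_const_zero,
    zero_add, adj_last] at h
  exact mul_right_cancel₀ (gm α β G).charpoly_monic.ne_zero (h.trans (mul_comm _ _))

theorem two (G : Gr n) (s : Bv n) :
    ps (bord G s) * ph G = ps G * ph (bord G s) + (ph G + yy G s) ^ 2 := by
  have h1 := one 0 1 G s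
  have h := uniq (aM (bord G s))
    (Fin.snoc (fun i => ph (bord G s) * aw (aM G) 1 i + (ph G + yy G s) * aw (aM G) (sv 0 1 s) i)
      (ph G * (ph G + yy G s)))
    (fun _ => ph G * ph (bord G s))
    (fun i => by
      induction i using Fin.lastCases with
      | last =>
        simp only [Fin.sum_univ_castSucc, Fin.snoc_last, Fin.snoc_castSucc, gm_lc, gm_diag,
          map_zero, zero_mul, add_zero]
        have e : ∑ j, C (sv 0 1 s j) * (ph (bord G s) * aw (aM G) 1 j +
            (ph G + yy G s) * aw (aM G) (sv 0 1 s) j) = ph (bord G s) * yy G s +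
            (ph G + yy G s) * bf (aM G) (sv 0 1 s) (sv 0 1 s) := by
          simp only [bf, mul_sum, ← sum_add_distrib]
          exact sum_congr rfl fun j _ => by ring
        rw [e]
        linear_combination (-(ph G + yy G s)) * h1
      | cast i =>
        simp only [Fin.sum_univ_castSucc, Fin.snoc_last, Fin.snoc_castSucc, gm_cc, gm_cl]
        have e : ∑ j, C (aM G i j) * (ph (bord G s) * aw (aM G) 1 j +
            (ph G + yy G s) * aw (aM G) (sv 0 1 s) j) =
            ph (bord G s) * ∑ j, C (aM G i j) * aw (aM G) 1 j +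
            (ph G + yy G s) * ∑ j, C (aM G i j) * aw (aM G) (sv 0 1 s) j := by
          simp only [mul_sum, ← sum_add_distrib]
          exact sum_congr rfl fun j _ => by ring
        rw [e, aw_eq, aw_eq]
        simp only [Pi.one_apply, map_one]
        ring)
  have h2 : ∀ i, ph G * aw (aM (bord G s)) 1 i =
      (Fin.snoc (fun i => ph (bord G s) * aw (aM G) 1 i +
        (ph G + yy G s) * aw (aM G) (sv 0 1 s) i) (ph G * (ph G + yy G s)) :
        Fin (n + 1) → ℤ[X]) i := by
    intro i
    refine mul_left_cancel₀ (aM (bord G s)).charpoly_monic.ne_zero ?_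
    rw [h i, aw, mul_sum, mul_sum]
    exact sum_congr rfl fun j _ => by
      simp only [Pi.one_apply, map_one]
      ring
  have h3 : ∑ i, aw (aM G) (sv 0 1 s) i = yy G s := by
    rw [yy, bf_comm (gm_symm 0 1 G)]
    simp [bf]
  rw [ps_eq, mul_comm, mul_sum, sum_congr rfl fun i _ => h2 i, Fin.sum_univ_castSucc]
  simp only [Fin.snoc_last, Fin.snoc_castSucc]
  rw [sum_add_distrib, ← mul_sum, ← mul_sum, h3, ← ps_eq]
  ring

theorem three (G : Gr n) (y : Fin n → ℤ) :
    ∃ h : ℤ[X], ph G * bf (aM G) y y = X * bf (aM G) y 1 ^ 2 + 2 * h := by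
  obtain ⟨h1, e1⟩ := sym_sum (fun i j => C (aM G i j) * aw (aM G) y j * aw (aM G) y i)
    (fun i j => by
      have e : aM G j i = aM G i j := (gm_symm 0 1 G).apply i j
      rw [e]
      ring) univ
  obtain ⟨h2, e2⟩ := sym_sum (fun i j => aw (aM G) y i * aw (aM G) y j)
    (fun i j => mul_comm _ _) univ
  simp only [gm_diag, map_zero, zero_mul, sum_const_zero, zero_add, ← sum_mul, aw_eq] at e1
  have h3 : bf (aM G) y 1 = ∑ i, aw (aM G) y i := by
    rw [bf_comm (gm_symm 0 1 G)]
    simp [bf]
  have e3 : ∑ i, (X * aw (aM G) y i - C (y i) * ph G) * aw (aM G) y i =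
      X * ∑ i, aw (aM G) y i * aw (aM G) y i - ph G * bf (aM G) y y := by
    simp only [bf, mul_sum, ← sum_sub_distrib]
    exact sum_congr rfl fun j _ => by ring
  rw [e3] at e1
  refine ⟨-h1 - X * h2, ?_⟩
  rw [h3, sq, sum_mul_sum, e2]
  linear_combination -e1

end JacAux

theorem pJac : StJac := by
  refine ⟨fun α β _ G s => JacAux.one α β G s, fun _ G s => JacAux.two G s,
    fun _ G y => JacAux.three G y, fun _ G s => ?_⟩
  obtain ⟨h, e⟩ := JacAux.three G (sv 0 1 s)
  have h1 := JacAux.one 0 1 G s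
  refine ⟨-h - X * yy G s ^ 2 - X * ph G * yy G s, ?_⟩
  linear_combination ph G * h1 - e

end Pool.Agent.P.MP_f57657_co.DG
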