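import Pool.Agent.P.MP_f57657_co.DG.Base

/-! A character that kills `adj (X - M) y` but not the characteristic polynomial gives a
relation of small degree for `y` modulo `p`. -/

open Matrix Finset Polynomial

namespace Pool.Agent.P.MP_f57657_co.DG

namespace KapAux

variable {R : Type} [CommRing R]

/-- The kernel of an additive character. -/
def kr (ψ : AddChar R ℂ) : AddSubgroup R where
  carrier := {r | ψ r = 1}
  add_mem' := fun {a b} ha hb => by
    simp only [Set.mem_ofPred_eq] at ha hb ⊢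
    rw [AddChar.map_add_eq_mul, ha, hb, one_mul]
  zero_mem' := by simp
  neg_mem' := fun {a} ha => by
    simp only [Set.mem_ofPred_eq] at ha ⊢
    rw [AddChar.map_neg_eq_inv, ha, inv_one]

theorem mem_kr {ψ : AddChar R ℂ} {r : R} : r ∈ kr ψ ↔ ψ r = 1 := Iff.rfl

theorem int_mul_mem {S : AddSubgroup R} (a : ℤ) {r : R} (h : r ∈ S) : (a : R) * r ∈ S := by
  rw [← zsmul_eq_mul]
  exact S.zsmul_mem h a

/-- Divided differences: the vector `f(M) w` written out. -/
theorem dd (ev : ℤ[X] →+* R) {n : ℕ} (M : Matrix (Fin n) (Fin n) ℤ) (y : Fin n → ℤ)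
    (S : AddSubgroup R) (hw : ∀ i, ev (aw M y i) ∈ S) (k : ℕ) :
    ∀ f : ℤ[X], f.natDegree ≤ k → ∀ i, ev f * ev (aw M y i) - ev M.charpoly *
      ∑ l ∈ range k, (((M ^ l *ᵥ y) i : ℤ) : R) * ev (divX^[l + 1] f) ∈ S := by
  have hM : ∀ i, ∑ j, ((M i j : ℤ) : R) * ev (aw M y j) =
      ev X * ev (aw M y i) - (y i : R) * ev M.charpoly := by
    intro i
    have := congrArg ev (aw_eq M y i)
    simpa only [map_sum, map_mul, map_sub, eq_intCast, map_intCast] using this
  induction k with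
  | zero =>
    intro f hf i
    rw [eq_C_of_natDegree_le_zero hf]
    simp only [range_zero, sum_empty, mul_zero, sub_zero, eq_intCast, map_intCast]
    exact int_mul_mem _ (hw i)
  | succ k ih =>
    intro f hf i
    have hg : (divX f).natDegree ≤ k := by
      rw [natDegree_divX_eq_natDegree_tsub_one]
      omega
    have h1 := S.add_mem (S.sum_mem fun j (_ : j ∈ univ) => int_mul_mem (M i j) (ih _ hg j))
      (int_mul_mem (f.coeff 0) (hw i))
    have h2 : ev f = ev (divX f) * ev X + (f.coeff 0 : R) := by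
      conv_lhs => rw [← divX_mul_X_add f]
      simp only [map_add, map_mul, eq_intCast, map_intCast]
    have h3 : ∀ l, (((M ^ (l + 1) *ᵥ y) i : ℤ) : R) =
        ∑ j, ((M i j : ℤ) : R) * (((M ^ l *ᵥ y) j : ℤ) : R) := by
      intro l
      rw [pow_succ', ← mulVec_mulVec]
      simp only [mulVec, dotProduct, Int.cast_sum, Int.cast_mul]
    convert h1 using 1
    rw [sum_range_succ']
    simp only [h3, pow_zero, one_mulVec, zero_add, Function.iterate_one, mul_sub,
      sum_sub_distrib]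
    have h4 : ∑ j, ((M i j : ℤ) : R) * (ev (divX f) * ev (aw M y j)) =
        ev (divX f) * (ev X * ev (aw M y i) - (y i : R) * ev M.charpoly) := by
      rw [← hM, mul_sum]
      exact sum_congr rfl fun j _ => by ring
    have h5 : ∑ j, ((M i j : ℤ) : R) * (ev M.charpoly *
        ∑ l ∈ range k, (((M ^ l *ᵥ y) j : ℤ) : R) * ev (divX^[l + 1] (divX f))) =
        ev M.charpoly * ∑ l ∈ range k, (∑ j, ((M i j : ℤ) : R) * (((M ^ l *ᵥ y) j : ℤ) : R)) *
          ev (divX^[l + 1 + 1] f) := by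
      simp only [mul_sum, sum_mul]
      rw [sum_comm]
      refine sum_congr rfl fun l _ => sum_congr rfl fun j _ => ?_
      rw [Function.iterate_succ_apply divX (l + 1) f]
      ring
    rw [h4, h5, h2]
    ring

theorem coeff_iter (l : ℕ) : ∀ (f : ℤ[X]) (m : ℕ), (divX^[l] f).coeff m = f.coeff (m + l) := by
  induction l with
  | zero => intro f m; rfl
  | succ l ih =>
    intro f m
    rw [Function.iterate_succ_apply, ih, coeff_divX, add_assoc]

/-- The divided differences of a monic relation generate the ring additively. -/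
theorem gen (ev : ℤ[X] →+* R) (hs : Function.Surjective ev) {D : ℕ} {μ : ℤ[X]} (hμ : μ.Monic)
    (hD : μ.natDegree = D) (h0 : ev μ = 0) (S : AddSubgroup R)
    (hb : ∀ l < D, ev (divX^[l + 1] μ) ∈ S) (r : R) : r ∈ S := by
  have key : ∀ m, m ≤ D → ∀ f : ℤ[X], (∀ j, m ≤ j → f.coeff j = 0) → ev f ∈ S := by
    intro m
    induction m with
    | zero =>
      intro _ f hf
      have : f = 0 := Polynomial.ext fun j => by simpa using hf j (Nat.zero_le j)
      rw [this, map_zero]
      exact S.zero_mem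
    | succ m ih =>
      intro hm f hf
      have h1 : ev (f - C (f.coeff m) * divX^[D - 1 - m + 1] μ) ∈ S := by
        refine ih (by omega) _ fun j hj => ?_
        rw [coeff_sub, coeff_C_mul, coeff_iter]
        rcases hj.eq_or_lt with rfl | hj
        · have : m + (D - 1 - m + 1) = μ.natDegree := by omega
          rw [this, hμ.coeff_natDegree, mul_one, sub_self]
        · rw [hf j hj, coeff_eq_zero_of_natDegree_lt (p := μ) (by omega), mul_zero, sub_zero]
      have h2 := S.add_mem h1 (int_mul_mem (f.coeff m) (hb (D - 1 - m) (by omega)))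
      simpa only [map_sub, map_mul, eq_intCast, map_intCast, sub_add_cancel] using h2
  obtain ⟨f, rfl⟩ := hs r
  have h1 : ev f = ev (f %ₘ μ) := by
    conv_lhs => rw [← modByMonic_add_div f μ]
    rw [map_add, map_mul, h0, zero_mul, add_zero]
  rw [h1]
  refine key D le_rfl _ fun j hj => coeff_eq_zero_of_degree_lt ?_
  refine (degree_modByMonic_lt f hμ).trans_le ?_
  rw [degree_eq_natDegree hμ.ne_zero, hD]
  exact_mod_cast hj

/-- A nontrivial character of a ring killed by a power of `p` has a multiple of order `p`. -/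
theorem top (ψ : AddChar R ℂ) (p : ℕ) (γ : R) (L : ℕ) (hL : (p : R) ^ L = 0)
    (h : ∃ r, ψ (γ * r) ≠ 1) :
    ∃ e : ℕ, (∃ r, ψ ((p : R) ^ e * γ * r) ≠ 1) ∧ ∀ r, ψ ((p : R) ^ (e + 1) * γ * r) = 1 := by
  by_contra hc
  have : ∀ e : ℕ, ∃ r, ψ ((p : R) ^ e * γ * r) ≠ 1 := by
    intro e
    induction e with
    | zero => simpa using h
    | succ e ih =>
      by_contra h2
      exact hc ⟨e, ih, fun r => by
        by_contra h3
        exact h2 ⟨r, h3⟩⟩
  obtain ⟨r, hr⟩ := this L
  rw [hL] at hr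
  simp at hr

end KapAux

open KapAux in
theorem pKap : StKap := by
  intro R _ p D ev n M y ψ hlev hne hw
  obtain ⟨hs, ⟨L, hL⟩, μ, hμ, hD, h0⟩ := hlev
  obtain ⟨e, ⟨r0, hr0⟩, he⟩ := top ψ p.1 _ L hL hne
  set γ : R := (p.1 : R) ^ e * ev M.charpoly with hγ
  have hp : p.1 ≠ 0 := p.2.ne_zero
  have : NeZero p.1 := ⟨hp⟩
  have hζ := Complex.isPrimitiveRoot_exp p.1 hp
  set ζ := Complex.exp (2 * Real.pi * Complex.I / p.1) with hζd
  have hroot : ∀ r, ∃ k : ℕ, ζ ^ k = ψ (γ * r) := by
    intro r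
    have : ψ (γ * r) ^ p.1 = 1 := by
      rw [← AddChar.map_nsmul_eq_pow, ← he r, nsmul_eq_mul, hγ]
      congr 1
      ring
    obtain ⟨k, -, hk⟩ := hζ.eq_pow_of_pow_eq_one this
    exact ⟨k, hk⟩
  choose kp hkp using hroot
  have hrel : ∀ i, ψ (∑ l ∈ range D, ((M ^ l *ᵥ y) i : ℤ) • (γ * ev (divX^[l + 1] μ))) = 1 := by
    intro i
    have h1 := dd ev M y (kr ψ) hw D μ hD.le i
    rw [h0, zero_mul, zero_sub, neg_mem_iff] at h1
    have h2 := int_mul_mem ((p.1 : ℤ) ^ e) h1
    rw [mem_kr] at h2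
    rw [← h2]
    congr 1
    simp only [zsmul_eq_mul, hγ, mul_sum, Int.cast_pow, Int.cast_natCast]
    exact sum_congr rfl fun l _ => by ring
  have hζ0 : ζ ≠ 0 := hζ.ne_zero hp
  have hsum : ∀ (T : Finset ℕ) (a : ℕ → ℤ) (b : ℕ → R),
      ψ (∑ l ∈ T, a l • (γ * b l)) = ζ ^ (∑ l ∈ T, (kp (b l) : ℤ) * a l) := by
    intro T a b
    induction T using Finset.induction_on with
    | empty => simp
    | insert x T hx ih =>
      rw [sum_insert hx, sum_insert hx, AddChar.map_add_eq_mul, ih, zpow_add₀ hζ0,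
        AddChar.map_zsmul_eq_zpow, ← hkp, _root_.zpow_mul, zpow_natCast]
  set κ : (ZMod p.1)[X] :=
    ∑ l ∈ range D, C ((kp (ev (divX^[l + 1] μ)) : ℕ) : ZMod p.1) * X ^ l with hκ
  have hco : ∀ j, κ.coeff j =
      if j < D then ((kp (ev (divX^[j + 1] μ)) : ℕ) : ZMod p.1) else 0 := by
    intro j
    simp only [hκ, finsetSum_coeff, coeff_C_mul_X_pow]
    rw [sum_ite_eq]
    simp only [mem_range]
  have hκ0 : κ ≠ 0 := by
    intro hz
    apply hr0
    refine gen ev hs hμ hD h0 ((kr ψ).comap (AddMonoidHom.mulLeft γ)) (fun l hl => ?_) r0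
    have h1 := hco l
    rw [hz, coeff_zero, if_pos hl, eq_comm, ZMod.natCast_eq_zero_iff] at h1
    change ψ (γ * _) = 1
    rw [← hkp]
    exact (hζ.pow_eq_one_iff_dvd _).2 h1
  refine ⟨κ, hκ0, ?_, ?_⟩
  · by_contra hlt
    have h1 := hco κ.natDegree
    rw [if_neg hlt] at h1
    exact hκ0 (leadingCoeff_eq_zero.1 h1)
  · funext i
    have h1 := hrel i
    rw [hsum, hζ.zpow_eq_one_iff_dvd, ← ZMod.intCast_zmod_eq_zero_iff_dvd] at h1
    have h2 : ∀ l : ℕ, ((M.map (Int.cast : ℤ → ZMod p.1)) ^ l *ᵥ fun i => (y i : ZMod p.1)) i =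
        (((M ^ l *ᵥ y) i : ℤ) : ZMod p.1) := by
      intro l
      have h3 : (M.map (Int.cast : ℤ → ZMod p.1)) ^ l =
          (M ^ l).map (Int.cast : ℤ → ZMod p.1) :=
        (map_pow (Int.castRingHom (ZMod p.1)).mapMatrix M l).symm
      rw [h3]
      simp only [mulVec, dotProduct, map_apply, Int.cast_sum, Int.cast_mul]
    rw [Pi.zero_apply, ← h1, hκ]
    simp only [map_sum, map_mul, map_pow, aeval_X, aeval_C, sum_mulVec, Finset.sum_apply,
      Int.cast_sum, Int.cast_mul, Int.cast_natCast]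
    refine sum_congr rfl fun l _ => ?_
    rw [← h2, ← Algebra.smul_def, smul_mulVec, Pi.smul_apply, smul_eq_mul]

end Pool.Agent.P.MP_f57657_co.DG
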