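import Pool.Agent.P.MP_f57657_co.DG.Base

/-! Multiplicities of eigenvalues of small degree and kernels of polynomials in the matrix. -/

open Matrix Finset Polynomial

namespace Pool.Agent.P.MP_f57657_co.DG

namespace KerAux

theorem fr_comp {K V : Type} [Field K] [AddCommGroup V] [Module K V] [FiniteDimensional K V]
    (A B : V →ₗ[K] V) : Module.finrank K (LinearMap.ker (A ∘ₗ B)) ≤
      Module.finrank K (LinearMap.ker A) + Module.finrank K (LinearMap.ker B) := by
  have h1 := LinearMap.finrank_range_add_finrank_ker (B.domRestrict (LinearMap.ker (A ∘ₗ B)))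
  have h2 : Module.finrank K (LinearMap.range (B.domRestrict (LinearMap.ker (A ∘ₗ B)))) ≤
      Module.finrank K (LinearMap.ker A) :=
    Submodule.finrank_mono (by rintro _ ⟨x, rfl⟩; exact x.2)
  have h3 : Module.finrank K (LinearMap.ker (B.domRestrict (LinearMap.ker (A ∘ₗ B)))) ≤
      Module.finrank K (LinearMap.ker B) := by
    rw [← Submodule.finrank_map_subtype_eq]
    apply Submodule.finrank_mono
    rintro _ ⟨x, hx, rfl⟩
    exact hx
  omega

theorem fr_aeval {K : Type} [Field K] [IsAlgClosed K] {n : ℕ} (M : Matrix (Fin n) (Fin n) ℤ)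
    (k : ℕ) : ∀ (d : ℕ) (q : K[X]), q ≠ 0 → q.natDegree = d →
      (∀ θ, q.IsRoot θ → gd K M θ ≤ k) →
      Module.finrank K (LinearMap.ker
        (Matrix.toLin' (aeval (M.map (Int.cast : ℤ → K)) q))) ≤ d * k := by
  intro d
  induction d with
  | zero =>
    intro q h0 hd _
    obtain ⟨c, rfl⟩ := natDegree_eq_zero.1 hd
    have hc : c ≠ 0 := fun e => h0 (by rw [e, C_0])
    have : LinearMap.ker (Matrix.toLin' (aeval (M.map (Int.cast : ℤ → K)) (C c))) = ⊥ := by
      rw [eq_bot_iff]
      intro z hz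
      rw [LinearMap.mem_ker, aeval_C, Algebra.algebraMap_eq_smul_one, Matrix.toLin'_apply,
        smul_mulVec, one_mulVec] at hz
      exact (smul_eq_zero.1 hz).resolve_left hc
    rw [this]
    simp
  | succ d ih =>
    intro q h0 hd hr
    obtain ⟨θ, hθ⟩ := IsAlgClosed.exists_root q (by
      rw [degree_eq_natDegree h0, hd]
      exact_mod_cast Nat.succ_ne_zero d)
    obtain ⟨q', rfl⟩ := dvd_iff_isRoot.2 hθ
    have h1 : q' ≠ 0 := right_ne_zero_of_mul h0
    have h2 : q'.natDegree = d := by
      rw [natDegree_mul (X_sub_C_ne_zero θ) h1, natDegree_X_sub_C] at hd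
      omega
    have h3 := ih q' h1 h2 fun t ht => hr t (by rw [root_mul]; exact Or.inr ht)
    have h4 : LinearMap.ker (Matrix.toLin' (aeval (M.map (Int.cast : ℤ → K)) (X - C θ))) =
        eg K M θ := by
      ext z
      rw [LinearMap.mem_ker, mem_eg', map_sub, aeval_X, aeval_C, Algebra.algebraMap_eq_smul_one,
        Matrix.toLin'_apply, sub_mulVec, smul_mulVec, one_mulVec, sub_eq_zero]
    have h5 : Module.finrank K (eg K M θ) ≤ k := hr θ hθ
    rw [map_mul, Matrix.toLin'_mul]
    refine (fr_comp _ _).trans ?_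
    rw [h4, Nat.succ_mul]
    omega

theorem aeval_lift {F K : Type} [Field F] [Field K] [Algebra F K] {n : ℕ}
    (M : Matrix (Fin n) (Fin n) ℤ) (κ : F[X]) (v : Fin n → F) (i : Fin n) :
    (aeval (M.map (Int.cast : ℤ → K)) (κ.map (algebraMap F K)) *ᵥ
      fun j => algebraMap F K (v j)) i =
      algebraMap F K ((aeval (M.map (Int.cast : ℤ → F)) κ *ᵥ v) i) := by
  have h1 : M.map (Int.cast : ℤ → K) =
      (Algebra.ofId F K).mapMatrix (M.map (Int.cast : ℤ → F)) := by
    ext a b
    simp
  rw [aeval_map_algebraMap, h1, aeval_algHom_apply, RingHom.map_mulVec]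
  rfl

end KerAux

open KerAux in
theorem pKer (hReg : StReg) (hOdl : StOdl) (hPlc : StPlc) : StKer := by
  intro α β p D k n
  refine ⟨fun hp => ?_, fun G hG κ h0 hD I b => ?_⟩
  · obtain ⟨F, hF, hmem⟩ := hPlc.2 p D
    have hc : ((β - α : ℤ) : FF p) ≠ 0 := by
      rw [Ne, CharP.intCast_eq_zero_iff (FF p) p.1]
      exact hp
    have h1 : pr (fun G : Gr n => ¬ Ker α β p D k G) ≤ F.card * (8 * (2 / 3 : ℝ) ^ k) := by
      refine pr_le_card_mul F (fun θ G => k ≤ gd (FF p) (gm α β G) θ) (fun G hG => ?_)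
        fun θ _ => ?_
      · simp only [Ker, not_forall, not_le] at hG
        obtain ⟨θ, h1, h2⟩ := hG
        exact ⟨θ, hmem θ h1, h2.le⟩
      · refine (pr_markov (f := fun G : Gr n => (3 / 2 : ℝ) ^ gd (FF p) (gm α β G) θ)
          (c := (3 / 2 : ℝ) ^ k) (by positivity) (fun _ => by positivity)
          fun G hG => pow_le_pow_right₀ (by norm_num) hG).trans ?_
        have h2 := (hReg (FF p) α β θ hc).1 n
        have h3 : (2 / 3 : ℝ) ^ k = ((3 / 2 : ℝ) ^ k)⁻¹ := by
          rw [← inv_pow]
          norm_num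
        rw [h3, div_eq_mul_inv]
        exact mul_le_mul_of_nonneg_right h2 (by positivity)
    refine h1.trans (mul_le_mul_of_nonneg_right ?_ (by positivity))
    exact_mod_cast hF
  · by_cases hex : ∃ s0 : Bv n, aeval ((gm α β G).map (Int.cast : ℤ → ZMod p.1)) κ *ᵥ
        (fun j => if j ∈ I then ((sv 0 1 s0 j : ℤ) : ZMod p.1) else 0) = b
    · obtain ⟨s0, hs0⟩ := hex
      have hk0 : κ.map (algebraMap (ZMod p.1) (FF p)) ≠ 0 := Polynomial.map_ne_zero h0
      have hW := fr_aeval (gm α β G) k _ (κ.map (algebraMap (ZMod p.1) (FF p))) hk0 rfl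
        fun θ hθ => hG θ (by
          have h1 : aeval θ κ = 0 := by
            rw [aeval_def, ← eval_map]
            exact hθ
          exact (natDegree_le_of_dvd (minpoly.dvd _ θ h1) h0).trans hD)
      have hlift : ∀ s : Bv n, aeval ((gm α β G).map (Int.cast : ℤ → ZMod p.1)) κ *ᵥ
          (fun j => if j ∈ I then ((sv 0 1 s j : ℤ) : ZMod p.1) else 0) = b →
          aeval ((gm α β G).map (Int.cast : ℤ → FF p)) (κ.map (algebraMap (ZMod p.1) (FF p))) *ᵥ
            (fun j => if j ∈ I then ((sv 0 1 s j : ℤ) : FF p) else 0) =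
            fun i => algebraMap (ZMod p.1) (FF p) (b i) := by
        intro s hs
        funext i
        rw [← hs, ← aeval_lift]
        congr 1
        funext j
        split_ifs <;> simp
      refine le_trans (pr_mono fun s hs => ?_) (((hOdl (FF p) n).2.1
        (LinearMap.ker (Matrix.toLin' (aeval ((gm α β G).map (Int.cast : ℤ → FF p))
          (κ.map (algebraMap (ZMod p.1) (FF p)))))) I
        (fun j => if j ∈ I then ((sv 0 1 s0 j : ℤ) : FF p) else 0)).trans ?_)
      · rw [LinearMap.mem_ker, Matrix.toLin'_apply, mulVec_sub, hlift s hs, hlift s0 hs0, sub_self]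
      · refine div_le_div_of_nonneg_right (pow_le_pow_right₀ (by norm_num) (hW.trans ?_))
          (by positivity)
        rw [natDegree_map]
        exact Nat.mul_le_mul_right k hD
    · rw [pr_false fun s hs => hex ⟨s, hs⟩]
      positivity

end Pool.Agent.P.MP_f57657_co.DG
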