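import Pool.Agent.P.MP_f57657_co.DG.Base

/-! The level of a rational orthogonal conjugating matrix and its active points. -/

open Matrix Finset Polynomial

namespace Pool.Agent.P.MP_f57657_co.DG

namespace LevAux

variable {m : ℕ}

theorem aeval_map (R : Type) [CommRing R] (M : Matrix (Fin m) (Fin m) ℤ) (u : ℤ[X]) :
    aeval (M.map (Int.cast : ℤ → R)) u = (aeval M u).map (Int.cast : ℤ → R) := by
  rw [aeval_eq_sum_range, aeval_eq_sum_range]
  change _ = (Int.castRingHom R).mapMatrix _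
  rw [map_sum]
  refine sum_congr rfl fun k _ => ?_
  rw [map_zsmul, map_pow]
  rfl

theorem aeval_int {K : Type} [CommRing K] [Algebra ℤ K] (θ : K) (u : ℤ[X]) :
    aeval θ u = eval₂ (Int.castRingHom K) θ u := by
  rw [aeval_def, RingHom.ext_int (algebraMap ℤ K) (Int.castRingHom K)]

theorem aeval_semi {R : Type} [CommRing R] {A A' Z : Matrix (Fin m) (Fin m) R}
    (h : A * Z = Z * A') (u : ℤ[X]) : aeval A u * Z = Z * aeval A' u := by
  have hk : ∀ k : ℕ, A ^ k * Z = Z * A' ^ k := fun k =>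
    (SemiconjBy.pow_right (a := Z) (x := A') (y := A) h.symm k).symm
  induction u using Polynomial.induction_on' with
  | add a b ha hb => rw [map_add, map_add, add_mul, mul_add, ha, hb]
  | monomial k a =>
    rw [aeval_monomial, aeval_monomial, mul_assoc, hk, ← mul_assoc, ← mul_assoc,
      Algebra.commutes]

theorem aeval_eig {K : Type} [Field K] {A : Matrix (Fin m) (Fin m) K} {θ : K} {z : Fin m → K}
    (h : A *ᵥ z = θ • z) (u : ℤ[X]) :
    aeval A u *ᵥ z = eval₂ (Int.castRingHom K) θ u • z := by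
  rw [← aeval_int]
  have hk : ∀ k : ℕ, A ^ k *ᵥ z = θ ^ k • z := by
    intro k
    induction k with
    | zero => simp
    | succ k ih => rw [pow_succ, ← mulVec_mulVec, h, mulVec_smul, ih, smul_smul, pow_succ, mul_comm]
  induction u using Polynomial.induction_on' with
  | add a b ha hb => rw [map_add, map_add, add_mulVec, add_smul, ha, hb]
  | monomial k a =>
    rw [aeval_monomial, aeval_monomial, ← Algebra.smul_def, ← Algebra.smul_def, smul_mulVec, hk,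
      smul_assoc]

theorem exists_eig {K : Type} [Field K] [IsAlgClosed K] {A A' Z : Matrix (Fin m) (Fin m) K}
    (h : A * Z = Z * A') (hZ : Z ≠ 0) :
    ∃ (θ : K) (w : Fin m → K), Z *ᵥ w ≠ 0 ∧ A *ᵥ (Z *ᵥ w) = θ • (Z *ᵥ w) := by
  have hV : ∀ v ∈ LinearMap.range (Matrix.toLin' Z),
      Matrix.toLin' A v ∈ LinearMap.range (Matrix.toLin' Z) := by
    rintro _ ⟨w, rfl⟩
    refine ⟨A' *ᵥ w, ?_⟩
    simp only [Matrix.toLin'_apply, mulVec_mulVec, h]
  have hne : LinearMap.range (Matrix.toLin' Z) ≠ ⊥ := by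
    intro e
    rw [LinearMap.range_eq_bot] at e
    exact hZ (Matrix.toLin'.injective (by rw [e, map_zero]))
  haveI : Nontrivial (LinearMap.range (Matrix.toLin' Z)) := Submodule.nontrivial_iff_ne_bot.2 hne
  obtain ⟨θ, hθ⟩ := Module.End.exists_eigenvalue ((Matrix.toLin' A).restrict hV)
  obtain ⟨⟨_, w, rfl⟩, hv⟩ := hθ.exists_hasEigenvector
  refine ⟨θ, w, fun e => hv.2 (Subtype.ext e), ?_⟩
  have h1 := congrArg Subtype.val hv.apply_eq_smul
  simpa [LinearMap.restrict_apply, Matrix.toLin'_apply] using h1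

/-- Descent of a vector from an extension of the prime field to the integers. -/
theorem descend {p : ℕ} [Fact p.Prime] {K : Type} [Field K] [Algebra (ZMod p) K]
    (B Z : Matrix (Fin m) (Fin m) ℤ) (w : Fin m → K) (hZ : Z.map (Int.cast : ℤ → K) *ᵥ w ≠ 0)
    (hB : B.map (Int.cast : ℤ → K) *ᵥ w = 0) :
    ∃ c : Fin m → ℤ, (∃ i, ¬ (p : ℤ) ∣ (Z *ᵥ c) i) ∧ ∀ i, (p : ℤ) ∣ (B *ᵥ c) i := by
  obtain ⟨i, hi⟩ := Function.ne_iff.1 hZ
  obtain ⟨φ, hφ⟩ : ∃ φ : Module.Dual (ZMod p) K, φ ((Z.map (Int.cast : ℤ → K) *ᵥ w) i) ≠ 0 := by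
    by_contra hc
    push Not at hc
    exact hi ((Module.forall_dual_apply_eq_zero_iff (ZMod p) _).1 hc)
  have key : ∀ (M : Matrix (Fin m) (Fin m) ℤ) (j : Fin m),
      (((M *ᵥ fun k => ((φ (w k)).cast : ℤ)) j : ℤ) : ZMod p) =
        φ ((M.map (Int.cast : ℤ → K) *ᵥ w) j) := by
    intro M j
    simp only [mulVec, dotProduct, map_apply, Int.cast_sum, Int.cast_mul, ZMod.intCast_cast,
      ZMod.cast_id', id_eq, map_sum]
    refine sum_congr rfl fun k _ => ?_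
    rw [← zsmul_eq_mul, ← zsmul_eq_mul, map_zsmul]
  refine ⟨fun k => ((φ (w k)).cast : ℤ), ⟨i, fun hd => hφ ?_⟩, fun j => ?_⟩
  · rw [← key, (ZMod.intCast_zmod_eq_zero_iff_dvd _ _).2 hd]
  · rw [← ZMod.intCast_zmod_eq_zero_iff_dvd, key, hB, Pi.zero_apply, map_zero]

theorem exists_lev (Q : Matrix (Fin m) (Fin m) ℚ) : ∃ l : ℕ, 0 < l ∧ Intg ((l : ℚ) • Q) := by
  refine ⟨∏ a : Fin m × Fin m, (Q a.1 a.2).den, prod_pos fun a _ => (Q a.1 a.2).den_pos, ?_⟩
  intro i j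
  obtain ⟨d, hd⟩ := dvd_prod_of_mem (fun a : Fin m × Fin m => (Q a.1 a.2).den) (mem_univ (i, j))
  refine ⟨d * (Q i j).num, ?_⟩
  rw [hd, Matrix.smul_apply, smul_eq_mul]
  push_cast
  rw [← Rat.mul_den_eq_num]
  ring

theorem cast_inj_mat {M N : Matrix (Fin m) (Fin m) ℤ}
    (h : M.map (Int.cast : ℤ → ℚ) = N.map (Int.cast : ℤ → ℚ)) : M = N := by
  ext i j
  exact Int.cast_injective (α := ℚ) (congrFun (congrFun h i) j)

theorem cast_mul_mat (R : Type) [CommRing R] (M N : Matrix (Fin m) (Fin m) ℤ) :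
    (M * N).map (Int.cast : ℤ → R) = M.map (Int.cast : ℤ → R) * N.map (Int.cast : ℤ → R) :=
  Matrix.map_mul (f := Int.castRingHom R)

theorem cast_smul_mat (R : Type) [CommRing R] (a : ℤ) (M : Matrix (Fin m) (Fin m) ℤ) :
    (a • M).map (Int.cast : ℤ → R) = (a : R) • M.map (Int.cast : ℤ → R) := by
  ext i j
  rw [map_apply, Matrix.smul_apply, Matrix.smul_apply, map_apply, smul_eq_mul, smul_eq_mul,
    Int.cast_mul]

end LevAux

open LevAux

theorem pLev (hPl : StPl) (hSoc : StSoc) : StLev := by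
  classical
  intro n G H Q hC hI
  obtain ⟨hQQ, hQ1, hAQ⟩ := hC
  have hex := exists_lev Q
  obtain ⟨hl0, hlI⟩ := Nat.find_spec hex
  have hmin : ∀ k < Nat.find hex, ¬ (0 < k ∧ Intg ((k : ℚ) • Q)) := fun k hk => Nat.find_min hex hk
  generalize Nat.find hex = l at hl0 hlI hmin
  refine ⟨l, hl0, hlI, ?_⟩
  choose Z0 hZ0 using hlI
  obtain ⟨Z, hZ⟩ : ∃ Z : Matrix (Fin (n + 1)) (Fin (n + 1)) ℤ,
      Z.map (Int.cast : ℤ → ℚ) = (l : ℚ) • Q := ⟨Matrix.of Z0, by ext i j; exact (hZ0 i j).symm⟩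
  choose N0 hN0 using hI
  obtain ⟨N, hN⟩ : ∃ N : Matrix (Fin (n + 1)) (Fin (n + 1)) ℤ, N.map (Int.cast : ℤ → ℚ) =
      aeval ((aM G).map (Int.cast : ℤ → ℚ)) (ps G) * Q :=
    ⟨Matrix.of N0, by ext i j; exact (hN0 i j).symm⟩
  have hZZ : Zᵀ * Z = ((l : ℤ) ^ 2) • (1 : Matrix (Fin (n + 1)) (Fin (n + 1)) ℤ) := by
    apply cast_inj_mat
    rw [cast_mul_mat, cast_smul_mat, transpose_map, hZ, transpose_smul, smul_mul, mul_smul_comm, hQQ,
      smul_smul, Matrix.map_one _ Int.cast_zero Int.cast_one]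
    push_cast
    rw [sq]
  have hAZ : aM G * Z = Z * aM H := by
    apply cast_inj_mat
    rw [cast_mul_mat, cast_mul_mat, hZ, mul_smul_comm, smul_mul, hAQ]
  have h1Z : ∀ j, ∑ i, Z i j = l := by
    intro j
    have h1 : Qᵀ *ᵥ (1 : Fin (n + 1) → ℚ) = 1 := by
      conv_lhs => rw [← hQ1]
      rw [mulVec_mulVec, hQQ, one_mulVec]
    have h2 : ∑ i, Q i j = 1 := by
      simpa [mulVec, dotProduct] using congrFun h1 j
    apply Int.cast_injective (α := ℚ)
    have h3 : ∀ i, (Z i j : ℚ) = l * Q i j := fun i => congrFun (congrFun hZ i) j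
    push_cast
    simp only [h3, ← mul_sum, h2, mul_one]
  have hNZ : aeval (aM G) (ps G) * Z = (l : ℤ) • N := by
    apply cast_inj_mat
    rw [cast_mul_mat, cast_smul_mat, hZ, hN, ← aeval_map, mul_smul_comm, Int.cast_natCast]
  intro p c hpc
  have hp : p.1.Prime := p.2
  have hpl : p.1 ∣ l := (dvd_pow_self _ (Nat.succ_ne_zero c)).trans hpc
  have hpK : ((p.1 : ℕ) : FF p) = 0 := CharP.cast_eq_zero (FF p) p.1
  have hlK : ((l : ℕ) : FF p) = 0 := by
    obtain ⟨d, rfl⟩ := hpl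
    rw [Nat.cast_mul, hpK, zero_mul]
  have hZK : Z.map (Int.cast : ℤ → FF p) ≠ 0 := by
    intro e
    obtain ⟨d, hd⟩ := hpl
    have hd0 : 0 < d := Nat.pos_of_ne_zero fun e0 => by simp [hd, e0] at hl0
    refine hmin d (by rw [hd]; nlinarith [hp.two_le]) ⟨hd0, fun i j => ?_⟩
    have h1 : ((Z i j : ℤ) : FF p) = 0 := congrFun (congrFun e i) j
    obtain ⟨t, ht⟩ := (CharP.intCast_eq_zero_iff (FF p) p.1 _).1 h1
    refine ⟨t, ?_⟩
    have h3 : (Z i j : ℚ) = l * Q i j := congrFun (congrFun hZ i) j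
    rw [ht, hd] at h3
    push_cast at h3
    have hp0 : ((p.1 : ℕ) : ℚ) ≠ 0 := Nat.cast_ne_zero.2 hp.ne_zero
    rw [Matrix.smul_apply, smul_eq_mul]
    apply mul_left_cancel₀ hp0
    rw [h3, mul_assoc]
  obtain ⟨θ, w, hw0, hw⟩ := exists_eig (A := (aM G).map (Int.cast : ℤ → FF p))
    (A' := (aM H).map (Int.cast : ℤ → FF p)) (by rw [← cast_mul_mat, ← cast_mul_mat, hAZ]) hZK
  refine ⟨θ, ⟨Z.map (Int.cast : ℤ → FF p) *ᵥ w, mem_eg'.2 hw, hw0, ?_, ?_⟩, ?_, ?_⟩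
  · rw [dotProduct_mulVec, vecMul_mulVec, ← transpose_map, ← cast_mul_mat, hZZ, cast_smul_mat]
    push_cast
    rw [hlK]
    simp
  · simp only [dt, Pi.one_apply, Int.cast_one, one_mul, mulVec, dotProduct, map_apply]
    rw [sum_comm]
    refine sum_eq_zero fun j _ => ?_
    rw [← sum_mul, ← Int.cast_sum, h1Z, Int.cast_natCast, hlK, zero_mul]
  · rintro ⟨u, a, b, hu, e⟩
    obtain ⟨d, hd⟩ := hpc
    have h1 := congrArg (fun f => aeval (aM G) f * Z) e
    simp only [map_mul, map_add, aeval_C, Matrix.aeval_self_charpoly, mul_zero, zero_add] at h1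
    rw [mul_assoc (aeval (aM G) b), hNZ, ← Algebra.commutes, mul_assoc, ← Algebra.smul_def,
      mul_smul_comm, hd] at h1
    have h2 : aeval (aM G) u * Z = ((p.1 : ℤ) * d) • (aeval (aM G) b * N) := by
      have hp0 : ((p.1 : ℤ) ^ c) ≠ 0 := pow_ne_zero _ (Int.natCast_ne_zero.2 hp.ne_zero)
      apply smul_right_injective _ hp0
      dsimp only
      rw [h1, smul_smul]
      congr 1
      push_cast
      ring
    have h3 := aeval_eig hw u
    rw [aeval_map, mulVec_mulVec, ← cast_mul_mat, h2, cast_smul_mat] at h3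
    push_cast at h3
    rw [hpK, zero_mul, zero_smul, zero_mulVec] at h3
    rw [aeval_int] at hu
    exact hw0 ((smul_eq_zero.1 h3.symm).resolve_left hu)
  · obtain ⟨-, hred, -, -, -, -, hroot, -⟩ := hPl ⟨p, θ⟩
    have h0 : aeval θ (lf ⟨p, θ⟩) = 0 := (hroot _).2 (by rw [hred])
    have h3 := aeval_eig hw (lf ⟨p, θ⟩)
    rw [aeval_int] at h0
    rw [h0, zero_smul, aeval_map, mulVec_mulVec, ← cast_mul_mat] at h3
    obtain ⟨c0, hc1, hc2⟩ := descend (p := p.1) _ Z w hw0 h3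
    choose y hy using hc2
    have hy' : aeval (aM G) (lf ⟨p, θ⟩) *ᵥ (Z *ᵥ c0) = (p.1 : ℤ) • y := by
      rw [mulVec_mulVec]
      exact funext hy
    refine hSoc n G ⟨p, θ⟩ (Z *ᵥ c0) y hc1 hy' fun k => ?_
    have hk : aM G ^ k * Z = Z * aM H ^ k :=
      (SemiconjBy.pow_right (a := Z) (x := aM H) (y := aM G) hAZ.symm k).symm
    have h4 : (p.1 : ℤ) * (y ⬝ᵥ (aM G ^ k *ᵥ (Z *ᵥ c0))) =
        (l : ℤ) ^ 2 * ((aeval (aM H) (lf ⟨p, θ⟩) *ᵥ c0) ⬝ᵥ (aM H ^ k *ᵥ c0)) := by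
      rw [← smul_eq_mul, ← smul_dotProduct, ← hy', mulVec_mulVec, mulVec_mulVec, hk,
        aeval_semi hAZ, ← mulVec_mulVec, ← mulVec_mulVec, dotProduct_mulVec _ Z, vecMul_mulVec,
        hZZ, vecMul_smul, vecMul_one, smul_dotProduct, smul_eq_mul]
    obtain ⟨d, hd⟩ := hpl
    have hp0 : (p.1 : ℤ) ≠ 0 := Int.natCast_ne_zero.2 hp.ne_zero
    refine ⟨(d : ℤ) ^ 2 * ((aeval (aM H) (lf ⟨p, θ⟩) *ᵥ c0) ⬝ᵥ (aM H ^ k *ᵥ c0)), ?_⟩
    apply mul_left_cancel₀ hp0
    rw [h4, hd]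
    push_cast
    ring

end Pool.Agent.P.MP_f57657_co.DG
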