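import Pool.Agent.P.MP_f57657_co.DG.Base

/-! Odd places of medium size. -/

open Matrix Finset Polynomial

namespace Pool.Agent.P.MP_f57657_co.DG

namespace MedAux

/-- An isotropic eigenvector. -/
def Iso (x : Pt) {n : ℕ} (G : Gr n) : Prop := ∃ z ∈ eg (FF x.1) (sM G) x.2, z ≠ 0 ∧ z ⬝ᵥ z = 0

/-- A totally isotropic eigenplane. -/
def TI (x : Pt) {n : ℕ} (G : Gr n) : Prop :=
  gd (FF x.1) (sM G) x.2 = 2 ∧ ∀ z ∈ eg (FF x.1) (sM G) x.2, z ⬝ᵥ z = 0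

theorem two_ne (p : Nat.Primes) (h : p.1 ≠ 2) : (2 : FF p) ≠ 0 := fun e =>
  h ((Nat.prime_dvd_prime_iff_eq p.2 Nat.prime_two).1
    ((CharP.cast_eq_zero_iff (FF p) p.1 2).1 (by exact_mod_cast e)))

theorem dt_smul {K : Type} [Field K] {n : ℕ} (v : Fin n → ℤ) (c : K) (z : Fin n → K) :
    dt v (c • z) = c * dt v z := by
  simp only [dt, Pi.smul_apply, smul_eq_mul, mul_sum, mul_left_comm]

theorem tail {t n : ℕ} (h5 : 5 ≤ t) (hn : n ≤ 2 ^ t) :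
    12 * (n * (1 / 2 : ℝ) ^ t ^ 2) ≤ (1 / 2) ^ (3 * t) := by
  have h1 : (n : ℝ) ≤ 2 ^ t := by exact_mod_cast hn
  have h2 : (1 / 2 : ℝ) ^ t ^ 2 ≤ (1 / 2) ^ (3 * t + t + 4) :=
    pow_le_pow_of_le_one (by norm_num) (by norm_num) (by nlinarith)
  have h3 : (2 : ℝ) ^ t * (1 / 2) ^ t = 1 := by rw [← mul_pow]; norm_num
  have h4 := mul_le_mul h1 h2 (by positivity) (by positivity)
  have h5 : (0 : ℝ) ≤ (1 / 2) ^ (3 * t) := by positivity
  rw [pow_add, pow_add, mul_comm ((1 / 2 : ℝ) ^ (3 * t)), ← mul_assoc, ← mul_assoc, h3] at h4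
  linarith

end MedAux

open MedAux in
theorem pMed (hPot : StPot) (hBord : StBord) (hEv : StEv) (hTw : StTw) (hPl : StPl) (hMq : StMq)
    (hAC0 : StAC0) (hACT : StACT) : StMed := by
  obtain ⟨N1, hMq⟩ := hMq
  obtain ⟨N2, hAC0⟩ := hAC0
  obtain ⟨N3, hACT⟩ := hACT
  refine ⟨N1 + N2 + N3 + 5, 4908, fun n t j0 x hN ⟨p1, p2, p3⟩ hp h32 hq => ?_⟩
  have t1 : 1 ≤ 100 * t := by omega
  have j1 : (100 * t) ^ 3 ≤ j0 := (Nat.pow_le_pow_right t1 (by norm_num)).trans p2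
  have j2 : t ^ 14 ≤ j0 := (Nat.pow_le_pow_left (by omega) _).trans p2
  have j3 : 1 ≤ j0 := (Nat.one_le_pow _ _ t1).trans j1
  have j4 : t * j0 + 5 * j0 ≤ n := by linarith
  have n1 : n ≤ 2 ^ t := (Nat.le_self_pow (by norm_num) n).trans p1
  obtain ⟨-, -, -, -, -, -, l1, l2, l3, -⟩ := hPl x
  have q0 : (32 : ℝ) ≤ sz x := by exact_mod_cast h32
  obtain ⟨u, hu⟩ : ∃ u : ℝ, u = 1 / sz x := ⟨_, rfl⟩
  have u0 : 0 < u := by rw [hu]; positivity
  have u1 : u ≤ 1 / 32 := by rw [hu]; exact one_div_le_one_div_of_le (by norm_num) q0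
  have u2 : ∀ (c : ℝ) (e : ℕ), c / (sz x : ℝ) ^ e = c * u ^ e := fun c e => by
    rw [hu, one_div, inv_pow, div_eq_mul_inv]
  obtain ⟨β, hβ⟩ : ∃ β : ℝ, β = (1 / 2) ^ t ^ 2 := ⟨_, rfl⟩
  have b0 : 0 ≤ β := by rw [hβ]; positivity
  have hB : ∀ j, j0 ≤ j → pr (fun G : Gr j => ¬ AC0 t G) ≤ β := fun j h =>
    hβ ▸ hAC0 j t (by omega) (j2.trans h)
  have hA : ∀ j, j ≤ n → ∀ G : Gr j, AC0 t G → ∀ z ∈ eg (FF x.1) (sM G) x.2, z ≠ 0 →
      pr (fun s : Bv j => dt (sv 1 (-1) s) z = 0) ≤ 2 * u := fun j h G hG z hz h0 => by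
    have := hACT j t G (by omega) (h.trans n1) hG _ (two_ne x.1 hp) x.2 z 0 (sz x) hz h0
      (by omega) hq l3
    rwa [← pow_one (sz x : ℝ), u2, pow_one] at this
  have hS : ∀ j (G : Gr j) (s : Bv j),
      gd (FF x.1) (sM G) x.2 ≤ gd (FF x.1) (sM (bord G s)) x.2 →
      ∀ z ∈ eg (FF x.1) (sM G) x.2, dt (sv 1 (-1) s) z = 0 := fun j G s h z hz => by
    by_contra e
    have : gd (FF x.1) (sM (bord G s)) x.2 + 1 ≤ gd (FF x.1) (sM G) x.2 :=
      (hBord (FF x.1) 1 (-1) j G s x.2).2.2.1 ⟨z, hz, e⟩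
    omega
  have hC : ∀ j, j ≤ n → ∀ G : Gr j, AC0 t G → 1 ≤ gd (FF x.1) (sM G) x.2 →
      pr (fun s : Bv j => gd (FF x.1) (sM G) x.2 ≤ gd (FF x.1) (sM (bord G s)) x.2) ≤ 2 * u :=
    fun j h G hG h1 => by
      obtain ⟨z, hz, h0⟩ := one_le_gd.1 h1
      exact (pr_mono fun s e => hS j G s e z hz).trans (hA j h G hG z hz h0)
  have hZ : ∀ j (G : Gr j), gd (FF x.1) (sM G) x.2 = 0 → aeval x.2 (sM G).charpoly ≠ 0 :=
    fun j G h e => by have := ((hEv (FF x.1) j (sM G)).1 x.2).2 e; omega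
  have hP : ∀ k d, n ≤ k + 2 → k ≤ n →
      pr (fun G : Gr k => d ≤ gd (FF x.1) (sM G) x.2) ≤ 3 * (8 * u) ^ d + n * β := by
    intro k d k1 k2
    have := hPot (fun _ G => gd (FF x.1) (sM G) x.2) (fun _ G => AC0 t G) (2 * u) β j0 k d
      (by positivity) (by linarith) b0 (by omega) ?_
      (fun j G => (hBord (FF x.1) 1 (-1) j G (fun _ => true) x.2).1)
      (fun j G s => (hBord (FF x.1) 1 (-1) j G s x.2).2.1) fun j a b => ⟨hB j a, ?_, hC j (by omega)⟩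
    · rw [show 4 * (2 * u) = 8 * u by ring] at this
      exact this.trans (add_le_add le_rfl (mul_le_mul_of_nonneg_right (by exact_mod_cast k2) b0))
    · have e1 : 1 / (4 * (2 * u)) ≤ 2 ^ t := by
        have : (sz x : ℝ) ≤ 2 ^ t := by exact_mod_cast hq
        rw [hu, show 1 / (4 * (2 * (1 / (sz x : ℝ)))) = sz x / 8 by field_simp; norm_num]
        linarith
      refine (mul_le_mul_of_nonneg_left (pow_le_pow_left₀ (by positivity) e1 j0) two_pos.le).trans ?_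
      rw [← pow_mul, ← pow_succ']
      exact pow_le_pow_right₀ one_le_two (by omega)
    · have := hMq j t 1 x (by omega) (j1.trans a) hp hq (Or.inl rfl)
      rw [u2, pow_one, pow_one] at this
      exact (pr_mono fun ω e => ⟨hZ _ _ e.1, (l1 _).1 (((hEv (FF x.1) _ _).1 x.2).1 e.2)⟩).trans this
  have hT : ∀ j, j0 ≤ j → j ≤ n → ∀ F : Gr j → Prop, (∀ G, F G → 1 ≤ gd (FF x.1) (sM G) x.2) →
      pr (fun ω : Gr j × Bv j => F ω.1 ∧
        gd (FF x.1) (sM ω.1) x.2 ≤ gd (FF x.1) (sM (bord ω.1 ω.2)) x.2) ≤ 2 * u * pr F + β :=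
    fun j a b F hF => (pr_prod_le F (fun G => AC0 t G) (by positivity) (fun _ e => e.1)
      fun G hG e => (pr_mono fun s e => e.2).trans (hC j b G hG (hF G e))).trans
        (add_le_add le_rfl (hB j a))
  have b1 : β ≤ n * β := le_mul_of_one_le_left b0 (by exact_mod_cast (by omega : 1 ≤ n))
  have b2 := mul_le_mul_of_nonneg_right u1 (b0.trans b1)
  have hI : ∀ j, n ≤ j + 2 → j < n → pr (fun G : Gr (j + 1) => Iso x G) ≤
      242 * u ^ 2 + 3 * (n * β) := fun j a b => by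
    have h1 := hP j 2 a b.le
    have h2 := hT j (by omega) b.le (fun G => 1 ≤ gd (FF x.1) (sM G) x.2) fun _ e => e
    have h3 := mul_le_mul_of_nonneg_left (hP j 1 a b.le) (show 0 ≤ 2 * u by positivity)
    have h4 := hMq j t 2 x (by omega) (by omega) hp hq (Or.inr rfl)
    rw [u2] at h4
    rw [← pr_fst (Ω' := Bv j)] at h1
    rw [pr_bord]
    refine (pr_le_add fun ω e => ?_).trans ((add_le_add h1 ((pr_or _ _).trans
      (add_le_add h2 h4))).trans (by linarith))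
    have e1 : 1 ≤ gd (FF x.1) (sM (bord ω.1 ω.2)) x.2 :=
      one_le_gd.2 (e.imp fun z h => ⟨h.1, h.2.1⟩)
    have e2 := (hEv (FF x.1) _ (sM (bord ω.1 ω.2))).2.2 (gm_symm _ _ _) x.2 (Or.inr e)
    rcases Nat.eq_zero_or_pos (gd (FF x.1) (sM ω.1) x.2) with h | h
    · exact Or.inr (Or.inr ⟨hZ _ _ h, l2 _ e2.1 e2.2⟩)
    · by_cases h' : 2 ≤ gd (FF x.1) (sM ω.1) x.2
      exacts [Or.inl h', Or.inr (Or.inl ⟨h, by omega⟩)]
  obtain ⟨j, rfl⟩ : ∃ j, n = j + 1 + 1 := ⟨n - 2, by omega⟩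
  have hTI : pr (fun G : Gr (j + 1 + 1) => TI x G) ≤
      2404 * u ^ 3 + 7 * ((j + 1 + 1 : ℕ) * β) := by
    have h1 := hP (j + 1) 3 (by omega) (by omega)
    have h2 := hT (j + 1) (by omega) (by omega) (fun G => 2 ≤ gd (FF x.1) (sM G) x.2)
      fun _ e => one_le_two.trans e
    have h3 := mul_le_mul_of_nonneg_left (hP (j + 1) 2 (by omega) (by omega))
      (show 0 ≤ 2 * u by positivity)
    have h4 := hT (j + 1) (by omega) (by omega) (fun G => Iso x G)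
      fun _ e => one_le_gd.2 (e.imp fun z h => ⟨h.1, h.2.1⟩)
    have h5 := mul_le_mul_of_nonneg_left (hI j le_rfl (by omega)) (show 0 ≤ 2 * u by positivity)
    rw [← pr_fst (Ω' := Bv (j + 1))] at h1
    rw [pr_bord]
    refine (pr_le_add fun ω e => ?_).trans ((add_le_add h1 ((pr_or _ _).trans
      (add_le_add h2 h4))).trans (by linarith))
    have e1 := e.1
    have e2 : gd (FF x.1) (sM (bord ω.1 ω.2)) x.2 ≤ gd (FF x.1) (sM ω.1) x.2 + 1 :=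
      (hBord (FF x.1) 1 (-1) _ ω.1 ω.2 x.2).2.1
    by_cases h : 3 ≤ gd (FF x.1) (sM ω.1) x.2
    · exact Or.inl h
    have e3 : gd (FF x.1) (sM ω.1) x.2 ≤ gd (FF x.1) (sM (bord ω.1 ω.2)) x.2 := by omega
    by_cases h' : 2 ≤ gd (FF x.1) (sM ω.1) x.2
    · exact Or.inr (Or.inl ⟨h', e3⟩)
    obtain ⟨z, hz, h0⟩ := (one_le_gd (K := FF x.1) (M := sM ω.1) (θ := x.2)).1 (by omega)
    refine Or.inr (Or.inr ⟨⟨z, hz, h0, ?_⟩, e3⟩)
    have := e.2 _ ((hBord (FF x.1) 1 (-1) _ ω.1 ω.2 x.2).2.2.2 z hz (hS _ _ _ e3 z hz))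
    simpa [dotProduct, Fin.sum_univ_castSucc (n := j + 1)] using this
  have h1 := hP _ 3 (Nat.le_add_right _ 2) le_rfl
  have h2 := mul_le_mul_of_nonneg_left (hI (j + 1) (by omega) (by omega))
    (show 0 ≤ 4 * u by positivity)
  have h3 := (pr_prod_le (E := fun ω : Gr (j + 1 + 1) × Bv (j + 1 + 1) =>
      ¬ 3 ≤ gd (FF x.1) (sM ω.1) x.2 ∧ ¬ TI x ω.1 ∧ IsoP x (sM ω.1) (sv 1 (-1) ω.2))
    (fun G => Iso x G) (fun G => AC0 t G) (show 0 ≤ 4 * u by positivity)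
    (fun ω e => e.2.2.imp fun z h => ⟨h.1, h.2.1, h.2.2.1⟩) fun G hG e => by
      by_cases c : ¬ 3 ≤ gd (FF x.1) (sM G) x.2 ∧ ¬ TI x G
      swap
      · rw [pr_false fun s h => c ⟨h.1, h.2.1⟩]; positivity
      obtain ⟨z1, a1, z2, a2, a3, a4, a5⟩ := hTw (FF x.1) _ (eg (FF x.1) (sM G) x.2)
        (Nat.lt_succ_iff.1 (not_le.1 c.1)) (fun h => by
          by_contra! d
          exact c.2 ⟨h, d⟩) e
      refine (pr_le_add fun s h => ?_).trans ((add_le_add (hA _ le_rfl G hG z1 a1 a3)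
        (hA _ le_rfl G hG z2 a2 a4)).trans (by linarith))
      obtain ⟨v, v1, v2, v3, v4⟩ := h.2.2
      refine (a5 v v1 v3).imp (fun ⟨c, d⟩ => ?_) fun ⟨c, d⟩ => ?_ <;>
      · rw [d, dt_smul] at v4
        exact (mul_eq_zero.1 v4).resolve_left fun f => v2 (by rw [d, f, zero_smul])).trans
    (add_le_add le_rfl (hB _ (by omega)))
  have h4 := tail (by omega) n1
  rw [← hβ] at h4
  rw [← pr_fst (Ω' := Bv (j + 1 + 1))] at h1 hTI
  rw [u2]
  refine (pr_le_add fun ω e => ?_).trans ((add_le_add h1 ((pr_or _ _).trans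
    (add_le_add hTI h3))).trans (by linarith))
  tauto

end Pool.Agent.P.MP_f57657_co.DG
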