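import Pool.Agent.P.MP_f57657_co.DG.Base

/-! Equidistribution of the bordered characteristic polynomial at a point. -/

open Matrix Finset Polynomial

namespace Pool.Agent.P.MP_f57657_co.DG

namespace MqAux

theorem pr_shift {R : Type} [AddCommGroup R] [Fintype R] (z : R) :
    pr (fun t : R => z + id t = 0) ≤ 1 / (Fintype.card R : ℝ) := by
  classical
  rw [pr_eq_card]
  refine div_le_div_of_nonneg_right ?_ (Nat.cast_nonneg _)
  have : (univ.filter fun t : R => z + id t = 0).card ≤ 1 := by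
    refine card_le_one.2 fun a ha b hb => ?_
    exact add_left_cancel (((mem_filter.1 ha).2).trans ((mem_filter.1 hb).2).symm)
  have h2 : ((univ.filter fun t : R => z + id t = 0).card : ℝ) ≤ 1 := by exact_mod_cast this
  convert h2 using 3

theorem exc_mul {Ω : Type} [Fintype Ω] (c : ℂ) (f : Ω → ℂ) :
    exc (fun ω => c * f ω) = c * exc f := by
  simp only [exc, ← mul_sum, mul_div_assoc]

theorem split {R : Type} [CommRing R] (ev : ℤ[X] →+* R) {n : ℕ} (M : Matrix (Fin n) (Fin n) ℤ)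
    (s : Bv n) : ev (bf M (sv 1 (-1) s) (sv 1 (-1) s)) =
      ∑ i, ∑ j, ev (M.charmatrix.adjugate i j) -
        ∑ i, sv 0 1 s i • (2 * ∑ j, (ev (M.charmatrix.adjugate i j) +
          ev (M.charmatrix.adjugate j i))) + 4 * ev (bf M (sv 0 1 s) (sv 0 1 s)) := by
  rw [ev_bf, ev_bf]
  have e1 : ∑ i, sv 0 1 s i • (2 * ∑ j, (ev (M.charmatrix.adjugate i j) +
      ev (M.charmatrix.adjugate j i))) =
      ∑ i, ∑ j, (2 * (sv 0 1 s i : R) + 2 * (sv 0 1 s j : R)) * ev (M.charmatrix.adjugate i j) := by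
    simp only [add_mul, sum_add_distrib, mul_add, mul_sum, zsmul_eq_mul]
    congr 1
    · exact sum_congr rfl fun i _ => sum_congr rfl fun j _ => by ring
    · rw [sum_comm]
      exact sum_congr rfl fun i _ => sum_congr rfl fun j _ => by ring
  rw [e1]
  simp only [mul_sum, ← sum_sub_distrib, ← sum_add_distrib]
  refine sum_congr rfl fun i _ => sum_congr rfl fun j _ => ?_
  rw [sv_eq 1 (-1) s i, sv_eq 1 (-1) s j]
  simp only [zsmul_eq_mul]
  push_cast
  ring

theorem num {Q a : ℝ} (hQ : 0 < Q) (ha : 2 ≤ a) (h : Q ≤ a ^ 2) :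
    1 / Q + 2 * Q * (1 / a ^ 300) + 1 / a ^ 100 ≤ 2 / Q := by
  have h0 : 0 < a := by linarith
  have h1 : (1 : ℝ) ≤ a := by linarith
  have h2 : 2 * Q ≤ a ^ 100 := by
    have : a ^ 3 ≤ a ^ 100 := pow_le_pow_right₀ h1 (by norm_num)
    have : 2 * a ^ 2 ≤ a ^ 3 := by nlinarith [sq_nonneg a]
    linarith
  have h3 : 4 * Q ^ 2 ≤ a ^ 300 := by
    have e : a ^ 300 = a ^ 100 * a ^ 100 * a ^ 100 := by ring
    have h4 : (1 : ℝ) ≤ a ^ 100 := one_le_pow₀ h1
    rw [e]
    generalize a ^ 100 = b at h2 h4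
    have h5 : 4 * Q ^ 2 ≤ b * b := by nlinarith
    nlinarith
  have h4 : 1 / a ^ 100 ≤ 1 / (2 * Q) := one_div_le_one_div_of_le (by positivity) h2
  have h5 : 1 / a ^ 300 ≤ 1 / (4 * Q ^ 2) := one_div_le_one_div_of_le (by positivity) h3
  have h6 : 2 * Q * (1 / a ^ 300) ≤ 2 * Q * (1 / (4 * Q ^ 2)) :=
    mul_le_mul_of_nonneg_left h5 (by positivity)
  have h7 : 1 / Q + 2 * Q * (1 / (4 * Q ^ 2)) + 1 / (2 * Q) = 2 / Q := by
    field_simp
    ring
  linarith

theorem unit_char {R : Type} [CommRing R] (ψ : AddChar R ℂ) {u : R} (hu : IsUnit u)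
    (h : ∃ t, ψ (id t) ≠ 1) : ∃ r, ψ (u * r) ≠ 1 := by
  obtain ⟨t, ht⟩ := h
  obtain ⟨v, hv⟩ := hu.exists_right_inv
  exact ⟨v * t, by rwa [← mul_assoc, hv, one_mul]⟩

end MqAux

open MqAux

theorem pMq (hEQ : StEQ) (hFI : StFI) (hRing : StRing) (hJac : StJac) : StMq := by
  obtain ⟨N0, hN⟩ := hEQ
  refine ⟨N0 + 1, fun j t e x ht hj hp hsz he => ?_⟩
  obtain ⟨R, _, _, ev, hLev, hcard, hunit, hzero⟩ := (hRing x).1 e (by omega)
  have hq2 : sz x ^ e ≤ (2 ^ t) ^ 2 :=
    (Nat.pow_le_pow_left hsz e).trans (Nat.pow_le_pow_right (by positivity) (by omega))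
  have hq : sz x ^ e ≤ 2 ^ (100 * t) :=
    hq2.trans (by rw [← pow_mul]; exact Nat.pow_le_pow_right (by norm_num) (by omega))
  have hnd : ¬ ((x.1.1 : ℕ) : ℤ) ∣ (-1 : ℤ) - 1 := by
    intro h
    have h2 : ((x.1.1 : ℕ) : ℤ) ∣ ((2 : ℕ) : ℤ) := by simpa using h
    exact hp ((Nat.prime_dvd_prime_iff_eq x.1.2 Nat.prime_two).1 (Int.natCast_dvd_natCast.1 h2))
  have h2 : (2 : FF x.1) ≠ 0 := by
    intro h
    have h3 : ((2 : ℕ) : FF x.1) = 0 := by exact_mod_cast h
    rw [CharP.cast_eq_zero_iff (FF x.1) x.1.1] at h3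
    exact hp ((Nat.prime_dvd_prime_iff_eq x.1.2 Nat.prime_two).1 h3)
  have hbad := hN 1 (-1) R x.1 (e * dg x) ev j (100 * t) (by omega) hj hnd hLev
    (by rw [hcard]; exact hq) (by rw [mul_comm e, pow_mul]; exact hq)
  have hη : (0 : ℝ) ≤ (1 / 2) ^ (3 * (100 * t)) := by positivity
  have hmain := pr_prod_le' (E := fun ω : Gr j × Bv j => aeval x.2 (sM ω.1).charpoly ≠ 0 ∧
      mp x ^ e ∣ red x.1.1 (sM (bord ω.1 ω.2)).charpoly)
    (fun G => EQ 1 (-1) ev ((1 / 2) ^ (3 * (100 * t))) G)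
    (c := 1 / (Fintype.card R : ℝ) + 2 * Fintype.card R * (1 / 2) ^ (3 * (100 * t)))
    (by positivity) (fun G hG => by
      by_cases h0 : aeval x.2 (sM G).charpoly = 0
      · rw [pr_false fun s hs => hs.1 h0]
        positivity
      refine le_trans (pr_mono fun s hs => ?_) (hFI (Bv j) R R
        (fun s => ev (sM (bord G s)).charpoly) id (· = 0) _ _ hη (fun ψ hψ => ?_) pr_shift)
      · exact hzero _ hs.2
      have hu : IsUnit (ev (C (-8) * (sM G).charpoly)) := by
        refine hunit _ ?_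
        rw [map_mul]
        refine mul_ne_zero ?_ h0
        have : aeval x.2 (C (-8 : ℤ)) = -(2 * 2 * 2 : FF x.1) := by
          rw [aeval_C]; simp; norm_num
        rw [this]
        exact neg_ne_zero.2 (mul_ne_zero (mul_ne_zero h2 h2) h2)
      obtain ⟨r, hr⟩ := unit_char ψ hu hψ
      have hE := hG (ψ.mulShift (-4)) ⟨r, by
        rw [AddChar.mulShift_apply]
        convert hr using 2
        rw [map_mul, eq_intCast, map_intCast]
        push_cast
        ring⟩
        (fun i => ψ (2 * ∑ k, (ev ((sM G).charmatrix.adjugate i k) +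
          ev ((sM G).charmatrix.adjugate k i)))) (fun i => AddChar.norm_apply _ _)
      have e1 : ∀ s : Bv j, ψ (ev (sM (bord G s)).charpoly) =
          ψ (ev (X * (sM G).charpoly) - ∑ i, ∑ k, ev ((sM G).charmatrix.adjugate i k)) *
          ((ψ.mulShift (-4)) (ev (bf (sM G) (sv 0 1 s) (sv 0 1 s))) *
            ∏ i, if s i = true then ψ (2 * ∑ k, (ev ((sM G).charmatrix.adjugate i k) +
              ev ((sM G).charmatrix.adjugate k i))) else 1) := fun s => by
        rw [← char_sum, AddChar.mulShift_apply, ← AddChar.map_add_eq_mul,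
          ← AddChar.map_add_eq_mul, hJac.1 1 (-1) j G s, map_sub, split]
        congr 1
        ring
      simp only [e1]
      rw [exc_mul, norm_mul, AddChar.norm_apply, one_mul]
      exact hE)
  refine hmain.trans ?_
  have hQ : (0 : ℝ) < Fintype.card R := by exact_mod_cast Fintype.card_pos
  have ha : (2 : ℝ) ≤ 2 ^ t := le_self_pow₀ (by norm_num) (by omega)
  have hQa : (Fintype.card R : ℝ) ≤ (2 ^ t) ^ 2 := by rw [hcard]; exact_mod_cast hq2
  have hnum := num hQ ha hQa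
  have e1 : ((1 : ℝ) / 2) ^ (3 * (100 * t)) = 1 / (2 ^ t) ^ 300 := by
    rw [_root_.one_div_pow, ← pow_mul]; congr 2; ring
  have e2 : ((1 : ℝ) / 2) ^ (100 * t) = 1 / (2 ^ t) ^ 100 := by
    rw [_root_.one_div_pow, ← pow_mul]; congr 2; ring
  have e3 : ((sz x : ℕ) : ℝ) ^ e = Fintype.card R := by rw [hcard]; push_cast; rfl
  rw [e3]
  rw [e2] at hbad
  rw [← e1] at hnum
  linarith

theorem pXq (hFI : StFI) (hKap : StKap) (hRing : StRing) (hPl : StPl) : StXq := by
  intro n D G x hp hMu hD h0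
  obtain ⟨R, _, _, ev, hLev, hcard, hunit, hzero⟩ := (hRing x).1 1 le_rfl
  have h2 : (2 : R) = 0 := by
    have h3 := hzero (C ((x.1.1 : ℕ) : ℤ)) (by simp [red])
    have h4 : ((x.1.1 : ℕ) : R) = 0 := by simpa using h3
    rw [hp] at h4
    exact_mod_cast h4
  have hFI' := hFI (Bv n) R R (fun s => ev (ph G + yy G s)) id (· = 0) 0 _ le_rfl
    (fun ψ hψ => by
      have hex : ∃ i, ψ (ev (aw (aM G) 1 i)) ≠ 1 := by
        by_contra hc
        push Not at hc
        obtain ⟨κ, hκ, hd, hz⟩ := hKap R x.1 (1 * dg x) ev n (aM G) 1 ψ hLev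
          (unit_char ψ (hunit _ h0) hψ) hc
        refine hMu κ hκ (by omega) ?_
        convert hz using 2
        funext i
        simp
      obtain ⟨i, hi⟩ := hex
      have h3 : ψ (ev (aw (aM G) 1 i)) * ψ (ev (aw (aM G) 1 i)) = 1 := by
        rw [← AddChar.map_add_eq_mul, ← two_mul, h2, zero_mul, AddChar.map_zero_eq_one]
      have h4 : ψ (ev (aw (aM G) 1 i)) = -1 := (mul_self_eq_one_iff.1 h3).resolve_left hi
      have e1 : ∀ s : Bv n, ψ (ev (ph G + yy G s)) =
          ψ (ev (ph G)) * ∏ i, if s i = true then ψ (ev (aw (aM G) 1 i)) else 1 := fun s => by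
        rw [map_add, AddChar.map_add_eq_mul, ev_yy, char_sum]
      simp only [e1]
      rw [exc_mul, exc_prod, prod_eq_zero (mem_univ i) (by rw [h4]; simp)]
      simp) pr_shift
  rw [mul_zero, add_zero, hcard, pow_one] at hFI'
  refine le_trans (pr_mono fun s hs => ?_) hFI'
  refine hzero _ ?_
  rw [pow_one]
  exact ((hPl x).2.2.2.2.2.2.1 _).1 hs

end Pool.Agent.P.MP_f57657_co.DG
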