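import Pool.Agent.P.MP_f57657_co.DG.Base

/-! The all-ones vector satisfies no short relation modulo `p` with high probability. -/

open Matrix Finset Polynomial

namespace Pool.Agent.P.MP_f57657_co.DG

namespace MuAux

section Alg

variable {R : Type} [CommRing R] {n : ℕ}

theorem step (A : Matrix (Fin (n + 1)) (Fin (n + 1)) R) (B : Matrix (Fin n) (Fin n) R)
    (s : Fin n → R) (hc : ∀ i j : Fin n, A i.castSucc j.castSucc = B i j)
    (hl : ∀ i : Fin n, A i.castSucc (Fin.last n) = s i) (v : Fin (n + 1) → R) (i : Fin n) :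
    (A *ᵥ v) i.castSucc =
      (B *ᵥ (fun j : Fin n => v j.castSucc)) i + v (Fin.last n) * s i := by
  simp only [mulVec, dotProduct, Fin.sum_univ_castSucc, hc, hl]
  ring

theorem aeval_step {ι : Type} [Fintype ι] [DecidableEq ι] (A : Matrix ι ι R) (κ : R[X]) (a : R)
    (v : ι → R) : aeval A (X * κ + C a) *ᵥ v = A *ᵥ (aeval A κ *ᵥ v) + a • v := by
  rw [map_add, map_mul, aeval_X, aeval_C, add_mulVec, mulVec_mulVec,
    Algebra.algebraMap_eq_smul_one, smul_mulVec, one_mulVec]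

/-- The first coordinates of a polynomial in the bordered matrix applied to the ones vector. -/
theorem key (A : Matrix (Fin (n + 1)) (Fin (n + 1)) R) (B : Matrix (Fin n) (Fin n) R)
    (s : Fin n → R) (hc : ∀ i j : Fin n, A i.castSucc j.castSucc = B i j)
    (hl : ∀ i : Fin n, A i.castSucc (Fin.last n) = s i) (d : ℕ) :
    ∀ κ : R[X], κ.natDegree ≤ d → ∃ μ : R[X], μ.degree < d ∧
      (X * μ + C ((aeval A κ *ᵥ (1 : Fin (n + 1) → R)) (Fin.last n))).coeff d = κ.coeff d ∧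
      (fun i : Fin n => (aeval A κ *ᵥ (1 : Fin (n + 1) → R)) i.castSucc) =
        aeval B κ *ᵥ (1 : Fin n → R) + aeval B μ *ᵥ s := by
  induction d with
  | zero =>
    intro κ hκ
    rw [eq_C_of_natDegree_le_zero hκ]
    refine ⟨0, by simp, ?_, ?_⟩
    · simp [Algebra.algebraMap_eq_smul_one, smul_mulVec]
    · funext i
      simp [Algebra.algebraMap_eq_smul_one, smul_mulVec]
  | succ d ih =>
    intro κ hκ
    have h1 : κ.divX.natDegree ≤ d := by
      rw [natDegree_divX_eq_natDegree_tsub_one]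
      omega
    obtain ⟨μ, hd, hco, he⟩ := ih κ.divX h1
    have h2 : κ = X * κ.divX + C (κ.coeff 0) := by
      rw [mul_comm]
      exact (divX_mul_X_add κ).symm
    refine ⟨X * μ + C ((aeval A κ.divX *ᵥ (1 : Fin (n + 1) → R)) (Fin.last n)), ?_, ?_, ?_⟩
    · rw [degree_lt_iff_coeff_zero]
      intro m hm
      obtain ⟨e, rfl⟩ : ∃ e, m = e + 1 := ⟨m - 1, by omega⟩
      rw [coeff_add, coeff_X_mul, coeff_C_succ, add_zero]
      exact coeff_eq_zero_of_degree_lt (hd.trans_le (by exact_mod_cast (by omega : d ≤ e)))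
    · rw [coeff_add, coeff_X_mul, coeff_C_succ, add_zero, hco, coeff_divX]
    · clear hco h1
      generalize κ.divX = l at h2 he
      generalize κ.coeff 0 = a at h2
      subst h2
      funext i
      rw [aeval_step, aeval_step, aeval_step, Pi.add_apply, step A B s hc hl, he, mulVec_add]
      simp only [Pi.add_apply, Pi.smul_apply, Pi.one_apply, smul_eq_mul]
      ring

/-- The polynomial with given coefficients. -/
noncomputable def pol {D : ℕ} (c : Fin D → R) : R[X] := ((degreeLTEquiv R D).symm c : degreeLT R D)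

theorem pol_natDegree {D : ℕ} (c : Fin D → R) : (pol c).natDegree ≤ D :=
  natDegree_le_of_degree_le (mem_degreeLT.1 ((degreeLTEquiv R D).symm c).2).le

theorem exists_pol {D : ℕ} {κ : R[X]} (h : κ.degree < D) : ∃ c : Fin D → R, pol c = κ :=
  ⟨degreeLTEquiv R D ⟨κ, mem_degreeLT.2 h⟩, by simp [pol]⟩

end Alg

theorem fibre (hKer : StKer) (p : Nat.Primes) (D k n : ℕ) (G : Gr n) (hG : Ker 0 1 p D k G) :
    pr (fun s : Bv n => ¬ Mu p.1 D (bord G s)) ≤
      (p.1 : ℝ) ^ D * (p.1 : ℝ) ^ D * (2 ^ (D * k) / 2 ^ n) := by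
  classical
  have h := pr_le_card_mul (univ : Finset ((Fin D → ZMod p.1) × (Fin D → ZMod p.1)))
    (E := fun s : Bv n => ¬ Mu p.1 D (bord G s))
    (fun t s => pol t.2 ≠ 0 ∧ aeval ((aM G).map (Int.cast : ℤ → ZMod p.1)) (pol t.2) *ᵥ
      (fun j => if j ∈ (univ : Finset (Fin n)) then ((sv 0 1 s j : ℤ) : ZMod p.1) else 0) =
        - (aeval ((aM G).map (Int.cast : ℤ → ZMod p.1)) (pol t.1) *ᵥ 1))
    (c := 2 ^ (D * k) / 2 ^ n) ?_ ?_
  · simpa [ZMod.card] using h
  · intro s hs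
    unfold Mu at hs
    push Not at hs
    obtain ⟨κ, h0, hD, he⟩ := hs
    obtain ⟨μ, hd, hco, hμ⟩ := key ((aM (bord G s)).map (Int.cast : ℤ → ZMod p.1))
      ((aM G).map (Int.cast : ℤ → ZMod p.1)) (fun j => ((sv 0 1 s j : ℤ) : ZMod p.1))
      (fun i j => by simp only [map_apply, gm_cc]) (fun i => by simp only [map_apply, gm_cl])
      κ.natDegree κ le_rfl
    rw [he] at hco hμ
    obtain ⟨c1, rfl⟩ := exists_pol (D := D) (κ := κ)
      ((degree_le_natDegree).trans_lt (by exact_mod_cast hD))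
    obtain ⟨c2, rfl⟩ := exists_pol (D := D) (κ := μ) (hd.trans (by exact_mod_cast hD))
    refine ⟨(c1, c2), mem_univ _, ?_, ?_⟩
    · intro e
      simp only at e
      rw [e] at hco
      apply h0
      rw [← leadingCoeff_eq_zero, leadingCoeff, ← hco]
      simp
    · simp only [mem_univ, if_true]
      exact eq_neg_of_add_eq_zero_right hμ.symm
  · intro t _
    by_cases h0 : pol t.2 = 0
    · rw [pr_false fun s hs => hs.1 h0]
      positivity
    · refine (pr_mono fun s hs => hs.2).trans ?_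
      simpa using (hKer 0 1 p D k n).2 G hG (pol t.2) h0 (pol_natDegree _) univ _

theorem num1 {P : ℝ} {D n m : ℕ} (hm : 10 ≤ m) (hn : m ^ 3 ≤ n + 1) (hD : D ≤ m) (hP0 : 0 ≤ P)
    (hP : P ≤ 2 ^ m) : P * P * (2 ^ (D * (6 * m + 8)) / 2 ^ n) ≤ (1 / 2) ^ (m + 1) := by
  have h1 : m + m + D * (6 * m + 8) + (m + 1) ≤ n := by
    have h2 : D * (6 * m + 8) ≤ m * (6 * m + 8) := Nat.mul_le_mul_right _ hD
    have h3 : 10 * (m * m) ≤ m ^ 3 := by nlinarith
    nlinarith
  rw [one_div, inv_pow, ← mul_div_assoc, div_le_iff₀ (by positivity), inv_mul_eq_div,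
    le_div_iff₀ (by positivity)]
  calc P * P * 2 ^ (D * (6 * m + 8)) * 2 ^ (m + 1)
      ≤ 2 ^ m * 2 ^ m * 2 ^ (D * (6 * m + 8)) * 2 ^ (m + 1) := by gcongr
    _ = 2 ^ (m + m + D * (6 * m + 8) + (m + 1)) := by simp only [pow_add]
    _ ≤ 2 ^ n := pow_le_pow_right₀ one_le_two h1

theorem num2 {P : ℝ} {D m : ℕ} (hD : D ≤ m) (hP0 : 0 ≤ P) (hP : P ≤ 2 ^ m) :
    D * P * (8 * (2 / 3) ^ (6 * m + 8)) ≤ (1 / 2) ^ (m + 1) := by
  have h1 : (D : ℝ) ≤ 2 ^ m := by exact_mod_cast hD.trans (Nat.lt_two_pow_self).le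
  have h2 : (2 / 3 : ℝ) ^ (6 * m + 8) ≤ (1 / 2) ^ (3 * m + 4) := by
    rw [show 6 * m + 8 = 2 * (3 * m + 4) by ring, pow_mul]
    gcongr
    norm_num
  calc D * P * (8 * (2 / 3) ^ (6 * m + 8))
      ≤ 2 ^ m * 2 ^ m * (8 * (1 / 2) ^ (3 * m + 4)) := by gcongr
    _ = (1 / 2) ^ (m + 1) := by
      rw [show 3 * m + 4 = m + m + (m + 1) + 3 by ring]
      simp only [pow_add, one_div, inv_pow]
      field_simp
      norm_num

end MuAux

open MuAux in
theorem pMu (hKer : StKer) : StMu := by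
  refine ⟨10, fun p D n m hm hn hp => ?_⟩
  have h0 : 0 < m ^ 3 := by positivity
  obtain ⟨n, rfl⟩ : ∃ n', n = n' + 1 := ⟨n - 1, by omega⟩
  have hD : D ≤ m := by
    have : 2 ^ D ≤ 2 ^ m := (Nat.pow_le_pow_left p.2.two_le D).trans hp
    exact (Nat.pow_le_pow_iff_right one_lt_two).1 this
  have hP : (p.1 : ℝ) ^ D ≤ 2 ^ m := by exact_mod_cast hp
  have hu : ¬ (p.1 : ℤ) ∣ 1 - 0 := by
    rw [sub_zero]
    exact (Nat.prime_iff_prime_int.1 p.2).not_dvd_one
  rw [pr_bord]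
  refine (pr_prod_le' (E := fun ω : Gr n × Bv n => ¬ Mu p.1 D (bord ω.1 ω.2))
    (fun G => Ker 0 1 p D (6 * m + 8) G) (by positivity)
    fun G hG => fibre hKer p D (6 * m + 8) n G hG).trans ?_
  have h1 := num1 hm hn hD (by positivity) hP
  have h2 := ((hKer 0 1 p D (6 * m + 8) n).1 hu).trans (num2 hD (by positivity) hP)
  rw [pow_succ] at h1 h2
  linarith

end Pool.Agent.P.MP_f57657_co.DG
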