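import Pool.Agent.P.MP_f57657_co.DG.Base

/-! Odd characteristic and characteristic zero: the sum over all places. -/

open Matrix Finset Polynomial

namespace Pool.Agent.P.MP_f57657_co.DG

namespace OddAux

variable {n : ℕ}

theorem eg_sM {K : Type} [Field K] {G : Gr n} {θ : K} {z : Fin n → K}
    (hz : z ∈ eg K (aM G) θ) (h1 : dt 1 z = 0) : z ∈ eg K (sM G) (-1 - 2 * θ) := by
  rw [mem_eg] at hz ⊢
  intro i
  have h2 : ∑ j, z j = 0 := by simpa [dt] using h1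
  have h3 : ∀ j, ((sM G i j : ℤ) : K) * z j =
      z j - (if i = j then z j else 0) - 2 * (((aM G i j : ℤ) : K) * z j) := fun j => by
    rw [show sM G i j = _ from gm_eq 1 (-1) G i j]
    split_ifs <;> push_cast <;> ring
  simp only [h3, sum_sub_distrib, ← mul_sum, hz i, h2, sum_ite_eq, mem_univ, if_true]
  ring

theorem sw {K : Type} [Field K] {M : Matrix (Fin n) (Fin n) ℤ} {d : Fin n → ℤ}
    (hd : ∀ i, d i = 1 ∨ d i = -1) (v : Fin n → ℤ) {θ : K} {z : Fin n → K}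
    (hz : z ∈ eg K M θ) (h0 : z ≠ 0) :
    ∃ y ∈ eg K (Matrix.of fun i j => d i * M i j * d j) θ, y ≠ 0 ∧ y ⬝ᵥ y = z ⬝ᵥ z ∧
      dt (fun i => d i * v i) y = dt v z := by
  have h1 : ∀ i, (d i : K) * d i = 1 := fun i => by rcases hd i with h | h <;> simp [h]
  refine ⟨fun i => d i * z i, ?_, fun e => h0 (funext fun i => ?_), ?_, ?_⟩
  · rw [mem_eg] at hz ⊢
    intro i
    rw [mul_left_comm, ← hz i, mul_sum]
    refine sum_congr rfl fun j _ => ?_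
    rw [of_apply]
    push_cast
    linear_combination (d i * M i j * z j : K) * h1 j
  · have h2 : (d i : K) * z i = 0 := congrFun e i
    rw [Pi.zero_apply]
    linear_combination (d i : K) * h2 - z i * h1 i
  · exact sum_congr rfl fun i _ => by linear_combination z i * z i * h1 i
  · refine sum_congr rfl fun i _ => ?_
    push_cast
    linear_combination (v i * z i : K) * h1 i

/-- The bad event. -/
def Ev (Q : ℕ) (M : Matrix (Fin n) (Fin n) ℤ) (v : Fin n → ℤ) : Prop :=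
  RealP M v ∨ ∃ x : Pt, x.1.1 ≠ 2 ∧ Q < sz x ∧ IsoP x M v

theorem ev_fw {Q : ℕ} {M : Matrix (Fin n) (Fin n) ℤ} {v d : Fin n → ℤ}
    (hd : ∀ i, d i = 1 ∨ d i = -1) (h : Ev Q M v) :
    Ev Q (Matrix.of fun i j => d i * M i j * d j) fun i => d i * v i := by
  rcases h with ⟨θ, z, hz, h0, h1⟩ | ⟨x, h2, hQ, z, hz, h0, h1, h3⟩
  · obtain ⟨y, hy, a, -, c⟩ := sw hd v hz h0
    exact Or.inl ⟨θ, y, hy, a, c.trans h1⟩
  · obtain ⟨y, hy, a, b, c⟩ := sw hd v hz h0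
    exact Or.inr ⟨x, h2, hQ, y, hy, a, b.trans h1, c.trans h3⟩

theorem ev_iff (Q : ℕ) (M : Matrix (Fin n) (Fin n) ℤ) (v d : Fin n → ℤ)
    (hd : ∀ i, d i = 1 ∨ d i = -1) :
    Ev Q (Matrix.of fun i j => d i * M i j * d j) (fun i => d i * v i) ↔ Ev Q M v := by
  refine ⟨fun h => ?_, ev_fw hd⟩
  have h1 : ∀ i, d i * d i = 1 := fun i => by rcases hd i with h | h <;> simp [h]
  convert ev_fw hd h using 1
  · ext i j
    simp only [of_apply]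
    linear_combination (-M i j) * h1 i - (d i * d i * M i j) * h1 j
  · funext i
    linear_combination (-v i) * h1 i

theorem ev_sM (hPl : StPl) {Q : ℕ} {G : Gr n} (h : Ev Q (aM G) 1) : Ev Q (sM G) 1 := by
  rcases h with ⟨θ, z, hz, h0, h1⟩ | ⟨x, h2, hQ, z, hz, h0, h1, h3⟩
  · exact Or.inl ⟨_, z, eg_sM hz h1, h0, h1⟩
  · refine Or.inr ⟨⟨x.1, -1 - 2 * x.2⟩, h2, ?_, z, eg_sM hz h3, h0, h1, h3⟩
    rwa [(hPl x).2.2.2.2.2.2.2.2.2 h2]

theorem sum_le {c : ℝ} (hc : 0 ≤ c) {Q : ℕ} (hQ : 0 < Q) (t : ℕ) :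
    ∑ q ∈ Ioc Q (2 ^ t), (q : ℝ) * (c / (q : ℝ) ^ 3 + (1 / 2) ^ (3 * t)) ≤ c / Q + (1 / 2) ^ t := by
  have h1 : ∑ q ∈ Ioc Q (2 ^ t), ((q : ℝ) ^ 2)⁻¹ ≤ (Q : ℝ)⁻¹ := by
    rcases le_total Q (2 ^ t) with h | h
    · exact (sum_Ioc_inv_sq_le_sub hQ.ne' h).trans (sub_le_self _ (by positivity))
    · rw [Ioc_eq_empty (not_lt.2 h), sum_empty]
      positivity
  have h2 : ∀ q ∈ Ioc Q (2 ^ t), (q : ℝ) * (c / (q : ℝ) ^ 3 + (1 / 2) ^ (3 * t)) ≤
      c * ((q : ℝ) ^ 2)⁻¹ + 2 ^ t * (1 / 2) ^ (3 * t) := fun q hq => by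
    have h3 : (0 : ℝ) < q := by exact_mod_cast hQ.trans (mem_Ioc.1 hq).1
    have h4 : (q : ℝ) ≤ 2 ^ t := by exact_mod_cast (mem_Ioc.1 hq).2
    rw [mul_add]
    refine add_le_add (le_of_eq ?_) (by gcongr)
    field_simp
  refine (sum_le_sum h2).trans ?_
  rw [sum_add_distrib, ← mul_sum, sum_const, nsmul_eq_mul, div_eq_mul_inv c]
  refine add_le_add (by gcongr) ?_
  have h5 : ((Ioc Q (2 ^ t)).card : ℝ) ≤ 2 ^ t := by
    rw [Nat.card_Ioc]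
    exact_mod_cast Nat.sub_le _ _
  refine (mul_le_mul_of_nonneg_right h5 (by positivity)).trans (le_of_eq ?_)
  rw [show 3 * t = t + t + t by ring, pow_add, pow_add, one_div, inv_pow]
  field_simp

end OddAux

open OddAux in
theorem pOdd (hSw : StSw) (hMed : StMed) (hLarge : StLarge) (hPar : StPar) (hPl : StPl)
    (hPlc : StPlc) : StOdd := by
  classical
  intro ε hε
  obtain ⟨N1, c, h1⟩ := hMed
  obtain ⟨N2, h2⟩ := hLarge
  obtain ⟨T, hT⟩ := exists_pow_lt_of_lt_one (by positivity : 0 < ε / 3) (by norm_num : (1 / 2 : ℝ) < 1)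
  obtain ⟨n0, h3⟩ := hPar (N1 + N2 + T)
  obtain ⟨Q, hQ⟩ := exists_nat_ge (3 * |c| / ε)
  obtain ⟨N, hN⟩ := exists_nat_ge (3 / ε)
  choose F hF hF' using hPlc.1
  refine ⟨Q + 32, n0 + N, fun n hn => ?_⟩
  obtain ⟨t, j0, ht, hp⟩ := h3 n (by omega)
  refine (pr_mono (F := fun G => Ev (Q + 32) (sM G) 1) fun G hG => ev_sM hPl hG).trans ?_
  rw [hSw n (Ev (Q + 32)) (ev_iff _)]
  refine (pr_le_add (F := fun ω : Gr n × Bv n => Ev (2 ^ t) (sM ω.1) (sv 1 (-1) ω.2))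
    (F' := fun ω => ∃ x : Pt, x.1.1 ≠ 2 ∧ sz x ∈ Ioc (Q + 32) (2 ^ t) ∧
      IsoP x (sM ω.1) (sv 1 (-1) ω.2)) fun ω hω => ?_).trans ?_
  · rcases hω with h | ⟨x, a, b, e⟩
    · exact Or.inl (Or.inl h)
    · rcases lt_or_ge (2 ^ t) (sz x) with h | h
      · exact Or.inl (Or.inr ⟨x, a, h, e⟩)
      · exact Or.inr ⟨x, a, mem_Ioc.2 ⟨b, h⟩, e⟩
  have h4 : pr (fun ω : Gr n × Bv n => Ev (2 ^ t) (sM ω.1) (sv 1 (-1) ω.2)) ≤ ε / 3 := by
    refine (h2 n t j0 (by omega) hp).trans ?_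
    have h5 : 3 / ε ≤ n := hN.trans (by exact_mod_cast (by omega : N ≤ n))
    have h6 : (0 : ℝ) < n := lt_of_lt_of_le (by positivity) h5
    rw [div_le_iff₀ hε] at h5
    rw [div_le_div_iff₀ h6 (by norm_num)]
    linarith
  have h7 : pr (fun ω : Gr n × Bv n => ∃ x : Pt, x.1.1 ≠ 2 ∧ sz x ∈ Ioc (Q + 32) (2 ^ t) ∧
      IsoP x (sM ω.1) (sv 1 (-1) ω.2)) ≤ |c| / (Q + 32 : ℕ) + (1 / 2) ^ t := by
    refine (pr_le_sum (Ioc (Q + 32) (2 ^ t)) (fun q ω => ∃ x : Pt, x.1.1 ≠ 2 ∧ sz x = q ∧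
      IsoP x (sM ω.1) (sv 1 (-1) ω.2)) fun ω ⟨x, a, b, e⟩ => ⟨_, b, x, a, rfl, e⟩).trans ?_
    refine le_trans (sum_le_sum fun q hq => ?_) (sum_le (abs_nonneg c) (by omega) t)
    refine (pr_le_card_mul (F q) (fun x ω => x.1.1 ≠ 2 ∧ sz x = q ∧
      IsoP x (sM ω.1) (sv 1 (-1) ω.2)) (c := |c| / (q : ℝ) ^ 3 + (1 / 2) ^ (3 * t))
      (fun ω ⟨x, a, b, e⟩ => ⟨x, hF' q x b, a, b, e⟩) fun x _ => ?_).trans ?_
    · by_cases hx : x.1.1 ≠ 2 ∧ sz x = q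
      · have h8 := mem_Ioc.1 hq
        refine (pr_mono fun ω hω => hω.2.2).trans
          ((h1 n t j0 x (by omega) hp hx.1 (by omega) (by omega)).trans ?_)
        rw [hx.2]
        gcongr
        exact le_abs_self c
      · rw [pr_false fun ω hω => hx ⟨hω.1, hω.2.1⟩]
        positivity
    · gcongr
      exact_mod_cast hF q
  have h9 : (1 / 2 : ℝ) ^ t ≤ (1 / 2) ^ T :=
    pow_le_pow_of_le_one (by norm_num) (by norm_num) (by omega)
  have h10 : |c| / (Q + 32 : ℕ) ≤ ε / 3 := by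
    rw [div_le_iff₀ hε] at hQ
    rw [div_le_div_iff₀ (by positivity) (by norm_num)]
    push_cast
    nlinarith
  linarith

end Pool.Agent.P.MP_f57657_co.DG
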