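import Pool.Agent.P.MP_f57657_co.DG.Base

/-! Odlyzko type bounds for random bit vectors. -/

open Matrix Finset Polynomial

namespace Pool.Agent.P.MP_f57657_co.DG

namespace OdlAux

theorem cnt {n : ℕ} (E : Bv n → Prop) (C I : Finset (Fin n))
    (h : ∀ s t, E s → E t → (∀ j ∈ C, s j = t j) → ∀ j ∈ I, s j = t j) :
    pr E ≤ 2 ^ C.card / 2 ^ I.card := by
  classical
  have h1 : (univ.filter E).card ≤ (C ∪ Iᶜ).powerset.card := by
    refine card_le_card_of_injOn (fun s => (C ∪ Iᶜ).filter fun j => s j = true)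
      (fun s _ => mem_coe.2 (mem_powerset.2 (filter_subset _ _))) fun s hs t ht e => ?_
    have k : ∀ j ∈ C ∪ Iᶜ, s j = t j := fun j hj => by
      have := Finset.ext_iff.1 e j
      simp only [mem_filter, hj, true_and] at this
      exact Bool.eq_iff_iff.2 this
    funext j
    by_cases hj : j ∈ I
    · exact h s t (mem_filter.1 hs).2 (mem_filter.1 ht).2
        (fun i hi => k i (mem_union_left _ hi)) j hj
    · exact k j (mem_union_right _ (mem_compl.2 hj))
  have h2 : (C ∪ Iᶜ).card + I.card ≤ C.card + n := by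
    have := card_union_le C Iᶜ
    have := card_add_card_compl I
    rw [Fintype.card_fin] at this
    omega
  rw [card_powerset] at h1
  have h3 : (univ.filter E).card * 2 ^ I.card ≤ 2 ^ C.card * 2 ^ n := by
    refine (Nat.mul_le_mul_right _ h1).trans ?_
    rw [← pow_add, ← pow_add]
    exact Nat.pow_le_pow_right two_pos h2
  rw [pr_eq_card, div_le_div_iff₀ (by positivity) (by positivity)]
  simp only [Fintype.card_fun, Fintype.card_bool, Fintype.card_fin]
  exact_mod_cast h3

theorem coords {K : Type} [Field K] {n : ℕ} (d : ℕ) : ∀ W : Submodule K (Fin n → K),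
    Module.finrank K W ≤ d →
    ∃ C : Finset (Fin n), C.card ≤ d ∧ ∀ w ∈ W, (∀ j ∈ C, w j = 0) → w = 0 := by
  induction d with
  | zero =>
    intro W hW
    rw [Nat.le_zero, Submodule.finrank_eq_zero] at hW
    exact ⟨∅, by simp, fun w hw _ => by simpa [hW] using hw⟩
  | succ d ih =>
    intro W hW
    by_cases h0 : ∀ w ∈ W, w = 0
    · exact ⟨∅, by simp, fun w hw _ => h0 w hw⟩
    push Not at h0
    obtain ⟨v, hv, hv0⟩ := h0
    obtain ⟨j, hj⟩ := Function.ne_iff.1 hv0
    have hlt : W ⊓ LinearMap.ker (LinearMap.proj j : (Fin n → K) →ₗ[K] K) < W :=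
      lt_of_le_of_ne inf_le_left fun e => hj (e.ge hv).2
    obtain ⟨C, h1, h2⟩ := ih _
      (Nat.le_of_lt_succ ((Submodule.finrank_lt_finrank_of_lt hlt).trans_le hW))
    refine ⟨insert j C, (card_insert_le _ _).trans (by omega), fun w hw h => ?_⟩
    exact h2 w ⟨hw, h j (mem_insert_self _ _)⟩ fun i hi => h i (mem_insert_of_mem hi)

theorem sv_inj {K : Type} [Field K] {n : ℕ} {α β : ℤ} (h : ((β - α : ℤ) : K) ≠ 0) {s t : Bv n}
    {j : Fin n} (e : ((sv α β s j : ℤ) : K) - (sv α β t j : ℤ) = 0) : s j = t j := by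
  push_cast at h
  by_contra hc
  simp only [sv] at e
  cases hs : s j <;> cases ht : t j <;> simp only [hs, ht] at hc e
  · exact hc trivial
  · exact h (by simpa using neg_eq_zero.2 e)
  · exact h (by simpa using e)
  · exact hc trivial

theorem dt_xor {K : Type} [Field K] (h2 : (2 : K) = 0) {n : ℕ} (z : Fin n → K) (s t : Bv n) :
    dt (sv 0 1 fun i => xor (s i) (t i)) z = dt (sv 0 1 s) z + dt (sv 0 1 t) z := by
  simp only [dt, ← sum_add_distrib]
  refine sum_congr rfl fun i _ => ?_
  cases hs : s i <;> cases ht : t i <;> simp [sv, hs, ht]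
  rw [← two_mul, h2, zero_mul]

end OdlAux

open OdlAux

theorem pOdl : StOdl := by
  classical
  intro K _ n
  refine ⟨fun α β E hab => ?_, fun W I b => ?_, fun h2 M θ z b Q hz hz0 hQ hB => ?_⟩
  · set e := (Pi.basisFun K (Fin n)).toDualEquiv with he
    have h1 := Subspace.finrank_add_finrank_dualAnnihilator_eq E
    rw [Module.finrank_fin_fun] at h1
    obtain ⟨C, c1, c2⟩ := coords _ (E.dualAnnihilator.map e.symm.toLinearMap)
      (LinearEquiv.finrank_map_eq _ _).le
    refine (cnt _ C univ fun s t hs ht h j _ => ?_).trans ?_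
    · refine sv_inj hab (congrFun (c2 (fun i => ((sv α β s i : ℤ) : K) - (sv α β t i : ℤ)) ?_
        fun i hi => by simp [sv, h i hi]) j)
      refine ⟨e _, (Submodule.mem_dualAnnihilator _).2 fun w hw => ?_, e.symm_apply_apply _⟩
      have a1 := hs w hw
      have a2 := ht w hw
      rw [he, Module.Basis.toDualEquiv_apply, ← (Pi.basisFun K (Fin n)).sum_repr w, map_sum]
      simp only [map_smul, Module.Basis.toDual_eq_repr, Pi.basisFun_repr, smul_eq_mul, mul_sub,
        sum_sub_distrib]
      simp only [dt, mul_comm _ (w _)] at a1 a2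
      rw [a1, a2, sub_zero]
    · rw [card_univ, Fintype.card_fin, one_div, inv_pow, div_le_iff₀ (by positivity),
        le_inv_mul_iff₀ (by positivity), ← pow_add]
      exact pow_le_pow_right₀ one_le_two (by omega)
  · obtain ⟨C, c1, c2⟩ := coords _ W le_rfl
    refine (cnt _ C I fun s t hs ht h j hj => ?_).trans
      (div_le_div_of_nonneg_right (pow_le_pow_right₀ one_le_two c1) (by positivity))
    have a1 := congrFun (c2 _ (W.sub_mem hs ht) fun i hi => by simp [sv, h i hi]) j
    exact sv_inj (K := K) (α := 0) (β := 1) (by simp) (by simpa [hj] using a1)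
  · have hneg : ∀ x : K, x + x = 0 := fun x => by rw [← two_mul, h2, zero_mul]
    let T : AddSubgroup K :=
      { carrier := Set.range fun s : Bv n => dt (sv 0 1 s) z
        zero_mem' := ⟨fun _ => false, by simp [dt, sv]⟩
        add_mem' := by
          rintro _ _ ⟨s, rfl⟩ ⟨t, rfl⟩
          exact ⟨_, dt_xor h2 z s t⟩
        neg_mem' := by
          rintro _ ⟨s, rfl⟩
          exact ⟨s, eq_neg_of_add_eq_zero_left (hneg _)⟩ }
    have hzT : ∀ j, z j ∈ T := fun j => ⟨fun i => decide (i = j), by simp [dt, sv]⟩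
    have hfin : Finite T := Set.finite_range _
    have hQT := hB T (by
      obtain ⟨j, hj⟩ := Function.ne_iff.1 hz0
      exact fun e => hj (AddSubgroup.mem_bot.1 (e ▸ hzT j))) (by
      rintro _ ⟨s, rfl⟩
      simp only [dt, mul_sum]
      refine T.sum_mem fun i _ => ?_
      rw [mul_left_comm, ← mem_eg.1 hz i, ← zsmul_eq_mul]
      exact T.zsmul_mem (T.sum_mem fun j _ => by
        rw [← zsmul_eq_mul]
        exact T.zsmul_mem (hzT j) _) _) hfin
    choose σ hσ using fun τ : T => τ.2
    have hinj : Function.Injective fun x : {s : Bv n // dt (sv 0 1 s) z = b} × T =>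
        (fun i => xor (x.1.1 i) (σ x.2 i) : Bv n) := by
      rintro ⟨⟨s, hs⟩, τ⟩ ⟨⟨t, ht⟩, τ'⟩ e
      have a1 := dt_xor h2 z s (σ τ)
      have a2 := dt_xor h2 z t (σ τ')
      simp only at e hσ
      rw [e, a2, hs, ht, hσ, hσ, add_right_inj] at a1
      obtain rfl : τ' = τ := Subtype.ext a1
      have : s = t := funext fun i => Bool.xor_left_inj.1 (congrFun e i)
      subst this
      rfl
    have hc := Nat.card_le_card_of_injective _ hinj
    rw [Nat.card_prod, Nat.card_eq_fintype_card, Nat.card_eq_fintype_card (α := Bv n),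
      Fintype.card_subtype] at hc
    have hQ' : (0 : ℝ) < Q := by exact_mod_cast hQ
    rw [pr_eq_card, div_le_div_iff₀ (by positivity) hQ', one_mul]
    exact_mod_cast (Nat.mul_le_mul_left _ hQT).trans hc

end Pool.Agent.P.MP_f57657_co.DG
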