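import Pool.Agent.P.MP_f57657_co.DG.Base

/-! The walk matrix is invertible when no real eigenvector is orthogonal to the all-ones vector. -/

open Matrix Finset Polynomial

namespace Pool.Agent.P.MP_f57657_co.DG

namespace PBHAux

variable {n : ℕ}

/-- Orthogonality to the first `n` powers gives orthogonality to all powers. -/
theorem all_pow (A : Matrix (Fin n) (Fin n) ℝ) (y u : Fin n → ℝ) (hn : 0 < n)
    (h : ∀ k : Fin n, y ⬝ᵥ ((A ^ k.val) *ᵥ u) = 0) (k : ℕ) : y ⬝ᵥ ((A ^ k) *ᵥ u) = 0 := by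
  have h1 : (X ^ k %ₘ A.charpoly).natDegree < n := by
    have h2 : A.charpoly ≠ 1 := by
      intro e
      have := A.charpoly_natDegree_eq_dim
      rw [e, natDegree_one, Fintype.card_fin] at this
      omega
    have := natDegree_modByMonic_lt (X ^ k) A.charpoly_monic h2
    rwa [A.charpoly_natDegree_eq_dim, Fintype.card_fin] at this
  rw [Matrix.pow_eq_aeval_mod_charpoly, aeval_eq_sum_range' h1, Matrix.sum_mulVec,
    dotProduct_sum]
  refine sum_eq_zero fun i hi => ?_
  rw [smul_mulVec, dotProduct_smul, h ⟨i, mem_range.1 hi⟩, smul_zero]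

/-- A nonzero vector orthogonal to all powers yields an eigenvector orthogonal to `u`. -/
theorem eig (A : Matrix (Fin n) (Fin n) ℝ) (hA : A.IsSymm) (y u : Fin n → ℝ) (hy : y ≠ 0)
    (h : ∀ k : ℕ, y ⬝ᵥ ((A ^ k) *ᵥ u) = 0) :
    ∃ (θ : ℝ) (z : Fin n → ℝ), A *ᵥ z = θ • z ∧ z ≠ 0 ∧ z ⬝ᵥ u = 0 := by
  have hH : A.IsHermitian := by
    rw [Matrix.IsHermitian, conjTranspose_eq_transpose_of_trivial]
    exact hA
  have hT : (Matrix.toEuclideanLin A).IsSymmetric := Matrix.isSymmetric_toEuclideanLin_iff.2 hH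
  let U : Submodule ℝ (EuclideanSpace ℝ (Fin n)) :=
    { carrier := {v | ∀ k : ℕ, v.ofLp ⬝ᵥ ((A ^ k) *ᵥ u) = 0}
      add_mem' := fun {a b} ha hb k => by
        rw [WithLp.ofLp_add, add_dotProduct, ha k, hb k, add_zero]
      zero_mem' := fun k => by simp
      smul_mem' := fun c a ha k => by
        rw [WithLp.ofLp_smul, smul_dotProduct, ha k, smul_zero] }
  have hU : ∀ v ∈ U, Matrix.toEuclideanLin A v ∈ U := by
    intro v hv k
    have e : (Matrix.toEuclideanLin A v).ofLp = A *ᵥ v.ofLp := rfl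
    rw [e, ← vecMul_transpose, hA.eq, ← dotProduct_mulVec, mulVec_mulVec, ← pow_succ']
    exact hv (k + 1)
  by_contra hcon
  have hs := (hT.restrict_invariant hU).subsingleton_of_no_eigenvalue_finiteDimensional
    fun μ => by
      rw [Submodule.eq_bot_iff]
      intro z hz
      rw [Module.End.mem_eigenspace_iff] at hz
      by_contra hz0
      refine hcon ⟨μ, z.1.ofLp, ?_, ?_, ?_⟩
      · have := congrArg (fun w : U => w.1.ofLp) hz
        exact this
      · intro e
        exact hz0 (Subtype.ext ((WithLp.ofLp_eq_zero 2).1 e))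
      · simpa using z.2 0
  have hm : WithLp.toLp 2 y ∈ U := h
  have := Subsingleton.elim (⟨_, hm⟩ : U) 0
  exact hy (congrArg (fun w : U => w.1.ofLp) this)

end PBHAux

theorem pPBH : StPBH := by
  intro n G hR hdet
  apply hR
  set A : Matrix (Fin n) (Fin n) ℝ := (aM G).map (Int.cast : ℤ → ℝ) with hA
  have hW : ((wk G).map (Int.cast : ℤ → ℝ)).det = 0 := by
    have := (Int.castRingHom ℝ).map_det (wk G)
    rw [hdet, map_zero] at this
    exact this.symm
  obtain ⟨y, hy, hyW⟩ := Matrix.exists_vecMul_eq_zero_iff.2 hW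
  have hn : 0 < n := by
    rcases Nat.eq_zero_or_pos n with rfl | h
    · exact absurd (Subsingleton.elim _ _) hy
    · exact h
  have hS : A.IsSymm := (gm_symm 0 1 G).map _
  have h1 : ∀ k : Fin n, y ⬝ᵥ ((A ^ k.val) *ᵥ (1 : Fin n → ℝ)) = 0 := by
    intro k
    have e : A ^ k.val = (aM G ^ k.val).map (Int.cast : ℤ → ℝ) :=
      (map_pow (Int.castRingHom ℝ).mapMatrix (aM G) k.val).symm
    have := congrFun hyW k
    rw [e]
    simpa [vecMul, dotProduct, wk, mulVec] using this
  obtain ⟨θ, z, hz, hz0, hzu⟩ := PBHAux.eig A hS y 1 hy (PBHAux.all_pow A y 1 hn h1)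
  refine ⟨θ, z, mem_eg'.2 hz, hz0, ?_⟩
  simpa [dt, dotProduct] using hzu

end Pool.Agent.P.MP_f57657_co.DG
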