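import Pool.Agent.P.MP_f57657_co.DG.Base

/-! Few members of a pencil have a large common power of `p` with a fixed polynomial. -/

open Matrix Finset Polynomial

namespace Pool.Agent.P.MP_f57657_co.DG

namespace PVAux

theorem prim_rel {ρ : ℕ} {p : ℤ} (hp : ¬ p ∣ 1) (v : Fin (ρ + 1) → Fin ρ → ℤ) :
    ∃ c : Fin (ρ + 1) → ℤ, ∑ i, c i • v i = 0 ∧ ∃ i, ¬ p ∣ c i := by
  have h : ¬ LinearIndependent ℤ v := fun h => by
    have := h.fintype_card_le_finrank
    simp at this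
  obtain ⟨c, hc, i, hi⟩ := Fintype.not_linearIndependent_iff.1 h
  obtain ⟨g, hg, h1⟩ := Finset.extract_gcd c (univ_nonempty (α := Fin (ρ + 1)))
  have hd : (univ : Finset (Fin (ρ + 1))).gcd c ≠ 0 := fun e =>
    hi (by rw [hg i (mem_univ i), e]; simp)
  refine ⟨g, ?_, ?_⟩
  · refine (smul_eq_zero.1 ?_).resolve_left hd
    rw [← hc, smul_sum]
    exact sum_congr rfl fun j _ => by rw [smul_smul, ← hg j (mem_univ j)]
  · by_contra hn
    push Not at hn
    exact hp (h1 ▸ Finset.dvd_gcd fun j _ => hn j)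

theorem unit_int {T : Type} [CommRing T] {p N : ℕ} (hp : p.Prime) (h0 : (p : T) ^ N = 0) {u : ℤ}
    (hu : ¬ (p : ℤ) ∣ u) : IsUnit (u : T) := by
  obtain ⟨a, b, e⟩ := (((Nat.prime_iff_prime_int.1 hp).irreducible.coprime_iff_not_dvd).2
    hu).pow_left (m := N)
  have := congrArg (Int.cast : ℤ → T) e
  push_cast at this
  rw [h0, mul_zero, zero_add] at this
  exact IsUnit.of_mul_eq_one_right _ this

theorem pencil {T : Type} [CommRing T] {p N ρ c1 m : ℕ} (hp : p.Prime) (h0 : (p : T) ^ N = 0)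
    (xs : Fin ρ → T) (hxs : ∀ t, t ∈ Submodule.span ℤ (Set.range xs)) (a z0 : T)
    (ha : a ∣ (p : T) ^ c1) (τ : Fin (ρ + 1) → ℕ) (hτ : Function.Injective τ)
    (hlt : ∀ i, τ i < p ^ (m + 1)) : ∃ i, z0 + τ i * a ∣ (p : T) ^ (ρ * (c1 + m)) := by
  have hP := Nat.prime_iff_prime_int.1 hp
  have h1 : ∀ i k, ∃ κ : T, i ≠ k →
      (p : T) ^ (c1 + m) = κ * ((z0 + τ i * a) - (z0 + τ k * a)) := by
    intro i k
    by_cases hik : i = k
    · exact ⟨0, fun h => absurd hik h⟩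
    have hd : (τ i : ℤ) - τ k ≠ 0 := fun e => hik (hτ (by omega))
    obtain ⟨j, u, hu, e⟩ := WfDvdMonoid.max_power_factor hd hP.irreducible
    have hj : j ≤ m := by
      have h2 := Int.natAbs_le_of_dvd_ne_zero (Dvd.intro _ e.symm) hd
      rw [Int.natAbs_pow, Int.natAbs_natCast] at h2
      have h3 : p ^ j < p ^ (m + 1) := by
        have := hlt i
        have := hlt k
        omega
      exact Nat.lt_succ_iff.1 ((Nat.pow_lt_pow_iff_right hp.one_lt).1 h3)
    obtain ⟨w, hw⟩ := (unit_int hp h0 hu).exists_left_inv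
    obtain ⟨b, hb⟩ := ha
    obtain ⟨d, rfl⟩ := Nat.exists_eq_add_of_le hj
    have e' := congrArg (Int.cast : ℤ → T) e
    push_cast at e'
    refine ⟨b * w * (p : T) ^ d, fun _ => ?_⟩
    rw [pow_add, pow_add, hb]
    linear_combination -(a * b * w * (p : T) ^ d) * e' - a * b * (p : T) ^ j * (p : T) ^ d * hw
  choose κ hκ using h1
  have h2 := fun i => (Submodule.mem_span_range_iff_exists_fun ℤ).1
    (hxs (∏ k ∈ univ.erase i, -κ i k * (z0 + τ k * a)))
  choose v hv using h2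
  obtain ⟨c, hc, i, hi⟩ := prim_rel hP.not_dvd_one v
  have h3 : ∑ l, (c l : T) * ∏ k ∈ univ.erase l, -κ l k * (z0 + τ k * a) = 0 := by
    simp only [← hv, mul_sum]
    rw [sum_comm]
    refine sum_eq_zero fun j _ => ?_
    have := congrArg (fun f : Fin ρ → ℤ => ((f j : ℤ) : T) * xs j) hc
    simpa [sum_mul, mul_assoc] using this
  refine ⟨i, ?_⟩
  rw [← (unit_int hp h0 hi).dvd_mul_left, ← Ideal.mem_span_singleton,
    ← Ideal.Quotient.eq_zero_iff_mem]
  set q := Ideal.Quotient.mk (Ideal.span {z0 + τ i * a}) with hq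
  have hq0 : q (z0 + τ i * a) = 0 :=
    Ideal.Quotient.eq_zero_iff_mem.2 (Ideal.mem_span_singleton_self _)
  have h4 := congrArg q h3
  rw [map_sum, map_zero, Finset.sum_eq_single i (fun l _ hl => by
    rw [map_mul, map_prod, prod_eq_zero (mem_erase.2 ⟨hl.symm, mem_univ i⟩) (by
      rw [map_mul, hq0, mul_zero]), mul_zero]) (by simp), map_mul, map_prod,
    prod_congr rfl (g := fun _ => q ((p : T) ^ (c1 + m))) fun k hk => by
      rw [hκ i k (mem_erase.1 hk).1.symm, map_mul, map_mul, map_sub, hq0, map_neg]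
      ring] at h4
  rw [prod_const, card_erase_of_mem (mem_univ i), card_univ, Fintype.card_fin,
    Nat.add_sub_cancel, ← map_pow, ← pow_mul, mul_comm (c1 + m)] at h4
  rwa [map_mul]

theorem red_zero {p : ℕ} {f : ℤ[X]} (h : red p f = 0) : ∃ g, f = (p : ℤ[X]) * g := by
  have : C (p : ℤ) ∣ f := (C_dvd_iff_dvd_coeff _ _).2 fun i => by
    have := congrArg (fun u => u.coeff i) h
    simpa [red, ZMod.intCast_zmod_eq_zero_iff_dvd] using this
  rwa [map_natCast] at this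

theorem red_surj (p : ℕ) (f : (ZMod p)[X]) : ∃ g, red p g = f :=
  Polynomial.map_surjective _ (ZMod.ringHom_surjective _) f

theorem unit_of (hPl : StPl) (x : Pt) {T : Type} [CommRing T] (q : ℤ[X] →+* T)
    (h1 : IsNilpotent (x.1.1 : T)) (h2 : IsNilpotent (q (lf x))) {u : ℤ[X]}
    (hu : ¬ mp x ∣ red x.1.1 u) : IsUnit (q u) := by
  obtain ⟨-, p2, -, -, p5, -⟩ := hPl x
  obtain ⟨a, b, e⟩ := (p5.coprime_iff_not_dvd).2 hu
  obtain ⟨a, rfl⟩ := red_surj _ a
  obtain ⟨b, rfl⟩ := red_surj _ b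
  obtain ⟨g, hg⟩ := red_zero (p := x.1.1) (f := a * lf x + b * u - 1) (by
    rw [← p2] at e
    simp only [red, Polynomial.map_sub, Polynomial.map_add, Polynomial.map_mul,
      Polynomial.map_one] at e ⊢
    rw [e, sub_self])
  have h3 := congrArg q hg
  simp only [map_sub, map_add, map_mul, map_one, map_natCast] at h3
  have h4 : IsNilpotent (q a * q (lf x) - (x.1.1 : T) * q g) :=
    (Commute.all _ _).isNilpotent_sub ((Commute.all _ _).isNilpotent_mul_left h2)
      ((Commute.all _ _).isNilpotent_mul_right h1)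
  have h5 := h4.isUnit_one_sub
  rw [show 1 - (q a * q (lf x) - (x.1.1 : T) * q g) = q b * q u by linear_combination -h3] at h5
  exact isUnit_of_mul_isUnit_right h5

theorem span_top (hPl : StPl) (x : Pt) {T : Type} [CommRing T] (q : ℤ[X] →+* T)
    (hq : Function.Surjective q) (h1 : IsNilpotent (x.1.1 : T)) (h2 : IsNilpotent (q (lf x)))
    {r : ℕ} {g : ℤ[X]} (hg : Ord x r g) (h0 : q g = 0) (t : T) :
    t ∈ Submodule.span ℤ (Set.range fun i : Fin (r * dg x) => q (X ^ i.val)) := by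
  obtain ⟨p1, p2, p3, -, p5, -⟩ := hPl x
  have hne : red x.1.1 g ≠ 0 := fun e => hg (e ▸ dvd_zero _)
  obtain ⟨o, h, hh, e⟩ := WfDvdMonoid.max_power_factor hne p5
  obtain ⟨h, rfl⟩ := red_surj _ h
  have ho : o ≤ r := by
    by_contra hc
    exact hg (e ▸ (pow_dvd_pow _ (not_le.1 hc).le).mul_right _)
  obtain ⟨γ, hγ⟩ := red_zero (p := x.1.1) (f := g - lf x ^ o * h) (by
    rw [← p2] at e
    simp only [red, Polynomial.map_sub, Polynomial.map_pow, Polynomial.map_mul] at e ⊢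
    rw [e, sub_self])
  obtain ⟨w, hw⟩ := (unit_of hPl x q h1 h2 hh).exists_right_inv
  obtain ⟨d, rfl⟩ := Nat.exists_eq_add_of_le ho
  have h3 : q (lf x ^ (o + d)) = (x.1.1 : T) * -(q γ * w * q (lf x) ^ d) := by
    have := congrArg q hγ
    simp only [map_sub, map_mul, map_pow, map_natCast, h0] at this
    rw [map_pow, pow_add]
    linear_combination -(w * q (lf x) ^ d) * this - q (lf x) ^ o * q (lf x) ^ d * hw
  set W := Submodule.span ℤ (Set.range fun i : Fin ((o + d) * dg x) => q (X ^ i.val))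
  have h4 : ∀ t : T, ∃ w ∈ W, ∃ t', t = w + (x.1.1 : T) * t' := by
    intro t
    obtain ⟨f, rfl⟩ := hq t
    have hm := p1.pow (o + d)
    have hd : (f %ₘ lf x ^ (o + d)).degree < ((o + d) * dg x : ℕ) := by
      have := degree_modByMonic_lt f hm
      rwa [degree_eq_natDegree hm.ne_zero, p1.natDegree_pow, p3] at this
    refine ⟨q (f %ₘ lf x ^ (o + d)), ?_, -(q γ * w * q (lf x) ^ d) * q (f /ₘ lf x ^ (o + d)), ?_⟩
    · rw [← sum_fin (fun i c => (monomial i c : ℤ[X])) (fun i => by simp) hd |>.trans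
        (sum_monomial_eq _), map_sum]
      refine Submodule.sum_mem _ fun i _ => ?_
      rw [← smul_X_eq_monomial, map_zsmul]
      exact Submodule.smul_mem _ _ (Submodule.subset_span ⟨i, rfl⟩)
    · rw [← mul_assoc, ← h3, ← map_mul, ← map_add, modByMonic_add_div]
  have h5 : ∀ (k : ℕ) (t : T), ∃ w ∈ W, ∃ t', t = w + (x.1.1 : T) ^ k * t' := by
    intro k
    induction k with
    | zero => exact fun t => ⟨0, W.zero_mem, t, by simp⟩
    | succ k ih =>
      intro t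
      obtain ⟨w1, hw1, t1, rfl⟩ := ih t
      obtain ⟨w2, hw2, t2, rfl⟩ := h4 t1
      refine ⟨w1 + ((x.1.1 : ℤ) ^ k) • w2, W.add_mem hw1 (W.smul_mem _ hw2), t2, ?_⟩
      rw [zsmul_eq_mul]
      push_cast
      ring
  obtain ⟨N, hN⟩ := h1
  obtain ⟨w1, hw1, t1, rfl⟩ := h5 N t
  rwa [hN, zero_mul, add_zero]

end PVAux

open PVAux in
theorem pPV (hPl : StPl) (hInv : StInv) : StPV := by
  classical
  intro x r c1 m L g a z0 hg hC hL1 hL2
  set c2 := (r * dg x + 1) * (r * dg x) * (c1 + m) with hc2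
  rw [pr_eq_card, Fintype.card_fin]
  push_cast
  refine div_le_div_of_nonneg_right ?_ (by positivity)
  rw [← Nat.cast_mul, Nat.cast_le]
  by_contra hc
  have hc' := Nat.succ_le_of_lt (not_le.1 hc)
  let J : Ideal ℤ[X] := Ideal.span {g} ⊔ Ideal.span {(x.1.1 : ℤ[X]) ^ (c2 + 1), lf x ^ L}
  let q := Ideal.Quotient.mk J
  have q0 : q g = 0 :=
    Ideal.Quotient.eq_zero_iff_mem.2 (Ideal.mem_sup_left (Ideal.mem_span_singleton_self _))
  have q1 : (x.1.1 : ℤ[X] ⧸ J) ^ (c2 + 1) = 0 := by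
    rw [← map_natCast q, ← map_pow]
    exact Ideal.Quotient.eq_zero_iff_mem.2 (Ideal.mem_sup_right (Ideal.subset_span (by simp)))
  have q2 : q (lf x) ^ L = 0 := by
    rw [← map_pow]
    exact Ideal.Quotient.eq_zero_iff_mem.2 (Ideal.mem_sup_right (Ideal.subset_span (by simp)))
  obtain ⟨u, α, β, hu, e⟩ := hC
  obtain ⟨w, hw⟩ := (unit_of hPl x q ⟨_, q1⟩ ⟨_, q2⟩
    fun h => hu (((hPl x).2.2.2.2.2.2.1 u).2 h)).exists_left_inv
  have ha : q a ∣ (x.1.1 : ℤ[X] ⧸ J) ^ c1 := by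
    have := congrArg q e
    simp only [map_mul, map_add, map_pow, map_natCast, q0] at this
    exact ⟨w * q β, by linear_combination w * this - (x.1.1 : ℤ[X] ⧸ J) ^ c1 * hw⟩
  obtain ⟨i, hi⟩ := pencil x.1.2 q1 _ (span_top hPl x q Ideal.Quotient.mk_surjective ⟨_, q1⟩
    ⟨_, q2⟩ hg q0) (q a) (q z0) ha (fun i => (Finset.orderEmbOfCardLe _ hc' i).val)
    (Fin.val_injective.comp (Finset.orderEmbOfCardLe _ hc').injective) fun i => Fin.isLt _
  obtain ⟨z, hz, hn⟩ := (mem_filter.1 (Finset.orderEmbOfCardLe_mem _ hc' i)).2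
  generalize (Finset.orderEmbOfCardLe _ hc' i).val = τ at hi hz
  obtain ⟨b, hb⟩ := hi.trans (pow_dvd_pow _ (show r * dg x * (c1 + m) ≤ c2 by
    rw [hc2, mul_assoc (r * dg x + 1)]
    exact Nat.le_mul_of_pos_left _ (Nat.succ_pos _)))
  obtain ⟨b, rfl⟩ := Ideal.Quotient.mk_surjective b
  have h1 : (x.1.1 : ℤ[X]) ^ c2 - (z0 + τ * a) * b ∈ J := by
    rw [← Ideal.Quotient.eq_zero_iff_mem]
    simp only [map_sub, map_mul, map_add, map_pow, map_natCast]
    exact sub_eq_zero.2 hb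
  obtain ⟨y1, hy1, y2, hy2, e1⟩ := Submodule.mem_sup.1 h1
  obtain ⟨a1, rfl⟩ := Ideal.mem_span_singleton'.1 hy1
  obtain ⟨a2, a3, rfl⟩ := Ideal.mem_span_pair.1 hy2
  refine hn ((hInv x).1 r c2 L g z (1 - a2 * x.1.1) a1 b hg hL1 hL2 ?_ ?_)
  · rw [map_sub, map_mul, map_natCast, CharP.cast_eq_zero (FF x.1) x.1.1]
    simp
  · have e2 : (1 - a2 * x.1.1) * C ((x.1.1 : ℤ) ^ c2) - (a1 * g + b * z) =
        a3 * lf x ^ L - b * (z - (z0 + C (τ : ℤ) * a)) := by
      simp only [map_pow, map_natCast]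
      linear_combination -e1
    rw [e2]
    exact Ideal.sub_mem _ (Ideal.mul_mem_left _ _ (Ideal.subset_span (by simp)))
      (Ideal.mul_mem_left _ _ hz)

end Pool.Agent.P.MP_f57657_co.DG
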