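import Pool.Agent.P.MP_f57657_co.DG.Base

/-! Elementary facts on the points of prime characteristic. -/

open Finset Polynomial

namespace Pool.Agent.P.MP_f57657_co.DG

namespace PlAux

theorem integ (x : Pt) : IsIntegral (ZMod x.1.1) x.2 := Algebra.IsIntegral.isIntegral x.2

theorem coeff_lf (x : Pt) (k : ℕ) :
    (lf x).coeff k = if k ≤ dg x then ((((mp x).coeff k).val : ℕ) : ℤ) else 0 := by
  simp only [lf, finsetSum_coeff, coeff_C_mul_X_pow]
  rw [sum_ite_eq]
  simp only [mem_range, Nat.lt_succ_iff]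

theorem red_lf (x : Pt) : red x.1.1 (lf x) = mp x := by
  ext k
  rw [red, coeff_map, coeff_lf]
  split_ifs with h
  · simp
  · rw [map_zero, coeff_eq_zero_of_natDegree_lt (not_le.1 h)]

theorem lf_monic (x : Pt) : (lf x).Monic ∧ (lf x).natDegree = dg x := by
  have h1 : (lf x).coeff (dg x) = 1 := by
    have hm : (mp x).coeff (dg x) = 1 := (minpoly.monic (integ x)).coeff_natDegree
    rw [coeff_lf, if_pos le_rfl, hm, ZMod.val_one, Nat.cast_one]
  have h2 : (lf x).natDegree ≤ dg x := natDegree_le_iff_coeff_eq_zero.2 fun k hk => by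
    rw [coeff_lf, if_neg (not_le.2 hk)]
  exact ⟨monic_of_natDegree_le_of_coeff_eq_one _ h2 h1,
    le_antisymm h2 (le_natDegree_of_ne_zero (by rw [h1]; exact one_ne_zero))⟩

theorem aeval_red (x : Pt) (u : ℤ[X]) : aeval x.2 (red x.1.1 u) = aeval x.2 u := by
  rw [red, ← algebraMap_int_eq, aeval_map_algebraMap]

theorem root_iff (x : Pt) (u : ℤ[X]) : aeval x.2 u = 0 ↔ mp x ∣ red x.1.1 u := by
  rw [← aeval_red, mp, minpoly.dvd_iff]

theorem sq_dvd (x : Pt) (u : ℤ[X]) (h0 : aeval x.2 u = 0) (h1 : aeval x.2 (derivative u) = 0) :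
    mp x ^ 2 ∣ red x.1.1 u := by
  obtain ⟨g, hg⟩ := (root_iff x u).1 h0
  have h2 : aeval x.2 (derivative (red x.1.1 u)) = 0 := by
    rw [red, derivative_map]
    exact (aeval_red x _).trans h1
  have h3 : aeval x.2 (mp x) = 0 := minpoly.aeval _ _
  have h4 : (mp x).Separable := PerfectField.separable_of_irreducible (minpoly.irreducible (integ x))
  have h5 := h4.aeval_derivative_ne_zero h3
  rw [hg, derivative_mul, map_add, map_mul, map_mul, h3, zero_mul, add_zero] at h2
  have h6 : mp x ∣ g := minpoly.dvd _ _ ((mul_eq_zero.1 h2).resolve_left h5)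
  rw [hg, sq]
  exact mul_dvd_mul_left _ h6

theorem big (x : Pt) : Big x.2 (sz x) := by
  intro T h1 h2 h3
  obtain ⟨a, ha⟩ := (AddSubgroup.ne_bot_iff_exists_ne_zero).1 h1
  have h0 : (a : FF x.1) ≠ 0 := fun e => ha (Subtype.ext e)
  have hp : ∀ i : ℕ, x.2 ^ i * a ∈ T := fun i => by
    induction i with
    | zero => simp
    | succ i ih => rw [pow_succ', mul_assoc]; exact h2 _ ih
  have hs : ∀ (c : ZMod x.1.1) (b : FF x.1), b ∈ T → c • b ∈ T := fun c b hb => by
    rw [← ZMod.natCast_zmod_val c, Nat.cast_smul_eq_nsmul]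
    exact T.nsmul_mem hb _
  have li := linearIndependent_pow (K := ZMod x.1.1) x.2
  have inj : Function.Injective fun c : Fin (dg x) → ZMod x.1.1 =>
      (⟨∑ i, c i • (x.2 ^ (i : ℕ) * a), T.sum_mem fun i _ => hs _ _ (hp i)⟩ : T) := by
    intro c c' e
    have e1 : (∑ i, c i • x.2 ^ (i : ℕ)) * a = (∑ i, c' i • x.2 ^ (i : ℕ)) * a := by
      simpa only [sum_mul, smul_mul_assoc] using congrArg Subtype.val e
    exact funext ((Fintype.linearIndependent_iffₛ.1 li) c c' (mul_right_cancel₀ h0 e1))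
  have := Nat.card_le_card_of_injective _ inj
  simpa [sz] using this

theorem dg_le (p : Nat.Primes) (a b : FF p) (h : b ∈ IntermediateField.adjoin (ZMod p.1) {a}) :
    dg ⟨p, b⟩ ≤ dg ⟨p, a⟩ := by
  have ha := integ ⟨p, a⟩
  have hb := integ ⟨p, b⟩
  have := IntermediateField.adjoin.finiteDimensional ha
  rw [dg, dg, mp, mp, ← IntermediateField.adjoin.finrank ha, ← IntermediateField.adjoin.finrank hb]
  exact IntermediateField.finrank_le_of_le_right (IntermediateField.adjoin_simple_le_iff.2 h)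

theorem sz_aff (x : Pt) (h : x.1.1 ≠ 2) : sz ⟨x.1, -1 - 2 * x.2⟩ = sz x := by
  obtain ⟨p, a⟩ := x
  have h2 : (2 : FF p) ≠ 0 := by
    intro e
    have := (CharP.cast_eq_zero_iff (FF p) p.1 2).1 (by exact_mod_cast e)
    exact h ((Nat.prime_dvd_prime_iff_eq p.2 Nat.prime_two).1 this)
  have t : ∀ K : IntermediateField (ZMod p.1) (FF p), (2 : FF p) ∈ K := fun K => by
    exact_mod_cast natCast_mem K 2
  have e : dg ⟨p, -1 - 2 * a⟩ = dg ⟨p, a⟩ := by
    refine le_antisymm (dg_le p _ _ ?_) (dg_le p _ _ ?_)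
    · exact sub_mem (neg_mem (one_mem _))
        (mul_mem (t _) (IntermediateField.mem_adjoin_simple_self _ _))
    · have e : a = (-1 - (-1 - 2 * a)) / 2 := by field_simp; ring
      have := div_mem (sub_mem (neg_mem (one_mem _))
        (IntermediateField.mem_adjoin_simple_self (ZMod p.1) (-1 - 2 * a))) (t _)
      rwa [← e] at this
  simp only [sz, e]

end PlAux

open PlAux in
theorem pPl : StPl := fun x =>
  ⟨(lf_monic x).1, red_lf x, (lf_monic x).2, minpoly.natDegree_pos (integ x),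
    minpoly.irreducible (integ x), minpoly.monic (integ x), root_iff x, sq_dvd x, big x, sz_aff x⟩

end Pool.Agent.P.MP_f57657_co.DG
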