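import Pool.Agent.P.MP_f57657_co.DG.Base

/-! Counting points of prime characteristic and the choice of scales. -/

open Matrix Finset Polynomial

namespace Pool.Agent.P.MP_f57657_co.DG

namespace PlcAux

theorem integ (p : Nat.Primes) (θ : FF p) : IsIntegral (ZMod p.1) θ :=
  (Algebra.IsAlgebraic.isAlgebraic (R := ZMod p.1) θ).isIntegral

theorem dg_pos (x : Pt) : 0 < dg x := minpoly.natDegree_pos (integ x.1 x.2)

theorem pow_sz (p : Nat.Primes) (θ : FF p) : θ ^ (p.1 ^ dg ⟨p, θ⟩) = θ := by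
  have hθ := integ p θ
  let K := IntermediateField.adjoin (ZMod p.1) ({θ} : Set (FF p))
  have : FiniteDimensional (ZMod p.1) K := IntermediateField.adjoin.finiteDimensional hθ
  have : Finite K := Module.finite_of_finite (ZMod p.1)
  let : Fintype K := Fintype.ofFinite K
  have hc : Fintype.card K = p.1 ^ dg ⟨p, θ⟩ := by
    rw [Module.card_eq_pow_finrank (K := ZMod p.1), ZMod.card,
      IntermediateField.adjoin.finrank hθ]
    rfl
  have h := FiniteField.pow_card (IntermediateField.AdjoinSimple.gen (ZMod p.1) θ : K)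
  rw [hc] at h
  have h2 := congrArg (fun a : K => (a : FF p)) h
  simpa using h2

open Classical in
/-- The roots of `X ^ q - X`. -/
noncomputable def rt (p : Nat.Primes) (q : ℕ) : Finset (FF p) :=
  (X ^ q - X : (FF p)[X]).roots.toFinset

theorem rt_card (p : Nat.Primes) {q : ℕ} (hq : 1 < q) : (rt p q).card ≤ q := by
  classical
  unfold rt
  refine (Multiset.toFinset_card_le _).trans ((card_roots' _).trans ?_)
  rw [FiniteField.X_pow_card_sub_X_natDegree_eq _ hq]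

theorem mem_rt (p : Nat.Primes) {q : ℕ} (hq : 1 < q) {θ : FF p} (h : θ ^ q = θ) : θ ∈ rt p q := by
  classical
  unfold rt
  rw [Multiset.mem_toFinset, mem_roots (FiniteField.X_pow_card_sub_X_ne_zero _ hq)]
  simp [h]

theorem one_lt_pw (p : Nat.Primes) {d : ℕ} (hd : 0 < d) : 1 < p.1 ^ d :=
  Nat.one_lt_pow hd.ne' p.2.one_lt

theorem ev (C : ℕ) : ∃ L0 : ℕ, ∀ L ≥ L0, C * L ^ 15 ≤ 2 ^ L := by
  have h := tendsto_pow_const_div_const_pow_of_one_lt 15 (r := (2 : ℝ)) one_lt_two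
  have hpos : (0 : ℝ) < 1 / ((C : ℝ) + 1) := by positivity
  obtain ⟨L0, hL⟩ := Filter.eventually_atTop.1 (h.eventually (gt_mem_nhds hpos))
  refine ⟨L0, fun L hL' => ?_⟩
  have h1 := hL L hL'
  rw [div_lt_div_iff₀ (by positivity) (by positivity), one_mul] at h1
  have h2 : (C : ℝ) * (L : ℝ) ^ 15 ≤ 2 ^ L := by
    have : (0 : ℝ) ≤ (L : ℝ) ^ 15 := by positivity
    nlinarith
  exact_mod_cast h2

end PlcAux

open PlcAux

theorem pPlc : StPlc := by
  classical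
  refine ⟨fun q => ?_, fun p D => ?_⟩
  · by_cases h : ∃ x : Pt, sz x = q
    · obtain ⟨⟨p, θ0⟩, h0⟩ := h
      have hq : 1 < q := h0 ▸ one_lt_pw p (dg_pos ⟨p, θ0⟩)
      refine ⟨(rt p q).image (Sigma.mk p), card_image_le.trans (rt_card p hq), ?_⟩
      rintro ⟨p', θ⟩ hx
      have hpp : p' = p := by
        have e : p'.1 ^ dg ⟨p', θ⟩ = p.1 ^ dg ⟨p, θ0⟩ := hx.trans h0.symm
        have h1 : p'.1 ∣ p.1 ^ dg ⟨p, θ0⟩ := e ▸ dvd_pow_self _ (dg_pos ⟨p', θ⟩).ne'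
        exact Subtype.ext ((Nat.prime_dvd_prime_iff_eq p'.2 p.2).1 (p'.2.dvd_of_dvd_pow h1))
      subst hpp
      refine mem_image_of_mem _ (mem_rt p' hq ?_)
      rw [← hx]
      exact pow_sz p' θ
    · exact ⟨∅, by simp, fun x hx => absurd ⟨x, hx⟩ h⟩
  · refine ⟨(Icc 1 D).biUnion fun d => rt p (p.1 ^ d), ?_, fun θ hθ => ?_⟩
    · refine card_biUnion_le.trans ?_
      have : ∀ d ∈ Icc 1 D, (rt p (p.1 ^ d)).card ≤ p.1 ^ D := fun d hd =>
        (rt_card p (one_lt_pw p (mem_Icc.1 hd).1)).trans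
          (Nat.pow_le_pow_right p.2.pos (mem_Icc.1 hd).2)
      simpa using sum_le_card_nsmul _ _ _ this
    · exact mem_biUnion.2 ⟨dg ⟨p, θ⟩, mem_Icc.2 ⟨dg_pos ⟨p, θ⟩, hθ⟩,
        mem_rt p (one_lt_pw p (dg_pos ⟨p, θ⟩)) (pow_sz p θ)⟩

theorem pPar : StPar := by
  intro N
  obtain ⟨L0, hL⟩ := ev (1400 ^ 14 * 19)
  refine ⟨2 ^ (max L0 (N + 1)), fun n hn => ?_⟩
  have hn0 : n ≠ 0 := by
    have : 0 < 2 ^ (max L0 (N + 1)) := by positivity
    omega
  have hL1 : max L0 (N + 1) ≤ Nat.log 2 n := Nat.le_log_of_pow_le one_lt_two hn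
  have h1 : 2 ^ Nat.log 2 n ≤ n := Nat.pow_log_le_self 2 hn0
  have h2 : n < 2 ^ (Nat.log 2 n + 1) := Nat.lt_pow_succ_log_self one_lt_two n
  generalize Nat.log 2 n = L at hL1 h1 h2
  have hL0 : L0 ≤ L := le_trans (le_max_left _ _) hL1
  have hN : N + 1 ≤ L := le_trans (le_max_right _ _) hL1
  refine ⟨7 * (L + 1), (100 * (7 * (L + 1))) ^ 14, by omega, ?_, le_rfl, ?_⟩
  · rw [mul_comm, pow_mul]
    exact Nat.pow_le_pow_left h2.le 7
  · refine le_trans ?_ ((hL L hL0).trans h1)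
    have a1 : (100 * (7 * (L + 1))) ^ 14 ≤ (1400 * L) ^ 14 := Nat.pow_le_pow_left (by omega) 14
    have a2 : 7 * (L + 1) + 5 ≤ 19 * L := by omega
    calc (100 * (7 * (L + 1))) ^ 14 * (7 * (L + 1) + 5) ≤ (1400 * L) ^ 14 * (19 * L) :=
          Nat.mul_le_mul a1 a2
      _ = 1400 ^ 14 * 19 * L ^ 15 := by rw [mul_pow]; ring

end Pool.Agent.P.MP_f57657_co.DG
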