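import Pool.Agent.P.MP_f57657_co.DG.Base

/-! The potential argument along the bordering chain. -/

open Matrix Finset Polynomial

namespace Pool.Agent.P.MP_f57657_co.DG

namespace PotAux

open Classical in
/-- Indicator of a proposition. -/
noncomputable def ind (P : Prop) : ℝ := if P then 1 else 0

theorem pr_ind {Ω : Type} [Fintype Ω] (E : Ω → Prop) : pr E = ex fun ω => ind (E ω) := rfl

theorem ind_pos {P : Prop} (h : P) : ind P = 1 := if_pos h

theorem ind_neg {P : Prop} (h : ¬ P) : ind P = 0 := if_neg h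

theorem ind_nonneg (P : Prop) : 0 ≤ ind P := by
  by_cases h : P
  · rw [ind_pos h]; exact zero_le_one
  · rw [ind_neg h]

/-- All earlier steps are good. -/
def Ok (Gd : (j : ℕ) → Gr j → Prop) (j0 j : ℕ) (G : Gr j) : Prop :=
  ∀ (i : ℕ) (h : i ≤ j), j0 ≤ i → i < j → Gd i (rs G i h)

theorem ok_bord {Gd : (j : ℕ) → Gr j → Prop} {j0 j : ℕ} (hj : j0 ≤ j) (G : Gr j) (s : Bv j) :
    Ok Gd j0 (j + 1) (bord G s) ↔ Ok Gd j0 j G ∧ Gd j G := by
  constructor
  · intro h
    refine ⟨fun i hi h1 h2 => ?_, ?_⟩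
    · have := h i (by omega) h1 (by omega)
      rwa [rs_bord G s hi] at this
    · have := h j (by omega) hj (by omega)
      rwa [rs_bord G s le_rfl] at this
  · rintro ⟨h, h'⟩ i hi h1 h2
    have hi' : i ≤ j := by omega
    rw [rs_bord G s hi']
    rcases hi'.lt_or_eq with h3 | h3
    · exact h i hi' h1 h3
    · subst h3
      exact h'

theorem bad {Gd : (j : ℕ) → Gr j → Prop} {β : ℝ} {j0 n : ℕ} (hβ : 0 ≤ β)
    (h : ∀ j, j0 ≤ j → j < n → pr (fun G => ¬ Gd j G) ≤ β) (j : ℕ) (hj : j0 ≤ j) :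
    j ≤ n → pr (fun G => ¬ Ok Gd j0 j G) ≤ j * β := by
  induction j, hj using Nat.le_induction with
  | base =>
    intro _
    rw [pr_false fun G hG => hG fun i _ h1 h2 => absurd h1 (by omega)]
    positivity
  | succ j hj ih =>
    intro hn
    rw [pr_bord]
    have h1 : pr (fun ω : Gr j × Bv j => ¬ Ok Gd j0 (j + 1) (bord ω.1 ω.2)) ≤
        pr (fun ω : Gr j × Bv j => ¬ Ok Gd j0 j ω.1) + pr (fun ω : Gr j × Bv j => ¬ Gd j ω.1) :=
      pr_le_add fun ω hω => by
        rw [ok_bord hj] at hω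
        exact not_and_or.1 hω
    rw [pr_fst (fun G : Gr j => ¬ Ok Gd j0 j G), pr_fst (fun G : Gr j => ¬ Gd j G)] at h1
    have h2 := ih (by omega)
    have h3 := h j hj (by omega)
    push_cast
    linarith

theorem step {g : (j : ℕ) → Gr j → ℕ} {Gd : (j : ℕ) → Gr j → Prop} {a l : ℝ} {j0 j : ℕ}
    (hj : j0 ≤ j) (hl : 4 ≤ l) (hal : l * a = 1 / 4)
    (hg : ∀ G s, g (j + 1) (bord G s) ≤ g j G + 1)
    (h0 : pr (fun ω : Gr j × Bv j => g j ω.1 = 0 ∧ 1 ≤ g (j + 1) (bord ω.1 ω.2)) ≤ a)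
    (h1 : ∀ G, Gd j G → 1 ≤ g j G → pr (fun s => g j G ≤ g (j + 1) (bord G s)) ≤ a) :
    ex (fun G : Gr (j + 1) => l ^ g (j + 1) G * ind (Ok Gd j0 (j + 1) G)) ≤
      1 / 2 * ex (fun G : Gr j => l ^ g j G * ind (Ok Gd j0 j G)) + 5 / 4 := by
  have hl1 : 1 ≤ l := by linarith
  have hl0 : 0 ≤ l := by linarith
  rw [ex_bord]
  have key : ∀ ω : Gr j × Bv j, l ^ g (j + 1) (bord ω.1 ω.2) * ind (Ok Gd j0 (j + 1) (bord ω.1 ω.2)) ≤
      ind (Ok Gd j0 j ω.1 ∧ Gd j ω.1 ∧ 1 ≤ g j ω.1) * (l ^ g j ω.1 *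
        (1 / 4 + l * ind (g j ω.1 ≤ g (j + 1) (bord ω.1 ω.2)))) +
      (1 + l * ind (g j ω.1 = 0 ∧ 1 ≤ g (j + 1) (bord ω.1 ω.2))) := by
    rintro ⟨G, s⟩
    dsimp only
    have p1 := ind_nonneg (Ok Gd j0 j G ∧ Gd j G ∧ 1 ≤ g j G)
    have p2 := ind_nonneg (g j G ≤ g (j + 1) (bord G s))
    have p3 := ind_nonneg (g j G = 0 ∧ 1 ≤ g (j + 1) (bord G s))
    have p4 : 0 ≤ ind (Ok Gd j0 j G ∧ Gd j G ∧ 1 ≤ g j G) * (l ^ g j G *
        (1 / 4 + l * ind (g j G ≤ g (j + 1) (bord G s)))) := by positivity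
    have p5 : 0 ≤ l * ind (g j G = 0 ∧ 1 ≤ g (j + 1) (bord G s)) := by positivity
    have hb := hg G s
    by_cases hok : Ok Gd j0 (j + 1) (bord G s)
    · rw [ind_pos hok, mul_one]
      rw [ok_bord hj] at hok
      by_cases hz : g j G = 0
      · by_cases hy : 1 ≤ g (j + 1) (bord G s)
        · have e : g (j + 1) (bord G s) = 1 := by omega
          rw [ind_pos (show g j G = 0 ∧ 1 ≤ g (j + 1) (bord G s) from ⟨hz, hy⟩)]
          have e2 : l ^ g (j + 1) (bord G s) = l := by rw [e, pow_one]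
          linarith
        · have e : g (j + 1) (bord G s) = 0 := by omega
          have e2 : l ^ g (j + 1) (bord G s) = 1 := by rw [e, pow_zero]
          linarith
      · rw [ind_pos (show Ok Gd j0 j G ∧ Gd j G ∧ 1 ≤ g j G from ⟨hok.1, hok.2, by omega⟩), one_mul]
        have q0 : 0 ≤ l ^ g j G := by positivity
        by_cases hy : g j G ≤ g (j + 1) (bord G s)
        · rw [ind_pos hy]
          have q1 : l ^ g (j + 1) (bord G s) ≤ l ^ (g j G + 1) := pow_le_pow_right₀ hl1 hb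
          rw [pow_succ] at q1
          linarith
        · rw [ind_neg hy]
          have q1 : l ^ (g (j + 1) (bord G s) + 1) ≤ l ^ g j G :=
            pow_le_pow_right₀ hl1 (by omega)
          rw [pow_succ] at q1
          have q2 : 0 ≤ l ^ g (j + 1) (bord G s) := by positivity
          nlinarith
    · rw [ind_neg hok, mul_zero]
      linarith
  refine (ex_mono key).trans ?_
  rw [ex_add, ex_add, ex_const, ex_mul, ← pr_ind, ex_prod, ← ex_mul]
  have r1 : l * pr (fun ω : Gr j × Bv j => g j ω.1 = 0 ∧ 1 ≤ g (j + 1) (bord ω.1 ω.2)) ≤ 1 / 4 :=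
    hal ▸ mul_le_mul_of_nonneg_left h0 hl0
  refine add_le_add (ex_mono fun G => ?_) (by linarith)
  dsimp only
  rw [ex_mul, ex_mul, ex_add, ex_const, ex_mul, ← pr_ind]
  have q0 : 0 ≤ l ^ g j G := by positivity
  by_cases hG : Ok Gd j0 j G ∧ Gd j G ∧ 1 ≤ g j G
  · rw [ind_pos hG, ind_pos hG.1, one_mul, mul_one]
    have r2 : l * pr (fun s => g j G ≤ g (j + 1) (bord G s)) ≤ 1 / 4 :=
      hal ▸ mul_le_mul_of_nonneg_left (h1 G hG.2.1 hG.2.2) hl0
    nlinarith
  · rw [ind_neg hG, zero_mul]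
    have := ind_nonneg (Ok Gd j0 j G)
    positivity

end PotAux

open PotAux in
theorem pPot : StPot := by
  intro g Gd a β j0 n d ha ha' hβ hn hpow hg0 hg hstep
  set l : ℝ := 1 / (4 * a) with hl
  have hal : l * a = 1 / 4 := by rw [hl]; field_simp
  have hl4 : 4 ≤ l := by
    rw [hl, le_div_iff₀ (by positivity)]
    linarith
  have hl1 : 1 ≤ l := by linarith
  have main : ∀ j, j0 ≤ j → j ≤ n →
      ex (fun G : Gr j => l ^ g j G * ind (Ok Gd j0 j G)) ≤ l ^ j0 / 2 ^ (j - j0) + 5 / 2 := by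
    intro j hj
    induction j, hj using Nat.le_induction with
    | base =>
      intro _
      have : ex (fun G : Gr j0 => l ^ g j0 G * ind (Ok Gd j0 j0 G)) ≤ l ^ j0 :=
        ex_le_const (by positivity) fun G => by
          rw [ind_pos (show Ok Gd j0 j0 G from fun i _ h1 h2 => absurd h1 (by omega)), mul_one]
          exact pow_le_pow_right₀ hl1 (hg0 j0 G)
      rw [Nat.sub_self, pow_zero, div_one]
      linarith
    | succ j hj ih =>
      intro hjn
      obtain ⟨-, h0, h1⟩ := hstep j hj (by omega)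
      have s1 := step hj hl4 hal (hg j) h0 h1
      have s2 := ih (by omega)
      have e : l ^ j0 / 2 ^ (j + 1 - j0) = 1 / 2 * (l ^ j0 / 2 ^ (j - j0)) := by
        rw [Nat.sub_add_comm hj, pow_succ]
        field_simp
      rw [e]
      linarith
  have m1 := main n hn le_rfl
  have m2 : l ^ j0 / 2 ^ (n - j0) ≤ 1 / 2 := by
    rw [div_le_iff₀ (by positivity)]
    linarith
  have m3 := bad hβ (fun j h1 h2 => (hstep j h1 h2).1) n hn le_rfl
  have m4 : pr (fun G : Gr n => d ≤ g n G) ≤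
      pr (fun G : Gr n => Ok Gd j0 n G ∧ d ≤ g n G) + pr (fun G : Gr n => ¬ Ok Gd j0 n G) :=
    pr_le_add fun G hG => by
      by_cases h : Ok Gd j0 n G
      · exact Or.inl ⟨h, hG⟩
      · exact Or.inr h
  have m5 : pr (fun G : Gr n => Ok Gd j0 n G ∧ d ≤ g n G) ≤
      ex (fun G : Gr n => l ^ g n G * ind (Ok Gd j0 n G)) / l ^ d :=
    pr_markov (by positivity) (fun G => mul_nonneg (by positivity) (ind_nonneg _)) fun G hG => by
      rw [ind_pos hG.1, mul_one]
      exact pow_le_pow_right₀ hl1 hG.2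
  have m6 : ex (fun G : Gr n => l ^ g n G * ind (Ok Gd j0 n G)) / l ^ d ≤ 3 * (4 * a) ^ d := by
    have e : (4 * a) ^ d * l ^ d = 1 := by
      rw [← mul_pow, hl, mul_one_div_cancel (by positivity), one_pow]
    rw [div_le_iff₀ (by positivity), mul_assoc, e]
    linarith
  linarith

end Pool.Agent.P.MP_f57657_co.DG
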