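import Pool.Agent.P.MP_f57657_co.DG.Base

/-! Generalized cospectral graphs with a nonsingular walk matrix are conjugate. -/

open Matrix Finset Polynomial

namespace Pool.Agent.P.MP_f57657_co.DG

namespace QAux

variable {n : ℕ}

lemma det_add_field {K : Type} [Field K] (M : Matrix (Fin n) (Fin n) K) (h : M.det ≠ 0) :
    (M + Matrix.of fun _ _ => (1 : K)).det = M.det + ∑ i, ∑ j, M.adjugate i j := by
  have e : (Matrix.of fun _ _ => (1 : K) : Matrix (Fin n) (Fin n) K) =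
      replicateCol Unit (1 : Fin n → K) * replicateRow Unit (1 : Fin n → K) := by
    ext i j
    simp [mul_apply]
  rw [e, det_add_replicateCol_mul_replicateRow (isUnit_iff_ne_zero.2 h),
    det_unique (n := Unit), Matrix.inv_def]
  simp only [Matrix.add_apply, one_apply_eq, mul_apply, replicateCol_apply, replicateRow_apply,
    Pi.one_apply, mul_one, one_mul, Matrix.smul_apply, smul_eq_mul, Ring.inverse_eq_inv', mul_add,
    mul_sum]
  rw [sum_comm]
  congr 1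
  refine sum_congr rfl fun i _ => sum_congr rfl fun j _ => ?_
  rw [← mul_assoc, mul_inv_cancel₀ h, one_mul]

lemma det_add (M : Matrix (Fin n) (Fin n) ℤ[X]) (h : M.det ≠ 0) :
    (M + Matrix.of fun _ _ => (1 : ℤ[X])).det = M.det + ∑ i, ∑ j, M.adjugate i j := by
  let f : ℤ[X] →+* FractionRing ℤ[X] := algebraMap _ _
  have hf : Function.Injective f := IsFractionRing.injective _ _
  apply hf
  have h1 : (f.mapMatrix M).det ≠ 0 := by
    rw [← RingHom.map_det]
    exact fun e => h (hf (e.trans (map_zero f).symm))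
  have h2 := det_add_field (f.mapMatrix M) h1
  have e : f.mapMatrix (M + Matrix.of fun _ _ => (1 : ℤ[X])) =
      f.mapMatrix M + Matrix.of fun _ _ => 1 := by
    ext i j
    simp
  rw [RingHom.map_det, e, h2, map_add, RingHom.map_det, ← RingHom.map_adjugate]
  simp [map_sum]

lemma cpl (G : Gr n) :
    (gm 1 0 G).charpoly.comp (-(X + 1)) = (-1) ^ n * (ph G + ps G) := by
  have h0 : (aM G).charmatrix.det ≠ 0 := (aM G).charpoly_monic.ne_zero
  have h1 := det_add (aM G).charmatrix h0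
  have h2 : ps G = ∑ i, ∑ j, (aM G).charmatrix.adjugate i j := by simp [bf, aw]
  have h3 : ph G = (aM G).charmatrix.det := rfl
  rw [h2, h3, ← h1]
  have h4 : (compRingHom (-(X + 1) : ℤ[X])).mapMatrix (gm 1 0 G).charmatrix =
      -((aM G).charmatrix + Matrix.of fun _ _ => (1 : ℤ[X])) := by
    ext1 i j
    simp only [RingHom.mapMatrix_apply, map_apply, charmatrix_apply, diagonal_apply,
      coe_compRingHom_apply, Matrix.neg_apply, Matrix.add_apply, of_apply, gm_eq 1 0 G i j]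
    split_ifs <;> simp <;> ring
  have h5 := RingHom.map_det (compRingHom (-(X + 1) : ℤ[X])) (gm 1 0 G).charmatrix
  rw [h4, det_neg, Fintype.card_fin] at h5
  exact h5

lemma bf_step {M : Matrix (Fin n) (Fin n) ℤ} (hM : M.IsSymm) (y : Fin n → ℤ) :
    bf M (M *ᵥ y) 1 = X * bf M y 1 - C (∑ j, y j) * M.charpoly := by
  have h1 : bf M (M *ᵥ y) 1 = ∑ j, C (y j) * ∑ i, C (M j i) * aw M 1 i := by
    simp only [bf, mulVec, dotProduct, map_sum, sum_mul, mul_sum]
    rw [sum_comm]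
    refine sum_congr rfl fun j _ => sum_congr rfl fun i _ => ?_
    rw [hM.apply i j, C_mul]
    ring
  rw [h1]
  simp only [aw_eq, bf, map_sum, sum_mul, mul_sum, ← sum_sub_distrib, Pi.one_apply, C_1]
  exact sum_congr rfl fun j _ => by ring

/-- the number of walks -/
noncomputable def nw (M : Matrix (Fin n) (Fin n) ℤ) (k : ℕ) : ℤ := ∑ j, ((M ^ k) *ᵥ 1) j

lemma walks {M M' : Matrix (Fin n) (Fin n) ℤ} (hM : M.IsSymm) (hM' : M'.IsSymm)
    (h1 : M'.charpoly = M.charpoly) (h2 : bf M' 1 1 = bf M 1 1) (k : ℕ) : nw M' k = nw M k := by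
  have step : ∀ k : ℕ, bf M' ((M' ^ k) *ᵥ 1) 1 = bf M ((M ^ k) *ᵥ 1) 1 →
      nw M' k = nw M k ∧ bf M' ((M' ^ (k + 1)) *ᵥ 1) 1 = bf M ((M ^ (k + 1)) *ᵥ 1) 1 := by
    intro k hk
    have e1 := bf_step hM ((M ^ k) *ᵥ 1)
    have e2 := bf_step hM' ((M' ^ k) *ᵥ 1)
    rw [mulVec_mulVec, ← pow_succ'] at e1 e2
    have e3 : bf M ((M ^ (k + 1)) *ᵥ 1) 1 - bf M' ((M' ^ (k + 1)) *ᵥ 1) 1 =
        C (nw M' k - nw M k) * M.charpoly := by
      rw [e1, e2, hk, h1, C_sub, nw, nw]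
      ring
    have d1 : (C (nw M' k - nw M k) * M.charpoly).degree < n := by
      rw [← e3]
      exact (degree_sub_le _ _).trans_lt (max_lt (degree_bf_lt _ _ _) (degree_bf_lt _ _ _))
    have e4 : nw M' k - nw M k = 0 := by
      by_contra h0
      rw [degree_C_mul h0, charpoly_degree_eq_dim, Fintype.card_fin] at d1
      exact lt_irrefl _ d1
    rw [e4, C_0, zero_mul, sub_eq_zero] at e3
    exact ⟨sub_eq_zero.1 e4, e3.symm⟩
  have all : ∀ k : ℕ, bf M' ((M' ^ k) *ᵥ 1) 1 = bf M ((M ^ k) *ᵥ 1) 1 := by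
    intro k
    induction k with
    | zero => simpa using h2
    | succ k ih => exact (step k ih).2
  exact (step k (all k)).1

lemma dot_pow {M : Matrix (Fin n) (Fin n) ℤ} (hM : M.IsSymm) (k l : ℕ) :
    ((M ^ k) *ᵥ 1) ⬝ᵥ ((M ^ l) *ᵥ 1) = nw M (k + l) := by
  have h : (M ^ k)ᵀ = M ^ k := by rw [transpose_pow, hM.eq]
  rw [dotProduct_comm, dotProduct_mulVec, ← h, vecMul_transpose, mulVec_mulVec, ← pow_add]
  simp [nw, dotProduct]

lemma gram0 (G : Gr n) (k l : Fin n) : ((wk G)ᵀ * wk G) k l = nw (aM G) (k + l) :=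
  dot_pow (gm_symm 0 1 G) k l

lemma gram1 (G : Gr n) (k l : Fin n) :
    ((wk G)ᵀ * (aM G * wk G)) k l = nw (aM G) (k + (l + 1)) := by
  rw [← dot_pow (gm_symm 0 1 G), pow_succ', ← mulVec_mulVec]
  rfl

lemma gram2 (G : Gr n) (k : Fin n) : ((wk G)ᵀ *ᵥ 1) k = nw (aM G) k := by
  simp [nw, wk, mulVec, dotProduct]

lemma build (V V' B B' : Matrix (Fin n) (Fin n) ℚ) (h : V.det ≠ 0) (h0 : V'ᵀ * V' = Vᵀ * V)
    (h1 : V'ᵀ * (B' * V') = Vᵀ * (B * V)) (h2 : V'ᵀ *ᵥ 1 = Vᵀ *ᵥ (1 : Fin n → ℚ)) :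
    ∃ Q : Matrix (Fin n) (Fin n) ℚ, Qᵀ * Q = 1 ∧ Q *ᵥ (1 : Fin n → ℚ) = 1 ∧ B * Q = Q * B' := by
  have h' : V'.det ≠ 0 := by
    intro e
    have := congrArg det h0
    rw [det_mul, det_mul, det_transpose, det_transpose, e, mul_zero] at this
    exact mul_ne_zero h h this.symm
  have u : IsUnit V.det := isUnit_iff_ne_zero.2 h
  have u' : IsUnit V'.det := isUnit_iff_ne_zero.2 h'
  have ut : IsUnit Vᵀ.det := by rwa [det_transpose]
  have ut' : IsUnit V'ᵀ.det := by rwa [det_transpose]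
  have e1 : Vᵀ * (V * V'⁻¹) = V'ᵀ := by
    rw [← Matrix.mul_assoc, ← h0, Matrix.mul_assoc, mul_nonsing_inv _ u', Matrix.mul_one]
  have can : ∀ P P' : Matrix (Fin n) (Fin n) ℚ, Vᵀ * P = Vᵀ * P' → P = P' := by
    intro P P' e
    rw [← nonsing_inv_mul_cancel_left _ P ut, e, nonsing_inv_mul_cancel_left _ _ ut]
  refine ⟨V * V'⁻¹, ?_, ?_, ?_⟩
  · rw [transpose_mul, Matrix.mul_assoc, e1, transpose_nonsing_inv, nonsing_inv_mul _ ut']
  · have e2 : Vᵀ *ᵥ ((V * V'⁻¹) *ᵥ 1) = Vᵀ *ᵥ 1 := by rw [mulVec_mulVec, e1, h2]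
    have e3 := congrArg (fun v => (Vᵀ)⁻¹ *ᵥ v) e2
    simpa only [mulVec_mulVec, nonsing_inv_mul_cancel_left _ _ ut, nonsing_inv_mul _ ut,
      one_mulVec] using e3
  · apply can
    rw [← Matrix.mul_assoc B, ← Matrix.mul_assoc, ← h1, ← Matrix.mul_assoc Vᵀ, e1,
      Matrix.mul_assoc, Matrix.mul_assoc, mul_nonsing_inv _ u', Matrix.mul_one]

end QAux

open QAux in
theorem pQ : StQ := by
  intro n G H h1 h2 h3
  have h4 : ps H = ps G := by
    have e := cpl H
    rw [h2, cpl G, h1] at e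
    have e' := mul_left_cancel₀ (pow_ne_zero n (neg_ne_zero.2 one_ne_zero)) e
    exact (add_left_cancel e').symm
  have hw := walks (gm_symm 0 1 G) (gm_symm 0 1 H) h1 h4
  let f : ℤ →+* ℚ := Int.castRingHom ℚ
  have g0 : (wk H)ᵀ * wk H = (wk G)ᵀ * wk G := by
    ext k l
    rw [gram0, gram0, hw]
  have g1 : (wk H)ᵀ * (aM H * wk H) = (wk G)ᵀ * (aM G * wk G) := by
    ext k l
    rw [gram1, gram1, hw]
  have g2 : ∀ k, ((wk H)ᵀ *ᵥ 1) k = ((wk G)ᵀ *ᵥ 1) k := fun k => by rw [gram2, gram2, hw]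
  refine build ((wk G).map f) ((wk H).map f) ((aM G).map f) ((aM H).map f) ?_ ?_ ?_ ?_
  · have e := RingHom.map_det f (wk G)
    rw [RingHom.mapMatrix_apply] at e
    rw [← e]
    exact Int.cast_ne_zero.2 h3
  · simp only [← transpose_map, ← Matrix.map_mul, g0]
  · simp only [← transpose_map, ← Matrix.map_mul, g1]
  · funext k
    have e := congrArg f (g2 k)
    simpa [mulVec, dotProduct, map_sum] using e

end Pool.Agent.P.MP_f57657_co.DG
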