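import Pool.Agent.P.MP_f57657_co.DG.Base

/-! The geometric multiplicity along the chain of borderings is a recurrent walk. -/

open Matrix Finset Polynomial

namespace Pool.Agent.P.MP_f57657_co.DG

namespace RegAux

/-- The potential, killed at zero. -/
noncomputable def hh (g : ℕ) : ℝ := if 1 ≤ g then (3 / 2) ^ g else 0

theorem hh_nonneg (g : ℕ) : 0 ≤ hh g := by
  unfold hh; split_ifs <;> positivity

theorem hh_le (g : ℕ) : hh g ≤ (3 / 2) ^ g := by
  unfold hh; split_ifs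
  exacts [le_rfl, by positivity]

theorem le_hh (g : ℕ) : (3 / 2 : ℝ) ^ g ≤ hh g + 1 := by
  unfold hh; split_ifs with h
  · linarith
  · obtain rfl : g = 0 := by omega
    norm_num

theorem hh_mono {g g' : ℕ} (h : g ≤ g') : hh g ≤ hh g' := by
  unfold hh
  by_cases h1 : 1 ≤ g
  · rw [if_pos h1, if_pos (h1.trans h)]
    exact pow_le_pow_right₀ (by norm_num) h
  · rw [if_neg h1]; split_ifs <;> positivity

theorem num (d : ℕ) :
    hh d + (hh (d + 2) - hh d) * (1 / 2) ^ (d + 1) ≤ 7 / 8 * (3 / 2 : ℝ) ^ (d + 1) := by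
  rcases d with _ | d
  · norm_num [hh]
  · have h1 : hh (d + 1) = (3 / 2) ^ (d + 1) := if_pos (by omega)
    have h2 : hh (d + 1 + 2) = (3 / 2) ^ (d + 1 + 2) := if_pos (by omega)
    have h3 : (1 / 2 : ℝ) ^ (d + 1 + 1) ≤ 1 / 4 := by
      have : (1 / 2 : ℝ) ^ d ≤ 1 := pow_le_one₀ (by norm_num) (by norm_num)
      rw [pow_succ, pow_succ]; linarith
    have h4 : (0 : ℝ) < (3 / 2) ^ (d + 1) := by positivity
    rw [h1, h2, pow_succ _ (d + 1 + 1), pow_succ (3 / 2 : ℝ) (d + 1)]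
    nlinarith

variable {K : Type} [Field K] {α β : ℤ} {θ : K}

theorem step (hBord : StBord) (hOdl : StOdl) (hαβ : ((β - α : ℤ) : K) ≠ 0) {n : ℕ} (G : Gr n)
    (h : 1 ≤ gd K (gm α β G) θ) :
    ex (fun s : Bv n => hh (gd K (gm α β (bord G s)) θ)) ≤
      7 / 8 * (3 / 2 : ℝ) ^ gd K (gm α β G) θ := by
  classical
  obtain ⟨d, hd⟩ : ∃ d, gd K (gm α β G) θ = d + 1 := ⟨_, (Nat.sub_add_cancel h).symm⟩
  have h1 := (hOdl K n).1 α β (eg K (gm α β G) θ) hαβ
  change _ ≤ (1 / 2 : ℝ) ^ gd K (gm α β G) θ at h1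
  rw [hd] at h1 ⊢
  have h2 : 0 ≤ hh (d + 2) - hh d := sub_nonneg.2 (hh_mono (by omega))
  refine le_trans ?_ (num d)
  refine le_trans ?_ (add_le_add le_rfl (mul_le_mul_of_nonneg_left h1 h2))
  rw [pr, ← ex_mul, ← ex_const (Ω := Bv n) (hh d), ← ex_add]
  simp only [ex_const]
  refine ex_mono fun s => ?_
  obtain ⟨-, b1, b2, -⟩ := hBord K α β n G s θ
  rw [hd] at b1 b2
  split_ifs with hs
  · have := hh_mono (g' := d + 2) b1
    linarith
  · push Not at hs
    have := hh_mono (g' := d) (Nat.le_of_succ_le_succ (b2 hs))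
    linarith

theorem step' (hBord : StBord) (hOdl : StOdl) (hαβ : ((β - α : ℤ) : K) ≠ 0) {n : ℕ} (G : Gr n) :
    ex (fun s : Bv n => (3 / 2 : ℝ) ^ gd K (gm α β (bord G s)) θ) ≤
      7 / 8 * (3 / 2 : ℝ) ^ gd K (gm α β G) θ + 1 := by
  by_cases h : 1 ≤ gd K (gm α β G) θ
  · refine (ex_mono fun s => le_hh _).trans ?_
    rw [ex_add, ex_const]
    linarith [step hBord hOdl hαβ G h]
  · have h0 : gd K (gm α β G) θ = 0 := by omega
    rw [h0]
    refine ex_le_const (by norm_num) fun s => ?_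
    have b1 := (hBord K α β n G s θ).2.1
    rw [h0] at b1
    have : (3 / 2 : ℝ) ^ gd K (gm α β (bord G s)) θ ≤ (3 / 2) ^ (0 + 1) :=
      pow_le_pow_right₀ (by norm_num) b1
    norm_num at this ⊢
    linarith

theorem first (hBord : StBord) (hOdl : StOdl) (hαβ : ((β - α : ℤ) : K) ≠ 0) (n : ℕ) :
    ex (fun G : Gr n => (3 / 2 : ℝ) ^ gd K (gm α β G) θ) ≤ 8 := by
  induction n with
  | zero =>
    refine ex_le_const (by norm_num) fun G => ?_
    have := (hBord K α β 0 G (fun _ => true) θ).1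
    rw [Nat.le_zero.1 this]
    norm_num
  | succ n ih =>
    rw [ex_bord, ex_prod]
    refine (ex_mono fun G => step' hBord hOdl hαβ G).trans ?_
    rw [ex_add, ex_mul, ex_const]
    linarith

open Classical in
theorem second (hBord : StBord) (hOdl : StOdl) (hαβ : ((β - α : ℤ) : K) ≠ 0) (j0 k : ℕ) :
    ex (fun G : Gr (j0 + k) =>
      (if ∀ (j : ℕ) (h : j ≤ j0 + k), j0 ≤ j → 1 ≤ gd K (gm α β (rs G j h)) θ then 1 else 0) *
        (3 / 2 : ℝ) ^ gd K (gm α β G) θ) ≤ 8 * (7 / 8) ^ k := by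
  induction k with
  | zero =>
    refine (ex_mono fun G => ?_).trans ((first (θ := θ) hBord hOdl hαβ (j0 + 0)).trans (by norm_num))
    split_ifs
    · rw [one_mul]
    · rw [zero_mul]; positivity
  | succ k ih =>
    refine (ex_bord (n := j0 + k) _).trans_le ?_
    rw [ex_prod, pow_succ]
    refine le_trans ?_ (le_of_le_of_eq
      (mul_le_mul_of_nonneg_left ih (by norm_num : (0 : ℝ) ≤ 7 / 8)) (by ring))
    rw [← ex_mul]
    refine ex_mono fun G => ?_
    by_cases hG : ∀ (j : ℕ) (h : j ≤ j0 + k), j0 ≤ j → 1 ≤ gd K (gm α β (rs G j h)) θ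
    · rw [if_pos hG, one_mul]
      refine le_trans (ex_mono fun s => ?_)
        (step hBord hOdl hαβ G (hG (j0 + k) le_rfl (Nat.le_add_right _ _)))
      dsimp only
      split_ifs with hs
      · have h1 : 1 ≤ gd K (gm α β (bord G s)) θ := hs (j0 + k + 1) le_rfl (by omega)
        rw [one_mul, hh, if_pos h1]
      · rw [zero_mul]; exact hh_nonneg _
    · rw [if_neg hG, zero_mul, mul_zero]
      refine ex_le_const le_rfl fun s => ?_
      dsimp only
      rw [if_neg, zero_mul]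
      intro hs
      refine hG fun j h hj => ?_
      have := hs j (h.trans (Nat.le_succ _)) hj
      rwa [rs_bord G s h] at this

end RegAux

theorem pReg (hBord : StBord) (hOdl : StOdl) : StReg := by
  classical
  intro K _ α β θ hαβ
  refine ⟨RegAux.first hBord hOdl hαβ, fun n k hk => ?_⟩
  obtain ⟨j0, rfl⟩ := Nat.exists_eq_add_of_le' hk
  refine le_trans (pr_le_ex (fun G => ?_) fun G hG => ?_) (RegAux.second (θ := θ) hBord hOdl hαβ j0 k)
  · split_ifs <;> positivity
  · rw [if_pos fun j h hj => hG j h (by omega), one_mul]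
    exact one_le_pow₀ (by norm_num)

end Pool.Agent.P.MP_f57657_co.DG
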