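import Pool.Agent.P.MP_f57657_co.DG.Base

/-! Finite quotient rings of the integer polynomials attached to a point. -/

open Matrix Finset Polynomial

namespace Pool.Agent.P.MP_f57657_co.DG

namespace RingAux

lemma fin_quot (I : Ideal ℤ[X]) (μ : ℤ[X]) (hμ : μ.Monic) (h1 : μ ∈ I) (m : ℤ) (hm : m ≠ 0)
    (h2 : C m ∈ I) : Finite (ℤ[X] ⧸ I) := by
  have hle : Ideal.span {μ} ≤ I := (Ideal.span_singleton_le_iff_mem _).2 h1
  have : Module.Finite ℤ (ℤ[X] ⧸ Ideal.span {μ}) := hμ.finite_quotient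
  have : Module.Finite ℤ (ℤ[X] ⧸ I) := Module.Finite.of_surjective
    (Ideal.Quotient.factor hle).toIntAlgHom.toLinearMap (Ideal.Quotient.factor_surjective hle)
  refine Module.finite_of_fg_torsion _ fun r => ⟨⟨m, mem_nonZeroDivisors_of_ne_zero hm⟩, ?_⟩
  have h0 : ((m : ℤ) : ℤ[X] ⧸ I) = 0 := by
    rw [← map_intCast (Ideal.Quotient.mk I), ← eq_intCast (C : ℤ →+* ℤ[X])]
    exact Ideal.Quotient.eq_zero_iff_mem.2 h2
  show m • r = 0
  rw [zsmul_eq_mul, h0, zero_mul]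

end RingAux

theorem pRing (hPl : StPl) : StRing := by
  intro x
  obtain ⟨h1, h2, h3, -, h5, h6, h7, -⟩ := hPl x
  refine ⟨fun e _ => ?_, fun L => ?_⟩
  · have hm : (mp x ^ e).Monic := h6.pow e
    let pb := AdjoinRoot.powerBasis' hm
    have : Finite (AdjoinRoot (mp x ^ e)) := Finite.of_equiv _ pb.basis.equivFun.toEquiv.symm
    let : Fintype (AdjoinRoot (mp x ^ e)) := Fintype.ofFinite _
    let ev : ℤ[X] →+* AdjoinRoot (mp x ^ e) :=
      (AdjoinRoot.mk (mp x ^ e)).comp (mapRingHom (Int.castRingHom (ZMod x.1.1)))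
    have hev : ∀ u, ev u = AdjoinRoot.mk (mp x ^ e) (red x.1.1 u) := fun _ => rfl
    refine ⟨AdjoinRoot (mp x ^ e), inferInstance, inferInstance, ev, ⟨?_, ⟨1, ?_⟩, lf x ^ e,
      h1.pow e, by rw [h1.natDegree_pow, h3], ?_⟩, ?_, fun u hu => ?_, fun u hu => ?_⟩
    · exact AdjoinRoot.mk_surjective.comp (map_surjective _ (ZMod.ringHom_surjective _))
    · rw [pow_one, ← map_natCast (algebraMap (ZMod x.1.1) _), ZMod.natCast_self, map_zero]
    · rw [hev, AdjoinRoot.mk_eq_zero, red, Polynomial.map_pow]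
      exact pow_dvd_pow_of_dvd (dvd_of_eq h2.symm) e
    · rw [Fintype.card_congr pb.basis.equivFun.toEquiv, Fintype.card_fun, ZMod.card,
        Fintype.card_fin, AdjoinRoot.powerBasis'_dim, h6.natDegree_pow, sz, ← pow_mul, mul_comm]
      rfl
    · have hc : IsCoprime (mp x ^ e) (red x.1.1 u) :=
        (h5.coprime_iff_not_dvd.2 fun h => hu ((h7 u).2 h)).pow_left
      obtain ⟨a, b, hab⟩ := hc
      have := congrArg (AdjoinRoot.mk (mp x ^ e)) hab
      rw [map_add, map_mul, map_mul, AdjoinRoot.mk_self, mul_zero, zero_add, map_one] at this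
      rw [hev]
      exact IsUnit.of_mul_eq_one_right _ this
    · rw [hev, AdjoinRoot.mk_eq_zero]; exact hu
  · have a1 : C ((x.1.1 : ℤ) ^ L) ∈ IL x L := Ideal.subset_span (by simp)
    have a2 : lf x ^ L ∈ IL x L := Ideal.subset_span (by simp)
    have := RingAux.fin_quot (IL x L) _ (h1.pow L) a2 _
      (pow_ne_zero L (Int.natCast_ne_zero.2 x.1.2.ne_zero)) a1
    refine ⟨ℤ[X] ⧸ IL x L, inferInstance, Fintype.ofFinite _, Ideal.Quotient.mk _,
      ⟨Ideal.Quotient.mk_surjective, ⟨L, ?_⟩, lf x ^ L, h1.pow L, by rw [h1.natDegree_pow, h3],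
        Ideal.Quotient.eq_zero_iff_mem.2 a2⟩, fun u => Ideal.Quotient.eq_zero_iff_mem⟩
    have := Ideal.Quotient.eq_zero_iff_mem.2 a1
    rwa [map_pow, map_pow, map_natCast, map_natCast] at this

end Pool.Agent.P.MP_f57657_co.DG
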