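import Pool.Agent.P.MP_f57657_co.DG.Base

/-! Independent rows: the edges from a vertex outside `J` to `J` can be resampled. -/

open Matrix Finset

namespace Pool.Agent.P.MP_f57657_co.DG

namespace RowAux

variable {n : ℕ}

/-- Replace the edges between `i` and `J` by the bits of `a`. -/
def rsm (J : Finset (Fin n)) (i : Fin n) (hi : i ∉ J) (G : Gr n) (a : Bv n) : Gr n where
  Adj x y := (x = i ∧ y ∈ J ∧ a y = true) ∨ (y = i ∧ x ∈ J ∧ a x = true) ∨
    (¬ (x = i ∧ y ∈ J) ∧ ¬ (y = i ∧ x ∈ J) ∧ G.Adj x y)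
  symm := ⟨by
    intro x y h
    rcases h with h | h | h
    · exact Or.inr (Or.inl h)
    · exact Or.inl h
    · exact Or.inr (Or.inr ⟨h.2.1, h.1, h.2.2.symm⟩)⟩
  loopless := ⟨by
    intro x h
    rcases h with h | h | h
    · exact hi (h.1 ▸ h.2.1)
    · exact hi (h.1 ▸ h.2.1)
    · exact G.irrefl h.2.2⟩

theorem rsm_in (J : Finset (Fin n)) (i : Fin n) (hi : i ∉ J) (G : Gr n) (a : Bv n) (y : Fin n)
    (hy : y ∈ J) : (rsm J i hi G a).Adj i y ↔ a y = true := by
  constructor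
  · intro h
    rcases h with h | h | h
    · exact h.2.2
    · exact absurd h.2.1 hi
    · exact absurd ⟨rfl, hy⟩ h.1
  · intro h
    exact Or.inl ⟨rfl, hy, h⟩

theorem rsm_out (J : Finset (Fin n)) (i : Fin n) (hi : i ∉ J) (G : Gr n) (a : Bv n)
    (x y : Fin n) (h1 : ¬ (x = i ∧ y ∈ J)) (h2 : ¬ (y = i ∧ x ∈ J)) :
    (rsm J i hi G a).Adj x y ↔ G.Adj x y := by
  constructor
  · intro h
    rcases h with h | h | h
    · exact absurd ⟨h.1, h.2.1⟩ h1
    · exact absurd ⟨h.1, h.2.1⟩ h2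
    · exact h.2.2
  · intro h
    exact Or.inr (Or.inr ⟨h1, h2, h⟩)

open Classical in
/-- The bits that were replaced. -/
noncomputable def old (J : Finset (Fin n)) (i : Fin n) (G : Gr n) (a : Bv n) : Bv n :=
  fun j => if j ∈ J then decide (G.Adj i j) else a j

/-- The exchange map. -/
noncomputable def swp (J : Finset (Fin n)) (i : Fin n) (hi : i ∉ J) (ω : Gr n × Bv n) :
    Gr n × Bv n := (rsm J i hi ω.1 ω.2, old J i ω.1 ω.2)

theorem swp_invol (J : Finset (Fin n)) (i : Fin n) (hi : i ∉ J) :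
    Function.Involutive (swp J i hi) := by
  intro ω
  obtain ⟨G, a⟩ := ω
  refine Prod.ext ?_ ?_
  · ext x y
    show (rsm J i hi (rsm J i hi G a) (old J i G a)).Adj x y ↔ G.Adj x y
    by_cases h1 : x = i ∧ y ∈ J
    · obtain ⟨rfl, hy⟩ := h1
      rw [rsm_in J x hi _ _ y hy]
      simp [old, hy]
    · by_cases h2 : y = i ∧ x ∈ J
      · obtain ⟨rfl, hx⟩ := h2
        rw [SimpleGraph.adj_comm, rsm_in J y hi _ _ x hx, G.adj_comm]
        simp [old, hx]
      · rw [rsm_out J i hi _ _ x y h1 h2, rsm_out J i hi _ _ x y h1 h2]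
  · funext j
    show old J i (rsm J i hi G a) (old J i G a) j = a j
    by_cases hj : j ∈ J
    · simp [old, hj, rsm_in J i hi G a j hj]
    · simp [old, hj]

theorem aM_out (J : Finset (Fin n)) (i : Fin n) (hi : i ∉ J) (G : Gr n) (a : Bv n)
    (x y : Fin n) (h1 : ¬ (x = i ∧ y ∈ J)) (h2 : ¬ (y = i ∧ x ∈ J)) :
    aM (rsm J i hi G a) x y = aM G x y := by
  simp only [gm, of_apply]
  rw [rsm_out J i hi G a x y h1 h2]

theorem aM_in (J : Finset (Fin n)) (i : Fin n) (hi : i ∉ J) (G : Gr n) (a : Bv n) (y : Fin n)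
    (hy : y ∈ J) : aM (rsm J i hi G a) i y = sv 0 1 a y := by
  have hne : i ≠ y := fun h => hi (h ▸ hy)
  have h := rsm_in J i hi G a y hy
  simp only [gm, of_apply, sv, if_neg hne]
  by_cases ha : a y = true
  · rw [if_pos ha, if_pos (h.2 ha)]
  · rw [if_neg ha, if_neg fun hh => ha (h.1 hh)]

theorem rows {Γ : Type} [AddCommGroup Γ] (J : Finset (Fin n)) (w b : Fin n → Γ) (γ : ℝ)
    (h : ∀ c, pr (fun a : Bv n => ∑ j ∈ J, sv 0 1 a j • w j = c) ≤ γ) (T : Finset (Fin n))
    (hT : ∀ i ∈ T, i ∉ J) :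
    pr (fun G : Gr n => ∀ i ∈ T, ∑ j, aM G i j • w j = b i) ≤ γ ^ T.card := by
  have hγ : 0 ≤ γ := (pr_nonneg _).trans (h 0)
  induction T using Finset.induction_on with
  | empty => simpa using pr_le_one _
  | insert i T hiT ih =>
    have hi : i ∉ J := hT i (mem_insert_self i T)
    have hT' : ∀ x ∈ T, x ∉ J := fun x hx => hT x (mem_insert_of_mem hx)
    have e1 := pr_fst (Ω' := Bv n)
      (fun G : Gr n => ∀ x ∈ insert i T, ∑ j, aM G x j • w j = b x)
    have e2 := pr_equiv (swp_invol J i hi).toPerm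
      (fun ω : Gr n × Bv n => ∀ x ∈ insert i T, ∑ j, aM ω.1 x j • w j = b x)
    rw [← e1, ← e2, card_insert_of_notMem hiT, pow_succ']
    have key := pr_prod_le
      (E := fun ω : Gr n × Bv n =>
        ∀ x ∈ insert i T, ∑ j, aM (rsm J i hi ω.1 ω.2) x j • w j = b x)
      (fun G : Gr n => ∀ x ∈ T, ∑ j, aM G x j • w j = b x) (fun _ => True) hγ ?_ ?_
    · have h0 : pr (fun _ : Gr n => ¬ True) = 0 := pr_false fun _ hh => hh trivial
      rw [h0, add_zero] at key
      exact key.trans (mul_le_mul_of_nonneg_left (ih hT') hγ)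
    · intro ω hω x hx
      rw [← hω x (mem_insert_of_mem hx)]
      refine sum_congr rfl fun j _ => ?_
      rw [aM_out J i hi ω.1 ω.2 x j (fun hh => hiT (hh.1 ▸ hx)) (fun hh => hT' x hx hh.2)]
    · intro G _ _
      refine (pr_mono fun a ha => ?_).trans (h (b i - ∑ j ∈ Jᶜ, aM G i j • w j))
      have h1 := ha i (mem_insert_self i T)
      rw [← sum_add_sum_compl J] at h1
      rw [← h1, eq_sub_iff_add_eq]
      congr 1
      · exact sum_congr rfl fun j hj => by rw [aM_in J i hi G a j hj]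
      · refine sum_congr rfl fun j hj => ?_
        rw [aM_out J i hi G a i j (fun hh => (mem_compl.1 hj) hh.2) (fun hh => hi hh.2)]

end RowAux

theorem pRow : StRow := by
  intro Γ _ n J w b γ h
  have h1 := RowAux.rows J w b γ h Jᶜ fun i hi => mem_compl.1 hi
  rw [card_compl, Fintype.card_fin] at h1
  exact (pr_mono fun G hG i hi => hG i (mem_compl.1 hi)).trans h1

end Pool.Agent.P.MP_f57657_co.DG
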