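import Pool.Agent.P.MP_f57657_co.DG.Base

/-! The spread lemma. -/

open Matrix Finset

namespace Pool.Agent.P.MP_f57657_co.DG

namespace SPAux

variable {Γ : Type} [AddCommGroup Γ] [Fintype Γ] {n : ℕ}

omit [AddCommGroup Γ] in
theorem sum_split (J : Finset (Fin n)) (H : (Fin n → Γ) → Γ → ℝ) {ρ : ℝ}
    (hd : ∀ w w', (∀ j ∈ J, w j = w' j) → H w = H w') (h0 : ∀ w x, 0 ≤ H w x)
    (h1 : ∀ w, ∑ x, H w x ≤ ρ) (x0 : Γ) :
    ∑ w : Fin n → Γ, ∏ i ∈ Jᶜ, H w (w i) ≤ (Fintype.card Γ : ℝ) ^ J.card * ρ ^ (n - J.card) := by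
  classical
  set e := Equiv.piEquivPiSubtypeProd (fun i : Fin n => i ∈ J) fun _ => Γ
  rw [← e.symm.sum_comp, Fintype.sum_prod_type]
  have key : ∀ u : {i // i ∈ J} → Γ, ∑ v : {i // ¬ i ∈ J} → Γ,
      ∏ i ∈ Jᶜ, H (e.symm (u, v)) (e.symm (u, v) i) ≤ ρ ^ (n - J.card) := fun u => by
    have e1 : ∀ v : {i // ¬ i ∈ J} → Γ, ∏ i ∈ Jᶜ, H (e.symm (u, v)) (e.symm (u, v) i) =
        ∏ i : {i // ¬ i ∈ J}, H (e.symm (u, fun _ => x0)) (v i) := fun v => by
      rw [hd (e.symm (u, v)) (e.symm (u, fun _ => x0)) fun j hj => by simp [e, hj],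
        Finset.prod_subtype (p := fun i => ¬ i ∈ J) Jᶜ (fun _ => mem_compl)]
      exact prod_congr rfl fun i _ => by simp [e, i.2]
    simp only [e1]
    rw [← Fintype.piFinset_univ, ← Finset.prod_univ_sum, prod_const, card_univ,
      Fintype.card_subtype_compl, Fintype.card_fin, Fintype.card_coe]
    exact pow_le_pow_left₀ (sum_nonneg fun x _ => h0 _ x) (h1 _) _
  refine (sum_le_card_nsmul _ _ _ fun u _ => key u).trans_eq ?_
  simp

omit [Fintype Γ] in
theorem lw_congr (J : Finset (Fin n)) {w w' : Fin n → Γ} (h : ∀ j ∈ J, w j = w' j) :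
    lw J w = lw J w' := by
  funext B
  unfold lw
  congr 1
  funext e
  rw [sum_congr rfl fun j hj => by rw [h j hj]]

open Classical in
theorem lw_sum (J : Finset (Fin n)) (w : Fin n → Γ) (B : Γ → Prop) :
    ∑ x, lw J w (· = x) * (if B x then 1 else 1 / 256) ≤ lw J w B + 1 / 256 := by
  have h : ∀ x, lw J w (· = x) * (if B x then 1 else 1 / 256) =
      ex fun e : Fin n → Fin 8 => (if B x then (1 : ℝ) else 1 / 256) *
        if ∑ j ∈ J, stp (e j) • w j = x then 1 else 0 := fun x => by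
    rw [ex_mul, mul_comm]
    rfl
  simp only [h]
  refine le_trans ?_ (add_le_add le_rfl (ex_const (Ω := Fin n → Fin 8) (1 / 256)).le)
  rw [← ex_sum, lw, pr, ← ex_add]
  refine ex_mono fun e => ?_
  simp only [mul_ite, mul_one, mul_zero, sum_ite_eq, mem_univ, if_true]
  split_ifs <;> norm_num

open Classical in
/-- Weight of a coordinate outside `J`. -/
noncomputable def wt (J : Finset (Fin n)) (B : Γ → Prop) (w : Fin n → Γ) (x : Γ) : ℝ :=
  if lw J w B ≤ 63 / 64 then 256 / 255 * (lw J w (· = x) * if B x then 1 else 1 / 256) else 0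

omit [Fintype Γ] in
theorem wt_nonneg (J : Finset (Fin n)) (B : Γ → Prop) (w : Fin n → Γ) (x : Γ) :
    0 ≤ wt J B w x := by
  have : 0 ≤ lw J w (· = x) := pr_nonneg _
  unfold wt
  split_ifs <;> positivity

theorem wt_sum (J : Finset (Fin n)) (B : Γ → Prop) (w : Fin n → Γ) :
    ∑ x, wt J B w x ≤ 253 / 255 := by
  unfold wt
  by_cases h : lw J w B ≤ 63 / 64
  · simp only [h, if_true]
    rw [← mul_sum]
    linarith [lw_sum J w B]
  · simp only [h, if_false, sum_const_zero]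
    norm_num

omit [Fintype Γ] in
open Classical in
theorem pow_le (J : Finset (Fin n)) (B : Γ → Prop) (w : Fin n → Γ) (h1 : lw J w B ≤ 63 / 64)
    (h2 : ∀ j, j ∉ J → 255 / 256 * lw J w (· = 0) ≤ lw J w (· = w j))
    (h3 : (Jᶜ.filter fun i => ¬ B (w i)).card ≤ n / 1000) :
    lw J w (· = 0) ^ (n - J.card) ≤ 256 ^ (n / 1000) * ∏ i ∈ Jᶜ, wt J B w (w i) := by
  have h0 : 0 ≤ lw J w (· = 0) := pr_nonneg _
  have e1 : ∏ i ∈ Jᶜ, (if ¬ B (w i) then (256 : ℝ) else 1) ≤ 256 ^ (n / 1000) := by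
    rw [← prod_filter, prod_const]
    exact pow_le_pow_right₀ (by norm_num) h3
  refine le_trans ?_ (mul_le_mul_of_nonneg_right e1 (prod_nonneg fun i _ => wt_nonneg _ _ _ _))
  rw [← prod_mul_distrib, show n - J.card = Jᶜ.card by rw [card_compl, Fintype.card_fin],
    ← prod_const]
  refine prod_le_prod (fun _ _ => h0) fun i hi => ?_
  have := h2 i (mem_compl.1 hi)
  unfold wt
  rw [if_pos h1]
  by_cases hB : B (w i)
  · simp only [hB, not_true_eq_false, if_false, if_true]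
    linarith
  · simp only [hB, not_false_eq_true, if_false, if_true]
    linarith

theorem card_small (n k : ℕ) :
    (((univ : Finset (Finset (Fin n))).filter fun J => J.card ≤ k).card : ℝ) ≤
      4000 ^ k * (4001 / 4000) ^ n := by
  have h := Finset.sum_pow_mul_eq_add_pow (1 / 4000 : ℝ) 1 (univ : Finset (Fin n))
  simp only [one_pow, mul_one, powerset_univ, card_univ, Fintype.card_fin] at h
  rw [show (4001 / 4000 : ℝ) = 1 / 4000 + 1 by norm_num, ← h, mul_sum, card_eq_sum_ones,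
    Nat.cast_sum, sum_filter]
  refine sum_le_sum fun J _ => ?_
  split_ifs with hJ
  · rw [_root_.one_div_pow, mul_one_div, Nat.cast_one, le_div_iff₀ (by positivity), one_mul]
    exact pow_le_pow_right₀ (by norm_num) hJ
  · positivity

theorem numer {n m k : ℕ} (hm : 10 ^ 7 ≤ m) (hn : m ^ 3 ≤ n) (hk : k = 2 + 1024 * m) :
    (2 : ℝ) ^ (m + 1) * (4000 ^ k * (4001 / 4000) ^ n *
      (256 ^ (n / 1000) * ((2 ^ m) ^ k * ((255 / 253) ^ k * (253 / 255) ^ n)))) ≤
      (999 / 1000) ^ n := by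
  have a1 : (256 : ℝ) ^ (n / 1000) ≤ (10056 / 10000) ^ n := by
    have h2 : (2 : ℝ) ≤ (10056 / 10000) ^ 125 := by norm_num
    calc (256 : ℝ) ^ (n / 1000) = (2 ^ 8) ^ (n / 1000) := by norm_num
      _ ≤ (((10056 / 10000 : ℝ) ^ 125) ^ 8) ^ (n / 1000) := by gcongr
      _ = (10056 / 10000) ^ (125 * 8 * (n / 1000)) := by rw [← pow_mul, ← pow_mul, mul_assoc]
      _ ≤ _ := pow_le_pow_right₀ (by norm_num) (by omega)
  have a2 : (4000 : ℝ) ^ k * (255 / 253) ^ k ≤ 2 ^ (12 * k) := by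
    rw [← mul_pow, pow_mul]
    exact pow_le_pow_left₀ (by norm_num) (by norm_num) _
  have a3 : (2 : ℝ) ^ (m + 1 + 12 * k + m * k) ≤ (1001 / 1000) ^ n := by
    have h2 : (2 : ℝ) ≤ (1001 / 1000) ^ 1000 := by
      have := one_add_mul_le_pow (a := (1 / 1000 : ℝ)) (by norm_num) 1000
      calc (2 : ℝ) = 1 + ((1000 : ℕ) : ℝ) * (1 / 1000) := by norm_num
        _ ≤ (1 + 1 / 1000) ^ 1000 := this
        _ = _ := by rw [show (1 + 1 / 1000 : ℝ) = 1001 / 1000 by norm_num]
    have h3 : 1000 * (m + 1 + 12 * k + m * k) ≤ n := by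
      have h4 : 10 ^ 7 * m ≤ m * m := Nat.mul_le_mul_right _ hm
      have h5 : 10 ^ 7 * (m * m) ≤ m * (m * m) := Nat.mul_le_mul_right _ hm
      have h6 : m * k = 2 * m + 1024 * (m * m) := by rw [hk]; ring
      have h7 : m ^ 3 = m * (m * m) := by ring
      omega
    calc (2 : ℝ) ^ (m + 1 + 12 * k + m * k)
        ≤ ((1001 / 1000 : ℝ) ^ 1000) ^ (m + 1 + 12 * k + m * k) := by gcongr
      _ ≤ _ := by
        rw [← pow_mul]
        exact pow_le_pow_right₀ (by norm_num) h3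
  calc _ = (2 : ℝ) ^ (m + 1) * (4000 ^ k * (255 / 253) ^ k) * 2 ^ (m * k) * 256 ^ (n / 1000) *
        ((4001 / 4000) ^ n * (253 / 255) ^ n) := by rw [pow_mul]; ring
    _ ≤ (2 : ℝ) ^ (m + 1) * 2 ^ (12 * k) * 2 ^ (m * k) * (10056 / 10000) ^ n *
        ((4001 / 4000) ^ n * (253 / 255) ^ n) := by gcongr
    _ ≤ (1001 / 1000) ^ n * (10056 / 10000) ^ n * ((4001 / 4000) ^ n * (253 / 255) ^ n) := by
        rw [← pow_add, ← pow_add]
        gcongr
    _ ≤ _ := by
        rw [← mul_pow, ← mul_pow, ← mul_pow]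
        exact pow_le_pow_left₀ (by norm_num) (by norm_num) _

end SPAux

open SPAux in
theorem pSP (hRow : StRow) (hWalk : StWalk) (hSel : StSel) (hArc : StArc) : StSP := by
  classical
  refine ⟨10 ^ 7, fun Γ _ _ n m L ψ hm hn hΓ => ?_⟩
  obtain ⟨B, hB⟩ := hArc Γ ψ
  have hn2 : 2 ≤ n := by
    have : m ≤ m ^ 3 := Nat.le_self_pow (by norm_num) m
    omega
  set k := 2 + 1024 * m with hk
  set S := (univ : Finset (Finset (Fin n))).filter fun J => J.card ≤ k with hS
  have hc : (1 : ℝ) ≤ 2 ^ m := one_le_pow₀ (by norm_num)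
  have hΓ' : (Fintype.card Γ : ℝ) ≤ 2 ^ m := by exact_mod_cast hΓ
  have step : ∀ w : Fin n → Γ,
      pr (fun G : Gr n => (∀ i, ∑ j, aM G i j • w j = L i (w i)) ∧
        (∃ i, ψ (w i) ≠ 1) ∧ ¬ Sprd ψ w) ≤
      ∑ o : Option Γ, ∑ J ∈ S, 256 ^ (n / 1000) * ∏ i ∈ Jᶜ, wt J (B o) w (w i) := fun w => by
    have nn : ∀ o J, (0 : ℝ) ≤ 256 ^ (n / 1000) * ∏ i ∈ Jᶜ, wt J (B o) w (w i) := fun o J =>
      mul_nonneg (by positivity) (prod_nonneg fun i _ => wt_nonneg _ _ _ _)
    by_cases hw : (∃ i, ψ (w i) ≠ 1) ∧ ¬ Sprd ψ w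
    · obtain ⟨o, J0, b1, b2, b3⟩ := hB n w hn2 hw.1 hw.2
      obtain ⟨J, c1, c2, c3⟩ := hSel Γ n m J0 w hΓ
      have d1 := hRow Γ n J w (fun i => L i (w i)) _ (hWalk Γ n J w).1
      have d2 := pow_le J (B o) w (b2 J c1) c3 (by
        rw [Nat.le_div_iff_mul_le (by norm_num), mul_comm]
        refine le_trans (Nat.mul_le_mul_left _ (card_le_card fun i hi => ?_)) b3
        rw [mem_filter] at hi ⊢
        exact ⟨mem_univ _, fun h => mem_compl.1 hi.1 (c1 h), hi.2⟩)
      refine (pr_mono fun G hG i _ => hG.1 i).trans (d1.trans (d2.trans ?_))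
      refine le_trans ?_ (single_le_sum (fun o _ => sum_nonneg fun J _ => nn o J) (mem_univ o))
      exact single_le_sum (fun J _ => nn o J) (mem_filter.2 ⟨mem_univ _, by omega⟩)
    · rw [pr_false fun G hG => hw hG.2]
      exact sum_nonneg fun o _ => sum_nonneg fun J _ => nn o J
  have inner : ∀ o : Option Γ, ∀ J ∈ S, ∑ w : Fin n → Γ,
      (256 : ℝ) ^ (n / 1000) * ∏ i ∈ Jᶜ, wt J (B o) w (w i) ≤
      256 ^ (n / 1000) * ((2 ^ m) ^ k * ((255 / 253) ^ k * (253 / 255) ^ n)) := fun o J hJ => by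
    have hJ' : J.card ≤ k := (mem_filter.1 hJ).2
    have hJn : J.card ≤ n := by simpa using card_le_univ J
    rw [← mul_sum]
    refine mul_le_mul_of_nonneg_left ((sum_split J (wt J (B o))
      (fun w w' h => by funext x; simp only [wt, lw_congr J h]) (wt_nonneg J _) (wt_sum J _)
      0).trans (mul_le_mul ?_ ?_ (by positivity) (by positivity))) (by positivity)
    · exact (pow_le_pow_left₀ (by positivity) hΓ' _).trans (pow_le_pow_right₀ hc hJ')
    · calc (253 / 255 : ℝ) ^ (n - J.card)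
          = (255 / 253) ^ J.card * ((253 / 255) ^ J.card * (253 / 255) ^ (n - J.card)) := by
            rw [← mul_assoc, ← mul_pow]
            norm_num
        _ ≤ _ := by
            rw [← pow_add, Nat.add_sub_cancel' hJn]
            exact mul_le_mul_of_nonneg_right (pow_le_pow_right₀ (by norm_num) hJ') (by positivity)
  refine (pr_le_sum univ _ fun G hG => hG.imp fun w hw => ⟨mem_univ w, hw⟩).trans
    ((sum_le_sum fun w _ => step w).trans ?_)
  rw [sum_comm]
  refine le_trans (sum_le_card_nsmul _ _ (4000 ^ k * (4001 / 4000) ^ n *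
    (256 ^ (n / 1000) * ((2 ^ m) ^ k * ((255 / 253) ^ k * (253 / 255) ^ n)))) fun o _ => ?_) ?_
  · rw [sum_comm]
    refine (sum_le_card_nsmul _ _ _ (inner o)).trans ?_
    rw [nsmul_eq_mul]
    exact mul_le_mul_of_nonneg_right (card_small n k) (by positivity)
  · rw [nsmul_eq_mul]
    refine le_trans (mul_le_mul_of_nonneg_right ?_ (by positivity)) (numer hm hn hk)
    rw [card_univ, Fintype.card_option, pow_succ]
    push_cast
    linarith

end Pool.Agent.P.MP_f57657_co.DG
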