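import Pool.Agent.P.MP_f57657_co.DG.Base

/-! The chain at a fixed small point. -/

open Matrix Finset Polynomial

namespace Pool.Agent.P.MP_f57657_co.DG

namespace SmallAux

theorem st_mono {x : Pt} {r r' c c' n : ℕ} {G : Gr n} (h : St x r c G) (hr : r ≤ r')
    (hc : c ≤ c') : St x r' c' G := ⟨h.1.mono hr, h.2.mono hc⟩

theorem st_zero (hEv : StEv) (hPl : StPl) (x : Pt) {n : ℕ} (G : Gr n)
    (h : gd (FF x.1) (aM G) x.2 = 0) : St x 1 0 G := by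
  have h1 : aeval x.2 (ph G) ≠ 0 := fun e => by
    have := ((hEv (FF x.1) n (aM G)).1 x.2).2 e
    omega
  refine ⟨fun hd => h1 (((hPl x).2.2.2.2.2.2.1 (ph G)).2 (by simpa using hd)), ph G, 1, 0, h1, ?_⟩
  simp

theorem st_bord (hJac : StJac) {x : Pt} {r c n : ℕ} (G : Gr n) (s : Bv n)
    (h1 : Ord x r (ph (bord G s))) (h2 : Cop x c (ph G + yy G s) (ph (bord G s))) :
    St x r (2 * c) (bord G s) := by
  refine ⟨h1, ?_⟩
  obtain ⟨u, a, b, hu, e⟩ := h2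
  have hJ := hJac.2.1 n G s
  refine ⟨u ^ 2, 2 * a * b * (ph G + yy G s) + b ^ 2 * ph (bord G s) - a ^ 2 * ps G,
    a ^ 2 * ph G, by rw [map_pow]; exact pow_ne_zero 2 hu, ?_⟩
  have e2 : (C ((x.1.1 : ℤ) ^ (2 * c)) : ℤ[X]) = C ((x.1.1 : ℤ) ^ c) ^ 2 := by
    rw [← C_pow, ← pow_mul, mul_comm]
  rw [e2]
  linear_combination (u * C ((x.1.1 : ℤ) ^ c) + (a * (ph G + yy G s) + b * ph (bord G s))) * e -
    a ^ 2 * hJ

theorem step (hVa : StVa) (hVc : StVc) (hJac : StJac) (x : Pt) (r c : ℕ) {ε : ℝ} (hε : 0 < ε) :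
    ∃ r' c' N : ℕ, ∀ n ≥ N,
      pr (fun ω : Gr n × Bv n => St x r c ω.1 ∧ ¬ St x r' c' (bord ω.1 ω.2)) ≤ ε := by
  obtain ⟨r2, c2, N1, h1⟩ := hVa x r c (ε / 2) (by linarith)
  obtain ⟨r3, c3, N2, h2⟩ := hVc x r r2 c2 (ε / 2) (by linarith)
  refine ⟨r3, 2 * c3, max N1 N2, fun n hn => ?_⟩
  have a1 := h1 n (le_of_max_le_left hn)
  have a2 := h2 n (le_of_max_le_right hn)
  refine (pr_le_add (fun ω hω => ?_)).trans ((add_le_add a1 a2).trans (by linarith))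
  by_cases hb : Cop x c2 (ph ω.1) (yy ω.1 ω.2) ∧ Ord x r2 (ph ω.1 + yy ω.1 ω.2)
  · exact Or.inr ⟨hω.1.1, hb.1, hb.2, fun hc => hω.2 (st_bord hJac ω.1 ω.2 hc.1 hc.2)⟩
  · exact Or.inl ⟨hω.1, hb⟩

theorem chain (hVa : StVa) (hVc : StVc) (hEv : StEv) (hJac : StJac) (hPl : StPl) (x : Pt)
    {ε : ℝ} (hε : 0 < ε) (i : ℕ) : ∃ r c N : ℕ, ∀ n ≥ N,
      pr (fun G : Gr n => (∃ (j : ℕ) (h : j ≤ n), n ≤ j + i ∧
        gd (FF x.1) (aM (rs G j h)) x.2 = 0) ∧ ¬ St x r c G) ≤ i * ε := by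
  induction i with
  | zero =>
    refine ⟨1, 0, 0, fun n _ => ?_⟩
    rw [pr_false]
    · simp
    · rintro G ⟨⟨j, h, hj, h0⟩, hs⟩
      obtain rfl : j = n := by omega
      exact hs (st_zero hEv hPl x G h0)
  | succ i ih =>
    obtain ⟨r, c, N, h1⟩ := ih
    obtain ⟨r', c', N', h2⟩ := step hVa hVc hJac x r c hε
    refine ⟨max r' 1, c', max N N' + 1, fun n hn => ?_⟩
    obtain ⟨m, rfl⟩ : ∃ m, n = m + 1 := ⟨n - 1, by omega⟩
    have hm : max N N' ≤ m := by omega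
    have a1 := h1 m (le_of_max_le_left hm)
    have a2 := h2 m (le_of_max_le_right hm)
    rw [← pr_fst (Ω' := Bv m)] at a1
    rw [pr_bord]
    refine (pr_le_add (fun ω hω => ?_)).trans ((add_le_add a1 a2).trans (by push_cast; linarith))
    obtain ⟨⟨j, h, hj, h0⟩, hs⟩ := hω
    by_cases hjm : j ≤ m
    · rw [rs_bord ω.1 ω.2 hjm h] at h0
      by_cases hb : St x r c ω.1
      · exact Or.inr ⟨hb, fun hc => hs (st_mono hc (le_max_left _ _) le_rfl)⟩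
      · exact Or.inl ⟨⟨j, hjm, by omega, h0⟩, hb⟩
    · obtain rfl : j = m + 1 := by omega
      exact absurd (st_mono (st_zero hEv hPl x _ h0) (le_max_right _ _) (Nat.zero_le _)) hs

end SmallAux

open SmallAux in
theorem pSmall (hVa : StVa) (hVc : StVc) (hReg : StReg) (hEv : StEv) (hJac : StJac)
    (hPl : StPl) : StSmall := by
  intro x ε hε
  obtain ⟨k, hk⟩ := exists_pow_lt_of_lt_one (show 0 < ε / 16 by linarith)
    (show (7 / 8 : ℝ) < 1 by norm_num)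
  have hk1 : (0 : ℝ) < k + 1 := by positivity
  obtain ⟨r, c, N, h1⟩ := chain hVa hVc hEv hJac hPl x (show 0 < ε / (2 * (k + 1)) by positivity) k
  refine ⟨c, max N k, fun n hn => ?_⟩
  have a1 := h1 n (le_of_max_le_left hn)
  have a2 := (hReg (FF x.1) 0 1 x.2 (by simp)).2 n k (le_of_max_le_right hn)
  have a3 : (k : ℝ) * (ε / (2 * (k + 1))) ≤ ε / 2 := by
    rw [mul_div_assoc', div_le_div_iff₀ (by positivity) (by norm_num)]
    nlinarith
  refine (pr_le_add (fun G hG => ?_)).trans ((add_le_add a1 a2).trans (by linarith))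
  by_cases hb : ∃ (j : ℕ) (h : j ≤ n), n ≤ j + k ∧ gd (FF x.1) (aM (rs G j h)) x.2 = 0
  · exact Or.inl ⟨hb, fun hc => hG hc.2⟩
  · refine Or.inr fun j h hj => ?_
    by_contra h0
    exact hb ⟨j, h, hj, by have : gd (FF x.1) (gm 0 1 (rs G j h)) x.2 < 1 := not_le.1 h0; exact Nat.lt_one_iff.1 this⟩

end Pool.Agent.P.MP_f57657_co.DG
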