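import Pool.Agent.P.MP_f57657_co.DG.Base

/-! The socle lemma: a vector killed modulo `p` by the minimal polynomial of a point, whose
quotient is orthogonal to the cyclic space, forces vanishing modulo `p ^ 2`. -/

open Matrix Finset Polynomial

namespace Pool.Agent.P.MP_f57657_co.DG

namespace SocAux

section General

variable {R ι : Type} [CommRing R] [Fintype ι] [DecidableEq ι]

lemma act_mul (M : Matrix ι ι R) (g h : R[X]) (w : ι → R) :
    aeval M (g * h) *ᵥ w = aeval M g *ᵥ (aeval M h *ᵥ w) := by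
  rw [map_mul, mulVec_mulVec]

lemma act_add (M : Matrix ι ι R) (g h : R[X]) (w : ι → R) :
    aeval M (g + h) *ᵥ w = aeval M g *ᵥ w + aeval M h *ᵥ w := by
  rw [map_add, add_mulVec]

lemma act_C (M : Matrix ι ι R) (c : R) (g : R[X]) (w : ι → R) :
    aeval M (C c * g) *ᵥ w = c • (aeval M g *ᵥ w) := by
  rw [← smul_eq_C_mul, map_smul, smul_mulVec]

lemma act_sum (M : Matrix ι ι R) {g : R[X]} {m : ℕ} (hg : g.natDegree < m) (w : ι → R) :
    aeval M g *ᵥ w = ∑ i ∈ range m, g.coeff i • (M ^ i *ᵥ w) := by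
  rw [aeval_eq_sum_range' hg, sum_mulVec]
  exact sum_congr rfl fun i _ => smul_mulVec _ _ _

lemma cop (M : Matrix ι ι R) {g h : R[X]} (hc : IsCoprime g h) {w : ι → R}
    (h1 : aeval M g *ᵥ w = 0) (h2 : aeval M h *ᵥ w = 0) : w = 0 := by
  obtain ⟨a, b, e⟩ := hc
  have h3 : aeval M (a * g + b * h) *ᵥ w = w := by rw [e, map_one, one_mulVec]
  rw [← h3, act_add, act_mul, act_mul, h1, h2, mulVec_zero, mulVec_zero, add_zero]

lemma symm_aeval {M : Matrix ι ι R} (hM : Mᵀ = M) (g : R[X]) : (aeval M g)ᵀ = aeval M g := by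
  rw [aeval_eq_sum_range, transpose_sum]
  exact sum_congr rfl fun i _ => by rw [transpose_smul, transpose_pow, hM]

lemma cast_act (p : ℕ) (M : Matrix ι ι ℤ) (g : ℤ[X]) (w : ι → ℤ) :
    aeval (M.map (Int.cast : ℤ → ZMod p)) (red p g) *ᵥ (fun i => (w i : ZMod p)) =
      fun i => (((aeval M g *ᵥ w) i : ℤ) : ZMod p) := by
  have h := map_aeval_eq_aeval_map (φ := Int.castRingHom (ZMod p))
    (ψ := ((Int.castRingHom (ZMod p)).mapMatrix : Matrix ι ι ℤ →+* Matrix ι ι (ZMod p)))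
    (RingHom.ext_int _ _) g M
  funext i
  have h2 := RingHom.map_mulVec (Int.castRingHom (ZMod p)) (aeval M g) w i
  rw [RingHom.mapMatrix_apply, RingHom.mapMatrix_apply] at h
  rw [h] at h2
  exact h2.symm

end General

section Field

variable {F ι : Type} [Field F] [Fintype ι] [DecidableEq ι]

/-- a vector killed by an irreducible polynomial is killed by no polynomial of lower degree -/
lemma low (M : Matrix ι ι F) {π g : F[X]} (hπ : Irreducible π) (hg : g.natDegree < π.natDegree)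
    {w : ι → F} (hw : w ≠ 0) (h1 : aeval M π *ᵥ w = 0) (h2 : aeval M g *ᵥ w = 0) : g = 0 := by
  by_contra h0
  exact hw (cop M ((hπ.coprime_iff_not_dvd).2 fun hd =>
    absurd (natDegree_le_of_dvd hd h0) (not_le.2 hg)) h1 h2)

/-- the range of a symmetric matrix is the orthogonal of the kernel -/
lemma in_range {N : Matrix ι ι F} (hN : Nᵀ = N) {y : ι → F}
    (h : ∀ w, N *ᵥ w = 0 → y ⬝ᵥ w = 0) : ∃ t, N *ᵥ t = y := by
  by_contra hy
  have h1 : y ∉ LinearMap.range N.mulVecLin := fun ⟨t, ht⟩ => hy ⟨t, ht⟩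
  obtain ⟨φ, h2, h3⟩ := Submodule.exists_le_ker_of_notMem h1
  have h4 : ∀ u : ι → F, φ u = u ⬝ᵥ fun i => φ (Pi.single i 1) := fun u => by
    conv_lhs => rw [pi_eq_sum_univ' u]
    rw [map_sum, dotProduct]
    exact sum_congr rfl fun i _ => by rw [map_smul, smul_eq_mul]
  refine h2 ?_
  rw [h4]
  refine h _ (funext fun i => ?_)
  have h5 : φ (N *ᵥ Pi.single i 1) = 0 := h3 ⟨Pi.single i 1, rfl⟩
  rw [h4, dotProduct_comm, dotProduct_mulVec, ← mulVec_transpose, hN, dotProduct_single,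
    mul_one] at h5
  exact h5

variable {n : ℕ}

lemma pow_res (B : Matrix (Fin (n + 1)) (Fin (n + 1)) F) {w : Fin (n + 1) → F}
    (h : ∀ k, (B ^ k *ᵥ w) (Fin.last n) = 0) (k : ℕ) :
    (B.submatrix Fin.castSucc Fin.castSucc) ^ k *ᵥ (fun i => w i.castSucc) =
      fun i => (B ^ k *ᵥ w) i.castSucc := by
  induction k with
  | zero => rw [pow_zero, pow_zero, one_mulVec, one_mulVec]
  | succ k ih =>
    rw [pow_succ', pow_succ', ← mulVec_mulVec, ← mulVec_mulVec, ih]
    funext i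
    have := h k
    generalize B ^ k *ᵥ w = u at this
    simp only [mulVec, dotProduct, submatrix_apply]
    rw [Fin.sum_univ_castSucc, this, mul_zero, add_zero]

/-- the kernel embeds through the last coordinates -/
lemma inj (B : Matrix (Fin (n + 1)) (Fin (n + 1)) F) {π : F[X]} (hπ : Irreducible π)
    (hm : π.Monic) (hc : ¬ π ∣ (B.submatrix Fin.castSucc Fin.castSucc).charpoly)
    {w : Fin (n + 1) → F} (h1 : aeval B π *ᵥ w = 0)
    (h2 : ∀ k < π.natDegree, (B ^ k *ᵥ w) (Fin.last n) = 0) : w = 0 := by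
  have h3 : ∀ k, (B ^ k *ᵥ w) (Fin.last n) = 0 := fun k => by
    have e : B ^ k = aeval B (X ^ k %ₘ π + (X ^ k /ₘ π) * π) := by
      rw [mul_comm, modByMonic_add_div, map_pow, aeval_X]
    rw [e, act_add, act_mul, h1, mulVec_zero, add_zero,
      act_sum B (natDegree_modByMonic_lt _ hm hπ.ne_one), Finset.sum_apply]
    exact sum_eq_zero fun i hi => by rw [Pi.smul_apply, h2 i (mem_range.1 hi), smul_zero]
  have h4 : (fun i : Fin n => w i.castSucc) = 0 := by
    refine cop (B.submatrix Fin.castSucc Fin.castSucc) ((hπ.coprime_iff_not_dvd).2 hc) ?_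
      (by rw [aeval_self_charpoly, zero_mulVec])
    funext i
    have h5 := congrFun h1 i.castSucc
    rw [act_sum _ (Nat.lt_succ_self _), Finset.sum_apply] at h5 ⊢
    refine Eq.trans (sum_congr rfl fun k _ => ?_) h5
    rw [pow_res B h3 k]
    rfl
  funext i
  induction i using Fin.lastCases with
  | last => simpa using h3 0
  | cast i => exact congrFun h4 i

/-- the kernel is cyclic -/
lemma cyc [Finite F] (B : Matrix (Fin (n + 1)) (Fin (n + 1)) F) {π : F[X]} (hπ : Irreducible π)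
    (hm : π.Monic) (hc : ¬ π ∣ (B.submatrix Fin.castSucc Fin.castSucc).charpoly)
    {v w : Fin (n + 1) → F} (hv : v ≠ 0) (h1 : aeval B π *ᵥ v = 0) (h2 : aeval B π *ᵥ w = 0) :
    ∃ c : Fin π.natDegree → F, w = ∑ i, c i • (B ^ i.val *ᵥ v) := by
  classical
  have hk : ∀ c : Fin π.natDegree → F, aeval B π *ᵥ (∑ i, c i • (B ^ i.val *ᵥ v)) = 0 := fun c => by
    rw [mulVec_sum]
    refine sum_eq_zero fun i _ => ?_
    have e : B ^ i.val = aeval B (X ^ i.val : F[X]) := by rw [map_pow, aeval_X]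
    rw [mulVec_smul, e, ← act_mul, mul_comm, act_mul, h1, mulVec_zero, smul_zero]
  have hi : Function.Injective fun (c : Fin π.natDegree → F) (k : Fin π.natDegree) =>
      (B ^ k.val *ᵥ ∑ i, c i • (B ^ i.val *ᵥ v)) (Fin.last n) := by
    intro c d hcd
    have e : ∑ i, (c - d) i • (B ^ i.val *ᵥ v) =
        ∑ i, c i • (B ^ i.val *ᵥ v) - ∑ i, d i • (B ^ i.val *ᵥ v) := by
      rw [← sum_sub_distrib]
      exact sum_congr rfl fun i _ => sub_smul _ _ _
    have h3 : ∑ i, (c - d) i • (B ^ i.val *ᵥ v) = 0 := inj B hπ hm hc (hk _) fun k hk' => by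
      rw [e, mulVec_sub, Pi.sub_apply, sub_eq_zero]
      exact congrFun hcd ⟨k, hk'⟩
    have hd : (ofFn π.natDegree (c - d)).natDegree < π.natDegree :=
      ofFn_natDegree_lt hπ.natDegree_pos _
    have h4 : ofFn π.natDegree (c - d) = 0 := by
      refine low B hπ hd hv h1 ?_
      rw [act_sum B hd, ← Fin.sum_univ_eq_sum_range
        (fun i => (ofFn π.natDegree (c - d)).coeff i • (B ^ i *ᵥ v)), ← h3]
      exact sum_congr rfl fun i _ => by rw [ofFn_coeff_eq_val_of_lt _ i.2]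
    funext i
    have h5 := ofFn_coeff_eq_val_of_lt (c - d) i.2
    rw [h4, coeff_zero] at h5
    exact sub_eq_zero.1 h5.symm
  obtain ⟨c, hc'⟩ := Finite.injective_iff_surjective.1 hi fun k => (B ^ k.val *ᵥ w) (Fin.last n)
  refine ⟨c, sub_eq_zero.1 (inj B hπ hm hc ?_ fun k hk' => ?_)⟩
  · rw [mulVec_sub, h2, hk, sub_zero]
  · rw [mulVec_sub, Pi.sub_apply, sub_eq_zero]
    exact (congrFun hc' ⟨k, hk'⟩).symm

end Field

end SocAux

open SocAux in
theorem pSoc (hPl : StPl) : StSoc := by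
  intro n G x v y hv hy hperp hne
  obtain ⟨hlm, hred, hdeg, -, hirr, hm, hdvd, -⟩ := hPl x
  have hp0 : (x.1.1 : ℤ) ≠ 0 := by exact_mod_cast x.1.2.ne_zero
  have hz : ∀ (z : Fin (n + 1) → ℤ) (i : Fin (n + 1)),
      ((((x.1.1 : ℤ) • z) i : ℤ) : ZMod x.1.1) = 0 := fun z i => by simp
  have hB : ((aM G).map (Int.cast : ℤ → ZMod x.1.1))ᵀ = (aM G).map Int.cast := by
    rw [← transpose_map, (gm_symm 0 1 G).eq]
  have hc : ¬ mp x ∣ (((aM G).map (Int.cast : ℤ → ZMod x.1.1)).submatrix Fin.castSucc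
      Fin.castSucc).charpoly := by
    have e : ((aM G).map (Int.cast : ℤ → ZMod x.1.1)).submatrix Fin.castSucc Fin.castSucc =
        (aM (res G)).map (Int.castRingHom (ZMod x.1.1)) := by
      ext i j
      have := gm_cc 0 1 (res G) (col G) i j
      rw [bord_res] at this
      simp only [submatrix_apply, map_apply, this, eq_intCast]
    rw [e, Matrix.charpoly_map]
    exact fun hd => hne ((hdvd _).2 hd)
  have hv0 : (fun i => (v i : ZMod x.1.1)) ≠ 0 := fun e => by
    obtain ⟨i, hi⟩ := hv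
    exact hi ((ZMod.intCast_zmod_eq_zero_iff_dvd _ _).1 (congrFun e i))
  have hv1 : aeval ((aM G).map (Int.cast : ℤ → ZMod x.1.1)) (mp x) *ᵥ
      (fun i => (v i : ZMod x.1.1)) = 0 := by
    rw [← hred, cast_act, hy]
    exact funext (hz y)
  obtain ⟨t, ht⟩ := in_range (symm_aeval hB (mp x)) (y := fun i => (y i : ZMod x.1.1))
    fun w hw => by
      obtain ⟨c, rfl⟩ := cyc _ hirr hm hc hv0 hv1 hw
      rw [dotProduct_sum]
      refine sum_eq_zero fun i _ => ?_
      have e := cast_act x.1.1 (aM G) (X ^ i.val) v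
      rw [red, Polynomial.map_pow, map_X, map_pow, map_pow, aeval_X, aeval_X] at e
      have e2 := (ZMod.intCast_zmod_eq_zero_iff_dvd _ _).2 (hperp i.val)
      rw [dotProduct, Int.cast_sum] at e2
      simp only [Int.cast_mul] at e2
      rw [dotProduct_smul, e, dotProduct, e2, smul_zero]
  choose s hs using fun i => ZMod.intCast_surjective (t i)
  have hd : ∀ i, (x.1.1 : ℤ) ∣ (y - aeval (aM G) (lf x) *ᵥ s) i := fun i => by
    rw [← ZMod.intCast_zmod_eq_zero_iff_dvd, Pi.sub_apply, Int.cast_sub, sub_eq_zero,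
      ← congrFun (cast_act x.1.1 (aM G) (lf x) s) i, hred, funext hs, ht]
  choose y2 hy2 using hd
  have hu : aeval (aM G) (lf x) *ᵥ (v - (x.1.1 : ℤ) • s) = (x.1.1 : ℤ) • (x.1.1 : ℤ) • y2 := by
    rw [mulVec_sub, mulVec_smul, hy, ← smul_sub]
    exact congrArg _ (funext hy2)
  have hu0 : (fun i => (((v - (x.1.1 : ℤ) • s) i : ℤ) : ZMod x.1.1)) =
      fun i => (v i : ZMod x.1.1) := funext fun i => by
    rw [Pi.sub_apply, Int.cast_sub, hz, sub_zero]
  have key : ∀ (g : ℤ[X]) (z : Fin (n + 1) → ℤ), g.natDegree < dg x →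
      aeval (aM G) g *ᵥ (v - (x.1.1 : ℤ) • s) = (x.1.1 : ℤ) • z → C (x.1.1 : ℤ) ∣ g := by
    intro g z hg e
    have h0 : red x.1.1 g = 0 := by
      refine low _ hirr (natDegree_map_le.trans_lt hg) hv0 hv1 ?_
      rw [← hu0, cast_act, e]
      exact funext (hz z)
    refine (C_dvd_iff_dvd_coeff _ _).2 fun i => (ZMod.intCast_zmod_eq_zero_iff_dvd _ _).1 ?_
    have := congrArg (fun q => coeff q i) h0
    simpa [red] using this
  have hlt : (ph G %ₘ lf x).natDegree < dg x := by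
    rw [← hdeg]
    refine natDegree_modByMonic_lt _ hlm fun e => hirr.ne_one ?_
    rw [← hred, e, red, Polynomial.map_one]
  have hr : aeval (aM G) (ph G %ₘ lf x) *ᵥ (v - (x.1.1 : ℤ) • s) =
      (x.1.1 : ℤ) • (x.1.1 : ℤ) • (-(aeval (aM G) (ph G /ₘ lf x) *ᵥ y2)) := by
    have e : aeval (aM G) (ph G %ₘ lf x + (ph G /ₘ lf x) * lf x) *ᵥ (v - (x.1.1 : ℤ) • s) = 0 := by
      rw [mul_comm, modByMonic_add_div, aeval_self_charpoly, zero_mulVec]
    rw [act_add, act_mul, hu, mulVec_smul, mulVec_smul] at e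
    rw [smul_neg, smul_neg]
    exact eq_neg_of_add_eq_zero_left e
  obtain ⟨r1, e1⟩ := key _ _ hlt hr
  rw [e1, natDegree_C_mul hp0] at hlt
  rw [e1, act_C] at hr
  obtain ⟨r2, e2⟩ := key _ _ hlt (smul_right_injective _ hp0 hr)
  refine Ideal.mem_span_pair.2 ⟨r2, ph G /ₘ lf x, ?_⟩
  have e3 := modByMonic_add_div (ph G) (lf x)
  rw [e1, e2] at e3
  rw [C_pow]
  linear_combination e3

end Pool.Agent.P.MP_f57657_co.DG
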