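import Pool.Agent.P.MP_f57657_co.DG.Base

/-! Seidel switching by a uniform bit vector preserves the uniform measure on graphs. -/

open Matrix Finset Polynomial

namespace Pool.Agent.P.MP_f57657_co.DG

namespace SwAux

/-- The graph switched with respect to the bit vector. -/
def sw {n : ℕ} (G : Gr n) (s : Bv n) : Gr n where
  Adj i j := i ≠ j ∧ (G.Adj i j ↔ s i = s j)
  symm := ⟨fun i j h => ⟨h.1.symm, by rw [G.adj_comm j i, h.2, eq_comm]⟩⟩
  loopless := ⟨fun i h => h.1 rfl⟩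

theorem sw_adj {n : ℕ} (G : Gr n) (s : Bv n) (i j : Fin n) :
    (sw G s).Adj i j ↔ i ≠ j ∧ (G.Adj i j ↔ s i = s j) := Iff.rfl

theorem sw_sw {n : ℕ} (G : Gr n) (s : Bv n) : sw (sw G s) s = G := by
  ext i j
  rw [sw_adj, sw_adj]
  have h := G.ne_of_adj (a := i) (b := j)
  tauto

/-- Switching as an involution of the product space. -/
def swE (n : ℕ) : Gr n × Bv n ≃ Gr n × Bv n where
  toFun ω := (sw ω.1 ω.2, ω.2)
  invFun ω := (sw ω.1 ω.2, ω.2)
  left_inv ω := by simp only [sw_sw]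
  right_inv ω := by simp only [sw_sw]

theorem sv_pm {n : ℕ} (s : Bv n) (i : Fin n) : sv 1 (-1) s i = 1 ∨ sv 1 (-1) s i = -1 := by
  simp only [sv]
  split_ifs <;> simp

theorem sM_sw {n : ℕ} (G : Gr n) (s : Bv n) :
    sM (sw G s) = Matrix.of fun i j => sv 1 (-1) s i * sM G i j * sv 1 (-1) s j := by
  ext i j
  simp only [gm, of_apply, sv]
  by_cases hij : i = j
  · simp [hij]
  · by_cases ha : G.Adj i j <;> cases hi : s i <;> cases hj : s j <;> simp [hij, ha, sw_adj, hi, hj]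

end SwAux

open SwAux in
theorem pSw : StSw := by
  intro n E hE
  rw [← pr_equiv (swE n) fun ω : Gr n × Bv n => E (sM ω.1) (sv 1 (-1) ω.2),
    ← pr_fst (Ω' := Bv n) fun G : Gr n => E (sM G) 1]
  refine pr_congr fun ω => ?_
  have h := hE (sM ω.1) 1 (sv 1 (-1) ω.2) (sv_pm ω.2)
  simp only [Pi.one_apply, mul_one] at h
  change _ ↔ E (sM (sw ω.1 ω.2)) (sv 1 (-1) ω.2)
  rw [sM_sw]
  exact h.symm

end Pool.Agent.P.MP_f57657_co.DG
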