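import Pool.Agent.P.MP_f57657_co.DG.Base

/-! Points of characteristic two that are roots at two consecutive steps. -/

open Matrix Finset Polynomial

namespace Pool.Agent.P.MP_f57657_co.DG

namespace T1Aux

/-- The prime two. -/
abbrev two : Nat.Primes := ⟨2, Nat.prime_two⟩

theorem two_zero : (2 : FF two) = 0 := by
  have h : ((2 : ℕ) : FF two) = 0 := (CharP.cast_eq_zero_iff (FF two) 2 2).2 dvd_rfl
  exact_mod_cast h

theorem ne_zero {x : Pt} (h : 2 ≤ dg x) : x.2 ≠ 0 := fun h0 => by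
  rw [dg, mp, h0, minpoly.zero, natDegree_X] at h
  omega

theorem sz_two (θ : FF two) : sz ⟨two, θ⟩ = 2 ^ dg ⟨two, θ⟩ := rfl

theorem tail (a t : ℕ) : ∑ f ∈ Ioc a t, (1 / 2 : ℝ) ^ f ≤ (1 / 2) ^ a := by
  have h : ∀ k, ∑ f ∈ Ioc a (a + k), (1 / 2 : ℝ) ^ f = (1 / 2) ^ a - (1 / 2) ^ (a + k) := by
    intro k
    induction k with
    | zero => simp
    | succ k ih =>
      rw [← add_assoc, sum_Ioc_succ_top (by omega), ih, pow_succ]
      ring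
  calc _ ≤ ∑ f ∈ Ioc a (a + t), (1 / 2 : ℝ) ^ f :=
        sum_le_sum_of_subset_of_nonneg (Ioc_subset_Ioc_right (by omega)) fun _ _ _ => by
          positivity
    _ ≤ _ := by rw [h]; exact sub_le_self _ (by positivity)

/-- All eigenvectors are orthogonal to the new column. -/
def Perp {j : ℕ} (G : Gr j) (θ : FF two) (s : Bv j) : Prop :=
  ∀ z ∈ eg (FF two) (aM G) θ, dt (sv 0 1 s) z = 0

theorem pr_perp (hOdl : StOdl) (hPl : StPl) {j f : ℕ} (G : Gr j) (θ : FF two)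
    (hf : f ≤ dg ⟨two, θ⟩) (h1 : 1 ≤ gd (FF two) (aM G) θ) :
    pr (fun s : Bv j => Perp G θ s) ≤ 1 / (2 : ℝ) ^ f := by
  obtain ⟨z, hz, h0⟩ := one_le_gd.1 h1
  have hb : Big θ (2 ^ f) :=
    Big.mono (hPl ⟨two, θ⟩).2.2.2.2.2.2.2.2.1 (Nat.pow_le_pow_right two_pos hf)
  have h := (hOdl (FF two) j).2.2 two_zero (aM G) θ z 0 (2 ^ f) hz h0 Nat.one_le_two_pow hb
  push_cast at h
  exact (pr_mono fun s hs => hs z hz).trans h

theorem drop (hBord : StBord) {j : ℕ} (G : Gr j) (θ : FF two) (s : Bv j) (h : ¬ Perp G θ s) :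
    gd (FF two) (aM (bord G s)) θ + 1 ≤ gd (FF two) (aM G) θ := by
  refine (hBord (FF two) 0 1 j G s θ).2.2.1 ?_
  by_contra hcon
  exact h fun z hz => by
    by_contra h0
    exact hcon ⟨z, hz, h0⟩

theorem pr_stay (hBord : StBord) (hOdl : StOdl) (hPl : StPl) {j : ℕ} (G : Gr j) (θ : FF two)
    (h1 : 1 ≤ gd (FF two) (aM G) θ) :
    pr (fun s : Bv j => gd (FF two) (aM G) θ ≤ gd (FF two) (aM (bord G s)) θ) ≤
      1 / (2 : ℝ) ^ dg ⟨two, θ⟩ := by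
  refine (pr_mono fun s hs => ?_).trans (pr_perp hOdl hPl G θ le_rfl h1)
  by_contra hp
  have := drop hBord G θ s hp
  omega

theorem pr_new (hEv : StEv) (hXq : StXq) (hJac : StJac) {j t : ℕ} (G : Gr j) (θ : FF two)
    (h2 : 2 ≤ dg ⟨two, θ⟩) (ht : dg ⟨two, θ⟩ ≤ t) (hG : Mu 2 t G) :
    pr (fun s : Bv j => gd (FF two) (aM G) θ = 0 ∧ 1 ≤ gd (FF two) (aM (bord G s)) θ) ≤
      1 / (2 : ℝ) ^ dg ⟨two, θ⟩ := by
  by_cases h : aeval θ (ph G) = 0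
  · have h1 := ((hEv (FF two) j (aM G)).1 θ).2 h
    rw [pr_false fun s hs => by omega]
    positivity
  · have h4 := hXq j t G ⟨two, θ⟩ rfl hG ht h
    rw [sz_two] at h4
    push_cast at h4
    refine (pr_mono fun s hs => ?_).trans h4
    have h5 : aeval θ (ph (bord G s)) = 0 :=
      ((hEv (FF two) (j + 1) (aM (bord G s))).1 θ).1 hs.2
    obtain ⟨u, hu⟩ := hJac.2.2.2 j G s
    have h6 := congrArg (aeval θ) hu
    rw [map_mul, h5, mul_zero, map_add, map_mul, map_mul, map_pow, aeval_X, map_ofNat, two_zero,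
      zero_mul, add_zero] at h6
    have h7 : θ ≠ 0 := ne_zero (x := ⟨two, θ⟩) h2
    exact pow_eq_zero_iff two_ne_zero |>.1 ((mul_eq_zero.1 h6.symm).resolve_left h7)

theorem medium (hPot : StPot) (hBord : StBord) (hEv : StEv) (hOdl : StOdl) (hXq : StXq)
    (hJac : StJac) (hPl : StPl) {n t j0 : ℕ} (θ : FF two) (h5 : 5 ≤ dg ⟨two, θ⟩)
    (ht : dg ⟨two, θ⟩ ≤ t) (hj1 : 1 ≤ j0) (hj : j0 * (t + 5) ≤ n)
    (hM : ∀ j, j0 ≤ j → pr (fun G : Gr j => ¬ Mu 2 t G) ≤ (1 / 2) ^ t) :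
    pr (fun ω : Gr n × Bv n => 1 ≤ gd (FF two) (aM ω.1) θ ∧
      1 ≤ gd (FF two) (aM (bord ω.1 ω.2)) θ) ≤ 216 * (1 / (2 : ℝ) ^ dg ⟨two, θ⟩) ^ 2 := by
  set f := dg ⟨two, θ⟩ with hf
  set u : ℝ := 1 / (2 : ℝ) ^ f with hu
  have hu0 : 0 < u := by positivity
  have hu1 : u ≤ 1 / 32 := by
    have : (2 : ℝ) ^ 5 ≤ 2 ^ f := pow_le_pow_right₀ one_le_two h5
    rw [hu]
    exact one_div_le_one_div_of_le (by norm_num) (by linarith)
  have hut : (1 / 2 : ℝ) ^ t ≤ u := by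
    rw [hu, ← _root_.one_div_pow]
    exact pow_le_pow_of_le_one (by norm_num) (by norm_num) ht
  have hn : j0 * t + 5 * j0 ≤ n := by nlinarith
  have hp : ∀ d, pr (fun G : Gr n => d ≤ gd (FF two) (aM G) θ) ≤ 3 * (4 * (2 * u)) ^ d := by
    intro d
    have := hPot (fun _ G => gd (FF two) (aM G) θ) (fun _ _ => True) (2 * u) 0 j0 n d
      (by positivity) (by linarith) le_rfl (by omega) ?_
      (fun j G => (hBord (FF two) 0 1 j G (fun _ => true) θ).1)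
      (fun j G s => (hBord (FF two) 0 1 j G s θ).2.1) ?_
    · simpa using this
    · have e1 : 1 / (4 * (2 * u)) ≤ (2 : ℝ) ^ t := by
        have e2 : (2 : ℝ) ^ f ≤ 2 ^ t := pow_le_pow_right₀ one_le_two ht
        have e3 : 1 / (4 * (2 * u)) = (2 : ℝ) ^ f / 8 := by
          rw [hu]
          field_simp
          norm_num
        have e4 : (0 : ℝ) < 2 ^ f := by positivity
        linarith
      calc 2 * (1 / (4 * (2 * u))) ^ j0 ≤ 2 * ((2 : ℝ) ^ t) ^ j0 := by gcongr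
        _ = 2 ^ (t * j0 + 1) := by rw [← pow_mul, pow_succ, mul_comm]
        _ ≤ _ := pow_le_pow_right₀ one_le_two (by rw [mul_comm t j0]; omega)
    · intro j hj0 _
      refine ⟨(pr_false fun _ h => h trivial).le, ?_, fun G _ h1 => ?_⟩
      · refine (pr_prod_le' (fun G : Gr j => Mu 2 t G) (c := u) hu0.le fun G hG =>
          pr_new hEv hXq hJac G θ (by omega) ht hG).trans ?_
        linarith [hM j hj0]
      · linarith [pr_stay hBord hOdl hPl G θ h1]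
  refine (pr_le_add (F := fun ω : Gr n × Bv n => 2 ≤ gd (FF two) (aM ω.1) θ)
    (F' := fun ω : Gr n × Bv n => 1 ≤ gd (FF two) (aM ω.1) θ ∧
      gd (FF two) (aM ω.1) θ ≤ gd (FF two) (aM (bord ω.1 ω.2)) θ) fun ω h => by omega).trans ?_
  rw [pr_fst fun G : Gr n => 2 ≤ gd (FF two) (aM G) θ]
  have h1 := pr_prod_le (E := fun ω : Gr n × Bv n => 1 ≤ gd (FF two) (aM ω.1) θ ∧
      gd (FF two) (aM ω.1) θ ≤ gd (FF two) (aM (bord ω.1 ω.2)) θ)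
    (fun G : Gr n => 1 ≤ gd (FF two) (aM G) θ) (fun _ => True) (c := u) hu0.le (fun _ h => h.1)
    fun G _ h1 => (pr_mono fun s hs => hs.2).trans (pr_stay hBord hOdl hPl G θ h1)
  rw [pr_false (E := fun _ : Gr n => ¬ True) fun _ h => h trivial] at h1
  have h2 := mul_le_mul_of_nonneg_left (hp 1) hu0.le
  have h3 := hp 2
  nlinarith

/-- Bad step at a large point. -/
def Bad (t : ℕ) {j : ℕ} (G : Gr j) (s : Bv j) : Prop :=
  ∃ θ : FF two, t ≤ dg ⟨two, θ⟩ ∧ 1 ≤ gd (FF two) (aM G) θ ∧ Perp G θ s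

theorem pr_bad (hEv : StEv) (hOdl : StOdl) (hPl : StPl) (t : ℕ) {j : ℕ} (G : Gr j) :
    pr (fun s : Bv j => Bad t G s) ≤ j * (1 / (2 : ℝ) ^ t) := by
  obtain ⟨F, hF, hF'⟩ := (hEv (FF two) j (aM G)).2.1
  have hc : (0 : ℝ) ≤ 1 / (2 : ℝ) ^ t := by positivity
  refine (pr_le_card_mul F (fun θ s => t ≤ dg ⟨two, θ⟩ ∧ 1 ≤ gd (FF two) (aM G) θ ∧ Perp G θ s)
    (c := 1 / (2 : ℝ) ^ t) (fun s hs => ?_) fun θ _ => ?_).trans ?_
  · obtain ⟨θ, h⟩ := hs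
    exact ⟨θ, hF' θ h.2.1, h⟩
  · by_cases h1 : t ≤ dg ⟨two, θ⟩ ∧ 1 ≤ gd (FF two) (aM G) θ
    · exact (pr_mono fun s hs => hs.2.2).trans (pr_perp hOdl hPl G θ h1.1 h1.2)
    · rw [pr_false fun s hs => h1 ⟨hs.1, hs.2.1⟩]
      exact hc
  · exact mul_le_mul_of_nonneg_right (by exact_mod_cast hF) hc

theorem chain (hBord : StBord) {t n : ℕ} (G : Gr n) (θ : FF two) (ht : t ≤ dg ⟨two, θ⟩)
    (hG : ∀ (j : ℕ) (h : j + 1 ≤ n),
      ¬ Bad t (rs G j (Nat.le_of_succ_le h)) (col (rs G (j + 1) h))) :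
    ∀ (j : ℕ) (h : j + 1 ≤ n), gd (FF two) (aM (rs G j (Nat.le_of_succ_le h))) θ +
      gd (FF two) (aM (rs G (j + 1) h)) θ ≤ 1 := by
  have key : ∀ (j : ℕ) (h : j + 1 ≤ n), gd (FF two) (aM (rs G j (Nat.le_of_succ_le h))) θ ≤ 1 →
      gd (FF two) (aM (rs G j (Nat.le_of_succ_le h))) θ +
        gd (FF two) (aM (rs G (j + 1) h)) θ ≤ 1 := by
    intro j h h1
    have h2 := (hBord (FF two) 0 1 j (rs G j (Nat.le_of_succ_le h)) (col (rs G (j + 1) h)) θ).2.1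
    rw [← rs_succ G h] at h2
    by_cases h3 : 1 ≤ gd (FF two) (aM (rs G j (Nat.le_of_succ_le h))) θ
    · have h4 := drop hBord (rs G j (Nat.le_of_succ_le h)) θ (col (rs G (j + 1) h))
        fun hp => hG j h ⟨θ, ht, h3, hp⟩
      rw [← rs_succ G h] at h4
      omega
    · have h4 : gd (FF two) (aM (rs G (j + 1) h)) θ ≤
          gd (FF two) (aM (rs G j (Nat.le_of_succ_le h))) θ + 1 := h2
      omega
  intro j
  induction j with
  | zero =>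
    intro h
    refine key 0 h ?_
    exact (hBord (FF two) 0 1 0 (rs G 0 (Nat.le_of_succ_le h)) (fun _ => true) θ).1.trans
      zero_le_one
  | succ j ih =>
    intro h
    refine key (j + 1) h ?_
    have := ih (Nat.le_of_succ_le h)
    omega

theorem large (hBord : StBord) (hEv : StEv) (hOdl : StOdl) (hPl : StPl) (t n : ℕ) :
    pr (fun ω : Gr n × Bv n => ∃ θ : FF two, t ≤ dg ⟨two, θ⟩ ∧ 1 ≤ gd (FF two) (aM ω.1) θ ∧
      1 ≤ gd (FF two) (aM (bord ω.1 ω.2)) θ) ≤ (n + 1 : ℕ) * (n * (1 / (2 : ℝ) ^ t)) := by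
  have h0 := pr_bord fun G : Gr (n + 1) => ∃ θ : FF two, t ≤ dg ⟨two, θ⟩ ∧
    1 ≤ gd (FF two) (aM (res G)) θ ∧ 1 ≤ gd (FF two) (aM G) θ
  simp only [res_bord] at h0
  rw [← h0]
  have := pr_le_card_mul (range (n + 1)) (E := fun G : Gr (n + 1) => ∃ θ : FF two,
      t ≤ dg ⟨two, θ⟩ ∧ 1 ≤ gd (FF two) (aM (res G)) θ ∧ 1 ≤ gd (FF two) (aM G) θ)
    (fun j G => ∃ h : j + 1 ≤ n + 1, Bad t (rs G j (Nat.le_of_succ_le h)) (col (rs G (j + 1) h)))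
    (c := n * (1 / (2 : ℝ) ^ t)) (fun G hG => ?_) fun j hj => ?_
  · simpa using this
  · by_contra hcon
    obtain ⟨θ, ht, h1, h2⟩ := hG
    have h3 := chain hBord G θ ht (fun j h hb => hcon ⟨j, mem_range.2 h, h, hb⟩) n le_rfl
    have h4 : gd (FF two) (aM (res G)) θ + gd (FF two) (aM G) θ ≤ 1 := h3
    omega
  · have h : j + 1 ≤ n + 1 := mem_range.1 hj
    refine (pr_mono (F := fun G : Gr (n + 1) => (fun (G' : Gr j) (s : Bv j) => Bad t G' s)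
      (rs G j (Nat.le_of_succ_le h)) (col (rs G (j + 1) h))) fun G hG => ?_).trans ?_
    · obtain ⟨_, hb⟩ := hG
      exact hb
    rw [pr_step h (fun (G' : Gr j) (s : Bv j) => Bad t G' s), pr_prod]
    have hjn : (j : ℝ) ≤ n := by exact_mod_cast Nat.le_of_succ_le_succ h
    refine ex_le_const (by positivity) fun G => (pr_bad hEv hOdl hPl t G).trans ?_
    gcongr

end T1Aux

open T1Aux in
theorem pT1 (hPot : StPot) (hBord : StBord) (hEv : StEv) (hOdl : StOdl) (hXq : StXq)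
    (hMu : StMu) (hJac : StJac) (hPl : StPl) (hPlc : StPlc) (hPar : StPar) : StT1 := by
  classical
  intro ε hε
  obtain ⟨N, hN⟩ := hMu
  obtain ⟨b, hb⟩ := exists_pow_lt_of_lt_one (show 0 < ε / 432 by positivity)
    (show (1 / 2 : ℝ) < 1 by norm_num)
  obtain ⟨a, ha, hb'⟩ : ∃ a : ℕ, 4 ≤ a ∧ (1 / 2 : ℝ) ^ a ≤ ε / 432 :=
    ⟨b + 4, by omega, (pow_le_pow_of_le_one (by norm_num) (by norm_num) (by omega)).trans hb.le⟩
  obtain ⟨n0, hn0⟩ := hPar (N + 1)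
  obtain ⟨n1, hn1⟩ := exists_nat_ge (4 / ε)
  refine ⟨2 ^ a, n0 + n1 + 1, fun n hn => ?_⟩
  obtain ⟨t, j0, ht, h1, h2, h3⟩ := hn0 n (by omega)
  have h4 : t ^ 3 ≤ j0 := by
    calc t ^ 3 ≤ (100 * t) ^ 3 := Nat.pow_le_pow_left (by omega) _
      _ ≤ (100 * t) ^ 14 := Nat.pow_le_pow_right (by omega) (by omega)
      _ ≤ j0 := h2
  have hj1 : 1 ≤ j0 := (Nat.one_le_pow _ _ (by omega)).trans h4
  have hM : ∀ j, j0 ≤ j → pr (fun G : Gr j => ¬ Mu 2 t G) ≤ (1 / 2) ^ t :=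
    fun j hj => hN two t j t (by omega) (h4.trans hj) le_rfl
  refine (pr_le_add
    (F := fun ω : Gr n × Bv n => ∃ f ∈ Ioc a t, ∃ x : Pt, x.1.1 = 2 ∧ dg x = f ∧
      aeval x.2 (ph ω.1) = 0 ∧ aeval x.2 (ph (bord ω.1 ω.2)) = 0)
    (F' := fun ω : Gr n × Bv n => ∃ θ : FF two, t ≤ dg ⟨two, θ⟩ ∧ 1 ≤ gd (FF two) (aM ω.1) θ ∧
      1 ≤ gd (FF two) (aM (bord ω.1 ω.2)) θ) ?_).trans ?_
  · rintro ω ⟨⟨⟨p, hp⟩, θ⟩, rfl, e1, e2, e3⟩
    have e4 : a < dg ⟨two, θ⟩ := (Nat.pow_lt_pow_iff_right one_lt_two).1 e1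
    rcases le_total (dg ⟨two, θ⟩) t with h | h
    · exact Or.inl ⟨_, mem_Ioc.2 ⟨e4, h⟩, ⟨two, θ⟩, rfl, rfl, e2, e3⟩
    · exact Or.inr ⟨θ, h, ((hEv (FF two) _ _).1 θ).2 e2, ((hEv (FF two) _ _).1 θ).2 e3⟩
  have hA : pr (fun ω : Gr n × Bv n => ∃ f ∈ Ioc a t, ∃ x : Pt, x.1.1 = 2 ∧ dg x = f ∧
      aeval x.2 (ph ω.1) = 0 ∧ aeval x.2 (ph (bord ω.1 ω.2)) = 0) ≤ 216 * (1 / 2) ^ a := by
    refine (pr_le_sum (Ioc a t) _ fun s h => h).trans ?_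
    refine (sum_le_sum (g := fun f => 216 * (1 / 2 : ℝ) ^ f) fun f hf => ?_).trans (by
      rw [← mul_sum]; linarith [tail a t])
    obtain ⟨F, hF, hF'⟩ := hPlc.1 (2 ^ f)
    have hf' := mem_Ioc.1 hf
    refine (pr_le_card_mul F (fun x (ω : Gr n × Bv n) => x.1.1 = 2 ∧ dg x = f ∧
      aeval x.2 (ph ω.1) = 0 ∧ aeval x.2 (ph (bord ω.1 ω.2)) = 0)
      (c := 216 * (1 / (2 : ℝ) ^ f) ^ 2) ?_ fun x _ => ?_).trans ?_
    · rintro s ⟨x, h⟩
      exact ⟨x, hF' x (congrArg₂ (· ^ ·) h.1 h.2.1), h⟩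
    · by_cases h : x.1.1 = 2 ∧ dg x = f
      · obtain ⟨⟨p, hp⟩, θ⟩ := x
        obtain ⟨rfl, e2⟩ := h
        have e3 : dg ⟨two, θ⟩ = f := e2
        have e4 := medium hPot hBord hEv hOdl hXq hJac hPl θ (by omega) (by omega) hj1 h3 hM
        rw [e3] at e4
        exact (pr_mono fun ω hω => ⟨((hEv (FF two) _ _).1 θ).2 hω.2.2.1,
          ((hEv (FF two) _ _).1 θ).2 hω.2.2.2⟩).trans e4
      · rw [pr_false fun s hs => h ⟨hs.1, hs.2.1⟩]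
        positivity
    · have h : (F.card : ℝ) ≤ 2 ^ f := by exact_mod_cast hF
      calc _ ≤ (2 : ℝ) ^ f * (216 * (1 / (2 : ℝ) ^ f) ^ 2) := by gcongr
        _ = _ := by rw [_root_.one_div_pow 2 f]; field_simp
  have hB := large hBord hEv hOdl hPl t n
  have hn2 : (1 : ℝ) ≤ n := by exact_mod_cast (by omega : 1 ≤ n)
  have hn3 : 4 / ε ≤ n := hn1.trans (by exact_mod_cast (by omega : n1 ≤ n))
  have hq : (n : ℝ) ^ 7 ≤ 2 ^ t := by exact_mod_cast h1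
  have hC : ((n + 1 : ℕ) : ℝ) * (n * (1 / (2 : ℝ) ^ t)) ≤ ε / 2 := by
    rw [div_le_iff₀ hε] at hn3
    have e1 : (n : ℝ) ^ 3 ≤ 2 ^ t := (pow_le_pow_right₀ hn2 (by norm_num)).trans hq
    have e2 : (0 : ℝ) < 2 ^ t := by positivity
    rw [mul_one_div, ← mul_div_assoc, div_le_div_iff₀ e2 two_pos]
    push_cast
    have e3 : ε * (n : ℝ) ^ 3 ≤ ε * 2 ^ t := mul_le_mul_of_nonneg_left e1 hε.le
    have e4 : 4 * (n : ℝ) ^ 2 ≤ (n * ε) * n ^ 2 := mul_le_mul_of_nonneg_right hn3 (by positivity)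
    nlinarith
  linarith

end Pool.Agent.P.MP_f57657_co.DG
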