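import Pool.Agent.P.MP_f57657_co.DG.Base

/-! Points of characteristic two where the old polynomial does not vanish. -/

open Matrix Finset Polynomial

namespace Pool.Agent.P.MP_f57657_co.DG

namespace T2Aux

/-- The prime two. -/
abbrev two : Nat.Primes := ⟨2, Nat.prime_two⟩

theorem root_of (hPl : StPl) {x : Pt} {f : ℤ[X]} (h : E2 x f) : aeval x.2 f = 0 := by
  obtain ⟨a, b, rfl⟩ := Ideal.mem_span_pair.1 h
  obtain ⟨-, h1, -, -, -, -, h2, -⟩ := hPl x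
  have e1 : aeval x.2 (lf x) = 0 := (h2 _).2 (h1 ▸ dvd_rfl)
  have e2 : aeval x.2 (C ((x.1.1 : ℤ) ^ 2) : ℤ[X]) = 0 := (h2 _).2 (by
    rw [red, map_C, map_pow, eq_intCast, Int.cast_natCast, ZMod.natCast_self]
    simp)
  rw [map_add, map_mul, map_mul, e1, e2, mul_zero, mul_zero, add_zero]

theorem ne_zero {x : Pt} (h : 2 ≤ dg x) : x.2 ≠ 0 := fun h0 => by
  rw [dg, mp, h0, minpoly.zero, natDegree_X] at h
  omega

theorem sz_eq {x : Pt} {f : ℕ} (h1 : x.1.1 = 2) (h2 : dg x = f) : sz x = 2 ^ f :=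
  congrArg₂ (· ^ ·) h1 h2

theorem mem_ar {g : ℤ[X]} (hg : g.Monic) {θ : FF two} (h : aeval θ g = 0) :
    θ ∈ g.aroots (FF two) := mem_aroots'.2 ⟨(hg.map _).ne_zero, h⟩

theorem tail (a t : ℕ) : ∑ f ∈ Ioc (3 * a) t, (1 / 2 : ℝ) ^ (f / 3) ≤ 6 * (1 / 2) ^ a := by
  have h : ∀ k, ∑ f ∈ Ico (3 * a) (3 * (a + k)), (1 / 2 : ℝ) ^ (f / 3) =
      6 * (1 / 2) ^ a - 6 * (1 / 2) ^ (a + k) := by
    intro k
    induction k with
    | zero => simp
    | succ k ih =>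
      rw [show 3 * (a + (k + 1)) = 3 * (a + k) + 1 + 1 + 1 by ring, sum_Ico_succ_top (by omega),
        sum_Ico_succ_top (by omega), sum_Ico_succ_top (by omega), ih,
        show 3 * (a + k) / 3 = a + k by omega, show (3 * (a + k) + 1) / 3 = a + k by omega,
        show (3 * (a + k) + 1 + 1) / 3 = a + k by omega, ← add_assoc, pow_succ]
      ring
  calc _ ≤ ∑ f ∈ Ico (3 * a) (3 * (a + (t + 1))), (1 / 2 : ℝ) ^ (f / 3) :=
        sum_le_sum_of_subset_of_nonneg (fun f hf => by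
          rw [mem_Ioc] at hf; rw [mem_Ico]; omega) fun _ _ _ => by positivity
    _ ≤ _ := by rw [h]; exact sub_le_self _ (by positivity)

theorem roots {n : ℕ} (G : Gr n) (T : Finset (FF two)) :
    ∑ θ ∈ T, pr (fun s : Bv n => aeval θ (ph G + yy G s) = 0) ≤ n := by
  classical
  simp only [pr]
  rw [← ex_sum]
  refine ex_le_const (Nat.cast_nonneg _) fun s => ?_
  obtain ⟨h1, h2⟩ := monic_add_bf (aM G) (sv 0 1 s) 1
  rw [sum_boole, Nat.cast_le]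
  refine (card_le_card (t := ((ph G + yy G s).aroots (FF two)).toFinset) fun θ hθ => ?_).trans
    ((Multiset.toFinset_card_le _).trans ((card_roots' _).trans (natDegree_map_le.trans h2.le)))
  exact Multiset.mem_toFinset.2 (mem_ar h1 (mem_filter.1 hθ).2)

theorem fixed (hT3 : StT3) (hXq : StXq) (hPl : StPl) (hPlc : StPlc) {n a t : ℕ} (ha : 1 ≤ a)
    (G : Gr n) (hG : Mu 2 t G) :
    pr (fun s : Bv n => ∃ x : Pt, x.1.1 = 2 ∧ 2 ^ (3 * a) < sz x ∧ aeval x.2 (ph G) ≠ 0 ∧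
      E2 x (ph (bord G s))) ≤ 12 * (1 / 2) ^ a + 2 * (1 / 2) ^ (t / 3) * n := by
  classical
  refine (pr_le_add
    (F := fun s => ∃ f ∈ Ioc (3 * a) t, ∃ x : Pt, x.1.1 = 2 ∧ dg x = f ∧ aeval x.2 (ph G) ≠ 0 ∧
      E2 x (ph (bord G s)))
    (F' := fun s => ∃ θ : FF two, 2 ≤ dg ⟨two, θ⟩ ∧ t ≤ dg ⟨two, θ⟩ ∧ aeval θ (ph G) ≠ 0 ∧
      E2 ⟨two, θ⟩ (ph (bord G s))) ?_).trans (add_le_add ?_ ?_)
  · rintro s ⟨⟨⟨p, hp⟩, θ⟩, rfl, h1, h2, h3⟩
    have h4 : 3 * a < dg ⟨two, θ⟩ := (Nat.pow_lt_pow_iff_right one_lt_two).1 h1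
    rcases le_total (dg ⟨two, θ⟩) t with h | h
    · exact Or.inl ⟨_, mem_Ioc.2 ⟨h4, h⟩, ⟨two, θ⟩, rfl, rfl, h2, h3⟩
    · exact Or.inr ⟨θ, by omega, h, h2, h3⟩
  · refine (pr_le_sum (Ioc (3 * a) t) _ fun s h => h).trans ?_
    refine (sum_le_sum (g := fun f => 2 * (1 / 2 : ℝ) ^ (f / 3)) fun f hf => ?_).trans (by
      rw [← mul_sum]; linarith [tail a t])
    obtain ⟨F, hF, hF'⟩ := hPlc.1 (2 ^ f)
    have hf' := mem_Ioc.1 hf
    refine (pr_le_card_mul F (fun x s => x.1.1 = 2 ∧ dg x = f ∧ aeval x.2 (ph G) ≠ 0 ∧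
      E2 x (ph (bord G s))) (c := 2 * (1 / 2) ^ (f / 3) * (1 / 2 ^ f)) ?_ fun x _ => ?_).trans ?_
    · rintro s ⟨x, h⟩
      exact ⟨x, hF' x (sz_eq h.1 h.2.1), h⟩
    · by_cases h : x.1.1 = 2 ∧ dg x = f ∧ aeval x.2 (ph G) ≠ 0
      · obtain ⟨h1, h2, h3⟩ := h
        have h4 := hXq n t G x h1 (h1 ▸ hG) (by omega) h3
        rw [sz_eq h1 h2] at h4
        push_cast at h4
        refine (pr_mono fun s hs => hs.2.2.2).trans
          ((hT3 n G x h1 (ne_zero (by omega)) h3).trans ?_)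
        rw [h2]
        gcongr
      · rw [pr_false fun s hs => h ⟨hs.1, hs.2.1, hs.2.2.1⟩]
        positivity
    · have h : (F.card : ℝ) ≤ 2 ^ f := by exact_mod_cast hF
      calc _ ≤ (2 : ℝ) ^ f * (2 * (1 / 2) ^ (f / 3) * (1 / 2 ^ f)) := by gcongr
        _ = _ := by field_simp
  · set T : Finset (FF two) :=
      univ.biUnion fun s : Bv n => ((ph (bord G s)).aroots (FF two)).toFinset with hT
    refine (pr_le_sum T (fun θ s => 2 ≤ dg ⟨two, θ⟩ ∧ t ≤ dg ⟨two, θ⟩ ∧ aeval θ (ph G) ≠ 0 ∧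
      E2 ⟨two, θ⟩ (ph (bord G s))) ?_).trans ?_
    · rintro s ⟨θ, h⟩
      have h1 : aeval θ (ph (bord G s)) = 0 := root_of hPl (x := ⟨two, θ⟩) h.2.2.2
      have h2 : (ph (bord G s)).Monic := charpoly_monic _
      refine ⟨θ, ?_, h⟩
      rw [hT, mem_biUnion]
      exact ⟨s, mem_univ _, Multiset.mem_toFinset.2 (mem_ar h2 h1)⟩
    refine (sum_le_sum (g := fun θ => 2 * (1 / 2 : ℝ) ^ (t / 3) *
      pr fun s : Bv n => aeval θ (ph G + yy G s) = 0) fun θ _ => ?_).trans (by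
        rw [← mul_sum]; exact mul_le_mul_of_nonneg_left (roots G T) (by positivity))
    by_cases h : 2 ≤ dg ⟨two, θ⟩ ∧ t ≤ dg ⟨two, θ⟩ ∧ aeval θ (ph G) ≠ 0
    · refine (pr_mono fun s hs => hs.2.2.2).trans
        ((hT3 n G ⟨two, θ⟩ rfl (ne_zero h.1) h.2.2).trans ?_)
      exact mul_le_mul_of_nonneg_right (mul_le_mul_of_nonneg_left (pow_le_pow_of_le_one
        (by norm_num) (by norm_num) (Nat.div_le_div_right h.2.1)) (by norm_num)) (pr_nonneg _)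
    · rw [pr_false fun s hs => h ⟨hs.1, hs.2.1, hs.2.2.1⟩]
      exact mul_nonneg (by positivity) (pr_nonneg _)

end T2Aux

open T2Aux in
theorem pT2 (hT3 : StT3) (hXq : StXq) (hMu : StMu) (hPl : StPl) (hPlc : StPlc) (hPar : StPar) :
    StT2 := by
  intro ε hε
  obtain ⟨N, hN⟩ := hMu
  obtain ⟨b, hb⟩ := exists_pow_lt_of_lt_one (show 0 < ε / 15 by positivity)
    (show (1 / 2 : ℝ) < 1 by norm_num)
  obtain ⟨a, ha, hb'⟩ : ∃ a : ℕ, 1 ≤ a ∧ (1 / 2 : ℝ) ^ a ≤ ε / 15 :=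
    ⟨b + 1, by omega, (pow_le_pow_of_le_one (by norm_num) (by norm_num) (by omega)).trans hb.le⟩
  obtain ⟨n0, hn0⟩ := hPar (N + 6 * a + 6)
  refine ⟨2 ^ (3 * a), n0, fun n hn => ?_⟩
  obtain ⟨t, j0, ht, h1, h2, h3⟩ := hn0 n hn
  have h4 : t ^ 3 ≤ n := by
    calc t ^ 3 ≤ (100 * t) ^ 3 := Nat.pow_le_pow_left (by omega) _
      _ ≤ (100 * t) ^ 14 := Nat.pow_le_pow_right (by omega) (by omega)
      _ ≤ j0 * (t + 5) := h2.trans (Nat.le_mul_of_pos_right _ (by omega))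
      _ ≤ n := h3
  have h5 := hN two t n t (by omega) h4 le_rfl
  have h6 : (1 / 2 : ℝ) ^ t ≤ (1 / 2) ^ a :=
    pow_le_pow_of_le_one (by norm_num) (by norm_num) (by omega)
  have h7 : n * 2 ^ a ≤ 2 ^ (t / 3) := by
    refine (Nat.pow_le_pow_iff_left (n := 7) (by norm_num)).1 ?_
    rw [mul_pow, ← pow_mul, ← pow_mul]
    refine (Nat.mul_le_mul_right _ h1).trans ?_
    rw [← pow_add]
    exact Nat.pow_le_pow_right two_pos (by omega)
  have h8 : (1 / 2 : ℝ) ^ (t / 3) * n ≤ (1 / 2) ^ a := by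
    rw [_root_.one_div_pow, _root_.one_div_pow, one_div_mul_eq_div,
      div_le_div_iff₀ (by positivity) (by positivity), one_mul]
    exact_mod_cast h7
  refine (pr_prod_le' (fun G => Mu 2 t G) (c := 12 * (1 / 2) ^ a + 2 * (1 / 2) ^ (t / 3) * n)
    (by positivity) fun G hG => fixed hT3 hXq hPl hPlc ha G hG).trans ?_
  have h9 : pr (fun G : Gr n => ¬ Mu 2 t G) ≤ (1 / 2) ^ t := h5
  linarith

end Pool.Agent.P.MP_f57657_co.DG
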