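import Pool.Agent.P.MP_f57657_co.DG.Base

/-! Translating the last row in characteristic two. -/

open Matrix Finset Polynomial

namespace Pool.Agent.P.MP_f57657_co.DG

namespace T3Aux

variable {n : ℕ}

theorem aw_deg (M : Matrix (Fin n) (Fin n) ℤ) (y : Fin n → ℤ) (i : Fin n) :
    (aw M y i).degree < n := by
  obtain ⟨k, -, hk⟩ := Finset.exists_max_image univ (fun j => (aw M y j).degree) ⟨i, mem_univ i⟩
  refine lt_of_le_of_lt (hk i (mem_univ i)) ?_
  by_contra hc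
  have hn : (n : WithBot ℕ) ≤ (aw M y k).degree := not_lt.1 hc
  have h0 : aw M y k ≠ 0 := by
    rintro h
    rw [h, degree_zero] at hn
    exact absurd hn (by simp)
  have h1 : (X * aw M y k).degree ≤ (aw M y k).degree := by
    have e : X * aw M y k = ∑ j, C (M k j) * aw M y j + C (y k) * M.charpoly := by
      rw [aw_eq]; ring
    rw [e]
    refine (degree_add_le _ _).trans (max_le ((degree_sum_le _ _).trans (Finset.sup_le
      fun j hj => ?_)) ?_)
    · rw [← smul_eq_C_mul]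
      exact (degree_smul_le _ _).trans (hk j hj)
    · rw [← smul_eq_C_mul]
      refine (degree_smul_le _ _).trans ?_
      rwa [charpoly_degree_eq_dim, Fintype.card_fin]
  rw [mul_comm] at h1
  exact absurd (degree_lt_degree_mul_X h0) (not_lt.2 h1)

theorem bf_deg (M : Matrix (Fin n) (Fin n) ℤ) (u y : Fin n → ℤ) : (bf M u y).degree < n := by
  refine lt_of_le_of_lt (degree_sum_le _ _) ((Finset.sup_lt_iff (WithBot.bot_lt_coe n)).2
    fun i _ => ?_)
  rw [← smul_eq_C_mul]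
  exact lt_of_le_of_lt (degree_smul_le _ _) (aw_deg M y i)

theorem bf_add (M : Matrix (Fin n) (Fin n) ℤ) (u u' y : Fin n → ℤ) :
    bf M (u + u') y = bf M u y + bf M u' y := by
  simp only [bf, Pi.add_apply, C_add, add_mul, sum_add_distrib]

theorem bf_smul (M : Matrix (Fin n) (Fin n) ℤ) (c : ℤ) (u y : Fin n → ℤ) :
    bf M (c • u) y = C c * bf M u y := by
  simp only [bf, Pi.smul_apply, smul_eq_mul, C_mul, mul_sum, mul_assoc]

theorem bf_mulVec {M : Matrix (Fin n) (Fin n) ℤ} (hM : M.IsSymm) (u y : Fin n → ℤ) :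
    bf M (M *ᵥ u) y = X * bf M u y - C (u ⬝ᵥ y) * M.charpoly := by
  have e : bf M (M *ᵥ u) y = ∑ k, C (u k) * ∑ i, C (M k i) * aw M y i := by
    simp only [bf, mulVec, dotProduct, map_sum, sum_mul, mul_sum, C_mul]
    rw [sum_comm]
    exact sum_congr rfl fun k _ => sum_congr rfl fun i _ => by rw [hM.apply k i]; ring
  rw [e]
  simp only [aw_eq, bf, dotProduct, map_sum, mul_sum, sum_mul, ← sum_sub_distrib, C_mul]
  exact sum_congr rfl fun k _ => by ring

theorem bf_aeval {M : Matrix (Fin n) (Fin n) ℤ} (hM : M.IsSymm) (a : ℤ[X]) (u y : Fin n → ℤ) :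
    ∃ L, bf M (aeval M a *ᵥ u) y = a * bf M u y - M.charpoly * L := by
  induction a using Polynomial.induction_on with
  | C c =>
    refine ⟨0, ?_⟩
    rw [aeval_C, Algebra.algebraMap_eq_smul_one, smul_mulVec, one_mulVec, bf_smul]
    simp
  | add a b ha hb =>
    obtain ⟨L, hL⟩ := ha
    obtain ⟨L', hL'⟩ := hb
    refine ⟨L + L', ?_⟩
    rw [map_add, add_mulVec, bf_add, hL, hL']
    ring
  | monomial k c h =>
    obtain ⟨L, hL⟩ := h
    refine ⟨X * L + C ((aeval M (C c * X ^ k) *ᵥ u) ⬝ᵥ y), ?_⟩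
    rw [show C c * X ^ (k + 1) = X * (C c * X ^ k) by ring, map_mul, aeval_X, ← mulVec_mulVec,
      bf_mulVec hM, hL]
    ring

theorem red_eq_zero {f : ℤ[X]} : red 2 f = 0 ↔ ∃ g, f = 2 * g := by
  have : (∃ g, f = 2 * g) ↔ C (2 : ℤ) ∣ f := Iff.rfl
  rw [this, C_dvd_iff_dvd_coeff, Polynomial.ext_iff]
  refine forall_congr' fun i => ?_
  rw [red, coeff_map, coeff_zero, eq_intCast, ZMod.intCast_zmod_eq_zero_iff_dvd]
  rfl

theorem red_two : red 2 (2 : ℤ[X]) = 0 := red_eq_zero.2 ⟨1, by ring⟩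

theorem half {f g h : ℤ[X]} (hf : f.Monic) (e : f * g = 2 * h) : ∃ g', g = 2 * g' := by
  have := red_eq_zero.2 ⟨h, e⟩
  rw [red, Polynomial.map_mul] at this
  exact red_eq_zero.1 ((mul_eq_zero.1 this).resolve_left (hf.map _).ne_zero)

theorem even_of_dvd (M : Matrix (Fin n) (Fin n) ℤ) (u y : Fin n → ℤ)
    (h : red 2 M.charpoly ∣ red 2 (bf M u y)) : ∃ g, bf M u y = 2 * g := by
  refine red_eq_zero.1 (eq_zero_of_dvd_of_degree_lt h (lt_of_le_of_lt degree_map_le ?_))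
  rw [red, M.charpoly_monic.degree_map, charpoly_degree_eq_dim, Fintype.card_fin]
  exact bf_deg M u y

/-- The translation vector. -/
noncomputable def uv (G : Gr n) (a : ℤ[X]) : Fin n → ℤ := aeval (aM G) (X * a) *ᵥ 1

theorem uv_even (hJac : StJac) (G : Gr n) (a : ℤ[X]) : ∃ g, bf (aM G) (uv G a) 1 = 2 * g := by
  have hM := gm_symm 0 1 G
  have h1 : ∃ g, bf (aM G) (aM G *ᵥ 1) 1 = 2 * g := by
    refine even_of_dvd _ _ _ ?_
    obtain ⟨h, e⟩ := hJac.2.2.1 n G 1
    have e2 : red 2 (ps G) * (red 2 (ph G) - X * red 2 (ps G)) = 0 := by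
      have := congrArg (red 2) e
      have h2 := red_two
      simp only [red, Polynomial.map_mul, Polynomial.map_add, Polynomial.map_pow, map_X] at this h2
      simp only [red]
      linear_combination this + Polynomial.map (Int.castRingHom (ZMod 2)) h * h2
    rw [bf_mulVec hM]
    simp only [red, Polynomial.map_mul, Polynomial.map_sub, map_X] at e2 ⊢
    refine dvd_sub ?_ (dvd_mul_left _ _)
    rcases mul_eq_zero.1 e2 with e3 | e3
    · rw [e3, mul_zero]
      exact dvd_zero _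
    · rw [← sub_eq_zero.1 e3]
  obtain ⟨g, hg⟩ := h1
  obtain ⟨L, hL⟩ := bf_aeval hM a (aM G *ᵥ 1) 1
  rw [uv, mul_comm X, map_mul, aeval_X, ← mulVec_mulVec]
  refine even_of_dvd _ _ _ ?_
  have h2 := red_two
  rw [hL, hg]
  simp only [red, Polynomial.map_mul, Polynomial.map_sub] at h2 ⊢
  rw [h2, zero_mul, mul_zero, zero_sub]
  exact (dvd_mul_right _ _).neg_right

/-- The rows differ by the translation vector modulo two. -/
def Rel (G : Gr n) (s s' : Bv n) (a : ℤ[X]) : Prop :=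
  ∃ v : Fin n → ℤ, sv 0 1 s' = sv 0 1 s + uv G a + (2 : ℤ) • v

theorem yy_rel (hJac : StJac) {G : Gr n} {s s' : Bv n} {a : ℤ[X]} (h : Rel G s s' a) :
    ∃ g, yy G s' = yy G s + 2 * g := by
  obtain ⟨v, hv⟩ := h
  obtain ⟨g, hg⟩ := uv_even hJac G a
  refine ⟨g + bf (aM G) v 1, ?_⟩
  rw [yy, hv, bf_add, bf_add, bf_smul, hg, show (C 2 : ℤ[X]) = 2 from rfl]
  ring

theorem deg_quot {f L g : ℤ[X]} {d : ℕ} (hf : f.Monic) (hd : f.degree = n) (e : f * L = g)
    (hg : g.degree < (n + d : ℕ)) : L.degree < d := by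
  rw [← e, mul_comm, hf.degree_mul, hd, Nat.cast_add, add_comm (n : WithBot ℕ)] at hg
  exact (WithBot.add_lt_add_iff_right (WithBot.coe_ne_bot (a := n))).1 hg

theorem deg_mul {a g : ℤ[X]} {d : ℕ} (ha : a.natDegree ≤ d) (hg : g.degree < n) :
    (a * g).degree < (n + d : ℕ) := by
  refine lt_of_le_of_lt (degree_mul_le _ _) ?_
  rw [Nat.cast_add, add_comm (n : WithBot ℕ)]
  exact lt_of_le_of_lt (add_le_add_left (degree_le_of_natDegree_le ha) _)
    (WithBot.add_lt_add_left (WithBot.coe_ne_bot (a := d)) hg)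

section Point

variable {hp : Nat.Prime 2} {θ : FF ⟨2, hp⟩}

theorem two_zero : aeval θ (2 : ℤ[X]) = 0 := by
  rw [map_ofNat]
  exact CharP.cast_eq_zero (FF ⟨2, hp⟩) 2

theorem e2_half (hPl : StPl) {T : ℤ[X]} (h : E2 ⟨⟨2, hp⟩, θ⟩ (2 * T)) : aeval θ T = 0 := by
  obtain ⟨α, β, e⟩ := Ideal.mem_span_pair.1 h
  obtain ⟨h1, h2, -, -, -, -, h7, -⟩ := hPl ⟨⟨2, hp⟩, θ⟩
  have e4 : (C (((2 : ℕ) : ℤ) ^ 2) : ℤ[X]) = 2 * 2 := by
    rw [sq, C_mul]
    rfl
  simp only [e4] at e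
  obtain ⟨β', rfl⟩ := half (g := β) (h := T - α * 2) h1 (by linear_combination e)
  have e5 : T = α * 2 + β' * lf ⟨⟨2, hp⟩, θ⟩ :=
    mul_left_cancel₀ (two_ne_zero (α := ℤ[X])) (by linear_combination -e)
  rw [e5, map_add, map_mul, map_mul, two_zero, (h7 (lf _)).2 h2.symm.dvd]
  simp

theorem e2_root (hJac : StJac) (hPl : StPl) {G : Gr n} {s : Bv n} (h0 : θ ≠ 0)
    (h : E2 ⟨⟨2, hp⟩, θ⟩ (ph (bord G s))) : aeval θ (ph G + yy G s) = 0 := by
  have h1 : aeval θ (ph (bord G s)) = 0 := e2_half hPl (Ideal.mul_mem_left _ _ h)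
  obtain ⟨g, e⟩ := hJac.2.2.2 n G s
  have := congrArg (aeval θ) e
  rw [map_mul, h1, mul_zero, map_add, map_mul, map_mul, two_zero, zero_mul, add_zero, aeval_X,
    map_pow] at this
  exact pow_eq_zero_iff two_ne_zero |>.1 ((mul_eq_zero.1 this.symm).resolve_left h0)

/-- One translation. -/
theorem one (hJac : StJac) (hPl : StPl) {G : Gr n} {s s' : Bv n} {a : ℤ[X]} (h : Rel G s s' a)
    (h1 : E2 ⟨⟨2, hp⟩, θ⟩ (ph (bord G s))) (h2 : E2 ⟨⟨2, hp⟩, θ⟩ (ph (bord G s'))) :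
    ∃ q L M : ℤ[X], q.degree < n ∧ L.degree < (X * a).natDegree ∧
      2 * q = (X * a) ^ 2 * ps G - ph G * M ∧ aeval θ (q + X * a * yy G s - ph G * L) = 0 := by
  have hM := gm_symm 0 1 G
  obtain ⟨v, hv⟩ := h
  obtain ⟨g, hg⟩ := uv_even hJac G a
  obtain ⟨g', hg'⟩ := hJac.2.2.1 n G (uv G a)
  obtain ⟨q, hq⟩ := half (g := bf (aM G) (uv G a) (uv G a)) (h := 2 * X * g ^ 2 + g')
    (aM G).charpoly_monic (by rw [hg', hg]; ring)
  obtain ⟨L, hL⟩ := bf_aeval hM (X * a) 1 (sv 0 1 s)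
  obtain ⟨L1, hL1⟩ := bf_aeval hM (X * a) 1 (uv G a)
  obtain ⟨L2, hL2⟩ := bf_aeval hM (X * a) 1 1
  rw [bf_comm hM 1] at hL hL1
  change bf (aM G) (uv G a) _ = _ at hL hL1 hL2
  refine ⟨q, L, X * a * L2 + L1, ?_, ?_, ?_, e2_half hPl ?_⟩
  · have := bf_deg (aM G) (uv G a) (uv G a)
    rwa [hq, show (2 : ℤ[X]) = C 2 from rfl, degree_C_mul (by norm_num)] at this
  · refine deg_quot (aM G).charpoly_monic (by rw [charpoly_degree_eq_dim, Fintype.card_fin])
      (g := X * a * yy G s - bf (aM G) (uv G a) (sv 0 1 s)) (by rw [hL]; ring) ?_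
    refine lt_of_le_of_lt (degree_sub_le _ _) (max_lt (deg_mul le_rfl (bf_deg _ _ _)) ?_)
    exact (bf_deg _ _ _).trans_le (by exact_mod_cast Nat.le_add_right _ _)
  · rw [← hq, hL1, hL2]
    ring
  · have e : ∀ y z : Fin n → ℤ, bf (aM G) (y + z) (y + z) =
        bf (aM G) y y + 2 * bf (aM G) z y + bf (aM G) z z := fun y z => by
      rw [bf_add, bf_comm hM y, bf_comm hM z, bf_add, bf_add, bf_comm hM y z]
      ring
    have e2 : 2 * (q + X * a * yy G s - ph G * L) = ph (bord G s) - ph (bord G s') -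
        (bf (aM G) v (sv 0 1 s + uv G a) + bf (aM G) v v) * C (((2 : ℕ) : ℤ) ^ 2) := by
      have e4 : (C (((2 : ℕ) : ℤ) ^ 2) : ℤ[X]) = 4 := by
        rw [sq, C_mul]
        change (2 : ℤ[X]) * 2 = 4
        norm_num
      rw [ph, ph, ph, hJac.1, hJac.1, hv, e, e, bf_smul, bf_smul, bf_comm hM v ((2 : ℤ) • v),
        bf_smul, hq, hL, e4, show (C 2 : ℤ[X]) = 2 from rfl]
      ring
    rw [e2]
    exact Ideal.sub_mem _ (Ideal.sub_mem _ h1 h2)
      (Ideal.mul_mem_left _ _ (Ideal.subset_span (by simp)))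

/-- Two translations of different degrees are impossible. -/
theorem three (hJac : StJac) (hPl : StPl) {G : Gr n} {s s1 s2 : Bv n} {a b : ℤ[X]} (h0 : θ ≠ 0)
    (hφ : aeval θ (ph G) ≠ 0) (ha : a.Monic) (hb : b.Monic) (hab : a.natDegree < b.natDegree)
    (hd : 3 * (b.natDegree + 1) ≤ dg ⟨⟨2, hp⟩, θ⟩) (r1 : Rel G s s1 a) (r2 : Rel G s s2 b)
    (e0 : E2 ⟨⟨2, hp⟩, θ⟩ (ph (bord G s))) (e1 : E2 ⟨⟨2, hp⟩, θ⟩ (ph (bord G s1)))
    (e2 : E2 ⟨⟨2, hp⟩, θ⟩ (ph (bord G s2))) : False := by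
  obtain ⟨q, L, M, hq, hL, hM, h1⟩ := one hJac hPl r1 e0 e1
  obtain ⟨q', L', M', hq', hL', hM', h2⟩ := one hJac hPl r2 e0 e2
  have hX := e2_root hJac hPl h0 e0
  have hA : (X * a).Monic := monic_X.mul ha
  have hB : (X * b).Monic := monic_X.mul hb
  have dA : (X * a).natDegree = a.natDegree + 1 := natDegree_X_mul ha.ne_zero
  have dB : (X * b).natDegree = b.natDegree + 1 := natDegree_X_mul hb.ne_zero
  generalize X * a = A at *
  generalize X * b = B at *
  obtain ⟨H, hH⟩ := half (g := A ^ 2 * M' - B ^ 2 * M) (h := B ^ 2 * q - A ^ 2 * q')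
    (aM G).charpoly_monic (by linear_combination -B ^ 2 * hM + A ^ 2 * hM')
  have eH : ph G * H = B ^ 2 * q - A ^ 2 * q' :=
    mul_left_cancel₀ (two_ne_zero (α := ℤ[X]))
      (by linear_combination -ph G * hH - B ^ 2 * hM + A ^ 2 * hM')
  have dH : H.degree < (2 * B.natDegree : ℕ) :=
    deg_quot (aM G).charpoly_monic (by rw [charpoly_degree_eq_dim, Fintype.card_fin]) eH
      (lt_of_le_of_lt (degree_sub_le _ _) (max_lt (deg_mul natDegree_pow_le hq)
        (deg_mul (natDegree_pow_le.trans (by omega)) hq')))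
  have hroot : aeval θ (B ^ 2 * A + (-(A ^ 2 * B) - H + B ^ 2 * L - A ^ 2 * L')) = 0 := by
    have e3 := congrArg (aeval θ) eH
    simp only [map_add, map_sub, map_mul, map_pow, map_neg] at h1 h2 hX e3 ⊢
    refine mul_left_cancel₀ hφ ?_
    linear_combination -aeval θ B ^ 2 * h1 + aeval θ A ^ 2 * h2 - e3 +
      (aeval θ B ^ 2 * aeval θ A - aeval θ A ^ 2 * aeval θ B) * hX
  have dM : (B ^ 2 * A).degree = (2 * B.natDegree + A.natDegree : ℕ) := by
    rw [degree_eq_natDegree ((hB.pow 2).mul hA).ne_zero, (hB.pow 2).natDegree_mul hA,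
      hB.natDegree_pow]
  have dR : (-(A ^ 2 * B) - H + B ^ 2 * L - A ^ 2 * L').degree < (B ^ 2 * A).degree := by
    rw [dM]
    refine lt_of_le_of_lt (degree_sub_le _ _) (max_lt (lt_of_le_of_lt (degree_add_le _ _)
      (max_lt (lt_of_le_of_lt (degree_sub_le _ _) (max_lt ?_ ?_)) ?_)) ?_)
    · rw [degree_neg, degree_eq_natDegree ((hA.pow 2).mul hB).ne_zero, (hA.pow 2).natDegree_mul hB,
        hA.natDegree_pow]
      exact_mod_cast (by omega)
    · exact dH.trans_le (by exact_mod_cast (by omega))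
    · exact (deg_mul natDegree_pow_le hL).trans_le (by exact_mod_cast (by omega))
    · exact (deg_mul natDegree_pow_le hL').trans_le (by exact_mod_cast (by omega))
  have hmon := ((hB.pow 2).mul hA).add_of_left dR
  obtain ⟨-, -, -, -, -, -, h7, -⟩ := hPl ⟨⟨2, hp⟩, θ⟩
  have := natDegree_le_of_dvd ((h7 _).1 hroot) (hmon.map _).ne_zero
  rw [red, hmon.natDegree_map, natDegree_add_eq_left_of_degree_lt dR,
    natDegree_eq_of_degree_eq_some dM] at this
  change dg _ ≤ _ at this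
  omega

end Point

theorem coeff_pb {r : ℕ} (b : Bv r) (k : ℕ) :
    (pb b).coeff k = if h : k < r then (if b ⟨k, h⟩ = true then 1 else 0) else 0 := by
  rw [pb, finsetSum_coeff]
  split_ifs with h h'
  · rw [Finset.sum_eq_single ⟨k, h⟩ (fun i _ hi => by
      split_ifs
      · rw [coeff_X_pow, if_neg fun e => hi (Fin.ext e.symm)]
      · simp) (by simp)]
    simp [h']
  · refine Finset.sum_eq_zero fun i _ => ?_
    split_ifs with h2
    · rw [coeff_X_pow, if_neg]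
      rintro rfl
      exact h' h2
    · simp
  · refine Finset.sum_eq_zero fun i _ => ?_
    split_ifs
    · rw [coeff_X_pow, if_neg]
      rintro rfl
      exact h i.isLt
    · simp

/-- Sum of two bit vectors. -/
def xo {r : ℕ} (b c : Bv r) : Bv r := fun i => xor (b i) (c i)

theorem pb_xo {r : ℕ} {b c : Bv r} (h : b ≠ c) :
    (pb (xo b c)).Monic ∧ (pb (xo b c)).natDegree < r := by
  obtain ⟨i, hi⟩ := Function.ne_iff.1 h
  have h0 : pb (xo b c) ≠ 0 := fun e => by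
    have := coeff_pb (xo b c) i
    rw [e, dif_pos i.isLt, if_pos (by simpa [xo] using hi)] at this
    simp at this
  have h1 := coeff_pb (xo b c) (pb (xo b c)).natDegree
  have h2 : (pb (xo b c)).coeff (pb (xo b c)).natDegree ≠ 0 := leadingCoeff_ne_zero.2 h0
  split_ifs at h1 with h3 h4
  · exact ⟨h1, h3⟩
  · exact absurd h1 h2
  · exact absurd h1 h2

theorem pb_add {r : ℕ} (b c : Bv r) : ∃ g, pb c = pb b + pb (xo b c) + 2 * g := by
  refine ⟨-∑ i, if b i = true ∧ c i = false then X ^ i.val else 0, ?_⟩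
  simp only [pb, mul_neg, mul_sum, ← sum_add_distrib, ← sub_eq_add_neg, ← sum_sub_distrib]
  refine sum_congr rfl fun i _ => ?_
  cases hb : b i <;> cases hc : c i <;> simp [xo, hb, hc]
  ring

theorem not_all {r : ℕ} {b c d : Bv r} (h1 : b ≠ c) (h2 : b ≠ d) (h3 : c ≠ d)
    (e1 : (pb (xo b c)).natDegree = (pb (xo b d)).natDegree)
    (e2 : (pb (xo b c)).natDegree = (pb (xo c d)).natDegree) : False := by
  obtain ⟨m1, l1⟩ := pb_xo h1
  have a1 := coeff_pb (xo b c) (pb (xo b c)).natDegree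
  have a2 := coeff_pb (xo b d) (pb (xo b c)).natDegree
  have a3 := coeff_pb (xo c d) (pb (xo b c)).natDegree
  rw [dif_pos l1] at a1 a2 a3
  rw [m1.coeff_natDegree] at a1
  rw [(e1 ▸ (pb_xo h2).1.coeff_natDegree :)] at a2
  rw [(e2 ▸ (pb_xo h3).1.coeff_natDegree :)] at a3
  generalize (⟨(pb (xo b c)).natDegree, l1⟩ : Fin r) = i at a1 a2 a3
  cases hb : b i <;> cases hc : c i <;> cases hd : d i <;> simp [xo, hb, hc, hd] at a1 a2 a3

/-- The translated row. -/
noncomputable def tr (G : Gr n) (a : ℤ[X]) (s : Bv n) : Bv n :=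
  fun i => xor (s i) (decide (Odd (uv G a i)))

theorem tr_tr (G : Gr n) (a : ℤ[X]) : Function.Involutive (tr G a) := fun s => by
  funext i
  simp [tr]

theorem rel_tr (G : Gr n) (a : ℤ[X]) (s : Bv n) : Rel G s (tr G a s) a := by
  have : ∀ i, ∃ v : ℤ, sv 0 1 (tr G a s) i = sv 0 1 s i + uv G a i + 2 * v := fun i => by
    rcases Int.even_or_odd' (uv G a i) with ⟨k, hk | hk⟩
    · exact ⟨-k, by cases hs : s i <;> simp [sv, tr, hk, hs]⟩
    · cases hs : s i
      · exact ⟨-k, by simp [sv, tr, hk, hs]⟩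
      · exact ⟨-k - 1, by simp [sv, tr, hk, hs]; ring⟩
  choose v hv using this
  exact ⟨v, funext hv⟩

theorem rel_xo (G : Gr n) {r : ℕ} (b c : Bv r) (s : Bv n) :
    Rel G (tr G (pb b) s) (tr G (pb c) s) (pb (xo b c)) := by
  obtain ⟨v, hv⟩ := rel_tr G (pb b) s
  obtain ⟨v', hv'⟩ := rel_tr G (pb c) s
  obtain ⟨g, hg⟩ := pb_add b c
  have e : uv G (pb c) = uv G (pb b) + uv G (pb (xo b c)) + (2 : ℤ) • uv G g := by
    simp only [uv]
    rw [hg, two_mul, two_smul]
    simp only [mul_add, map_add, add_mulVec]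
  refine ⟨uv G g + v' - v, ?_⟩
  rw [hv, hv', e]
  module

end T3Aux

open T3Aux in
theorem pT3 (hJac : StJac) (hPl : StPl) : StT3 := by
  classical
  rintro n G ⟨⟨p, hp⟩, θ⟩ h2 h0 hφ
  obtain rfl : p = 2 := h2
  set r := dg ⟨⟨2, hp⟩, θ⟩ / 3 with hr
  have h1 : pr (fun s : Bv n => E2 ⟨⟨2, hp⟩, θ⟩ (ph (bord G s))) = ex fun b : Bv r =>
      pr fun s : Bv n => E2 ⟨⟨2, hp⟩, θ⟩ (ph (bord G (tr G (pb b) s))) := by
    rw [← ex_const (Ω := Bv r) (pr _)]
    exact congrArg ex (funext fun b =>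
      (pr_equiv (tr_tr G (pb b)).toPerm fun s => E2 ⟨⟨2, hp⟩, θ⟩ (ph (bord G s))).symm)
  rw [h1, ← pr_prod (fun ω : Bv r × Bv n =>
    E2 ⟨⟨2, hp⟩, θ⟩ (ph (bord G (tr G (pb ω.1) ω.2)))), pr_prod', pr, ← ex_mul]
  refine ex_mono fun s => ?_
  split_ifs with hX
  · have hc : (univ.filter fun b : Bv r =>
        E2 ⟨⟨2, hp⟩, θ⟩ (ph (bord G (tr G (pb b) s)))).card ≤ 2 := by
      by_contra hc
      obtain ⟨b, c, d, hb, hc, hd, n1, n2, n3⟩ := Finset.two_lt_card_iff.1 (not_le.1 hc)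
      replace hb := (mem_filter.1 hb).2
      replace hc := (mem_filter.1 hc).2
      replace hd := (mem_filter.1 hd).2
      have key : ∀ b c d : Bv r, b ≠ c → b ≠ d →
          E2 ⟨⟨2, hp⟩, θ⟩ (ph (bord G (tr G (pb b) s))) →
          E2 ⟨⟨2, hp⟩, θ⟩ (ph (bord G (tr G (pb c) s))) →
          E2 ⟨⟨2, hp⟩, θ⟩ (ph (bord G (tr G (pb d) s))) →
          (pb (xo b d)).natDegree ≤ (pb (xo b c)).natDegree := fun b c d m1 m2 e1 e2 e3 => by
        by_contra hlt
        have := (pb_xo m2).2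
        exact three (θ := θ) hJac hPl h0 hφ (pb_xo m1).1 (pb_xo m2).1 (not_le.1 hlt) (by omega)
          (rel_xo G b c s) (rel_xo G b d s) e1 e2 e3
      have sy : xo c b = xo b c := funext fun i => Bool.xor_comm _ _
      have k1 := key b c d n1 n2 hb hc hd
      have k2 := key b d c n2 n1 hb hd hc
      have k3 := key c b d n1.symm n3 hc hb hd
      have k4 := key c d b n3 n1.symm hc hd hb
      rw [sy] at k3 k4
      exact not_all n1 n2 n3 (by omega) (by omega)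
    rw [pr_eq_card, mul_one, Fintype.card_fun, Fintype.card_bool, Fintype.card_fin, one_div,
      inv_pow, ← div_eq_mul_inv]
    push_cast
    refine div_le_div_of_nonneg_right ?_ (by positivity)
    exact_mod_cast (by convert hc)
  · rw [mul_zero, pr_false fun b hb => hX ?_]
    obtain ⟨g, hg⟩ := yy_rel hJac (rel_tr G (pb b) s)
    have := e2_root hJac hPl h0 hb
    rw [hg, ← add_assoc, map_add, map_mul, two_zero, zero_mul, add_zero] at this
    exact this

end Pool.Agent.P.MP_f57657_co.DG
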