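import Pool.Agent.P.MP_f57657_co.DG.Base

/-! The first half of the step of the chain at a small point. -/

open Matrix Finset Polynomial

namespace Pool.Agent.P.MP_f57657_co.DG

namespace VaAux

theorem key (hFI : StFI) {R : Type} [CommRing R] [Fintype R] (ev : ℤ[X] →+* R) {η ρ : ℝ}
    (hη : 0 ≤ η) {n : ℕ} {G : Gr n} (hG : LIN ev η G) {T : Type} [Fintype T] [Nonempty T]
    (a : T → ℤ[X]) (Bd : ℤ[X] → Prop)
    (ha : ∀ ψ : AddChar R ℂ, (∀ i, ψ (ev (aw (aM G) 1 i)) = 1) → ∀ t, ψ (ev (a t)) = 1)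
    (h : ∀ z : R, pr (fun t => ∃ z', ev z' = z + ev (a t) ∧ Bd z') ≤ ρ) :
    pr (fun s : Bv n => Bd (yy G s)) ≤ ρ + 2 * (Fintype.card R : ℝ) * η := by
  have h1 := hFI (Bv n) R T (fun s => ev (yy G s)) (fun t => ev (a t))
    (fun z => ∃ z', ev z' = z ∧ Bd z') η ρ hη (fun ψ hψ => hG ψ ?_) h
  · exact (pr_mono fun s hs => ⟨_, rfl, hs⟩).trans h1
  · by_contra hc
    obtain ⟨t, ht⟩ := hψ
    exact ht (ha ψ (fun i => by_contra fun hi => hc ⟨i, hi⟩) t)

theorem char_ps {R : Type} [CommRing R] (ev : ℤ[X] →+* R) {n : ℕ} (G : Gr n) (ψ : AddChar R ℂ)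
    (h : ∀ i, ψ (ev (aw (aM G) 1 i)) = 1) (t : ℕ) : ψ (ev (C (t : ℤ) * ps G)) = 1 := by
  have h1 : ∀ T : Finset (Fin n), ψ (∑ i ∈ T, ev (aw (aM G) 1 i)) = 1 := by
    intro T
    induction T using Finset.induction_on with
    | empty => simp
    | insert i T hi ih => rw [sum_insert hi, AddChar.map_add_eq_mul, h, ih, one_mul]
  have h2 : ev (C (t : ℤ) * ps G) = t • ∑ i, ev (aw (aM G) 1 i) := by
    rw [ps_eq, map_mul, map_sum, nsmul_eq_mul, map_natCast, map_natCast]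
  rw [h2, AddChar.map_nsmul_eq_pow, h1, one_pow]

end VaAux

open VaAux in
theorem pVa (hFI : StFI) (hLin : StLin) (hMu : StMu) (hKap : StKap) (hRing : StRing)
    (hInv : StInv) (hPV : StPV) : StVa := by
  intro x r c ε hε
  obtain ⟨N0, hLin⟩ := hLin
  obtain ⟨N1, hMu⟩ := hMu
  have hp2 : (2 : ℝ) ≤ x.1.1 := by exact_mod_cast x.1.2.two_le
  obtain ⟨k, hk⟩ := exists_pow_lt_of_lt_one (show 0 < ε / 4 by positivity)
    (show (1 / 2 : ℝ) < 1 by norm_num)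
  obtain ⟨m, hm⟩ := pow_unbounded_of_one_lt (((r * dg x : ℕ) : ℝ) / (ε / 4))
    (show (1 : ℝ) < x.1.1 by linarith)
  have hm' : ((r * dg x : ℕ) : ℝ) / (x.1.1 : ℝ) ^ (m + 1) ≤ ε / 4 := by
    rw [div_lt_iff₀ (by positivity)] at hm
    rw [div_le_iff₀ (by positivity), pow_succ]
    have : 0 < (x.1.1 : ℝ) ^ m * (ε / 4) := by positivity
    nlinarith
  set c2 := (r * dg x + 1) * (r * dg x) * (c + m) with hc2
  set L := r * (c2 + 1) + (c2 + 1) + (r + k) with hL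
  have hL1 : r * (c2 + 1) ≤ L := by omega
  have hL2 : c2 + 1 ≤ L := by omega
  obtain ⟨R, _, _, ev, hLev, hker⟩ := (hRing x).2 L
  obtain ⟨M1, hM1⟩ := exists_pow_lt_of_lt_one (show 0 < ε / 12 by positivity)
    (show (1 / 2 : ℝ) < 1 by norm_num)
  set M := N0 + N1 + Fintype.card R + x.1.1 ^ (L * dg x) + M1 with hM
  have hM2 : M ≤ 2 ^ M := Nat.lt_two_pow_self.le
  have hM3 : (1 / 2 : ℝ) ^ M ≤ ε / 12 :=
    (pow_le_pow_of_le_one (by norm_num) (by norm_num) (by omega)).trans hM1.le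
  have hcard : Fintype.card R ≤ 2 ^ M := by omega
  have hη : 2 * (Fintype.card R : ℝ) * (1 / 2) ^ (3 * M) ≤ 2 * (1 / 2) ^ M := by
    have h1 : (Fintype.card R : ℝ) ≤ 2 ^ M := by exact_mod_cast hcard
    have h2 : (2 : ℝ) ^ M * (1 / 2) ^ (2 * M) = (1 / 2) ^ M := by
      rw [mul_comm 2 M, pow_mul, one_div, inv_pow]
      field_simp
    have h3 : (1 / 2 : ℝ) ^ (3 * M) ≤ (1 / 2) ^ (2 * M) :=
      pow_le_pow_of_le_one (by norm_num) (by norm_num) (by omega)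
    rw [← h2, mul_assoc]
    gcongr
  refine ⟨r + k, c2, M ^ 3, fun n hn => ?_⟩
  have h0 := hLin R ev n M (by omega) hn hcard
  have h0' := hMu x.1 (L * dg x) n M (by omega) hn (by omega)
  have h1 : pr (fun G : Gr n => ¬ (LIN ev ((1 / 2) ^ (3 * M)) G ∧ Mu x.1.1 (L * dg x) G)) ≤
      (1 / 2) ^ M + (1 / 2) ^ M :=
    (pr_le_add fun G hG => not_and_or.1 hG).trans (add_le_add h0 h0')
  refine (pr_prod_le' (fun G : Gr n => LIN ev ((1 / 2) ^ (3 * M)) G ∧ Mu x.1.1 (L * dg x) G)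
    (c := ε / 4 + 2 * (1 / 2) ^ M + (ε / 4 + 2 * (1 / 2) ^ M)) (by positivity)
    fun G hG => ?_).trans (by linarith)
  by_cases hS : St x r c G
  swap
  · rw [pr_false]
    · positivity
    · exact fun s hs => hS hs.1
  have : Nonempty (Fin (x.1.1 ^ (m + 1))) := ⟨⟨0, pow_pos x.1.2.pos _⟩⟩
  have a1 := key hFI ev (by positivity) hG.1 (T := Fin (x.1.1 ^ (m + 1))) (ρ := ε / 4)
    (fun τ => C ((τ.val : ℕ) : ℤ) * ps G) (fun y => ¬ Cop x c2 (ph G) y)
    (fun ψ hψ τ => char_ps ev G ψ hψ τ.val) fun z => by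
      obtain ⟨z0, e0⟩ := hLev.1 z
      refine le_trans (pr_mono ?_)
        ((hPV x r c m L (ph G) (ps G) z0 hS.1 hS.2 hL1 hL2).trans hm')
      rintro τ ⟨z', e1, b1⟩
      refine ⟨z', (hker _).1 ?_, b1⟩
      rw [map_sub, map_add, e0, e1, sub_self]
  have a2 := key hFI ev (by positivity) hG.1 (T := Bv k) (ρ := ε / 4)
    (fun b => ph G * pb b) (fun y => ¬ Ord x (r + k) (ph G + y))
    (fun ψ hψ b => by
      by_contra hb
      obtain ⟨κ, k0, k1, k2⟩ := hKap R x.1 (L * dg x) ev n (aM G) 1 ψ hLev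
        ⟨ev (pb b), by rwa [← map_mul]⟩ hψ
      refine hG.2 κ k0 k1 ?_
      rw [← k2]
      congr 1
      funext i
      simp)
    fun z => by
      obtain ⟨z0, e0⟩ := hLev.1 z
      refine le_trans (pr_mono ?_)
        (((hInv x).2.2 r k L (ph G) (ph G + z0) hS.1 (by omega)).trans hk.le)
      rintro b ⟨z', e1, b1⟩
      refine ⟨ph G + z', (hker _).1 ?_, b1⟩
      rw [map_sub, map_add, map_add, map_add, e0, e1]
      ring
  refine (pr_le_add fun s hs => ?_).trans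
    (add_le_add (a1.trans (add_le_add le_rfl hη)) (a2.trans (add_le_add le_rfl hη)))
  exact not_and_or.1 hs.2

end Pool.Agent.P.MP_f57657_co.DG
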