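import Pool.Agent.P.MP_f57657_co.DG.Base

/-! The second half of the step of the chain at a small point. -/

open Matrix Finset Polynomial

namespace Pool.Agent.P.MP_f57657_co.DG

namespace VcAux

theorem not_dvd {A : Type} [CommRing A] [IsDomain A] {p g : A} (hp : Prime p) (hg : ¬ p ^ 2 ∣ g) :
    ∀ (r : ℕ) (f : A), ¬ p ^ r ∣ f → ¬ p ^ (2 * r) ∣ g * f ^ 2 := by
  intro r
  induction r with
  | zero => intro f h; simp at h
  | succ r ih =>
    intro f h h1
    by_cases hf : p ∣ f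
    · obtain ⟨f', rfl⟩ := hf
      refine ih f' (fun h2 => h ?_) ?_
      · rw [pow_succ']; exact mul_dvd_mul_left p h2
      · rw [show p ^ (2 * (r + 1)) = p ^ 2 * p ^ (2 * r) by ring,
          show g * (p * f') ^ 2 = p ^ 2 * (g * f' ^ 2) by ring] at h1
        exact (mul_dvd_mul_iff_left (pow_ne_zero 2 hp.ne_zero)).1 h1
    · exact hg ((pow_dvd_pow p (by omega)).trans
        (hp.pow_dvd_of_dvd_mul_right _ (fun h2 => hf (hp.dvd_of_dvd_pow h2)) h1))

theorem two_ne (p : Nat.Primes) (h : p.1 ≠ 2) : (2 : ZMod p.1) ≠ 0 := by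
  intro h2
  have h3 : ((2 : ℕ) : ZMod p.1) = 0 := by exact_mod_cast h2
  rw [ZMod.natCast_eq_zero_iff] at h3
  exact h ((Nat.prime_dvd_prime_iff_eq p.2 Nat.prime_two).1 h3)

theorem ord_two {x : Pt} (h : x.1.1 ≠ 2) {r : ℕ} {f : ℤ[X]} (hf : Ord x r f) :
    Ord x r (2 * f) := by
  intro h1
  apply hf
  have h2 : red x.1.1 (2 * f) = C (2 : ZMod x.1.1) * red x.1.1 f := by
    simp only [red, Polynomial.map_mul, Polynomial.map_ofNat]
    rfl
  rw [h2] at h1
  exact (IsUnit.dvd_mul_left (isUnit_C.2 (two_ne x.1 h).isUnit)).1 h1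

theorem cop_two {x : Pt} {c : ℕ} {f y : ℤ[X]} (h : Cop x c f y) :
    Cop x (c + 1) (f + y) (2 * f) := by
  obtain ⟨u, a, b, hu, e⟩ := h
  by_cases hp : x.1.1 = 2
  · refine ⟨u, 2 * b, a - b, hu, ?_⟩
    have h2 : (C (x.1.1 : ℤ) : ℤ[X]) = 2 := by rw [hp]; rfl
    rw [pow_succ, C_mul, h2]
    linear_combination 2 * e
  · refine Cop.mono (c := c) ⟨2 * u, 2 * b, a - b, ?_, by linear_combination 2 * e⟩ (Nat.le_succ c)
    rw [map_mul, map_ofNat]
    refine mul_ne_zero ?_ hu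
    have := (map_ne_zero (algebraMap (ZMod x.1.1) (FF x.1))).2 (two_ne x.1 hp)
    rwa [map_ofNat] at this

theorem ord_even (hJac : StJac) (hPl : StPl) {x : Pt} (hp : x.1.1 = 2) {n r2 : ℕ} (G : Gr n)
    (s : Bv n) (h : Ord x r2 (ph G + yy G s)) : Ord x (2 * r2) (ph (bord G s)) := by
  intro h1
  obtain ⟨k, hk⟩ := hJac.2.2.2 n G s
  have hirr := (hPl x).2.2.2.2.1
  refine not_dvd (g := X) hirr.prime (fun h2 => ?_) r2 _ h ?_
  · rw [pow_two] at h2
    exact hirr.not_isUnit (irreducible_X.squarefree _ h2)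
  · have h2 := congrArg (red x.1.1) hk
    have h3 : (2 : (ZMod x.1.1)[X]) = 0 := by
      have h4 : ((2 : ℕ) : ZMod x.1.1) = 0 := by rw [ZMod.natCast_eq_zero_iff, hp]
      have : (2 : (ZMod x.1.1)[X]) = C ((2 : ℕ) : ZMod x.1.1) := by
        rw [map_natCast, Nat.cast_ofNat]
      rw [this, h4, C_0]
    have h5 : red x.1.1 (ph G) * red x.1.1 (ph (bord G s)) =
        X * red x.1.1 (ph G + yy G s) ^ 2 := by
      simp only [red, Polynomial.map_mul, Polynomial.map_add, Polynomial.map_pow, map_X,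
        Polynomial.map_ofNat, h3, zero_mul, add_zero] at h2 ⊢
      exact h2
    rw [← h5]
    exact h1.mul_left _

theorem key (hFI : StFI) {R : Type} [CommRing R] [Fintype R] (ev : ℤ[X] →+* R) {η ρ : ℝ}
    (hη : 0 ≤ η) {n : ℕ} {G : Gr n} (hG : EQ 0 1 ev η G) {T : Type} [Fintype T] [Nonempty T]
    (a : T → ℤ[X]) (Bd : ℤ[X] → ℤ[X] → Prop)
    (h : ∀ y w : R, pr (fun t => ∃ y' w', ev y' = y ∧ ev w' = w - ev (2 * ph G * a t) ∧
      Bd y' w') ≤ ρ) :
    pr (fun s : Bv n => Bd (yy G s) (bf (aM G) (sv 0 1 s) (sv 0 1 s))) ≤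
      ρ + 2 * (Fintype.card R : ℝ) ^ 2 * η := by
  have h1 := hFI (Bv n) (R × R) T
    (fun s => (ev (yy G s), ev (bf (aM G) (sv 0 1 s) (sv 0 1 s))))
    (fun t => (0, -ev (2 * ph G * a t)))
    (fun z => ∃ y' w', ev y' = z.1 ∧ ev w' = z.2 ∧ Bd y' w') η ρ hη (fun ψ hψ => ?_)
    (fun z => by simpa only [Prod.fst_add, Prod.snd_add, add_zero, ← sub_eq_add_neg] using h z.1 z.2)
  · rw [Fintype.card_prod, Nat.cast_mul, ← pow_two] at h1
    exact (pr_mono fun s hs => ⟨_, _, rfl, rfl, hs⟩).trans h1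
  · obtain ⟨t, ht⟩ := hψ
    have h2 := hG (ψ.compAddMonoidHom (AddMonoidHom.inr R R)) ⟨-ev (a t), fun e => ht ?_⟩
      (fun i => ψ.compAddMonoidHom (AddMonoidHom.inl R R) (ev (aw (aM G) 1 i)))
      fun i => AddChar.norm_apply _ _
    · refine le_of_eq_of_le (congrArg (fun F => ‖exc F‖) (funext fun s => ?_)) h2
      rw [← char_sum, ← ev_yy, AddChar.compAddMonoidHom_apply, AddChar.compAddMonoidHom_apply,
        ← AddChar.map_add_eq_mul]
      simp
    · rw [← e, AddChar.compAddMonoidHom_apply]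
      simp [map_ofNat]

end VcAux

open VcAux in
theorem pVc (hFI : StFI) (hEQ : StEQ) (hRing : StRing) (hInv : StInv) (hPV : StPV)
    (hJac : StJac) (hPl : StPl) : StVc := by
  intro x r r2 c2 ε hε
  obtain ⟨N0, hEQ⟩ := hEQ
  have hp2 : (2 : ℝ) ≤ x.1.1 := by exact_mod_cast x.1.2.two_le
  obtain ⟨k, hk⟩ := exists_pow_lt_of_lt_one (show 0 < ε / 4 by positivity)
    (show (1 / 2 : ℝ) < 1 by norm_num)
  obtain ⟨m, hm⟩ := pow_unbounded_of_one_lt (((r2 * dg x : ℕ) : ℝ) / (ε / 4))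
    (show (1 : ℝ) < x.1.1 by linarith)
  have hm' : ((r2 * dg x : ℕ) : ℝ) / (x.1.1 : ℝ) ^ (m + 1) ≤ ε / 4 := by
    rw [div_lt_iff₀ (by positivity)] at hm
    rw [div_le_iff₀ (by positivity), pow_succ]
    have : 0 < (x.1.1 : ℝ) ^ m * (ε / 4) := by positivity
    nlinarith
  set c3 := (r2 * dg x + 1) * (r2 * dg x) * (c2 + 1 + m) with hc3
  set L := r2 * (c3 + 1) + (c3 + 1) + (r + k) with hL
  have hL1 : r2 * (c3 + 1) ≤ L := by omega
  have hL2 : c3 + 1 ≤ L := by omega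
  obtain ⟨R, _, _, ev, hLev, hker⟩ := (hRing x).2 L
  obtain ⟨M1, hM1⟩ := exists_pow_lt_of_lt_one (show 0 < ε / 10 by positivity)
    (show (1 / 2 : ℝ) < 1 by norm_num)
  set M := N0 + Fintype.card R + x.1.1 ^ (L * dg x) + M1 with hM
  have hM2 : M ≤ 2 ^ M := Nat.lt_two_pow_self.le
  have hM3 : (1 / 2 : ℝ) ^ M ≤ ε / 10 :=
    (pow_le_pow_of_le_one (by norm_num) (by norm_num) (by omega)).trans hM1.le
  have hcard : Fintype.card R ≤ 2 ^ M := by omega
  have hη : 2 * (Fintype.card R : ℝ) ^ 2 * (1 / 2) ^ (3 * M) ≤ 2 * (1 / 2) ^ M := by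
    have h1 : (Fintype.card R : ℝ) ≤ 2 ^ M := by exact_mod_cast hcard
    have h2 : ((2 : ℝ) ^ M) ^ 2 * (1 / 2) ^ (3 * M) = (1 / 2) ^ M := by
      rw [mul_comm 3 M, pow_mul, one_div, inv_pow]
      field_simp
    rw [← h2, mul_assoc]
    gcongr
  refine ⟨2 * r2 + (r + k), c3, M ^ 3, fun n hn => ?_⟩
  have h0 := hEQ 0 1 R x.1 (L * dg x) ev n M (by omega) hn (by
    rw [sub_zero]
    intro h
    have := Int.le_of_dvd one_pos h
    have := x.1.2.two_le
    omega) hLev hcard (by omega)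
  refine (pr_prod_le' (fun G : Gr n => EQ 0 1 ev ((1 / 2) ^ (3 * M)) G)
    (c := ε / 4 + 2 * (1 / 2) ^ M + (ε / 4 + 2 * (1 / 2) ^ M)) (by positivity)
    fun G hG => ?_).trans (by linarith)
  have hb : ∀ s : Bv n, ph (bord G s) = X * ph G - bf (aM G) (sv 0 1 s) (sv 0 1 s) :=
    fun s => hJac.1 0 1 n G s
  have : Nonempty (Fin (x.1.1 ^ (m + 1))) := ⟨⟨0, pow_pos x.1.2.pos _⟩⟩
  have a1 := key hFI ev (by positivity) hG (T := Fin (x.1.1 ^ (m + 1))) (ρ := ε / 4)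
    (fun τ => C ((τ.val : ℕ) : ℤ))
    (fun y w => Cop x c2 (ph G) y ∧ Ord x r2 (ph G + y) ∧ ¬ Cop x c3 (ph G + y) (X * ph G - w))
    fun y w => by
      by_cases hex : ∃ y0, ev y0 = y ∧ Cop x c2 (ph G) y0 ∧ Ord x r2 (ph G + y0)
      · obtain ⟨y0, e0, b1, b2⟩ := hex
        obtain ⟨w0, e1⟩ := hLev.1 w
        refine le_trans (pr_mono ?_) ((hPV x r2 (c2 + 1) m L (ph G + y0) (2 * ph G)
          (X * ph G - w0) b2 (cop_two b1) hL1 hL2).trans hm')
        rintro τ ⟨y', w', e2, e3, -, b3, b4⟩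
        refine ⟨X * ph G - w', (hker _).1 ?_, fun ⟨u, a, b, hu, e⟩ => b4 ?_⟩
        · simp only [map_sub, map_add, map_mul, e1, e3]
          ring
        · refine (hInv x).1 r2 c3 L _ _ u a b b3 hL1 hL2 hu ((hker _).1 ?_)
          rw [e]
          simp only [map_sub, map_add, map_mul, e0, e2]
          ring
      · rw [pr_false]
        · positivity
        · rintro τ ⟨y', w', e2, -, b1, b2, -⟩
          exact hex ⟨y', e2, b1, b2⟩
  have a2 : pr (fun s : Bv n => Ord x r (ph G) ∧ Ord x r2 (ph G + yy G s) ∧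
      ¬ Ord x (2 * r2 + (r + k)) (ph (bord G s))) ≤ ε / 4 + 2 * (1 / 2) ^ M := by
    by_cases hp : x.1.1 = 2
    · rw [pr_false]
      · positivity
      · exact fun s hs => hs.2.2 ((ord_even hJac hPl hp G s hs.2.1).mono (by omega))
    by_cases ho : Ord x r (ph G)
    swap
    · rw [pr_false]
      · positivity
      · exact fun s hs => ho hs.1
    have a3 := key hFI ev (by positivity) hG (T := Bv k) (ρ := ε / 4) (fun b => pb b)
      (fun _ w => ¬ Ord x (r + k) (X * ph G - w)) fun y w => by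
        obtain ⟨w0, e1⟩ := hLev.1 w
        refine le_trans (pr_mono ?_) (((hInv x).2.2 r k L (2 * ph G) (X * ph G - w0)
          (ord_two hp ho) (by omega)).trans hk.le)
        rintro b ⟨y', w', -, e3, b4⟩
        refine ⟨X * ph G - w', (hker _).1 ?_, b4⟩
        simp only [map_sub, map_add, map_mul, e1, e3]
        ring
    refine le_trans ?_ (a3.trans (add_le_add le_rfl hη))
    refine pr_mono fun s hs => ?_
    intro h
    apply hs.2.2
    rw [hb]
    exact h.mono (by omega)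
  refine (pr_le_add fun s hs => ?_).trans (add_le_add (a1.trans (add_le_add le_rfl hη)) a2)
  by_cases h : Cop x c3 (ph G + yy G s) (ph (bord G s))
  · exact Or.inr ⟨hs.1, hs.2.2.1, fun h' => hs.2.2.2 ⟨h', h⟩⟩
  · exact Or.inl ⟨hs.2.1, hs.2.2.1, by rwa [← hb]⟩

end Pool.Agent.P.MP_f57657_co.DG
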