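import Pool.Agent.P.MP_f57657_co.DG.Base

/-! The lazy walk in a finite abelian group. -/

open Finset

namespace Pool.Agent.P.MP_f57657_co.DG

namespace WalkAux

variable {Γ : Type} [AddCommGroup Γ]

/-- Fourier inversion. -/
theorem pr_fourier [Fintype Γ] {Ω : Type} [Fintype Ω] (Z : Ω → Γ) (c : Γ) :
    ((pr fun ω => Z ω = c : ℝ) : ℂ) =
      (∑ ψ : AddChar Γ ℂ, ψ (-c) * exc fun ω => ψ (Z ω)) / Fintype.card Γ := by
  classical
  have h0 : (Fintype.card Γ : ℂ) ≠ 0 := Nat.cast_ne_zero.2 Fintype.card_ne_zero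
  simp only [pr, ex, exc, mul_div_assoc', ← sum_div, mul_sum]
  rw [sum_comm, div_right_comm]
  push_cast
  congr 1
  rw [sum_div]
  refine sum_congr rfl fun ω _ => ?_
  simp only [← AddChar.map_add_eq_mul]
  rw [AddChar.sum_apply_eq_ite]
  by_cases h : Z ω = c
  · simp [h]
  · rw [if_neg h, if_neg fun e => h (by rw [neg_add_eq_zero] at e; exact e.symm)]
    simp

theorem map_sum' (ψ : AddChar Γ ℂ) {ι : Type} (T : Finset ι) (f : ι → Γ) :
    ψ (∑ i ∈ T, f i) = ∏ i ∈ T, ψ (f i) := by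
  classical
  induction T using Finset.induction_on with
  | empty => simp
  | insert a T ha ih => rw [sum_insert ha, prod_insert ha, AddChar.map_add_eq_mul, ih]

theorem exc_pi (ψ : AddChar Γ ℂ) {A : Type} [Fintype A] [Nonempty A] {n : ℕ} (J : Finset (Fin n))
    (f : Fin n → A → Γ) :
    (exc fun e : Fin n → A => ψ (∑ j ∈ J, f j (e j))) = ∏ j ∈ J, exc fun a => ψ (f j a) := by
  classical
  have h0 : (Fintype.card A : ℂ) ≠ 0 := Nat.cast_ne_zero.2 Fintype.card_ne_zero
  have h1 : ∀ e : Fin n → A, ψ (∑ j ∈ J, f j (e j)) =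
      ∏ j, if j ∈ J then ψ (f j (e j)) else 1 := fun e => by
    rw [map_sum', prod_ite_mem, univ_inter]
  have h2 : (∏ j ∈ J, exc fun a => ψ (f j a)) =
      ∏ j, (∑ a, if j ∈ J then ψ (f j a) else 1) / (Fintype.card A : ℂ) := by
    rw [← univ_inter J, ← prod_ite_mem]
    refine prod_congr rfl fun j _ => ?_
    by_cases h : j ∈ J
    · simp [h, exc]
    · simp [h]
  simp only [h1]
  rw [h2, exc, prod_div_distrib, prod_const, card_univ, Fintype.card_fin, prod_univ_sum,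
    Fintype.piFinset_univ]
  simp

theorem exc_stp [Fintype Γ] (ψ : AddChar Γ ℂ) (x : Γ) :
    (exc fun a : Fin 8 => ψ (stp a • x)) = (((3 + (ψ x).re) / 4 : ℝ) : ℂ) := by
  have h := Complex.add_conj (ψ x)
  simp only [exc, Fin.sum_univ_eight, stp]
  simp only [Fintype.card_fin]
  norm_num [Fin.ext_iff]
  rw [AddChar.map_neg_eq_conj]
  push_cast at h
  linear_combination h / 8

theorem exc_sv (ψ : AddChar Γ ℂ) (x : Γ) :
    (exc fun a : Bool => ψ ((if a = true then (1 : ℤ) else 0) • x)) = (1 + ψ x) / 2 := by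
  simp [exc, add_comm]

theorem lw_eq [Fintype Γ] {n : ℕ} (J : Finset (Fin n)) (w : Fin n → Γ) (c : Γ) :
    lw J w (· = c) = (∑ ψ : AddChar Γ ℂ, (ψ c).re * ∏ j ∈ J, (3 + (ψ (w j)).re) / 4) /
      Fintype.card Γ := by
  have h := pr_fourier (fun e : Fin n → Fin 8 => ∑ j ∈ J, stp (e j) • w j) c
  have h1 : ∀ ψ : AddChar Γ ℂ, (exc fun e : Fin n → Fin 8 => ψ (∑ j ∈ J, stp (e j) • w j)) =
      ((∏ j ∈ J, (3 + (ψ (w j)).re) / 4 : ℝ) : ℂ) := fun ψ => by
    rw [exc_pi ψ J fun j a => stp a • w j, Complex.ofReal_prod]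
    exact prod_congr rfl fun j _ => exc_stp ψ _
  simp only [h1] at h
  have h2 := congrArg Complex.re h
  rw [Complex.ofReal_re, Complex.div_natCast_re, Complex.re_sum] at h2
  refine h2.trans ?_
  congr 1
  refine sum_congr rfl fun ψ _ => ?_
  rw [Complex.re_mul_ofReal, AddChar.map_neg_eq_conj, Complex.conj_re]

theorem re_ge [Fintype Γ] (ψ : AddChar Γ ℂ) (x : Γ) : 0 ≤ (3 + (ψ x).re) / 4 := by
  have h := Complex.abs_re_le_norm (ψ x)
  rw [AddChar.norm_apply] at h
  linarith [(abs_le.1 h).1]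

theorem norm_le [Fintype Γ] (ψ : AddChar Γ ℂ) (x : Γ) :
    ‖(1 + ψ x) / 2‖ ≤ (3 + (ψ x).re) / 4 := by
  have h1 : (ψ x).re ^ 2 + (ψ x).im ^ 2 = 1 := by
    have h := Complex.sq_norm (ψ x)
    rw [AddChar.norm_apply, Complex.normSq_apply] at h
    nlinarith
  refine le_of_sq_le_sq ?_ (re_ge ψ x)
  rw [norm_div, div_pow, Complex.sq_norm, Complex.normSq_apply]
  simp only [Complex.add_re, Complex.one_re, Complex.add_im, Complex.one_im, Complex.norm_ofNat]
  nlinarith [sq_nonneg ((ψ x).re - 1)]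

end WalkAux

open WalkAux

theorem pWalk : StWalk := by
  intro Γ _ _ n J w
  have hc : (0 : ℝ) < Fintype.card Γ := Nat.cast_pos.2 Fintype.card_pos
  refine ⟨fun c => ?_, ?_, fun j hj => ?_⟩
  · have h := pr_fourier (fun a : Bv n => ∑ j ∈ J, sv 0 1 a j • w j) c
    have h1 : ∀ ψ : AddChar Γ ℂ, (exc fun a : Bv n => ψ (∑ j ∈ J, sv 0 1 a j • w j)) =
        ∏ j ∈ J, (1 + ψ (w j)) / 2 := fun ψ => by
      refine (exc_pi ψ J fun j a => (if a = true then (1 : ℤ) else 0) • w j).trans ?_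
      exact prod_congr rfl fun j _ => exc_sv ψ _
    simp only [h1] at h
    have h2 := congrArg norm h
    rw [Complex.norm_real, Real.norm_eq_abs, norm_div, Complex.norm_natCast] at h2
    refine (le_abs_self _).trans (h2.le.trans ?_)
    rw [lw_eq]
    refine div_le_div_of_nonneg_right ((norm_sum_le _ _).trans (sum_le_sum fun ψ _ => ?_)) hc.le
    rw [norm_mul, AddChar.norm_apply, AddChar.map_zero_eq_one, Complex.one_re, norm_prod]
    exact mul_le_mul_of_nonneg_left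
      (prod_le_prod (fun _ _ => norm_nonneg _) fun j _ => norm_le ψ _) zero_le_one
  · rw [lw_eq]
    refine div_le_div_of_nonneg_right ?_ hc.le
    refine le_trans ?_ (single_le_sum (f := fun ψ : AddChar Γ ℂ =>
      (ψ 0).re * ∏ j ∈ J, (3 + (ψ (w j)).re) / 4) (fun ψ _ => ?_) (mem_univ 0))
    · simp only [AddChar.zero_apply, Complex.one_re]
      norm_num
    · rw [AddChar.map_zero_eq_one, Complex.one_re, one_mul]
      exact prod_nonneg fun j _ => re_ge ψ _
  · rw [lw_eq, lw_eq, lw_eq, mul_div_assoc', mul_div_assoc', ← add_div, mul_sum, mul_sum,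
      ← sum_add_distrib]
    congr 1
    refine sum_congr rfl fun ψ _ => ?_
    rw [prod_insert hj, AddChar.map_zero_eq_one, Complex.one_re]
    ring

theorem pSel (hWalk : StWalk) : StSel := by
  intro Γ _ _ n m J0 w hm
  obtain ⟨J, hJ, hmin⟩ := exists_min_image (univ.filter fun J : Finset (Fin n) => J0 ⊆ J)
    (fun J => lw J w (· = 0) * (1024 / 1023 : ℝ) ^ J.card) ⟨J0, by simp⟩
  have hJ0 : J0 ⊆ J := (mem_filter.1 hJ).2
  refine ⟨J, hJ0, ?_, fun j hj => ?_⟩
  · by_contra hlt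
    push Not at hlt
    have h1 := hmin J0 (by simp)
    have h2 : lw J0 w (· = 0) ≤ 1 := pr_le_one _
    have hc : (0 : ℝ) < Fintype.card Γ := Nat.cast_pos.2 Fintype.card_pos
    have h3 : 1 / (2 : ℝ) ^ m ≤ lw J w (· = 0) := by
      refine le_trans (one_div_le_one_div_of_le hc ?_) (hWalk Γ n J w).2.1
      exact_mod_cast hm
    have h4 : (2 : ℝ) ≤ (1024 / 1023 : ℝ) ^ 1024 := by
      have := one_add_mul_le_pow (a := (1 / 1023 : ℝ)) (by norm_num) 1024
      rw [show (1 : ℝ) + 1 / 1023 = 1024 / 1023 by norm_num] at this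
      refine le_trans ?_ this
      norm_num
    have h5 : (1024 / 1023 : ℝ) ^ (J0.card + 1024 * m) < (1024 / 1023 : ℝ) ^ J.card :=
      pow_lt_pow_right₀ (by norm_num) hlt
    have h6 : (2 : ℝ) ^ m ≤ (1024 / 1023 : ℝ) ^ (1024 * m) := by
      rw [pow_mul]
      exact pow_le_pow_left₀ (by norm_num) h4 m
    have h7 : (0 : ℝ) < (1024 / 1023 : ℝ) ^ J0.card := by positivity
    have h8 : (0 : ℝ) < 2 ^ m := by positivity
    rw [pow_add] at h5
    have h9 : 1 / (2 : ℝ) ^ m * (1024 / 1023 : ℝ) ^ J.card ≤ (1024 / 1023 : ℝ) ^ J0.card :=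
      (mul_le_mul_of_nonneg_right h3 (by positivity)).trans
        (h1.trans (mul_le_of_le_one_left h7.le h2))
    rw [one_div, inv_mul_le_iff₀ h8] at h9
    nlinarith [mul_le_mul_of_nonneg_left h6 h7.le]
  · have h1 := hmin (insert j J) (mem_filter.2 ⟨mem_univ _, hJ0.trans (subset_insert _ _)⟩)
    rw [card_insert_of_notMem hj, pow_succ, (hWalk Γ n J w).2.2 j hj, mul_comm _ (1024 / 1023 : ℝ),
      ← mul_assoc] at h1
    have h2 := le_of_mul_le_mul_right h1 (by positivity)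
    linarith

end Pool.Agent.P.MP_f57657_co.DG
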