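import Pool.Agent.P.MP_f57657_co.DG.Main
import Pool.Agent.P.MP_f57657_co.DG.Fin
import Pool.Agent.P.MP_f57657_co.DG.PBH
import Pool.Agent.P.MP_f57657_co.DG.Q
import Pool.Agent.P.MP_f57657_co.DG.Int
import Pool.Agent.P.MP_f57657_co.DG.Soc
import Pool.Agent.P.MP_f57657_co.DG.Lev
import Pool.Agent.P.MP_f57657_co.DG.Coarse
import Pool.Agent.P.MP_f57657_co.DG.Jac
import Pool.Agent.P.MP_f57657_co.DG.Bord
import Pool.Agent.P.MP_f57657_co.DG.Ev
import Pool.Agent.P.MP_f57657_co.DG.Disc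
import Pool.Agent.P.MP_f57657_co.DG.Pl
import Pool.Agent.P.MP_f57657_co.DG.Plc
import Pool.Agent.P.MP_f57657_co.DG.Ring
import Pool.Agent.P.MP_f57657_co.DG.Kap
import Pool.Agent.P.MP_f57657_co.DG.Inv
import Pool.Agent.P.MP_f57657_co.DG.PV
import Pool.Agent.P.MP_f57657_co.DG.Row
import Pool.Agent.P.MP_f57657_co.DG.Sw
import Pool.Agent.P.MP_f57657_co.DG.Walk
import Pool.Agent.P.MP_f57657_co.DG.Arc
import Pool.Agent.P.MP_f57657_co.DG.SP
import Pool.Agent.P.MP_f57657_co.DG.FI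
import Pool.Agent.P.MP_f57657_co.DG.Dec
import Pool.Agent.P.MP_f57657_co.DG.Odl
import Pool.Agent.P.MP_f57657_co.DG.Reg
import Pool.Agent.P.MP_f57657_co.DG.Pot
import Pool.Agent.P.MP_f57657_co.DG.Ker
import Pool.Agent.P.MP_f57657_co.DG.Mu
import Pool.Agent.P.MP_f57657_co.DG.EQ
import Pool.Agent.P.MP_f57657_co.DG.AC0
import Pool.Agent.P.MP_f57657_co.DG.ACT
import Pool.Agent.P.MP_f57657_co.DG.Mq
import Pool.Agent.P.MP_f57657_co.DG.Med
import Pool.Agent.P.MP_f57657_co.DG.Large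
import Pool.Agent.P.MP_f57657_co.DG.Odd
import Pool.Agent.P.MP_f57657_co.DG.T3
import Pool.Agent.P.MP_f57657_co.DG.T1
import Pool.Agent.P.MP_f57657_co.DG.T2
import Pool.Agent.P.MP_f57657_co.DG.Va
import Pool.Agent.P.MP_f57657_co.DG.Vc
import Pool.Agent.P.MP_f57657_co.DG.Small

/-! All packages together. -/

namespace Pool.Agent.P.MP_f57657_co.DG

theorem main_all (ε : ℝ) (hε : 0 < ε) :
    ∃ N : ℕ, ∀ n ≥ N, pr (fun G : Gr n => ¬ (Core G ∧ DGS G)) ≤ ε := by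
  have hRing := pRing pPl
  have hInv := pInv pPl
  have hPV := pPV pPl hInv
  have hSP := pSP pRow pWalk (pSel pWalk) pArc
  have hReg := pReg pBord pOdl
  have hKer := pKer hReg pOdl pPlc
  have hMu := pMu hKer
  have hEQ := pEQ hSP pDec pKap hKer
  have hAC0 := pAC0 hSP pFI
  have hXq := pXq pFI pKap hRing pPl
  exact main_of pPBH pQ pInt (pLev pPl (pSoc pPl)) pCoarse pPl pPlc pEv
    (pOdd pSw (pMed pPot pBord pEv pTw pPl (pMq hEQ pFI hRing pJac) hAC0 pACT)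
      (pLarge pBord pEv pTw pDisc pPl hAC0 pACT) pPar pPl pPlc)
    (pT1 pPot pBord pEv pOdl hXq hMu pJac pPl pPlc pPar)
    (pT2 (pT3 pJac pPl) hXq hMu pPl pPlc pPar)
    (pSmall (pVa pFI (pLin hSP) hMu pKap hRing hInv hPV) (pVc pFI hEQ hRing hInv hPV pJac pPl)
      hReg pEv pJac pPl) ε hε

end Pool.Agent.P.MP_f57657_co.DG
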