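import Pool.Agent.P.MP_f57657_co.DG.Defs

/-! Basic facts on uniform probability, bordering and the adjugate. -/

open Matrix Finset Polynomial

namespace Pool.Agent.P.MP_f57657_co.DG

section Prob

variable {Ω : Type} [Fintype Ω]

theorem ex_mono {f g : Ω → ℝ} (h : ∀ ω, f ω ≤ g ω) : ex f ≤ ex g :=
  div_le_div_of_nonneg_right (sum_le_sum fun ω _ => h ω) (Nat.cast_nonneg _)

theorem ex_nonneg {f : Ω → ℝ} (h : ∀ ω, 0 ≤ f ω) : 0 ≤ ex f :=
  div_nonneg (sum_nonneg fun ω _ => h ω) (Nat.cast_nonneg _)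

theorem ex_add (f g : Ω → ℝ) : ex (fun ω => f ω + g ω) = ex f + ex g := by
  simp only [ex, sum_add_distrib, add_div]

theorem ex_mul (c : ℝ) (f : Ω → ℝ) : ex (fun ω => c * f ω) = c * ex f := by
  simp only [ex, ← mul_sum, mul_div_assoc]

theorem ex_sum {τ : Type*} (T : Finset τ) (f : τ → Ω → ℝ) :
    ex (fun ω => ∑ t ∈ T, f t ω) = ∑ t ∈ T, ex (f t) := by
  simp only [ex]
  rw [sum_comm, sum_div]

theorem ex_const [Nonempty Ω] (c : ℝ) : ex (fun _ : Ω => c) = c := by
  have : (Fintype.card Ω : ℝ) ≠ 0 := Nat.cast_ne_zero.2 Fintype.card_ne_zero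
  simp only [ex, sum_const, card_univ, nsmul_eq_mul]
  field_simp

theorem ex_le_const {f : Ω → ℝ} {c : ℝ} (hc : 0 ≤ c) (h : ∀ ω, f ω ≤ c) : ex f ≤ c := by
  cases isEmpty_or_nonempty Ω with
  | inl _ => simpa [ex] using hc
  | inr _ => exact (ex_mono h).trans (ex_const c).le

theorem ex_equiv {Ω' : Type} [Fintype Ω'] (e : Ω ≃ Ω') (f : Ω' → ℝ) :
    ex (fun ω => f (e ω)) = ex f := by
  simp only [ex, Equiv.sum_comp e f, Fintype.card_congr e]

theorem exc_equiv {Ω' : Type} [Fintype Ω'] (e : Ω ≃ Ω') (f : Ω' → ℂ) :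
    exc (fun ω => f (e ω)) = exc f := by
  simp only [exc, Equiv.sum_comp e f, Fintype.card_congr e]

theorem ex_prod {Ω' : Type} [Fintype Ω'] (f : Ω × Ω' → ℝ) :
    ex f = ex fun a => ex fun b => f (a, b) := by
  simp only [ex, Fintype.sum_prod_type, Fintype.card_prod, Nat.cast_mul, ← sum_div, div_div]
  rw [mul_comm]

theorem ex_comm {Ω' : Type} [Fintype Ω'] (f : Ω → Ω' → ℝ) :
    (ex fun a => ex fun b => f a b) = ex fun b => ex fun a => f a b := by
  simp only [ex, ← sum_div, div_div]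
  rw [sum_comm, mul_comm]

open Classical in
theorem pr_eq_card (E : Ω → Prop) :
    pr E = ((univ.filter E).card : ℝ) / Fintype.card Ω := by
  simp [pr, ex]

theorem pr_nonneg (E : Ω → Prop) : 0 ≤ pr E :=
  ex_nonneg fun _ => by split_ifs <;> norm_num

theorem pr_le_one (E : Ω → Prop) : pr E ≤ 1 :=
  ex_le_const zero_le_one fun _ => by split_ifs <;> norm_num

theorem pr_le_ex {E : Ω → Prop} {f : Ω → ℝ} (h0 : ∀ ω, 0 ≤ f ω) (h1 : ∀ ω, E ω → 1 ≤ f ω) :
    pr E ≤ ex f :=
  ex_mono fun ω => by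
    split_ifs with h
    exacts [h1 ω h, h0 ω]

theorem pr_mono {E F : Ω → Prop} (h : ∀ ω, E ω → F ω) : pr E ≤ pr F :=
  pr_le_ex (fun _ => by split_ifs <;> norm_num) fun ω hω => by rw [if_pos (h ω hω)]

theorem pr_congr {E F : Ω → Prop} (h : ∀ ω, E ω ↔ F ω) : pr E = pr F :=
  le_antisymm (pr_mono fun ω => (h ω).1) (pr_mono fun ω => (h ω).2)

theorem pr_false {E : Ω → Prop} (h : ∀ ω, ¬ E ω) : pr E = 0 := by
  simp [pr, ex, h]

theorem pr_true [Nonempty Ω] {E : Ω → Prop} (h : ∀ ω, E ω) : pr E = 1 := by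
  simpa [pr, h] using ex_const (Ω := Ω) 1

theorem pr_le_add {E F F' : Ω → Prop} (h : ∀ ω, E ω → F ω ∨ F' ω) : pr E ≤ pr F + pr F' := by
  rw [pr, pr, pr, ← ex_add]
  refine ex_mono fun ω => ?_
  have := h ω
  by_cases a : E ω <;> by_cases b : F ω <;> by_cases c : F' ω <;> simp_all

theorem pr_or (E F : Ω → Prop) : pr (fun ω => E ω ∨ F ω) ≤ pr E + pr F := pr_le_add fun _ h => h

theorem pr_not [Nonempty Ω] (E : Ω → Prop) : pr (fun ω => ¬ E ω) = 1 - pr E := by
  rw [eq_sub_iff_add_eq, pr, pr, ← ex_add]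
  refine Eq.trans ?_ (ex_const (Ω := Ω) 1)
  congr 1
  funext ω
  by_cases h : E ω <;> simp [h]

/-- Union bound. -/
theorem pr_le_sum {τ : Type*} (T : Finset τ) {E : Ω → Prop} (F : τ → Ω → Prop)
    (h : ∀ ω, E ω → ∃ t ∈ T, F t ω) : pr E ≤ ∑ t ∈ T, pr (F t) := by
  simp only [pr]
  rw [← ex_sum]
  refine pr_le_ex (fun ω => sum_nonneg fun _ _ => by split_ifs <;> norm_num) fun ω hω => ?_
  obtain ⟨t, ht, hF⟩ := h ω hω
  refine le_trans ?_ (single_le_sum (fun _ _ => by split_ifs <;> norm_num) ht)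
  rw [if_pos hF]

theorem pr_le_card_mul {τ : Type*} (T : Finset τ) {E : Ω → Prop} (F : τ → Ω → Prop) {c : ℝ}
    (h : ∀ ω, E ω → ∃ t ∈ T, F t ω) (hc : ∀ t ∈ T, pr (F t) ≤ c) : pr E ≤ T.card * c :=
  (pr_le_sum T F h).trans (by simpa using sum_le_card_nsmul T _ c hc)

/-- Markov inequality. -/
theorem pr_markov {E : Ω → Prop} {f : Ω → ℝ} {c : ℝ} (hc : 0 < c) (h0 : ∀ ω, 0 ≤ f ω)
    (h1 : ∀ ω, E ω → c ≤ f ω) : pr E ≤ ex f / c := by
  rw [div_eq_inv_mul, ← ex_mul]
  exact pr_le_ex (fun ω => mul_nonneg (inv_nonneg.2 hc.le) (h0 ω)) fun ω hω => by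
    rw [← div_eq_inv_mul, le_div_iff₀ hc, one_mul]
    exact h1 ω hω

theorem pr_equiv {Ω' : Type} [Fintype Ω'] (e : Ω ≃ Ω') (E : Ω' → Prop) :
    pr (fun ω => E (e ω)) = pr E := by
  classical
  exact ex_equiv e fun ω => if E ω then 1 else 0

theorem pr_prod {Ω' : Type} [Fintype Ω'] (E : Ω × Ω' → Prop) :
    pr E = ex fun a => pr fun b => E (a, b) := ex_prod _

theorem pr_prod' {Ω' : Type} [Fintype Ω'] (E : Ω × Ω' → Prop) :
    pr E = ex fun b => pr fun a => E (a, b) := (ex_prod _).trans (ex_comm _)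

theorem pr_fst {Ω' : Type} [Fintype Ω'] [Nonempty Ω'] (F : Ω → Prop) :
    pr (fun ω : Ω × Ω' => F ω.1) = pr F := by
  rw [pr_prod]
  refine congrArg ex (funext fun a => ?_)
  by_cases h : F a
  · rw [if_pos h]
    exact pr_true fun _ => h
  · rw [if_neg h]
    exact pr_false fun _ => h

/-- Conditioning on the first coordinate, outside a bad set. -/
theorem pr_prod_le {Ω' : Type} [Fintype Ω'] {E : Ω × Ω' → Prop} (F Gd : Ω → Prop) {c : ℝ}
    (hc : 0 ≤ c) (h1 : ∀ ω, E ω → F ω.1) (h2 : ∀ a, Gd a → F a → pr (fun b => E (a, b)) ≤ c) :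
    pr E ≤ c * pr F + pr fun a => ¬ Gd a := by
  rw [pr_prod, pr, pr, ← ex_mul, ← ex_add]
  refine ex_mono fun a => ?_
  by_cases hF : F a
  · by_cases hG : Gd a
    · simpa [hF, hG] using h2 a hG hF
    · have := pr_le_one fun b => E (a, b)
      simp only [hF, hG, if_true, not_false_eq_true]
      linarith
  · rw [pr_false fun b hb => hF (h1 _ hb)]
    split_ifs <;> norm_num

theorem pr_prod_le' {Ω' : Type} [Fintype Ω'] {E : Ω × Ω' → Prop} (Gd : Ω → Prop) {c : ℝ}
    (hc : 0 ≤ c) (h2 : ∀ a, Gd a → pr (fun b => E (a, b)) ≤ c) :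
    pr E ≤ c + pr fun a => ¬ Gd a := by
  have := pr_prod_le (E := E) (fun _ => True) Gd hc (fun _ _ => trivial) fun a h _ => h2 a h
  nlinarith [pr_le_one fun _ : Ω => True]

/-- Average of a character over the cube. -/
theorem exc_prod {n : ℕ} (u : Fin n → ℂ) :
    (exc fun s : Bv n => ∏ i, if s i = true then u i else 1) = ∏ i, (1 + u i) / 2 := by
  rw [exc, prod_div_distrib, prod_const, card_univ, Fintype.card_fin]
  congr 1
  · have := (Finset.prod_univ_sum (fun _ : Fin n => (univ : Finset Bool))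
      fun i b => if b = true then u i else 1).symm
    rw [Fintype.piFinset_univ] at this
    simpa [add_comm] using this
  · simp

theorem char_sum {Γ : Type} [AddCommGroup Γ] (ψ : AddChar Γ ℂ) {n : ℕ} (w : Fin n → Γ)
    (s : Bv n) : ψ (∑ i, sv 0 1 s i • w i) = ∏ i, if s i = true then ψ (w i) else 1 := by
  have : ∀ T : Finset (Fin n),
      ψ (∑ i ∈ T, sv 0 1 s i • w i) = ∏ i ∈ T, if s i = true then ψ (w i) else 1 := by
    intro T
    induction T using Finset.induction_on with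
    | empty => simp
    | insert a T ha ih =>
      rw [sum_insert ha, prod_insert ha, AddChar.map_add_eq_mul, ih]
      by_cases h : s a = true <;> simp [sv, h]
  exact this univ

theorem sprd_prod {Γ : Type} [AddCommGroup Γ] [Fintype Γ] {ψ : AddChar Γ ℂ} {n : ℕ}
    {w : Fin n → Γ} (h : Sprd ψ w) (I : Finset (Fin n)) :
    ∏ i ∈ Iᶜ, ‖1 + ψ (w i)‖ / 2 ≤ (15 / 16 : ℝ) ^ (n / 1000 - I.card) := by
  classical
  set F := (univ.filter fun i => ‖1 + ψ (w i)‖ ≤ 15 / 8) \ I with hF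
  have h1 : n / 1000 - I.card ≤ F.card := by
    have := le_card_sdiff I (univ.filter fun i => ‖1 + ψ (w i)‖ ≤ 15 / 8)
    rw [← hF] at this
    unfold Sprd at h
    omega
  have h2 : F ⊆ Iᶜ := fun i hi => mem_compl.2 (mem_sdiff.1 hi).2
  have h3 : ∀ i, ‖1 + ψ (w i)‖ / 2 ≤ 1 := fun i => by
    have := norm_add_le 1 (ψ (w i))
    rw [norm_one, AddChar.norm_apply] at this
    linarith
  calc ∏ i ∈ Iᶜ, ‖1 + ψ (w i)‖ / 2 ≤ ∏ i ∈ F, ‖1 + ψ (w i)‖ / 2 :=
        prod_le_prod_of_subset_of_le_one h2 (fun i _ => by positivity) fun i _ _ => h3 i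
    _ ≤ ∏ _i ∈ F, (15 / 16 : ℝ) := prod_le_prod (fun i _ => by positivity) fun i hi => by
        have := (mem_filter.1 (mem_sdiff.1 hi).1).2
        linarith
    _ ≤ _ := by
        rw [prod_const]
        exact pow_le_pow_of_le_one (by norm_num) (by norm_num) h1

theorem sprd_exc {Γ : Type} [AddCommGroup Γ] [Fintype Γ] {ψ : AddChar Γ ℂ} {n : ℕ}
    {w : Fin n → Γ} (h : Sprd ψ w) :
    ‖exc fun s : Bv n => ψ (∑ i, sv 0 1 s i • w i)‖ ≤ (15 / 16 : ℝ) ^ (n / 1000) := by
  simp only [char_sum]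
  rw [exc_prod, norm_prod]
  simpa using sprd_prod h ∅

end Prob

section Graphs

variable {n : ℕ}

theorem bord_cc (G : Gr n) (s : Bv n) (i j : Fin n) :
    (bord G s).Adj i.castSucc j.castSucc ↔ G.Adj i j := by
  simp only [bord, SimpleGraph.fromRel_adj, ne_eq, Fin.castSucc_inj, exists_eq_left',
    Fin.castSucc_ne_last, false_and, or_false]
  exact ⟨fun h => h.2.elim id fun h => h.symm, fun h => ⟨h.ne, Or.inl h⟩⟩

theorem bord_cl (G : Gr n) (s : Bv n) (i : Fin n) :
    (bord G s).Adj i.castSucc (Fin.last n) ↔ s i = true := by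
  simp [bord, SimpleGraph.fromRel_adj, Fin.castSucc_ne_last, (Fin.castSucc_ne_last _).symm]

theorem bord_lc (G : Gr n) (s : Bv n) (i : Fin n) :
    (bord G s).Adj (Fin.last n) i.castSucc ↔ s i = true := by
  rw [SimpleGraph.adj_comm, bord_cl]

theorem res_adj (G : Gr (n + 1)) (i j : Fin n) :
    (res G).Adj i j ↔ G.Adj i.castSucc j.castSucc := Iff.rfl

theorem res_bord (G : Gr n) (s : Bv n) : res (bord G s) = G := by
  ext i j
  rw [res_adj, bord_cc]

theorem rs_self (G : Gr n) : rs G n le_rfl = G := rfl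

theorem rs_rs (G : Gr n) {i j : ℕ} (h : j ≤ n) (h' : i ≤ j) :
    rs (rs G j h) i h' = rs G i (h'.trans h) := rfl

theorem rs_bord (G : Gr n) (s : Bv n) {j : ℕ} (h : j ≤ n) (h' : j ≤ n + 1) :
    rs (bord G s) j h' = rs G j h := by
  conv_rhs => rw [← res_bord G s]
  rfl

open Classical in
/-- The neighbourhood of the last vertex. -/
noncomputable def col (G : Gr (n + 1)) : Bv n :=
  fun i => decide (G.Adj i.castSucc (Fin.last n))

theorem col_bord (G : Gr n) (s : Bv n) : col (bord G s) = s := by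
  funext i
  simp [col, bord_cl]

theorem bord_res (G : Gr (n + 1)) : bord (res G) (col G) = G := by
  ext a b
  induction a using Fin.lastCases with
  | last =>
    induction b using Fin.lastCases with
    | last => simp
    | cast j => rw [bord_lc, G.adj_comm]; simp [col]
  | cast i =>
    induction b using Fin.lastCases with
    | last => rw [bord_cl]; simp [col]
    | cast j => rw [bord_cc, res_adj]

/-- Graphs on `n + 1` vertices are bordered graphs. -/
noncomputable def bordE (n : ℕ) : Gr n × Bv n ≃ Gr (n + 1) where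
  toFun ω := bord ω.1 ω.2
  invFun G := (res G, col G)
  left_inv ω := by simp only [res_bord, col_bord]
  right_inv G := bord_res G

theorem ex_bord (f : Gr (n + 1) → ℝ) : ex f = ex fun ω : Gr n × Bv n => f (bord ω.1 ω.2) :=
  (ex_equiv (bordE n) f).symm

theorem pr_bord (E : Gr (n + 1) → Prop) : pr E = pr fun ω : Gr n × Bv n => E (bord ω.1 ω.2) :=
  (pr_equiv (bordE n) E).symm

theorem pr_res (E : Gr n → Prop) : pr (fun G : Gr (n + 1) => E (res G)) = pr E := by
  rw [pr_bord]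
  simp only [res_bord]
  exact pr_fst E

theorem pr_rs {j : ℕ} (h : j ≤ n) (E : Gr j → Prop) :
    pr (fun G : Gr n => E (rs G j h)) = pr E := by
  induction n, h using Nat.le_induction with
  | base => rfl
  | succ n h ih => exact (pr_res fun G : Gr n => E (rs G j h)).trans ih

/-- Every step of the chain is a bordering. -/
theorem rs_succ (G : Gr n) {j : ℕ} (h : j + 1 ≤ n) :
    rs G (j + 1) h = bord (rs G j (Nat.le_of_succ_le h)) (col (rs G (j + 1) h)) :=
  (bord_res (rs G (j + 1) h)).symm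

theorem pr_step {j : ℕ} (h : j + 1 ≤ n) (E : Gr j → Bv j → Prop) :
    pr (fun G : Gr n => E (rs G j (Nat.le_of_succ_le h)) (col (rs G (j + 1) h))) =
      pr fun ω : Gr j × Bv j => E ω.1 ω.2 := by
  rw [← pr_equiv (bordE j).symm]
  exact pr_rs h fun G => E (res G) (col G)

theorem gm_symm (α β : ℤ) (G : Gr n) : (gm α β G).IsSymm := by
  ext i j
  simp only [gm, transpose_apply, of_apply, eq_comm (a := j)]
  rw [G.adj_comm j i]

theorem gm_diag (α β : ℤ) (G : Gr n) (i : Fin n) : gm α β G i i = 0 := by simp [gm]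

theorem gm_cc (α β : ℤ) (G : Gr n) (s : Bv n) (i j : Fin n) :
    gm α β (bord G s) i.castSucc j.castSucc = gm α β G i j := by
  simp only [gm, of_apply, Fin.castSucc_inj]
  rw [bord_cc]

theorem gm_cl (α β : ℤ) (G : Gr n) (s : Bv n) (i : Fin n) :
    gm α β (bord G s) i.castSucc (Fin.last n) = sv α β s i := by
  simp only [gm, of_apply, Fin.castSucc_ne_last, if_false, bord_cl, sv]

theorem gm_lc (α β : ℤ) (G : Gr n) (s : Bv n) (i : Fin n) :
    gm α β (bord G s) (Fin.last n) i.castSucc = sv α β s i := by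
  rw [← gm_cl α β G s i]
  exact (gm_symm α β _).apply _ _

theorem gm_eq (α β : ℤ) (G : Gr n) (i j : Fin n) :
    gm α β G i j = α - (if i = j then α else 0) + (β - α) * aM G i j := by
  simp only [gm, of_apply]
  split_ifs <;> ring

theorem sv_eq (α β : ℤ) (s : Bv n) (i : Fin n) : sv α β s i = α + (β - α) * sv 0 1 s i := by
  simp only [sv]
  split_ifs <;> ring

theorem mem_eg {K : Type} [Field K] {M : Matrix (Fin n) (Fin n) ℤ} {θ : K} {z : Fin n → K} :
    z ∈ eg K M θ ↔ ∀ i, ∑ j, (M i j : K) * z j = θ * z i := by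
  rw [eg, Module.End.mem_eigenspace_iff, funext_iff]
  rfl

theorem mem_eg' {K : Type} [Field K] {M : Matrix (Fin n) (Fin n) ℤ} {θ : K} {z : Fin n → K} :
    z ∈ eg K M θ ↔ M.map (Int.cast : ℤ → K) *ᵥ z = θ • z := by
  rw [eg, Module.End.mem_eigenspace_iff, Matrix.toLin'_apply]

theorem one_le_gd {K : Type} [Field K] {M : Matrix (Fin n) (Fin n) ℤ} {θ : K} :
    1 ≤ gd K M θ ↔ ∃ z ∈ eg K M θ, z ≠ 0 := by
  rw [gd, Nat.one_le_iff_ne_zero, ne_eq, Submodule.finrank_eq_zero, ← ne_eq, Submodule.ne_bot_iff]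

theorem Big.mono {K : Type} [Field K] {θ : K} {Q Q' : ℕ} (h : Big θ Q) (hQ : Q' ≤ Q) :
    Big θ Q' := fun T h1 h2 h3 => hQ.trans (h T h1 h2 h3)

theorem big_zero {K : Type} [Field K] [CharZero K] (θ : K) (Q : ℕ) : Big θ Q := by
  intro T h1 _ h3
  obtain ⟨a, ha, h0⟩ := (AddSubgroup.ne_bot_iff_exists_ne_zero).1 h1 |>.imp fun a h =>
    And.intro a.2 h
  exfalso
  refine not_injective_infinite_finite (fun k : ℕ => (k • a : T)) fun k l hkl => ?_
  have h4 : (k : K) * a = (l : K) * a := by simpa using congrArg Subtype.val hkl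
  exact Nat.cast_injective (mul_right_cancel₀ (fun e => h0 (Subtype.ext e)) h4)

/-- The defining equation of the adjugate. -/
theorem aw_eq (M : Matrix (Fin n) (Fin n) ℤ) (y : Fin n → ℤ) (i : Fin n) :
    ∑ j, C (M i j) * aw M y j = X * aw M y i - C (y i) * M.charpoly := by
  have h1 : M.charmatrix *ᵥ (aw M y) = M.charpoly • fun j => C (y j) := by
    have : aw M y = M.charmatrix.adjugate *ᵥ fun j => C (y j) := rfl
    rw [this, mulVec_mulVec, mul_adjugate, smul_mulVec, one_mulVec]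
    rfl
  have h2 := congrFun h1 i
  simp only [mulVec, dotProduct, charmatrix_apply, diagonal_apply, sub_mul, sum_sub_distrib,
    ite_mul, zero_mul, sum_ite_eq, mem_univ, if_true, Pi.smul_apply, smul_eq_mul] at h2
  linear_combination -h2

theorem degree_aw_lt (M : Matrix (Fin n) (Fin n) ℤ) (y : Fin n → ℤ) (i : Fin n) :
    (aw M y i).degree < n := by
  obtain ⟨k, -, hk⟩ := exists_max_image univ (fun j => (aw M y j).degree) ⟨i, mem_univ i⟩
  refine (hk i (mem_univ i)).trans_lt ?_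
  by_contra hlt
  rw [not_lt] at hlt
  have h0 : aw M y k ≠ 0 := by
    intro e
    rw [e, degree_zero] at hlt
    exact absurd hlt (by simp)
  have h1 : X * aw M y k = ∑ j, C (M k j) * aw M y j + C (y k) * M.charpoly := by
    rw [aw_eq]; ring
  have h2 : (X * aw M y k).degree ≤ (aw M y k).degree := by
    rw [h1]
    refine (degree_add_le _ _).trans (max_le ?_ ?_)
    · refine (degree_sum_le _ _).trans (Finset.sup_le fun j _ => ?_)
      rw [← smul_eq_C_mul]
      exact (degree_smul_le _ _).trans (hk j (mem_univ j))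
    · rw [← smul_eq_C_mul]
      refine (degree_smul_le _ _).trans ?_
      rw [charpoly_degree_eq_dim, Fintype.card_fin]
      exact hlt
  rw [mul_comm] at h2
  exact absurd (degree_lt_degree_mul_X h0) (not_lt.2 h2)

theorem degree_bf_lt (M : Matrix (Fin n) (Fin n) ℤ) (u y : Fin n → ℤ) :
    (bf M u y).degree < n := by
  refine (degree_sum_le _ _).trans_lt ((Finset.sup_lt_iff (WithBot.bot_lt_coe n)).2 fun i _ => ?_)
  rw [← smul_eq_C_mul]
  exact (degree_smul_le _ _).trans_lt (degree_aw_lt M y i)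

theorem monic_add_bf (M : Matrix (Fin n) (Fin n) ℤ) (u y : Fin n → ℤ) :
    (M.charpoly + bf M u y).Monic ∧ (M.charpoly + bf M u y).natDegree = n := by
  have h : (bf M u y).degree < M.charpoly.degree := by
    rw [charpoly_degree_eq_dim, Fintype.card_fin]
    exact degree_bf_lt M u y
  refine ⟨M.charpoly_monic.add_of_left h, ?_⟩
  rw [natDegree_add_eq_left_of_degree_lt h, charpoly_natDegree_eq_dim, Fintype.card_fin]

theorem bf_comm {M : Matrix (Fin n) (Fin n) ℤ} (hM : M.IsSymm) (u y : Fin n → ℤ) :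
    bf M u y = bf M y u := by
  have h : ∀ i j, M.charmatrix.adjugate i j = M.charmatrix.adjugate j i := by
    intro i j
    rw [← transpose_apply M.charmatrix.adjugate j i, adjugate_transpose, ← charmatrix_transpose,
      hM.eq]
  simp only [bf, aw, mul_sum]
  rw [sum_comm]
  exact sum_congr rfl fun i _ => sum_congr rfl fun j _ => by rw [h j i]; ring

theorem ps_eq (G : Gr n) : ps G = ∑ i, aw (aM G) 1 i := by simp [bf]

theorem ev_yy {R : Type} [CommRing R] (ev : ℤ[X] →+* R) (G : Gr n) (s : Bv n) :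
    ev (yy G s) = ∑ i, sv 0 1 s i • ev (aw (aM G) 1 i) := by
  simp [bf]

theorem ev_bf {R : Type} [CommRing R] (ev : ℤ[X] →+* R) (M : Matrix (Fin n) (Fin n) ℤ)
    (u y : Fin n → ℤ) :
    ev (bf M u y) = ∑ i, ∑ j, (u i * y j) • ev (M.charmatrix.adjugate i j) := by
  simp only [bf, aw, mul_sum, map_sum, map_mul, eq_intCast, map_intCast, zsmul_eq_mul,
    Int.cast_mul]
  exact sum_congr rfl fun i _ => sum_congr rfl fun j _ => by ring

theorem Cop.mono {x : Pt} {c c' : ℕ} {f g : ℤ[X]} (h : Cop x c f g) (hc : c ≤ c') :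
    Cop x c' f g := by
  obtain ⟨u, a, b, hu, e⟩ := h
  obtain ⟨d, rfl⟩ := Nat.exists_eq_add_of_le hc
  refine ⟨u, a * C ((x.1.1 : ℤ) ^ d), b * C ((x.1.1 : ℤ) ^ d), hu, ?_⟩
  rw [pow_add, C_mul]
  linear_combination C ((x.1.1 : ℤ) ^ d) * e

theorem Cop.symm {x : Pt} {c : ℕ} {f g : ℤ[X]} (h : Cop x c f g) : Cop x c g f := by
  obtain ⟨u, a, b, hu, e⟩ := h
  exact ⟨u, b, a, hu, by rw [e, add_comm]⟩

theorem Ord.mono {x : Pt} {r r' : ℕ} {f : ℤ[X]} (h : Ord x r f) (hr : r ≤ r') : Ord x r' f :=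
  fun h' => h ((pow_dvd_pow _ hr).trans h')

end Graphs

end Pool.Agent.P.MP_f57657_co.DG
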