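import Mathlib

/-! Interface for the theorem that a uniform random graph is determined by its generalized
spectrum with high probability. -/

open Matrix Finset Polynomial

namespace Pool.Agent.P.MP_f57657_co.DG

/-! ### Finite probability and graphs -/

/-- Labelled graphs. -/
abbrev Gr (n : ℕ) : Type := SimpleGraph (Fin n)

/-- Bit vectors. -/
abbrev Bv (n : ℕ) : Type := Fin n → Bool

/-- Uniform average. -/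
noncomputable def ex {Ω : Type} [Fintype Ω] (f : Ω → ℝ) : ℝ := (∑ ω, f ω) / Fintype.card Ω

/-- Uniform average of a complex function. -/
noncomputable def exc {Ω : Type} [Fintype Ω] (f : Ω → ℂ) : ℂ := (∑ ω, f ω) / Fintype.card Ω

open Classical in
/-- Uniform probability. -/
noncomputable def pr {Ω : Type} [Fintype Ω] (E : Ω → Prop) : ℝ :=
  ex fun ω => if E ω then 1 else 0

/-- Add a last vertex with neighbourhood `s`. -/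
def bord {n : ℕ} (G : Gr n) (s : Bv n) : Gr (n + 1) :=
  SimpleGraph.fromRel fun a b => ∃ i : Fin n, a = i.castSucc ∧
    ((∃ j : Fin n, b = j.castSucc ∧ G.Adj i j) ∨ (b = Fin.last n ∧ s i = true))

/-- The graph on the first `j` vertices. -/
def rs {n : ℕ} (G : Gr n) (j : ℕ) (h : j ≤ n) : Gr j := G.comap (Fin.castLE h)

/-- Remove the last vertex. -/
def res {n : ℕ} (G : Gr (n + 1)) : Gr n := rs G n (Nat.le_succ n)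

open Classical in
/-- Zero diagonal, `β` on edges, `α` on non-edges. -/
noncomputable def gm (α β : ℤ) {n : ℕ} (G : Gr n) : Matrix (Fin n) (Fin n) ℤ :=
  Matrix.of fun i j => if i = j then 0 else if G.Adj i j then β else α

/-- The vector with values `α`, `β` selected by the bits. -/
def sv (α β : ℤ) {n : ℕ} (s : Bv n) : Fin n → ℤ := fun i => if s i = true then β else α

/-- Adjacency matrix. -/
noncomputable abbrev aM {n : ℕ} (G : Gr n) : Matrix (Fin n) (Fin n) ℤ := gm 0 1 G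

/-- Seidel matrix. -/
noncomputable abbrev sM {n : ℕ} (G : Gr n) : Matrix (Fin n) (Fin n) ℤ := gm 1 (-1) G

/-! ### Linear algebra -/

/-- Eigenspace of an integer matrix over a field. -/
noncomputable def eg (K : Type) [Field K] {n : ℕ} (M : Matrix (Fin n) (Fin n) ℤ) (θ : K) :
    Submodule K (Fin n → K) :=
  Module.End.eigenspace (Matrix.toLin' (M.map (Int.cast : ℤ → K))) θ

/-- Geometric multiplicity. -/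
noncomputable def gd (K : Type) [Field K] {n : ℕ} (M : Matrix (Fin n) (Fin n) ℤ) (θ : K) : ℕ :=
  Module.finrank K (eg K M θ)

/-- Pairing of an integer vector with a vector over a field. -/
def dt {K : Type} [Field K] {n : ℕ} (v : Fin n → ℤ) (z : Fin n → K) : K := ∑ i, (v i : K) * z i

/-- The vector `adj (X - M) y`. -/
noncomputable def aw {n : ℕ} (M : Matrix (Fin n) (Fin n) ℤ) (y : Fin n → ℤ) (i : Fin n) : ℤ[X] :=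
  ∑ j, M.charmatrix.adjugate i j * C (y j)

/-- The form `u ⬝ adj (X - M) y`. -/
noncomputable def bf {n : ℕ} (M : Matrix (Fin n) (Fin n) ℤ) (u y : Fin n → ℤ) : ℤ[X] :=
  ∑ i, C (u i) * aw M y i

/-- Characteristic polynomial of the adjacency matrix. -/
noncomputable abbrev ph {n : ℕ} (G : Gr n) : ℤ[X] := (aM G).charpoly

/-- Numerator of the walk generating function. -/
noncomputable abbrev ps {n : ℕ} (G : Gr n) : ℤ[X] := bf (aM G) 1 1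

/-- The linear form `s ⬝ adj (X - A) 1`. -/
noncomputable abbrev yy {n : ℕ} (G : Gr n) (s : Bv n) : ℤ[X] := bf (aM G) (sv 0 1 s) 1

/-- Every finite nonzero additive subgroup stable under `θ` has at least `Q` elements. -/
def Big {K : Type} [Field K] (θ : K) (Q : ℕ) : Prop :=
  ∀ T : AddSubgroup K, T ≠ ⊥ → (∀ a ∈ T, θ * a ∈ T) → Finite T → Q ≤ Nat.card T

/-! ### Places -/

instance primeFact (p : Nat.Primes) : Fact p.1.Prime := ⟨p.2⟩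

/-- The algebraic closure of the prime field. -/
abbrev FF (p : Nat.Primes) : Type := AlgebraicClosure (ZMod p.1)

/-- Points of prime characteristic. -/
abbrev Pt : Type := Σ p : Nat.Primes, FF p

/-- Minimal polynomial of a point. -/
noncomputable def mp (x : Pt) : (ZMod x.1.1)[X] := minpoly (ZMod x.1.1) x.2

/-- Degree of a point. -/
noncomputable def dg (x : Pt) : ℕ := (mp x).natDegree

/-- Size of the residue field. -/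
noncomputable def sz (x : Pt) : ℕ := x.1.1 ^ dg x

/-- Reduction modulo `p`. -/
noncomputable def red (p : ℕ) (u : ℤ[X]) : (ZMod p)[X] := u.map (Int.castRingHom (ZMod p))

/-- An integer lift of the minimal polynomial. -/
noncomputable def lf (x : Pt) : ℤ[X] :=
  ∑ i ∈ range (dg x + 1), C ((((mp x).coeff i).val : ℕ) : ℤ) * X ^ i

/-- `p ^ c` lies in the ideal of `f`, `g` locally at the point. -/
def Cop (x : Pt) (c : ℕ) (f g : ℤ[X]) : Prop :=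
  ∃ u a b : ℤ[X], aeval x.2 u ≠ 0 ∧ u * C ((x.1.1 : ℤ) ^ c) = a * f + b * g

/-- Order of vanishing below `r` modulo `p`. -/
def Ord (x : Pt) (r : ℕ) (f : ℤ[X]) : Prop := ¬ mp x ^ r ∣ red x.1.1 f

/-- The ideal of level `L`. -/
noncomputable def IL (x : Pt) (L : ℕ) : Ideal ℤ[X] :=
  Ideal.span {C ((x.1.1 : ℤ) ^ L), lf x ^ L}

/-- Vanishing in the Galois ring of characteristic `p ^ 2`. -/
def E2 (x : Pt) (f : ℤ[X]) : Prop := f ∈ Ideal.span {C ((x.1.1 : ℤ) ^ 2), lf x}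

/-- An isotropic eigenvector orthogonal to `v`. -/
def IsoP (x : Pt) {n : ℕ} (M : Matrix (Fin n) (Fin n) ℤ) (v : Fin n → ℤ) : Prop :=
  ∃ z ∈ eg (FF x.1) M x.2, z ≠ 0 ∧ z ⬝ᵥ z = 0 ∧ dt v z = 0

/-- A real eigenvector orthogonal to `v`. -/
def RealP {n : ℕ} (M : Matrix (Fin n) (Fin n) ℤ) (v : Fin n → ℤ) : Prop :=
  ∃ θ : ℝ, ∃ z ∈ eg ℝ M θ, z ≠ 0 ∧ dt v z = 0

/-- A quotient of `ℤ[X]` killed by a power of `p` and by a monic polynomial of degree `D`. -/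
def Lev {R : Type} [CommRing R] (p D : ℕ) (ev : ℤ[X] →+* R) : Prop :=
  Function.Surjective ev ∧ (∃ L : ℕ, (p : R) ^ L = 0) ∧
    ∃ μ : ℤ[X], μ.Monic ∧ μ.natDegree = D ∧ ev μ = 0

/-! ### Good events -/

open Classical in
/-- Many coordinates are far from the kernel of the character. -/
def Sprd {Γ : Type} [AddCommGroup Γ] (ψ : AddChar Γ ℂ) {n : ℕ} (w : Fin n → Γ) : Prop :=
  n ≤ 1000 * (univ.filter fun i => ‖1 + ψ (w i)‖ ≤ 15 / 8).card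

/-- Step of the lazy walk. -/
def stp (e : Fin 8) : ℤ := if e = 0 then 1 else if e = 1 then -1 else 0

/-- Law of the lazy walk with steps `w j`, `j ∈ J`. -/
noncomputable def lw {Γ : Type} [AddCommGroup Γ] {n : ℕ} (J : Finset (Fin n)) (w : Fin n → Γ)
    (B : Γ → Prop) : ℝ :=
  pr fun e : Fin n → Fin 8 => B (∑ j ∈ J, stp (e j) • w j)

/-- All eigenvalues of degree at most `D` have multiplicity at most `k`. -/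
def Ker (α β : ℤ) (p : Nat.Primes) (D k : ℕ) {n : ℕ} (G : Gr n) : Prop :=
  ∀ θ : FF p, dg ⟨p, θ⟩ ≤ D → gd (FF p) (gm α β G) θ ≤ k

/-- The all-ones vector satisfies no relation of degree below `D` modulo `p`. -/
def Mu (p D : ℕ) {n : ℕ} (G : Gr n) : Prop :=
  ∀ κ : (ZMod p)[X], κ ≠ 0 → κ.natDegree < D →
    aeval ((aM G).map (Int.cast : ℤ → ZMod p)) κ *ᵥ (1 : Fin n → ZMod p) ≠ 0

/-- Small Fourier coefficients of the quadratic form. -/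
def EQ (α β : ℤ) {R : Type} [CommRing R] (ev : ℤ[X] →+* R) (η : ℝ) {n : ℕ} (G : Gr n) : Prop :=
  ∀ ψ : AddChar R ℂ, (∃ r, ψ (2 * ev (gm α β G).charpoly * r) ≠ 1) →
    ∀ u : Fin n → ℂ, (∀ i, ‖u i‖ = 1) →
      ‖exc fun s : Bv n => ψ (ev (bf (gm α β G) (sv 0 1 s) (sv 0 1 s))) *
        ∏ i, if s i = true then u i else 1‖ ≤ η

/-- Small Fourier coefficients of the linear form. -/
def LIN {R : Type} [CommRing R] (ev : ℤ[X] →+* R) (η : ℝ) {n : ℕ} (G : Gr n) : Prop :=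
  ∀ ψ : AddChar R ℂ, (∃ i, ψ (ev (aw (aM G) 1 i)) ≠ 1) →
    ‖exc fun s : Bv n => ψ (ev (yy G s))‖ ≤ η

/-- Anticoncentration for eigenvectors of small height in small characteristic. -/
def AC0 (t : ℕ) {n : ℕ} (G : Gr n) : Prop :=
  ∀ p : Nat.Primes, p.1 ≠ 2 → p.1 ≤ 2 ^ (8 * t ^ 3) →
    ∀ (K : Type) [Field K] [Algebra (ZMod p.1) K] (θ : K) (z : Fin n → K) (b : K),
      z ∈ eg K (sM G) θ → z ≠ 0 →
      Module.finrank (ZMod p.1) (Submodule.span (ZMod p.1) (Set.range z)) ≤ t →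
      pr (fun s : Bv n => dt (sv 1 (-1) s) z = b) ≤
        1 / (p.1 : ℝ) ^ Module.finrank (ZMod p.1) (Submodule.span (ZMod p.1) (Set.range z)) +
          (1 / 2) ^ t ^ 3

/-- Anticoncentration for all eigenvectors of the Seidel matrix. -/
def AC (t : ℕ) {n : ℕ} (G : Gr n) : Prop :=
  ∀ (K : Type) [Field K], (2 : K) ≠ 0 → ∀ (θ : K) (z : Fin n → K) (b : K) (Q : ℕ),
    z ∈ eg K (sM G) θ → z ≠ 0 → 1 ≤ Q → Q ≤ 2 ^ t → Big θ Q →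
    pr (fun s : Bv n => dt (sv 1 (-1) s) z = b) ≤ 2 / (Q : ℝ)

/-- Choice of the scales. -/
def Par (n t j0 : ℕ) : Prop := n ^ 7 ≤ 2 ^ t ∧ (100 * t) ^ 14 ≤ j0 ∧ j0 * (t + 5) ≤ n

/-- State of the chain at a small point. -/
def St (x : Pt) (r c : ℕ) {n : ℕ} (G : Gr n) : Prop := Ord x r (ph G) ∧ Cop x c (ph G) (ps G)

/-- The polynomial with the bits as coefficients. -/
noncomputable def pb {k : ℕ} (b : Bv k) : ℤ[X] := ∑ i, if b i = true then X ^ i.val else 0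

/-- The walk matrix. -/
noncomputable def wk {n : ℕ} (G : Gr n) : Matrix (Fin n) (Fin n) ℤ :=
  Matrix.of fun i k => ((aM G ^ k.val) *ᵥ (1 : Fin n → ℤ)) i

/-- A rational orthogonal matrix fixing the all-ones vector and conjugating the graphs. -/
def Conj {n : ℕ} (G H : Gr n) (Q : Matrix (Fin n) (Fin n) ℚ) : Prop :=
  Qᵀ * Q = 1 ∧ Q *ᵥ (1 : Fin n → ℚ) = 1 ∧
    (aM G).map (Int.cast : ℤ → ℚ) * Q = Q * (aM H).map (Int.cast : ℤ → ℚ)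

/-- All entries are integers. -/
def Intg {n : ℕ} (Q : Matrix (Fin n) (Fin n) ℚ) : Prop := ∀ i j, ∃ z : ℤ, Q i j = z

/-- A point that is active for level `p ^ (c + 1)`. -/
def Act (x : Pt) (c : ℕ) {n : ℕ} (G : Gr (n + 1)) : Prop :=
  IsoP x (aM G) 1 ∧ ¬ Cop x c (ph G) (ps G) ∧ (aeval x.2 (ph (res G)) ≠ 0 → E2 x (ph G))

/-- Connected with minimum degree two. -/
def Core {n : ℕ} (G : Gr n) : Prop :=
  G.Connected ∧ ∀ v, ∃ a b, a ≠ b ∧ G.Adj v a ∧ G.Adj v b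

/-- Determined by the generalized spectrum. -/
def DGS {n : ℕ} (G : Gr n) : Prop :=
  ∀ H : Gr n, ph H = ph G → (gm 1 0 H).charpoly = (gm 1 0 G).charpoly → Nonempty (H ≃g G)

/-! ### Statements: algebra -/

def StPBH : Prop := ∀ (n : ℕ) (G : Gr n), ¬ RealP (aM G) 1 → (wk G).det ≠ 0

def StQ : Prop := ∀ (n : ℕ) (G H : Gr n), ph H = ph G →
  (gm 1 0 H).charpoly = (gm 1 0 G).charpoly → (wk G).det ≠ 0 → ∃ Q, Conj G H Q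

def StInt : Prop := ∀ (n : ℕ) (G H : Gr n) (Q : Matrix (Fin n) (Fin n) ℚ), ph H = ph G →
  (wk G).det ≠ 0 → Conj G H Q → Intg (aeval ((aM G).map (Int.cast : ℤ → ℚ)) (ps G) * Q)

def StSoc : Prop := ∀ (n : ℕ) (G : Gr (n + 1)) (x : Pt) (v y : Fin (n + 1) → ℤ),
  (∃ i, ¬ (x.1.1 : ℤ) ∣ v i) → aeval (aM G) (lf x) *ᵥ v = (x.1.1 : ℤ) • y →
  (∀ k : ℕ, (x.1.1 : ℤ) ∣ y ⬝ᵥ ((aM G ^ k) *ᵥ v)) → aeval x.2 (ph (res G)) ≠ 0 → E2 x (ph G)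

def StLev : Prop := ∀ (n : ℕ) (G H : Gr (n + 1)) (Q : Matrix (Fin (n + 1)) (Fin (n + 1)) ℚ),
  Conj G H Q → Intg (aeval ((aM G).map (Int.cast : ℤ → ℚ)) (ps G) * Q) →
  ∃ l : ℕ, 0 < l ∧ Intg ((l : ℚ) • Q) ∧
    ∀ (p : Nat.Primes) (c : ℕ), p.1 ^ (c + 1) ∣ l → ∃ θ : FF p, Act ⟨p, θ⟩ c G

def StCoarse : Prop := ∀ l : ℕ, 0 < l → ∀ ε : ℝ, 0 < ε → ∃ N : ℕ, ∀ n ≥ N,
  pr (fun G : Gr n => ¬ (Core G ∧
    ∀ H Q, Conj G H Q → Intg ((l : ℚ) • Q) → Nonempty (H ≃g G))) ≤ ε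

def StJac : Prop :=
  (∀ (α β : ℤ) (n : ℕ) (G : Gr n) (s : Bv n), (gm α β (bord G s)).charpoly =
    X * (gm α β G).charpoly - bf (gm α β G) (sv α β s) (sv α β s)) ∧
  (∀ (n : ℕ) (G : Gr n) (s : Bv n),
    ps (bord G s) * ph G = ps G * ph (bord G s) + (ph G + yy G s) ^ 2) ∧
  (∀ (n : ℕ) (G : Gr n) (y : Fin n → ℤ),
    ∃ h : ℤ[X], ph G * bf (aM G) y y = X * bf (aM G) y 1 ^ 2 + 2 * h) ∧
  ∀ (n : ℕ) (G : Gr n) (s : Bv n),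
    ∃ h : ℤ[X], ph G * ph (bord G s) = X * (ph G + yy G s) ^ 2 + 2 * h

def StBord : Prop := ∀ (K : Type) [Field K] (α β : ℤ) (n : ℕ) (G : Gr n) (s : Bv n) (θ : K),
  gd K (gm α β G) θ ≤ n ∧ gd K (gm α β (bord G s)) θ ≤ gd K (gm α β G) θ + 1 ∧
  ((∃ z ∈ eg K (gm α β G) θ, dt (sv α β s) z ≠ 0) →
    gd K (gm α β (bord G s)) θ + 1 ≤ gd K (gm α β G) θ) ∧
  ∀ z ∈ eg K (gm α β G) θ, dt (sv α β s) z = 0 →
    (Fin.snoc z 0 : Fin (n + 1) → K) ∈ eg K (gm α β (bord G s)) θ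

def StEv : Prop := ∀ (K : Type) [Field K] (n : ℕ) (M : Matrix (Fin n) (Fin n) ℤ),
  (∀ θ : K, 1 ≤ gd K M θ ↔ aeval θ M.charpoly = 0) ∧
  (∃ F : Finset K, F.card ≤ n ∧ ∀ θ : K, 1 ≤ gd K M θ → θ ∈ F) ∧
  (M.IsSymm → ∀ θ : K, (2 ≤ gd K M θ ∨ ∃ z ∈ eg K M θ, z ≠ 0 ∧ z ⬝ᵥ z = 0) →
    aeval θ M.charpoly = 0 ∧ aeval θ (derivative M.charpoly) = 0)

def StTw : Prop := ∀ (K : Type) [Field K] (n : ℕ) (E : Submodule K (Fin n → K)),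
  Module.finrank K E ≤ 2 → (Module.finrank K E = 2 → ∃ z ∈ E, z ⬝ᵥ z ≠ 0) →
  (∃ v ∈ E, v ≠ 0 ∧ v ⬝ᵥ v = 0) →
  ∃ z1 ∈ E, ∃ z2 ∈ E, z1 ≠ 0 ∧ z2 ≠ 0 ∧
    ∀ v ∈ E, v ⬝ᵥ v = 0 → (∃ c : K, v = c • z1) ∨ ∃ c : K, v = c • z2

def StDisc : Prop := ∀ (n : ℕ) (G : Gr n), (∀ θ : ℝ, gd ℝ (sM G) θ ≤ 1) →
  ∃ F : Finset Pt, F.card ≤ n ^ 4 ∧ ∀ x : Pt, aeval x.2 (sM G).charpoly = 0 →
    aeval x.2 (derivative (sM G).charpoly) = 0 → x ∈ F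

def StPl : Prop := ∀ x : Pt,
  (lf x).Monic ∧ red x.1.1 (lf x) = mp x ∧ (lf x).natDegree = dg x ∧ 1 ≤ dg x ∧
  Irreducible (mp x) ∧ (mp x).Monic ∧ (∀ u : ℤ[X], aeval x.2 u = 0 ↔ mp x ∣ red x.1.1 u) ∧
  (∀ u : ℤ[X], aeval x.2 u = 0 → aeval x.2 (derivative u) = 0 → mp x ^ 2 ∣ red x.1.1 u) ∧
  Big x.2 (sz x) ∧ (x.1.1 ≠ 2 → sz ⟨x.1, -1 - 2 * x.2⟩ = sz x)

def StPlc : Prop :=
  (∀ q : ℕ, ∃ F : Finset Pt, F.card ≤ q ∧ ∀ x : Pt, sz x = q → x ∈ F) ∧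
  ∀ (p : Nat.Primes) (D : ℕ), ∃ F : Finset (FF p), F.card ≤ D * p.1 ^ D ∧
    ∀ θ : FF p, dg ⟨p, θ⟩ ≤ D → θ ∈ F

def StRing : Prop := ∀ x : Pt,
  (∀ e : ℕ, 1 ≤ e → ∃ (R : Type) (_ : CommRing R) (_ : Fintype R) (ev : ℤ[X] →+* R),
    Lev x.1.1 (e * dg x) ev ∧ Fintype.card R = sz x ^ e ∧
    (∀ u, aeval x.2 u ≠ 0 → IsUnit (ev u)) ∧ ∀ u, mp x ^ e ∣ red x.1.1 u → ev u = 0) ∧
  ∀ L : ℕ, ∃ (R : Type) (_ : CommRing R) (_ : Fintype R) (ev : ℤ[X] →+* R),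
    Lev x.1.1 (L * dg x) ev ∧ ∀ u, ev u = 0 ↔ u ∈ IL x L

def StKap : Prop := ∀ (R : Type) [CommRing R] (p : Nat.Primes) (D : ℕ) (ev : ℤ[X] →+* R) (n : ℕ)
  (M : Matrix (Fin n) (Fin n) ℤ) (y : Fin n → ℤ) (ψ : AddChar R ℂ), Lev p.1 D ev →
  (∃ r, ψ (ev M.charpoly * r) ≠ 1) → (∀ i, ψ (ev (aw M y i)) = 1) →
  ∃ κ : (ZMod p.1)[X], κ ≠ 0 ∧ κ.natDegree < D ∧
    aeval (M.map (Int.cast : ℤ → ZMod p.1)) κ *ᵥ (fun i => (y i : ZMod p.1)) = 0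

def StInv : Prop := ∀ x : Pt,
  (∀ (r c L : ℕ) (g z u a b : ℤ[X]), Ord x r g → r * (c + 1) ≤ L → c + 1 ≤ L →
    aeval x.2 u ≠ 0 → u * C ((x.1.1 : ℤ) ^ c) - (a * g + b * z) ∈ IL x L → Cop x c g z) ∧
  (∀ (r L : ℕ) (z z' : ℤ[X]), r ≤ L → 1 ≤ L → z - z' ∈ IL x L → Ord x r z → Ord x r z') ∧
  ∀ (r k L : ℕ) (g z0 : ℤ[X]), Ord x r g → r + k ≤ L →
    pr (fun b : Bv k => ∃ z, z - (z0 + g * pb b) ∈ IL x L ∧ ¬ Ord x (r + k) z) ≤ (1 / 2) ^ k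

def StPV : Prop := ∀ (x : Pt) (r c1 m L : ℕ) (g a z0 : ℤ[X]), Ord x r g → Cop x c1 g a →
  r * ((r * dg x + 1) * (r * dg x) * (c1 + m) + 1) ≤ L →
  (r * dg x + 1) * (r * dg x) * (c1 + m) + 1 ≤ L →
  pr (fun τ : Fin (x.1.1 ^ (m + 1)) => ∃ z, z - (z0 + C ((τ.val : ℕ) : ℤ) * a) ∈ IL x L ∧
    ¬ Cop x ((r * dg x + 1) * (r * dg x) * (c1 + m)) g z) ≤
    ((r * dg x : ℕ) : ℝ) / (x.1.1 : ℝ) ^ (m + 1)

/-! ### Statements: probabilistic tools -/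

def StRow : Prop := ∀ (Γ : Type) [AddCommGroup Γ] (n : ℕ) (J : Finset (Fin n))
  (w b : Fin n → Γ) (γ : ℝ),
  (∀ c, pr (fun a : Bv n => ∑ j ∈ J, sv 0 1 a j • w j = c) ≤ γ) →
  pr (fun G : Gr n => ∀ i, i ∉ J → ∑ j, aM G i j • w j = b i) ≤ γ ^ (n - J.card)

def StWalk : Prop := ∀ (Γ : Type) [AddCommGroup Γ] [Fintype Γ] (n : ℕ) (J : Finset (Fin n))
  (w : Fin n → Γ),
  (∀ c, pr (fun a : Bv n => ∑ j ∈ J, sv 0 1 a j • w j = c) ≤ lw J w (· = 0)) ∧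
  1 / (Fintype.card Γ : ℝ) ≤ lw J w (· = 0) ∧
  ∀ j, j ∉ J → lw (insert j J) w (· = 0) = 3 / 4 * lw J w (· = 0) + 1 / 4 * lw J w (· = w j)

def StSel : Prop := ∀ (Γ : Type) [AddCommGroup Γ] [Fintype Γ] (n m : ℕ) (J0 : Finset (Fin n))
  (w : Fin n → Γ), Fintype.card Γ ≤ 2 ^ m →
  ∃ J, J0 ⊆ J ∧ J.card ≤ J0.card + 1024 * m ∧
    ∀ j, j ∉ J → 255 / 256 * lw J w (· = 0) ≤ lw J w (· = w j)

open Classical in
def StArc : Prop := ∀ (Γ : Type) [AddCommGroup Γ] [Fintype Γ] (ψ : AddChar Γ ℂ),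
  ∃ B : Option Γ → Γ → Prop, ∀ (n : ℕ) (w : Fin n → Γ), 2 ≤ n → (∃ i, ψ (w i) ≠ 1) →
    ¬ Sprd ψ w → ∃ (o : Option Γ) (J0 : Finset (Fin n)), J0.card ≤ 2 ∧
      (∀ J, J0 ⊆ J → lw J w (B o) ≤ 63 / 64) ∧
      1000 * (univ.filter fun i => i ∉ J0 ∧ ¬ B o (w i)).card ≤ n

def StSP : Prop := ∃ N : ℕ, ∀ (Γ : Type) [AddCommGroup Γ] [Fintype Γ] (n m : ℕ)
  (L : Fin n → Γ → Γ) (ψ : AddChar Γ ℂ), N ≤ m → m ^ 3 ≤ n → Fintype.card Γ ≤ 2 ^ m →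
  pr (fun G : Gr n => ∃ w : Fin n → Γ, (∀ i, ∑ j, aM G i j • w j = L i (w i)) ∧
    (∃ i, ψ (w i) ≠ 1) ∧ ¬ Sprd ψ w) ≤ (999 / 1000) ^ n

def StFI : Prop := ∀ (Ω Γ T : Type) [Fintype Ω] [AddCommGroup Γ] [Fintype Γ] [Fintype T]
  [Nonempty T] (Z : Ω → Γ) (h : T → Γ) (B : Γ → Prop) (η ρ : ℝ), 0 ≤ η →
  (∀ ψ : AddChar Γ ℂ, (∃ t, ψ (h t) ≠ 1) → ‖exc fun ω => ψ (Z ω)‖ ≤ η) →
  (∀ z, pr (fun t => B (z + h t)) ≤ ρ) →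
  pr (fun ω => B (Z ω)) ≤ ρ + 2 * Fintype.card Γ * η

def StDec : Prop := ∀ (Γ : Type) [AddCommGroup Γ] [Fintype Γ] (ψ : AddChar Γ ℂ) (n : ℕ)
  (N : Fin n → Fin n → Γ) (u : Fin n → ℂ) (I : Finset (Fin n)), (∀ i j, N i j = N j i) →
  (∀ i, ‖u i‖ = 1) →
  ‖exc fun s : Bv n => ψ (∑ i, ∑ j, (sv 0 1 s i * sv 0 1 s j) • N i j) *
    ∏ i, if s i = true then u i else 1‖ ^ 2 ≤
  ex fun ω : Bv n × Bv n => ∏ i ∈ Iᶜ,
    ‖1 + ψ (∑ j ∈ I, (2 * (sv 0 1 ω.1 j - sv 0 1 ω.2 j)) • N i j)‖ / 2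

def StOdl : Prop := ∀ (K : Type) [Field K] (n : ℕ),
  (∀ (α β : ℤ) (E : Submodule K (Fin n → K)), ((β - α : ℤ) : K) ≠ 0 →
    pr (fun s : Bv n => ∀ z ∈ E, dt (sv α β s) z = 0) ≤ (1 / 2) ^ Module.finrank K E) ∧
  (∀ (W : Submodule K (Fin n → K)) (I : Finset (Fin n)) (b : Fin n → K),
    pr (fun s : Bv n => (fun j => if j ∈ I then ((sv 0 1 s j : ℤ) : K) else 0) - b ∈ W) ≤
      2 ^ Module.finrank K W / 2 ^ I.card) ∧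
  ((2 : K) = 0 → ∀ (M : Matrix (Fin n) (Fin n) ℤ) (θ : K) (z : Fin n → K) (b : K) (Q : ℕ),
    z ∈ eg K M θ → z ≠ 0 → 1 ≤ Q → Big θ Q →
    pr (fun s : Bv n => dt (sv 0 1 s) z = b) ≤ 1 / (Q : ℝ))

def StReg : Prop := ∀ (K : Type) [Field K] (α β : ℤ) (θ : K), ((β - α : ℤ) : K) ≠ 0 →
  (∀ n : ℕ, ex (fun G : Gr n => (3 / 2 : ℝ) ^ gd K (gm α β G) θ) ≤ 8) ∧
  ∀ n k : ℕ, k ≤ n → pr (fun G : Gr n => ∀ (j : ℕ) (h : j ≤ n), n ≤ j + k →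
    1 ≤ gd K (gm α β (rs G j h)) θ) ≤ 8 * (7 / 8) ^ k

def StPot : Prop := ∀ (g : (j : ℕ) → Gr j → ℕ) (Gd : (j : ℕ) → Gr j → Prop) (a β : ℝ)
  (j0 n d : ℕ), 0 < a → a ≤ 1 / 16 → 0 ≤ β → j0 ≤ n → 2 * (1 / (4 * a)) ^ j0 ≤ 2 ^ (n - j0) →
  (∀ j G, g j G ≤ j) → (∀ j G s, g (j + 1) (bord G s) ≤ g j G + 1) →
  (∀ j, j0 ≤ j → j < n → pr (fun G => ¬ Gd j G) ≤ β ∧
    pr (fun ω : Gr j × Bv j => g j ω.1 = 0 ∧ 1 ≤ g (j + 1) (bord ω.1 ω.2)) ≤ a ∧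
    ∀ G, Gd j G → 1 ≤ g j G → pr (fun s => g j G ≤ g (j + 1) (bord G s)) ≤ a) →
  pr (fun G : Gr n => d ≤ g n G) ≤ 3 * (4 * a) ^ d + n * β

def StKer : Prop := ∀ (α β : ℤ) (p : Nat.Primes) (D k n : ℕ),
  (¬ (p.1 : ℤ) ∣ β - α →
    pr (fun G : Gr n => ¬ Ker α β p D k G) ≤ D * (p.1 : ℝ) ^ D * (8 * (2 / 3) ^ k)) ∧
  ∀ G : Gr n, Ker α β p D k G → ∀ κ : (ZMod p.1)[X], κ ≠ 0 → κ.natDegree ≤ D →
    ∀ (I : Finset (Fin n)) (b : Fin n → ZMod p.1),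
      pr (fun s : Bv n => aeval ((gm α β G).map (Int.cast : ℤ → ZMod p.1)) κ *ᵥ
        (fun j => if j ∈ I then ((sv 0 1 s j : ℤ) : ZMod p.1) else 0) = b) ≤
        2 ^ (D * k) / 2 ^ I.card

def StMu : Prop := ∃ N : ℕ, ∀ (p : Nat.Primes) (D n m : ℕ), N ≤ m → m ^ 3 ≤ n →
  p.1 ^ D ≤ 2 ^ m → pr (fun G : Gr n => ¬ Mu p.1 D G) ≤ (1 / 2) ^ m

def StEQ : Prop := ∃ N : ℕ, ∀ (α β : ℤ) (R : Type) [CommRing R] [Fintype R] (p : Nat.Primes)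
  (D : ℕ) (ev : ℤ[X] →+* R) (n m : ℕ), N ≤ m → m ^ 3 ≤ n → ¬ (p.1 : ℤ) ∣ β - α →
  Lev p.1 D ev → Fintype.card R ≤ 2 ^ m → p.1 ^ D ≤ 2 ^ m →
  pr (fun G : Gr n => ¬ EQ α β ev ((1 / 2) ^ (3 * m)) G) ≤ (1 / 2) ^ m

def StLin : Prop := ∃ N : ℕ, ∀ (R : Type) [CommRing R] [Fintype R] (ev : ℤ[X] →+* R) (n m : ℕ),
  N ≤ m → m ^ 3 ≤ n → Fintype.card R ≤ 2 ^ m →
  pr (fun G : Gr n => ¬ LIN ev ((1 / 2) ^ (3 * m)) G) ≤ (1 / 2) ^ m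

def StAC0 : Prop := ∃ N : ℕ, ∀ n t : ℕ, N ≤ t → t ^ 14 ≤ n →
  pr (fun G : Gr n => ¬ AC0 t G) ≤ (1 / 2) ^ t ^ 2

def StACT : Prop := ∃ N : ℕ, ∀ (n t : ℕ) (G : Gr n), N ≤ t → n ≤ 2 ^ t → AC0 t G → AC t G

def StSw : Prop := ∀ (n : ℕ) (E : Matrix (Fin n) (Fin n) ℤ → (Fin n → ℤ) → Prop),
  (∀ M v (d : Fin n → ℤ), (∀ i, d i = 1 ∨ d i = -1) →
    (E (Matrix.of fun i j => d i * M i j * d j) (fun i => d i * v i) ↔ E M v)) →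
  pr (fun G : Gr n => E (sM G) 1) = pr fun ω : Gr n × Bv n => E (sM ω.1) (sv 1 (-1) ω.2)

def StPar : Prop := ∀ N : ℕ, ∃ n0 : ℕ, ∀ n ≥ n0, ∃ t j0 : ℕ, N ≤ t ∧ Par n t j0

/-! ### Statements: odd characteristic and characteristic zero -/

def StMq : Prop := ∃ N : ℕ, ∀ (j t e : ℕ) (x : Pt), N ≤ t → (100 * t) ^ 3 ≤ j → x.1.1 ≠ 2 →
  sz x ≤ 2 ^ t → (e = 1 ∨ e = 2) →
  pr (fun ω : Gr j × Bv j => aeval x.2 (sM ω.1).charpoly ≠ 0 ∧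
    mp x ^ e ∣ red x.1.1 (sM (bord ω.1 ω.2)).charpoly) ≤ 2 / (sz x : ℝ) ^ e

def StMed : Prop := ∃ (N : ℕ) (c : ℝ), ∀ (n t j0 : ℕ) (x : Pt), N ≤ t → Par n t j0 →
  x.1.1 ≠ 2 → 32 ≤ sz x → sz x ≤ 2 ^ t →
  pr (fun ω : Gr n × Bv n => IsoP x (sM ω.1) (sv 1 (-1) ω.2)) ≤
    c / (sz x : ℝ) ^ 3 + (1 / 2) ^ (3 * t)

def StLarge : Prop := ∃ N : ℕ, ∀ n t j0 : ℕ, N ≤ t → Par n t j0 →
  pr (fun ω : Gr n × Bv n => RealP (sM ω.1) (sv 1 (-1) ω.2) ∨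
    ∃ x : Pt, x.1.1 ≠ 2 ∧ 2 ^ t < sz x ∧ IsoP x (sM ω.1) (sv 1 (-1) ω.2)) ≤ 1 / (n : ℝ)

def StOdd : Prop := ∀ ε : ℝ, 0 < ε → ∃ Q0 N : ℕ, ∀ n ≥ N,
  pr (fun G : Gr n => RealP (aM G) 1 ∨ ∃ x : Pt, x.1.1 ≠ 2 ∧ Q0 < sz x ∧ IsoP x (aM G) 1) ≤ ε

/-! ### Statements: characteristic two -/

def StXq : Prop := ∀ (n D : ℕ) (G : Gr n) (x : Pt), x.1.1 = 2 → Mu x.1.1 D G → dg x ≤ D →
  aeval x.2 (ph G) ≠ 0 → pr (fun s : Bv n => aeval x.2 (ph G + yy G s) = 0) ≤ 1 / (sz x : ℝ)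

def StT3 : Prop := ∀ (n : ℕ) (G : Gr n) (x : Pt), x.1.1 = 2 → x.2 ≠ 0 → aeval x.2 (ph G) ≠ 0 →
  pr (fun s : Bv n => E2 x (ph (bord G s))) ≤
    2 * (1 / 2) ^ (dg x / 3) * pr fun s : Bv n => aeval x.2 (ph G + yy G s) = 0

def StT1 : Prop := ∀ ε : ℝ, 0 < ε → ∃ Q0 N : ℕ, ∀ n ≥ N,
  pr (fun ω : Gr n × Bv n => ∃ x : Pt, x.1.1 = 2 ∧ Q0 < sz x ∧ aeval x.2 (ph ω.1) = 0 ∧
    aeval x.2 (ph (bord ω.1 ω.2)) = 0) ≤ ε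

def StT2 : Prop := ∀ ε : ℝ, 0 < ε → ∃ Q0 N : ℕ, ∀ n ≥ N,
  pr (fun ω : Gr n × Bv n => ∃ x : Pt, x.1.1 = 2 ∧ Q0 < sz x ∧ aeval x.2 (ph ω.1) ≠ 0 ∧
    E2 x (ph (bord ω.1 ω.2))) ≤ ε

/-! ### Statements: small points -/

def StVa : Prop := ∀ (x : Pt) (r c : ℕ) (ε : ℝ), 0 < ε → ∃ r2 c2 N : ℕ, ∀ n ≥ N,
  pr (fun ω : Gr n × Bv n => St x r c ω.1 ∧
    ¬ (Cop x c2 (ph ω.1) (yy ω.1 ω.2) ∧ Ord x r2 (ph ω.1 + yy ω.1 ω.2))) ≤ ε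

def StVc : Prop := ∀ (x : Pt) (r r2 c2 : ℕ) (ε : ℝ), 0 < ε → ∃ r3 c3 N : ℕ, ∀ n ≥ N,
  pr (fun ω : Gr n × Bv n => Ord x r (ph ω.1) ∧ Cop x c2 (ph ω.1) (yy ω.1 ω.2) ∧
    Ord x r2 (ph ω.1 + yy ω.1 ω.2) ∧ ¬ (Ord x r3 (ph (bord ω.1 ω.2)) ∧
      Cop x c3 (ph ω.1 + yy ω.1 ω.2) (ph (bord ω.1 ω.2)))) ≤ ε

def StSmall : Prop := ∀ (x : Pt) (ε : ℝ), 0 < ε → ∃ c N : ℕ, ∀ n ≥ N,
  pr (fun G : Gr n => ¬ Cop x c (ph G) (ps G)) ≤ ε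

end Pool.Agent.P.MP_f57657_co.DG
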