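import Pool.Agent.P.MP_f57657_co.DG.Base

/-! Few places carry a multiple root of the Seidel characteristic polynomial when the real
spectrum is simple. -/

open Matrix Finset Polynomial

namespace Pool.Agent.P.MP_f57657_co.DG

namespace DiscAux

/-- The resultant of a monic integer polynomial and its derivative, seen in a splitting field. -/
theorem res_cast {K : Type} [Field K] (f : ℤ[X]) (hf : f.Monic)
    (hs : (f.map (Int.castRingHom K)).Splits) :
    ((resultant f (derivative f) f.natDegree f.natDegree : ℤ) : K) =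
      ((f.map (Int.castRingHom K)).roots.map
        (derivative (f.map (Int.castRingHom K))).eval).prod := by
  have hm : (f.map (Int.castRingHom K)).Monic := hf.map _
  have hd : (f.map (Int.castRingHom K)).natDegree = f.natDegree := hf.natDegree_map _
  have h1 := resultant_eq_prod_eval (f.map (Int.castRingHom K))
    (derivative (f.map (Int.castRingHom K))) f.natDegree
    ((natDegree_derivative_le _).trans (by omega)) hs
  rw [hm.leadingCoeff, one_pow, one_mul, hd] at h1
  rw [← h1, derivative_map, resultant_map_map]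
  rfl

theorem abs_sM {n : ℕ} (G : Gr n) (i j : Fin n) : |((sM G i j : ℤ) : ℝ)| ≤ 1 := by
  simp only [sM, gm, of_apply]
  split_ifs <;> simp

theorem abs_le_of_eg {n : ℕ} (G : Gr n) {θ : ℝ} {z : Fin n → ℝ} (hz : z ∈ eg ℝ (sM G) θ)
    (h0 : z ≠ 0) : |θ| ≤ n := by
  obtain ⟨i, hi⟩ := Function.ne_iff.1 h0
  obtain ⟨k, -, hk⟩ := exists_max_image univ (fun j => |z j|) ⟨i, mem_univ i⟩
  have hpos : 0 < |z k| := (abs_pos.2 hi).trans_le (hk i (mem_univ i))
  have h1 := mem_eg.1 hz k
  have h2 : |θ| * |z k| ≤ n * |z k| := by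
    rw [← abs_mul, ← h1]
    refine (abs_sum_le_sum_abs _ _).trans ?_
    have h3 : ∀ j ∈ (univ : Finset (Fin n)), |((sM G k j : ℤ) : ℝ) * z j| ≤ |z k| := fun j _ => by
      rw [abs_mul]
      have := mul_le_mul (abs_sM G k j) (hk j (mem_univ j)) (abs_nonneg _) zero_le_one
      simpa using this
    simpa using sum_le_card_nsmul _ _ _ h3
  exact le_of_mul_le_mul_right h2 hpos

theorem herm {n : ℕ} (G : Gr n) : ((sM G).map (Int.cast : ℤ → ℝ)).IsHermitian := by
  ext i j
  simp only [conjTranspose_apply, map_apply, star_trivial]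
  exact congrArg _ ((gm_symm 1 (-1) G).apply i j)

theorem vec_mem {n : ℕ} (G : Gr n) (k : Fin n) :
    ((herm G).eigenvectorBasis k).ofLp ∈ eg ℝ (sM G) ((herm G).eigenvalues k) :=
  mem_eg'.2 ((herm G).mulVec_eigenvectorBasis k)

theorem vec_li {n : ℕ} (G : Gr n) :
    LinearIndependent ℝ fun k => ((herm G).eigenvectorBasis k).ofLp :=
  ((herm G).eigenvectorBasis.orthonormal.linearIndependent).map'
    (WithLp.linearEquiv 2 ℝ (Fin n → ℝ)).toLinearMap (LinearEquiv.ker _)

theorem eig_inj {n : ℕ} (G : Gr n) (h : ∀ θ : ℝ, gd ℝ (sM G) θ ≤ 1) :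
    Function.Injective (herm G).eigenvalues := by
  intro i j hij
  classical
  let θ := (herm G).eigenvalues i
  let v : {k // (herm G).eigenvalues k = θ} → eg ℝ (sM G) θ := fun k =>
    ⟨((herm G).eigenvectorBasis k.1).ofLp, by
      have := vec_mem G k.1
      rwa [k.2] at this⟩
  have hv : LinearIndependent ℝ v :=
    LinearIndependent.of_comp (eg ℝ (sM G) θ).subtype
      ((vec_li G).comp (fun k : {k // (herm G).eigenvalues k = θ} => k.1) Subtype.val_injective)
  have hc := hv.fintype_card_le_finrank.trans (h θ)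
  have := Fintype.card_le_one_iff.1 hc ⟨i, rfl⟩ ⟨j, hij.symm⟩
  exact congrArg Subtype.val this

theorem eig_le {n : ℕ} (G : Gr n) (k : Fin n) : |(herm G).eigenvalues k| ≤ n :=
  abs_le_of_eg G (vec_mem G k) ((vec_li G).ne_zero k)

theorem map_charpoly {n : ℕ} (G : Gr n) :
    (sM G).charpoly.map (Int.castRingHom ℝ) = ∏ i, (X - C ((herm G).eigenvalues i)) := by
  rw [← charpoly_map]
  exact (herm G).charpoly_eq

theorem eval_deriv {n : ℕ} (lam : Fin n → ℝ) (i : Fin n) :
    (derivative (∏ j, (X - C (lam j)))).eval (lam i) = ∏ j ∈ univ.erase i, (lam i - lam j) := by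
  rw [← mul_prod_erase univ _ (mem_univ i), derivative_mul]
  simp [eval_prod]

theorem res_real {n : ℕ} (G : Gr n) :
    ((resultant (sM G).charpoly (derivative (sM G).charpoly) (sM G).charpoly.natDegree
      (sM G).charpoly.natDegree : ℤ) : ℝ) =
      ∏ i, ∏ j ∈ univ.erase i, ((herm G).eigenvalues i - (herm G).eigenvalues j) := by
  have hs : ((sM G).charpoly.map (Int.castRingHom ℝ)).Splits := by
    rw [← charpoly_map]
    exact (herm G).splits_charpoly
  have hr : ((sM G).charpoly.map (Int.castRingHom ℝ)).roots =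
      Multiset.map (herm G).eigenvalues univ.val := by
    rw [← charpoly_map]
    exact (herm G).roots_charpoly_eq_eigenvalues
  rw [res_cast _ (charpoly_monic _) hs, hr, map_charpoly, Multiset.map_map]
  exact prod_congr rfl fun i _ => eval_deriv _ i

theorem two_mul_le (n : ℕ) : 2 * n ≤ 2 ^ n := by
  rcases n with _ | n
  · simp
  · have := Nat.lt_two_pow_self (n := n)
    rw [pow_succ]
    omega

theorem prod_le {n : ℕ} (lam : Fin n → ℝ) (h : ∀ k, |lam k| ≤ n) :
    |∏ i, ∏ j ∈ univ.erase i, (lam i - lam j)| ≤ 2 ^ n ^ 3 := by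
  have h1 : ∀ i j, |lam i - lam j| ≤ 2 ^ n := fun i j => by
    have h2 : ((2 * n : ℕ) : ℝ) ≤ ((2 ^ n : ℕ) : ℝ) := Nat.cast_le.2 (two_mul_le n)
    push_cast at h2
    have := abs_sub (lam i) (lam j)
    linarith [h i, h j]
  have h3 : (1 : ℝ) ≤ 2 ^ n := one_le_pow₀ one_le_two
  have h4 : ∀ i, |∏ j ∈ univ.erase i, (lam i - lam j)| ≤ (2 ^ n) ^ n := fun i => by
    rw [abs_prod]
    refine (prod_le_prod (fun j _ => abs_nonneg _) fun j _ => h1 i j).trans ?_
    rw [prod_const]
    refine pow_le_pow_right₀ h3 ?_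
    simp
  rw [abs_prod]
  refine (prod_le_prod (fun j _ => abs_nonneg _) fun i _ => h4 i).trans ?_
  rw [prod_const, card_univ, Fintype.card_fin, ← pow_mul, ← pow_mul]
  exact le_of_eq (by congr 1; ring)

theorem card_primeFactors_le {d N : ℕ} (h0 : d ≠ 0) (h : d ≤ 2 ^ N) : d.primeFactors.card ≤ N := by
  have h1 : 2 ^ d.primeFactors.card ≤ ∏ p ∈ d.primeFactors, p :=
    pow_card_le_prod _ _ _ fun p hp => (Nat.prime_of_mem_primeFactors hp).two_le
  have h2 := Nat.le_of_dvd (Nat.pos_of_ne_zero h0) (Nat.prod_primeFactors_dvd d)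
  exact (Nat.pow_le_pow_iff_right one_lt_two).1 (h1.trans (h2.trans h))

end DiscAux

open DiscAux in
theorem pDisc : StDisc := by
  intro n G h
  classical
  set χ := (sM G).charpoly with hχ
  have hm : χ.Monic := charpoly_monic _
  have hdeg : χ.natDegree = n := by rw [hχ, charpoly_natDegree_eq_dim, Fintype.card_fin]
  set d : ℤ := resultant χ (derivative χ) χ.natDegree χ.natDegree with hd
  have hre := res_real G
  rw [← hχ, ← hd] at hre
  have hd0 : d ≠ 0 := by
    intro e
    rw [e, Int.cast_zero] at hre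
    obtain ⟨i, -, hi⟩ := prod_eq_zero_iff.1 hre.symm
    obtain ⟨j, hj, hij⟩ := prod_eq_zero_iff.1 hi
    exact (mem_erase.1 hj).1 (eig_inj G h (sub_eq_zero.1 hij)).symm
  have hdle : d.natAbs ≤ 2 ^ n ^ 3 := by
    have h1 := prod_le _ (eig_le G)
    rw [← hre, ← Int.cast_abs, Int.abs_eq_natAbs] at h1
    exact_mod_cast h1
  have hP := card_primeFactors_le (Int.natAbs_ne_zero.2 hd0) hdle
  let P : Finset Nat.Primes := d.natAbs.primeFactors.subtype Nat.Prime
  have hPc : P.card ≤ n ^ 3 := by
    refine le_trans ?_ hP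
    rw [show P.card = (d.natAbs.primeFactors.subtype Nat.Prime).card from rfl, card_subtype]
    exact card_filter_le _ _
  refine ⟨P.sigma fun p => (χ.map (Int.castRingHom (FF p))).roots.toFinset, ?_, ?_⟩
  · rw [card_sigma]
    have h1 : ∀ p ∈ P, (χ.map (Int.castRingHom (FF p))).roots.toFinset.card ≤ n := fun p _ =>
      (Multiset.toFinset_card_le _).trans ((card_roots' _).trans (natDegree_map_le.trans hdeg.le))
    refine (sum_le_card_nsmul _ _ _ h1).trans ?_
    rw [smul_eq_mul, pow_succ]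
    exact Nat.mul_le_mul_right n hPc
  · rintro ⟨p, θ⟩ h1 h2
    have e1 : ∀ u : ℤ[X], aeval θ u = (u.map (Int.castRingHom (FF p))).eval θ := fun u => by
      rw [aeval_def, eval_map]
      rfl
    have hr : θ ∈ (χ.map (Int.castRingHom (FF p))).roots := by
      rw [mem_roots (hm.map _).ne_zero, IsRoot, ← e1]
      exact h1
    have hz : ((d : ℤ) : FF p) = 0 := by
      rw [hd, res_cast χ hm (IsAlgClosed.splits _)]
      refine Multiset.prod_eq_zero (Multiset.mem_map.2 ⟨θ, hr, ?_⟩)
      rw [derivative_map, ← e1]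
      exact h2
    have hdvd : ((p.1 : ℕ) : ℤ) ∣ d := (CharP.intCast_eq_zero_iff (FF p) p.1 d).1 hz
    refine mem_sigma.2 ⟨?_, Multiset.mem_toFinset.2 hr⟩
    refine mem_subtype.2 (Nat.mem_primeFactors.2 ⟨p.2, ?_, Int.natAbs_ne_zero.2 hd0⟩)
    exact Int.natCast_dvd.1 hdvd

end Pool.Agent.P.MP_f57657_co.DG
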