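import Pool.Agent.P.MP_f57657_co.DG.Base

/-! Fourier inversion: small Fourier coefficients give approximate translation invariance. -/

open Finset

namespace Pool.Agent.P.MP_f57657_co.DG

namespace FIAux

variable {Ω Γ : Type} [Fintype Ω] [AddCommGroup Γ] [Fintype Γ]

theorem inv (Z : Ω → Γ) (z : Γ) :
    ((pr (fun ω => Z ω = z) : ℝ) : ℂ) * Fintype.card Γ =
      ∑ ψ : AddChar Γ ℂ, ψ (-z) * exc fun ω => ψ (Z ω) := by
  classical
  have h1 : ∀ ω, ((if Z ω = z then (1 : ℝ) else 0 : ℝ) : ℂ) * Fintype.card Γ =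
      ∑ ψ : AddChar Γ ℂ, ψ (-z) * ψ (Z ω) := by
    intro ω
    simp only [← AddChar.map_add_eq_mul]
    rw [AddChar.sum_apply_eq_ite]
    by_cases h : Z ω = z
    · simp [h]
    · have : -z + Z ω ≠ 0 := fun e => h (neg_add_eq_zero.1 e).symm
      simp [h, this]
  simp only [pr, ex, exc, Complex.ofReal_div, Complex.ofReal_sum, Complex.ofReal_natCast]
  rw [div_mul_eq_mul_div, sum_mul]
  simp only [mul_div_assoc', ← sum_div, mul_sum]
  congr 1
  rw [sum_comm]
  exact sum_congr rfl fun ω _ => by convert h1 ω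

theorem point (Z : Ω → Γ) (a : Γ) {η : ℝ} (hη : 0 ≤ η)
    (H : ∀ ψ : AddChar Γ ℂ, ψ a ≠ 1 → ‖exc fun ω => ψ (Z ω)‖ ≤ η) (z : Γ) :
    pr (fun ω => Z ω = z) ≤ pr (fun ω => Z ω + a = z) + 2 * η := by
  have hc : (0 : ℝ) < Fintype.card Γ := Nat.cast_pos.2 Fintype.card_pos
  have e1 : pr (fun ω => Z ω + a = z) = pr (fun ω => Z ω = z - a) :=
    pr_congr fun ω => eq_sub_iff_add_eq.symm
  have e2 : (((pr (fun ω => Z ω = z) - pr (fun ω => Z ω = z - a)) * Fintype.card Γ : ℝ) : ℂ) =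
      ∑ ψ : AddChar Γ ℂ, ψ (-z) * (1 - ψ a) * exc fun ω => ψ (Z ω) := by
    rw [Complex.ofReal_mul, Complex.ofReal_sub, Complex.ofReal_natCast, sub_mul, inv, inv,
      ← sum_sub_distrib]
    refine sum_congr rfl fun ψ _ => ?_
    rw [neg_sub, sub_eq_add_neg a z, AddChar.map_add_eq_mul]
    ring
  have e3 : ‖∑ ψ : AddChar Γ ℂ, ψ (-z) * (1 - ψ a) * exc fun ω => ψ (Z ω)‖ ≤
      2 * η * Fintype.card Γ := by
    refine (norm_sum_le _ _).trans ?_
    have : ∀ ψ ∈ (univ : Finset (AddChar Γ ℂ)),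
        ‖ψ (-z) * (1 - ψ a) * exc fun ω => ψ (Z ω)‖ ≤ 2 * η := by
      intro ψ _
      by_cases h : ψ a = 1
      · simp [h, hη]
      · rw [norm_mul, norm_mul, AddChar.norm_apply, one_mul]
        have h2 := norm_sub_le 1 (ψ a)
        rw [norm_one, AddChar.norm_apply] at h2
        exact mul_le_mul (by linarith) (H ψ h) (norm_nonneg _) (by norm_num)
    refine (sum_le_card_nsmul _ _ _ this).trans ?_
    rw [card_univ, AddChar.card_eq, nsmul_eq_mul, mul_comm]
  rw [← e2, Complex.norm_real, Real.norm_eq_abs] at e3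
  have e4 := le_of_mul_le_mul_right ((le_abs_self _).trans e3) hc
  rw [e1]
  linarith

omit [AddCommGroup Γ] in
theorem split (Z : Ω → Γ) (B : Γ → Prop) [DecidablePred B] :
    pr (fun ω => B (Z ω)) = ∑ z ∈ univ.filter B, pr fun ω => Z ω = z := by
  classical
  simp only [pr]
  rw [← ex_sum]
  refine congrArg ex (funext fun ω => ?_)
  by_cases h : B (Z ω)
  · rw [if_pos h, sum_eq_single (Z ω)]
    · simp
    · intro z _ hz
      rw [if_neg (Ne.symm hz)]
    · intro hz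
      exact absurd (mem_filter.2 ⟨mem_univ _, h⟩) hz
  · rw [if_neg h, eq_comm]
    refine sum_eq_zero fun z hz => if_neg fun e => h ?_
    rw [e]
    exact (mem_filter.1 hz).2

theorem shift (Z : Ω → Γ) (a : Γ) (B : Γ → Prop) {η : ℝ} (hη : 0 ≤ η)
    (H : ∀ ψ : AddChar Γ ℂ, ψ a ≠ 1 → ‖exc fun ω => ψ (Z ω)‖ ≤ η) :
    pr (fun ω => B (Z ω)) ≤ pr (fun ω => B (Z ω + a)) + 2 * Fintype.card Γ * η := by
  classical
  rw [split Z B, split (fun ω => Z ω + a) B]
  refine (sum_le_sum fun z _ => point Z a hη H z).trans ?_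
  rw [sum_add_distrib, sum_const, nsmul_eq_mul]
  have : ((univ.filter B).card : ℝ) ≤ Fintype.card Γ := Nat.cast_le.2 (card_le_univ _)
  nlinarith

end FIAux

theorem pFI : StFI := by
  intro Ω Γ T _ _ _ _ _ Z h B η ρ hη H hρ
  have h0 : 0 ≤ ρ := (pr_nonneg _).trans (hρ 0)
  have h1 : ex (fun _ : T => pr fun ω => B (Z ω)) ≤
      ex fun t : T => pr (fun ω => B (Z ω + h t)) + 2 * Fintype.card Γ * η :=
    ex_mono fun t => FIAux.shift Z (h t) B hη fun ψ hψ => H ψ ⟨t, hψ⟩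
  rw [ex_const, ex_add, ex_const] at h1
  have h2 : (ex fun t : T => pr fun ω => B (Z ω + h t)) ≤ ρ := by
    simp only [pr]
    rw [ex_comm]
    exact ex_le_const h0 fun ω => hρ (Z ω)
  linarith

end Pool.Agent.P.MP_f57657_co.DG
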