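import Pool.Agent.P.MP_f57657_co.DG.Base

/-! Large places and characteristic zero in the Seidel chain. -/

open Matrix Finset Polynomial

namespace Pool.Agent.P.MP_f57657_co.DG

namespace LargeAux

theorem chain {n : ℕ} (g : (j : ℕ) → j ≤ n → ℕ) (d a : ℕ) (h0 : ∀ h, g a h ≤ a)
    (hs : ∀ j (h : j + 1 ≤ n), a ≤ j → g (j + 1) h ≤ g j (Nat.le_of_succ_le h) + 1 ∧
      (d ≤ g j (Nat.le_of_succ_le h) → g (j + 1) h + 1 ≤ g j (Nat.le_of_succ_le h))) :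
    ∀ j, a ≤ j → ∀ h : j ≤ n, g j h ≤ max d (2 * a - j) := by
  intro j hj
  induction j, hj using Nat.le_induction with
  | base =>
    intro h
    have := h0 h
    omega
  | succ j hj ih =>
    intro h
    have h1 := ih (Nat.le_of_succ_le h)
    have h2 := hs j h hj
    omega

/-- All eigenvectors are orthogonal to the new column. -/
def Perp (K : Type) [Field K] {j : ℕ} (G : Gr j) (θ : K) (s : Bv j) : Prop :=
  ∀ z ∈ eg K (sM G) θ, dt (sv 1 (-1) s) z = 0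

/-- Simple real spectrum. -/
def Simple {j : ℕ} (G : Gr j) : Prop := ∀ θ : ℝ, gd ℝ (sM G) θ ≤ 1

/-- A large odd place. -/
def Lg (t : ℕ) (x : Pt) : Prop := x.1.1 ≠ 2 ∧ 2 ^ t < sz x

/-- A multiple place. -/
def Mult {j : ℕ} (G : Gr j) (x : Pt) : Prop :=
  2 ≤ gd (FF x.1) (sM G) x.2 ∨ ∃ z ∈ eg (FF x.1) (sM G) x.2, z ≠ 0 ∧ z ⬝ᵥ z = 0

/-- Bad real step. -/
def BR {j : ℕ} (G : Gr j) (s : Bv j) : Prop := ∃ θ : ℝ, 1 ≤ gd ℝ (sM G) θ ∧ Perp ℝ G θ s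

/-- Bad step at a place. -/
def BP (t : ℕ) {j : ℕ} (G : Gr j) (s : Bv j) : Prop :=
  Simple G ∧ ∃ x : Pt, Lg t x ∧ Mult G x ∧ Perp (FF x.1) G x.2 s

theorem two_ne (p : Nat.Primes) (hp : p.1 ≠ 2) : (2 : FF p) ≠ 0 := by
  intro h
  have h1 : ((2 : ℕ) : FF p) = 0 := by exact_mod_cast h
  rw [CharP.cast_eq_zero_iff (FF p) p.1] at h1
  exact hp ((Nat.prime_dvd_prime_iff_eq p.2 Nat.prime_two).1 h1)

theorem ac_one {t j : ℕ} {G : Gr j} (hG : AC t G) (K : Type) [Field K] (h2 : (2 : K) ≠ 0) (θ : K)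
    (hb : Big θ (2 ^ t)) (z : Fin j → K) (hz : z ∈ eg K (sM G) θ) (h0 : z ≠ 0) :
    pr (fun s : Bv j => dt (sv 1 (-1) s) z = 0) ≤ 2 / (2 : ℝ) ^ t := by
  have := hG K h2 θ z 0 (2 ^ t) hz h0 Nat.one_le_two_pow le_rfl hb
  simpa using this

theorem ac_pt (hPl : StPl) {t j : ℕ} {G : Gr j} (hG : AC t G) (x : Pt) (hx : Lg t x)
    (z : Fin j → FF x.1) (hz : z ∈ eg (FF x.1) (sM G) x.2) (h0 : z ≠ 0) :
    pr (fun s : Bv j => dt (sv 1 (-1) s) z = 0) ≤ 2 / (2 : ℝ) ^ t :=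
  ac_one hG _ (two_ne x.1 hx.1) x.2 ((hPl x).2.2.2.2.2.2.2.2.1.mono hx.2.le) z hz h0

theorem pr_BR (hEv : StEv) {t j : ℕ} {G : Gr j} (hG : AC t G) :
    pr (fun s : Bv j => BR G s) ≤ j * (2 / (2 : ℝ) ^ t) := by
  obtain ⟨F, hF, hF'⟩ := (hEv ℝ j (sM G)).2.1
  have hc : (0 : ℝ) ≤ 2 / (2 : ℝ) ^ t := by positivity
  refine (pr_le_card_mul F (fun θ s => 1 ≤ gd ℝ (sM G) θ ∧ Perp ℝ G θ s)
    (c := 2 / (2 : ℝ) ^ t) (fun s hs => ?_) fun θ _ => ?_).trans ?_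
  · obtain ⟨θ, h⟩ := hs
    exact ⟨θ, hF' θ h.1, h⟩
  · by_cases h1 : 1 ≤ gd ℝ (sM G) θ
    · obtain ⟨z, hz, h0⟩ := one_le_gd.1 h1
      exact (pr_mono fun s hs => hs.2 z hz).trans
        (ac_one hG ℝ two_ne_zero θ (big_zero θ _) z hz h0)
    · rw [pr_false fun s hs => h1 hs.1]
      exact hc
  · exact mul_le_mul_of_nonneg_right (by exact_mod_cast hF) hc

theorem mult_ex {j : ℕ} {G : Gr j} {x : Pt} (h : Mult G x) :
    ∃ z ∈ eg (FF x.1) (sM G) x.2, z ≠ 0 := by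
  rcases h with h | ⟨z, hz, h0, -⟩
  · exact one_le_gd.1 (by omega)
  · exact ⟨z, hz, h0⟩

theorem mult_fin (hEv : StEv) (hDisc : StDisc) {j : ℕ} {G : Gr j} (hS : Simple G) :
    ∃ F : Finset Pt, F.card ≤ j ^ 4 ∧ ∀ x : Pt, Mult G x → x ∈ F := by
  obtain ⟨F, hF, hF'⟩ := hDisc j G hS
  refine ⟨F, hF, fun x hx => ?_⟩
  have := (hEv (FF x.1) j (sM G)).2.2 (gm_symm 1 (-1) G) x.2 hx
  exact hF' x this.1 this.2

theorem pr_BP (hEv : StEv) (hDisc : StDisc) (hPl : StPl) {t j : ℕ} {G : Gr j} (hG : AC t G) :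
    pr (fun s : Bv j => BP t G s) ≤ (j : ℝ) ^ 4 * (2 / (2 : ℝ) ^ t) := by
  have hc : (0 : ℝ) ≤ 2 / (2 : ℝ) ^ t := by positivity
  by_cases hS : Simple G
  · obtain ⟨F, hF, hF'⟩ := mult_fin hEv hDisc hS
    refine (pr_le_card_mul F (fun x s => Lg t x ∧ Mult G x ∧ Perp (FF x.1) G x.2 s)
      (c := 2 / (2 : ℝ) ^ t) (fun s hs => ?_) fun x _ => ?_).trans ?_
    · obtain ⟨x, h⟩ := hs.2
      exact ⟨x, hF' x h.2.1, h⟩
    · by_cases h1 : Lg t x ∧ Mult G x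
      · obtain ⟨z, hz, h0⟩ := mult_ex h1.2
        exact (pr_mono fun s hs => hs.2.2 z hz).trans (ac_pt hPl hG x h1.1 z hz h0)
      · rw [pr_false fun s hs => h1 ⟨hs.1, hs.2.1⟩]
        exact hc
    · exact mul_le_mul_of_nonneg_right (by exact_mod_cast hF) hc
  · rw [pr_false fun s hs => hS hs.1]
    positivity

/-- No bad step from `j0` on. -/
def NoBad (t j0 : ℕ) {n : ℕ} (G : Gr n) : Prop :=
  ∀ (j : ℕ) (h : j + 1 ≤ n), j0 ≤ j →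
    ¬ BR (rs G j (Nat.le_of_succ_le h)) (col (rs G (j + 1) h)) ∧
    ¬ BP t (rs G j (Nat.le_of_succ_le h)) (col (rs G (j + 1) h))

theorem pr_noBad (hEv : StEv) (hDisc : StDisc) (hPl : StPl) {t j0 n : ℕ} {β : ℝ} (hβ : 0 ≤ β)
    (hA : ∀ j, j0 ≤ j → j ≤ n → pr (fun G : Gr j => ¬ AC t G) ≤ β) :
    pr (fun G : Gr n => ¬ NoBad t j0 G) ≤
      n * (((n : ℝ) + (n : ℝ) ^ 4) * (2 / (2 : ℝ) ^ t) + β) := by
  have hc : (0 : ℝ) ≤ 2 / (2 : ℝ) ^ t := by positivity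
  have := pr_le_card_mul (range n) (E := fun G : Gr n => ¬ NoBad t j0 G)
    (fun j G => ∃ h : j + 1 ≤ n, j0 ≤ j ∧
      (BR (rs G j (Nat.le_of_succ_le h)) (col (rs G (j + 1) h)) ∨
        BP t (rs G j (Nat.le_of_succ_le h)) (col (rs G (j + 1) h))))
    (c := ((n : ℝ) + (n : ℝ) ^ 4) * (2 / (2 : ℝ) ^ t) + β) (fun G hG => ?_) fun j hj => ?_
  · simpa using this
  · by_contra hcon
    refine hG fun j h hj => ?_
    constructor
    · exact fun hb => hcon ⟨j, mem_range.2 h, h, hj, Or.inl hb⟩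
    · exact fun hb => hcon ⟨j, mem_range.2 h, h, hj, Or.inr hb⟩
  · have h : j + 1 ≤ n := mem_range.1 hj
    by_cases hj0 : j0 ≤ j
    · refine (pr_mono (F := fun G : Gr n => (fun (G' : Gr j) (s : Bv j) => BR G' s ∨ BP t G' s)
        (rs G j (Nat.le_of_succ_le h)) (col (rs G (j + 1) h))) fun G hG => ?_).trans ?_
      · obtain ⟨_, _, hb⟩ := hG
        exact hb
      rw [pr_step h (fun (G' : Gr j) (s : Bv j) => BR G' s ∨ BP t G' s)]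
      have hjn : (j : ℝ) ≤ n := by exact_mod_cast Nat.le_of_succ_le h
      refine (pr_prod_le' (AC t) (c := ((n : ℝ) + (n : ℝ) ^ 4) * (2 / (2 : ℝ) ^ t))
        (by positivity) fun G hG => ?_).trans
        (add_le_add_right (hA j hj0 (Nat.le_of_succ_le h)) _)
      refine (pr_or (fun s : Bv j => BR G s) fun s => BP t G s).trans ?_
      refine (add_le_add (pr_BR hEv hG) (pr_BP hEv hDisc hPl hG)).trans ?_
      rw [← add_mul]
      gcongr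
    · rw [pr_false]
      · positivity
      · rintro G ⟨_, h1, _⟩
        exact hj0 h1

theorem step (hBord : StBord) (K : Type) [Field K] {n : ℕ} (G : Gr n) (θ : K) {j : ℕ}
    (h : j + 1 ≤ n) :
    gd K (sM (rs G (j + 1) h)) θ ≤ gd K (sM (rs G j (Nat.le_of_succ_le h))) θ + 1 ∧
    (¬ Perp K (rs G j (Nat.le_of_succ_le h)) θ (col (rs G (j + 1) h)) →
      gd K (sM (rs G (j + 1) h)) θ + 1 ≤ gd K (sM (rs G j (Nat.le_of_succ_le h))) θ) := by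
  have hb := hBord K 1 (-1) j (rs G j (Nat.le_of_succ_le h)) (col (rs G (j + 1) h)) θ
  rw [← rs_succ G h] at hb
  refine ⟨hb.2.1, fun hp => hb.2.2.1 ?_⟩
  by_contra hcon
  exact hp fun z hz => by
    by_contra h0
    exact hcon ⟨z, hz, h0⟩

theorem simple_of (hBord : StBord) {t j0 n : ℕ} {G : Gr n} (hG : NoBad t j0 G) (j : ℕ)
    (hj : 2 * j0 ≤ j) (h : j ≤ n) : Simple (rs G j h) := by
  intro θ
  have := chain (fun j h => gd ℝ (sM (rs G j h)) θ) 1 j0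
    (fun h => (hBord ℝ 1 (-1) j0 (rs G j0 h) (fun _ => true) θ).1)
    (fun j h hj => ⟨(step hBord ℝ G θ h).1, fun h1 => (step hBord ℝ G θ h).2 fun hp =>
      (hG j h hj).1 ⟨θ, h1, hp⟩⟩) j (by omega) h
  omega

theorem drop (hBord : StBord) {t j0 n : ℕ} {G : Gr n} (hG : NoBad t j0 G) (x : Pt) (hx : Lg t x)
    {j : ℕ} (h : j + 1 ≤ n) (hj : 2 * j0 ≤ j) (hm : Mult (rs G j (Nat.le_of_succ_le h)) x) :
    gd (FF x.1) (sM (rs G (j + 1) h)) x.2 + 1 ≤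
      gd (FF x.1) (sM (rs G j (Nat.le_of_succ_le h))) x.2 :=
  (step hBord (FF x.1) G x.2 h).2 fun hp =>
    (hG j h (by omega)).2 ⟨simple_of hBord hG j hj _, x, hx, hm, hp⟩

theorem le_two (hBord : StBord) {t j0 n : ℕ} {G : Gr n} (hG : NoBad t j0 G) (x : Pt) (hx : Lg t x)
    (j : ℕ) (hj : 4 * j0 ≤ j) (h : j ≤ n) : gd (FF x.1) (sM (rs G j h)) x.2 ≤ 2 := by
  have := chain (fun j h => gd (FF x.1) (sM (rs G j h)) x.2) 2 (2 * j0)
    (fun h => (hBord (FF x.1) 1 (-1) (2 * j0) (rs G (2 * j0) h) (fun _ => true) x.2).1)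
    (fun j h hj => ⟨(step hBord (FF x.1) G x.2 h).1, fun h1 =>
      drop hBord hG x hx h hj (Or.inl h1)⟩) j (by omega) h
  omega

theorem noniso (hBord : StBord) {t j0 m : ℕ} {G : Gr (m + 1)} (hG : NoBad t j0 G) (x : Pt)
    (hx : Lg t x) (hm : 4 * j0 ≤ m) (h2 : gd (FF x.1) (sM G) x.2 = 2) :
    ∃ z ∈ eg (FF x.1) (sM G) x.2, z ⬝ᵥ z ≠ 0 := by
  have h : m + 1 ≤ m + 1 := le_rfl
  have e : gd (FF x.1) (sM (rs G (m + 1) h)) x.2 = 2 := h2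
  have h3 := le_two hBord hG x hx m hm (Nat.le_of_succ_le h)
  have h4 := step hBord (FF x.1) G x.2 h
  have h5 : ¬ Mult (rs G m (Nat.le_of_succ_le h)) x := fun hmu => by
    have := drop hBord hG x hx h (by omega) hmu
    omega
  have h6 : Perp (FF x.1) (rs G m (Nat.le_of_succ_le h)) x.2 (col (rs G (m + 1) h)) := by
    by_contra hp
    have := h4.2 hp
    omega
  obtain ⟨z, hz, h0⟩ := (one_le_gd (K := FF x.1) (M := sM (rs G m (Nat.le_of_succ_le h)))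
    (θ := x.2)).1 (by have := h4.1; omega)
  have hb := (hBord (FF x.1) 1 (-1) m (rs G m (Nat.le_of_succ_le h)) (col (rs G (m + 1) h))
    x.2).2.2.2 z hz (h6 z hz)
  rw [← rs_succ G h] at hb
  refine ⟨_, hb, fun hzz => h5 (Or.inr ⟨z, hz, h0, ?_⟩)⟩
  simpa [dotProduct, Fin.sum_univ_castSucc] using hzz

theorem dt_smul {K : Type} [Field K] {n : ℕ} (v : Fin n → ℤ) (c : K) (z : Fin n → K) :
    dt v (c • z) = c * dt v z := by
  simp only [dt, Pi.smul_apply, smul_eq_mul, mul_sum]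
  exact sum_congr rfl fun i _ => by ring

theorem dt_of_smul {K : Type} [Field K] {n : ℕ} (v : Fin n → ℤ) {c : K} {z w : Fin n → K}
    (h : z = c • w) (h0 : z ≠ 0) (hd : dt v z = 0) : dt v w = 0 := by
  rw [h, dt_smul] at hd
  refine (mul_eq_zero.1 hd).resolve_left fun hc => h0 ?_
  rw [h, hc, zero_smul]

/-- The good event for the last graph. -/
def Good (t : ℕ) {n : ℕ} (G : Gr n) : Prop :=
  AC t G ∧ Simple G ∧ ∀ x : Pt, Lg t x → gd (FF x.1) (sM G) x.2 ≤ 2 ∧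
    (gd (FF x.1) (sM G) x.2 = 2 → ∃ z ∈ eg (FF x.1) (sM G) x.2, z ⬝ᵥ z ≠ 0)

theorem real_BR {n : ℕ} {G : Gr n} (hS : Simple G) {s : Bv n}
    (h : RealP (sM G) (sv 1 (-1) s)) : BR G s := by
  obtain ⟨θ, z, hz, h0, hd⟩ := h
  have h1 : 1 ≤ gd ℝ (sM G) θ := one_le_gd.2 ⟨z, hz, h0⟩
  refine ⟨θ, h1, fun w hw => ?_⟩
  have h2 : Module.finrank ℝ (eg ℝ (sM G) θ) = 1 := le_antisymm (hS θ) h1
  obtain ⟨c, hc⟩ := (finrank_eq_one_iff_of_nonzero' (⟨z, hz⟩ : eg ℝ (sM G) θ)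
    (fun h => h0 (congrArg Subtype.val h))).1 h2 ⟨w, hw⟩
  have hw' : w = c • z := (congrArg Subtype.val hc).symm
  rw [hw', dt_smul, hd, mul_zero]

theorem pr_iso (hEv : StEv) (hTw : StTw) (hDisc : StDisc) (hPl : StPl) {t n : ℕ} {G : Gr n}
    (hG : Good t G) :
    pr (fun s : Bv n => ∃ x : Pt, x.1.1 ≠ 2 ∧ 2 ^ t < sz x ∧ IsoP x (sM G) (sv 1 (-1) s)) ≤
      (n : ℝ) ^ 4 * (2 / (2 : ℝ) ^ t + 2 / (2 : ℝ) ^ t) := by
  have hc : (0 : ℝ) ≤ 2 / (2 : ℝ) ^ t + 2 / (2 : ℝ) ^ t := by positivity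
  obtain ⟨F, hF, hF'⟩ := mult_fin hEv hDisc hG.2.1
  refine (pr_le_card_mul F (fun x s => Lg t x ∧ IsoP x (sM G) (sv 1 (-1) s))
    (c := 2 / (2 : ℝ) ^ t + 2 / (2 : ℝ) ^ t) (fun s hs => ?_) fun x _ => ?_).trans ?_
  · obtain ⟨x, h1, h2, z, hz, h0, hi, hd⟩ := hs
    exact ⟨x, hF' x (Or.inr ⟨z, hz, h0, hi⟩), ⟨h1, h2⟩, z, hz, h0, hi, hd⟩
  · by_cases h1 : Lg t x ∧ ∃ z ∈ eg (FF x.1) (sM G) x.2, z ≠ 0 ∧ z ⬝ᵥ z = 0
    · obtain ⟨z1, hz1, z2, hz2, h01, h02, hall⟩ := hTw (FF x.1) n (eg (FF x.1) (sM G) x.2)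
        (hG.2.2 x h1.1).1 (hG.2.2 x h1.1).2 h1.2
      refine (pr_le_add (F := fun s : Bv n => dt (sv 1 (-1) s) z1 = 0)
        (F' := fun s : Bv n => dt (sv 1 (-1) s) z2 = 0) fun s hs => ?_).trans
        (add_le_add (ac_pt hPl hG.1 x h1.1 z1 hz1 h01) (ac_pt hPl hG.1 x h1.1 z2 hz2 h02))
      obtain ⟨-, z, hz, h0, hi, hd⟩ := hs
      rcases hall z hz hi with ⟨c, hc⟩ | ⟨c, hc⟩
      · exact Or.inl (dt_of_smul _ hc h0 hd)
      · exact Or.inr (dt_of_smul _ hc h0 hd)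
    · rw [pr_false]
      · exact hc
      · rintro s ⟨hl, z, hz, h0, hi, -⟩
        exact h1 ⟨hl, z, hz, h0, hi⟩
  · exact mul_le_mul_of_nonneg_right (by exact_mod_cast hF) hc

theorem num {n q β : ℝ} (hn : 20 ≤ n) (hq : n ^ 7 ≤ q) (hβ : β ≤ 1 / q) :
    n * (2 / q) + n ^ 4 * (2 / q + 2 / q) + (β + n * ((n + n ^ 4) * (2 / q) + β)) ≤ 1 / n := by
  have h0 : 0 < n := by linarith
  have h1 : 1 ≤ n := by linarith
  have hq0 : 0 < q := lt_of_lt_of_le (by positivity) hq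
  have a1 : n ≤ n ^ 5 := le_self_pow₀ h1 (by norm_num)
  have a2 : n ^ 2 ≤ n ^ 5 := pow_le_pow_right₀ h1 (by norm_num)
  have a4 : n ^ 4 ≤ n ^ 5 := pow_le_pow_right₀ h1 (by norm_num)
  have b1 : n * β ≤ n * (1 / q) := mul_le_mul_of_nonneg_left hβ h0.le
  have b2 : n * (2 / q) + n ^ 4 * (2 / q + 2 / q) +
      (1 / q + (n * ((n + n ^ 4) * (2 / q)) + n * (1 / q))) =
      (3 * n + 4 * n ^ 4 + 1 + 2 * n ^ 2 + 2 * n ^ 5) / q := by
    field_simp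
    ring
  have b3 : (3 * n + 4 * n ^ 4 + 1 + 2 * n ^ 2 + 2 * n ^ 5) / q ≤ 1 / n := by
    rw [div_le_div_iff₀ hq0 h0]
    have c1 : 3 * n + 4 * n ^ 4 + 1 + 2 * n ^ 2 + 2 * n ^ 5 ≤ 12 * n ^ 5 := by linarith
    have c2 : 12 * n ^ 5 * n ≤ n ^ 7 := by
      have : n ^ 7 = n * (n ^ 5 * n) := by ring
      rw [this, mul_assoc]
      exact mul_le_mul_of_nonneg_right (by linarith) (by positivity)
    have c3 := mul_le_mul_of_nonneg_right c1 h0.le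
    linarith
  rw [mul_add n]
  linarith

end LargeAux

open LargeAux in
theorem pLarge (hBord : StBord) (hEv : StEv) (hTw : StTw) (hDisc : StDisc) (hPl : StPl)
    (hAC0 : StAC0) (hACT : StACT) : StLarge := by
  obtain ⟨N1, h1⟩ := hAC0
  obtain ⟨N2, h2⟩ := hACT
  refine ⟨N1 + N2 + 20, fun n t j0 hN hPar => ?_⟩
  obtain ⟨p1, p2, p3⟩ := hPar
  have ht : 20 ≤ t := by omega
  have hj1 : t ^ 14 ≤ j0 := (Nat.pow_le_pow_left (by omega) 14).trans p2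
  have hj2 : 1 ≤ j0 := (Nat.one_le_pow _ _ (by omega)).trans hj1
  have hj3 : j0 * 25 ≤ n := (Nat.mul_le_mul_left _ (by omega)).trans p3
  have hn2 : n ≤ 2 ^ t := (Nat.le_self_pow (by norm_num) n).trans p1
  have hA : ∀ j, j0 ≤ j → j ≤ n → pr (fun G : Gr j => ¬ AC t G) ≤ (1 / 2 : ℝ) ^ t ^ 2 :=
    fun j hj hjn => (pr_mono fun G hG h0 => hG (h2 j t G (by omega) (hjn.trans hn2) h0)).trans
      (h1 j t (by omega) (hj1.trans hj))
  have hβ : (1 / 2 : ℝ) ^ t ^ 2 ≤ 1 / (2 : ℝ) ^ t := by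
    rw [← _root_.one_div_pow]
    exact pow_le_pow_of_le_one (by norm_num) (by norm_num) (Nat.le_self_pow (by norm_num) t)
  obtain ⟨m, rfl⟩ : ∃ m, n = m + 1 := ⟨n - 1, by omega⟩
  have hgood : pr (fun G : Gr (m + 1) => ¬ Good t G) ≤ (1 / 2 : ℝ) ^ t ^ 2 +
      ((m + 1 : ℕ) : ℝ) * ((((m + 1 : ℕ) : ℝ) + ((m + 1 : ℕ) : ℝ) ^ 4) * (2 / (2 : ℝ) ^ t) +
        (1 / 2 : ℝ) ^ t ^ 2) := by
    refine (pr_le_add (F := fun G : Gr (m + 1) => ¬ AC t G)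
      (F' := fun G : Gr (m + 1) => ¬ NoBad t j0 G) fun G hG => ?_).trans
      (add_le_add (hA _ (by omega) le_rfl) (pr_noBad hEv hDisc hPl (by positivity) hA))
    by_contra hcon
    have ha : AC t G := by
      by_contra h
      exact hcon (Or.inl h)
    have hb : NoBad t j0 G := by
      by_contra h
      exact hcon (Or.inr h)
    exact hG ⟨ha, simple_of hBord hb (m + 1) (by omega) le_rfl, fun x hx =>
      ⟨le_two hBord hb x hx (m + 1) (by omega) le_rfl, noniso hBord hb x hx (by omega)⟩⟩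
  refine (pr_prod_le' (Good t) (c := ((m + 1 : ℕ) : ℝ) * (2 / (2 : ℝ) ^ t) +
    ((m + 1 : ℕ) : ℝ) ^ 4 * (2 / (2 : ℝ) ^ t + 2 / (2 : ℝ) ^ t)) (by positivity)
    fun G hG => ?_).trans ?_
  · refine (pr_le_add (F := fun s : Bv (m + 1) => BR G s)
      (F' := fun s : Bv (m + 1) =>
        ∃ x : Pt, x.1.1 ≠ 2 ∧ 2 ^ t < sz x ∧ IsoP x (sM G) (sv 1 (-1) s)) fun s hs => ?_).trans
      (add_le_add (pr_BR hEv hG.1) (pr_iso hEv hTw hDisc hPl hG))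
    exact hs.imp (real_BR hG.2.1) id
  · refine (add_le_add_right hgood _).trans (num ?_ ?_ hβ)
    · exact_mod_cast (by omega : 20 ≤ m + 1)
    · exact_mod_cast p1

end Pool.Agent.P.MP_f57657_co.DG
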