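import Pool.Agent.P.MP_f57657_co.DG.Base

/-! Assembly: tightness of the level gives the theorem. -/

open Matrix Finset Polynomial

namespace Pool.Agent.P.MP_f57657_co.DG

theorem small_all (hPlc : StPlc) (hS : StSmall) (Q0 : ℕ) (ε : ℝ) (hε : 0 < ε) :
    ∃ c N : ℕ, ∀ n ≥ N,
      pr (fun G : Gr n => ∃ x : Pt, sz x ≤ Q0 ∧ ¬ Cop x c (ph G) (ps G)) ≤ ε := by
  classical
  choose F hF using hPlc.1
  set T : Finset Pt := (range (Q0 + 1)).biUnion F with hT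
  have h1 : 0 < ε / (T.card + 1) := by positivity
  choose c N h using fun x => hS x _ h1
  refine ⟨T.sup c, T.sup N, fun n hn => ?_⟩
  refine (pr_le_card_mul T (fun x (G : Gr n) => ¬ Cop x (c x) (ph G) (ps G))
    (c := ε / (T.card + 1)) ?_ fun x hx => h x n ((le_sup hx).trans hn)).trans ?_
  · rintro G ⟨x, hx, hc⟩
    have hm : x ∈ T := mem_biUnion.2 ⟨sz x, mem_range.2 (by omega), (hF _).2 x rfl⟩
    exact ⟨x, hm, fun h' => hc (h'.mono (le_sup hm))⟩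
  · rw [mul_div_assoc', div_le_iff₀ (by positivity)]
    nlinarith

theorem main_of (hPBH : StPBH) (hQ : StQ) (hInt : StInt) (hLev : StLev) (hCo : StCoarse)
    (hPl : StPl) (hPlc : StPlc) (hEv : StEv) (hOdd : StOdd) (hT1 : StT1) (hT2 : StT2)
    (hS : StSmall) (ε : ℝ) (hε : 0 < ε) :
    ∃ N : ℕ, ∀ n ≥ N, pr (fun G : Gr n => ¬ (Core G ∧ DGS G)) ≤ ε := by
  have h5 : 0 < ε / 5 := by positivity
  obtain ⟨Q1, N1, h1⟩ := hOdd _ h5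
  obtain ⟨Q2, N2, h2⟩ := hT1 _ h5
  obtain ⟨Q3, N3, h3⟩ := hT2 _ h5
  obtain ⟨c, N4, h4⟩ := small_all hPlc hS (Q1 + Q2 + Q3) _ h5
  obtain ⟨N5, h6⟩ := hCo ((Q1 + Q2 + Q3).factorial ^ c) (by positivity) _ h5
  refine ⟨N1 + N2 + N3 + N4 + N5 + 1, fun n hn => ?_⟩
  obtain ⟨n, rfl⟩ : ∃ m, n = m + 1 := ⟨n - 1, by omega⟩
  have e2 := h2 n (by omega)
  have e3 := h3 n (by omega)
  have f2 := pr_bord fun G : Gr (n + 1) => ∃ x : Pt, x.1.1 = 2 ∧ Q2 < sz x ∧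
    aeval x.2 (ph (res G)) = 0 ∧ aeval x.2 (ph G) = 0
  have f3 := pr_bord fun G : Gr (n + 1) => ∃ x : Pt, x.1.1 = 2 ∧ Q3 < sz x ∧
    aeval x.2 (ph (res G)) ≠ 0 ∧ E2 x (ph G)
  simp only [res_bord] at f2 f3
  rw [← f2] at e2
  rw [← f3] at e3
  have e1 := h1 (n + 1) (by omega)
  have e4 := h4 (n + 1) (by omega)
  have e5 := h6 (n + 1) (by omega)
  refine (pr_le_add (F := _) (F' := fun G => _ ∨ _ ∨ _ ∨ _) fun G hG => ?_).trans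
    ((add_le_add e1 ((pr_or _ _).trans (add_le_add e2 ((pr_or _ _).trans (add_le_add e3
      ((pr_or _ _).trans (add_le_add e4 e5))))))).trans (by linarith))
  by_contra hc
  simp only [not_or, not_not] at hc
  obtain ⟨⟨c0, c1⟩, c2, c3, c4, c5, c6⟩ := hc
  refine hG ⟨c5, fun H a1 a2 => ?_⟩
  have hw := hPBH _ G c0
  obtain ⟨Q, hC⟩ := hQ _ G H a1 a2 hw
  obtain ⟨l, l0, l1, l2⟩ := hLev n G H Q hC (hInt _ G H Q a1 hw hC)
  have key : ∀ (p : Nat.Primes) (c' : ℕ) (θ : FF p), Act ⟨p, θ⟩ c' G →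
      sz ⟨p, θ⟩ ≤ Q1 + Q2 + Q3 := by
    intro p c' θ hA
    by_contra hlt
    by_cases hp : p.1 = 2
    · by_cases hz : aeval θ (ph (res G)) = 0
      · obtain ⟨z, z1, z2, -⟩ := hA.1
        exact c2 ⟨⟨p, θ⟩, hp, by omega, hz,
          ((hEv (FF p) _ (aM G)).1 θ).1 (one_le_gd.2 ⟨z, z1, z2⟩)⟩
      · exact c3 ⟨⟨p, θ⟩, hp, by omega, hz, hA.2.2 hz⟩
    · exact c1 ⟨⟨p, θ⟩, hp, by omega, hA.1⟩
  have hd : l ∣ (Q1 + Q2 + Q3).factorial ^ c := by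
    rw [Nat.dvd_iff_prime_pow_dvd_dvd]
    intro p k hp hk
    rcases k with _ | k
    · simp
    obtain ⟨θ, hA⟩ := l2 ⟨p, hp⟩ k hk
    have k1 := key _ _ θ hA
    have k2 : p ≤ Q1 + Q2 + Q3 := by
      refine le_trans ?_ k1
      exact Nat.le_self_pow (by have := (hPl ⟨⟨p, hp⟩, θ⟩).2.2.2.1; omega) p
    have k3 : k + 1 ≤ c := by
      by_contra hlt
      refine c4 ⟨⟨⟨p, hp⟩, θ⟩, k1, fun h' => hA.2.1 (h'.mono (by omega))⟩
    exact (pow_dvd_pow p k3).trans (pow_dvd_pow_of_dvd (hp.dvd_factorial.2 k2) c)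
  refine c6 H Q hC fun i j => ?_
  obtain ⟨d, hd⟩ := hd
  obtain ⟨z, hz⟩ := l1 i j
  refine ⟨d * z, ?_⟩
  simp only [Matrix.smul_apply, smul_eq_mul] at hz ⊢
  rw [hd]
  push_cast
  rw [← hz]
  ring

end Pool.Agent.P.MP_f57657_co.DG
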