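import Pool.Agent.P.MP_f57657_co.DG.Base
import Pool.Agent.P.MP_f57657_co.Main

/-! Transfer between the uniform measure on labelled graphs and the product measure. -/

open Finset

namespace Pool.Agent.P.MP_f57657_co.DG

theorem Pr_half {ι : Type} [Fintype ι] [DecidableEq ι] (A : (ι → Bool) → Prop) :
    Pr (1 / 2) A = pr A := by
  have h : ∀ ω : ι → Bool, wt (1 / 2) ω = 1 / (Fintype.card (ι → Bool) : ℝ) := by
    intro ω
    rw [wt, prod_congr rfl (g := fun _ => (1 / 2 : ℝ)) fun e _ => by split_ifs <;> norm_num]
    simp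
  simp only [Pr, Ex, pr, ex, h, sum_div]
  exact sum_congr rfl fun ω _ => by split_ifs <;> simp

open Classical in
/-- A bit function on unordered pairs is a graph together with the diagonal bits. -/
noncomputable def grE (n : ℕ) : (Sym2 (Fin n) → Bool) ≃ Gr n × Bv n where
  toFun ω := (gr ω, fun i => ω s(i, i))
  invFun q := Sym2.lift ⟨fun i j => if i = j then q.2 i else decide (q.1.Adj i j), fun i j => by
    by_cases h : i = j
    · subst h
      rfl
    · simp only [h, Ne.symm h, if_false, q.1.adj_comm i j]⟩
  left_inv ω := by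
    funext e
    induction e using Sym2.ind with
    | h i j =>
      by_cases h : i = j
      · subst h
        simp
      · simp [h, gr_adj]
  right_inv q := by
    refine Prod.ext ?_ ?_
    · ext i j
      by_cases h : i = j
      · subst h
        simp
      · simp [gr_adj, h]
    · funext i
      simp

theorem pr_eq_Pr {n : ℕ} (E : Gr n → Prop) :
    pr E = Pr (1 / 2) fun ω : Sym2 (Fin n) → Bool => E (gr ω) := by
  rw [Pr_half, ← pr_fst (Ω' := Bv n) E, ← pr_equiv (grE n)]
  rfl

theorem real_le_pr {n : ℕ} (p : unitInterval) (hp : (p : ℝ) = 1 / 2) (A : Set (Gr n)) :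
    (SimpleGraph.binomialRandom (Fin n) p).real A ≤ pr fun G => G ∈ A := by
  rw [pr_eq_Pr, ← hp]
  exact real_le_Pr p A

end Pool.Agent.P.MP_f57657_co.DG
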